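import Pool.Agent.H38.T6.Gd

/-!
Classes with nontrivial valuations only above one prime; ramification (MP_78d38b_T8, helper38).
-/

set_option autoImplicit false
set_option linter.unusedSectionVars false
open scoped Classical

open IsDedekindDomain NumberField WithZero H38T6

namespace H38T8

theorem ca_e {N : Type} [Field N] [NumberField N] [IsGalois ℚ N] {q : ℕ} (hq : q.Prime) :
    ∃ e : ℕ, e ∣ Module.finrank ℚ N ∧ ∀ w : HeightOneSpectrum (𝓞 N), (q : 𝓞 N) ∈ w.asIdeal →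
      w.valuation N (q : N) = exp (-(e : ℤ)) := by
  have hpp : (Ideal.span {(q : ℤ)}).IsPrime := by
    rw [Ideal.span_singleton_prime (by exact_mod_cast hq.ne_zero)]
    exact Nat.prime_iff_prime_int.1 hq
  have hq0 : Ideal.span {(q : ℤ)} ≠ ⊥ := by
    rw [Ne, Ideal.span_singleton_eq_bot]
    exact_mod_cast hq.ne_zero
  have hmax : (Ideal.span {(q : ℤ)}).IsMaximal :=
    Ring.DimensionLEOne.maximalOfPrime hq0 inferInstance
  refine ⟨(Ideal.span {(q : ℤ)}).ramificationIdxIn (𝓞 N), ?_, fun w hw => ?_⟩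
  · have h1 := Ideal.ncard_primesOver_mul_ramificationIdxIn_mul_inertiaDegIn
      (Ideal.span {(q : ℤ)}) (𝓞 N) Gal(N/ℚ)
    rw [IsGalois.card_aut_eq_finrank] at h1
    rw [← h1]
    exact Dvd.dvd.mul_left (dvd_mul_right _ _) _
  · have hwp := w.isPrime
    have hl : w.asIdeal.LiesOver (Ideal.span {(q : ℤ)}) := by
      constructor
      refine hmax.eq_of_le (Ideal.IsPrime.under ℤ w.asIdeal).ne_top ?_
      rw [Ideal.span_singleton_le_iff_mem]
      change algebraMap ℤ (𝓞 N) (q : ℤ) ∈ w.asIdeal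
      rw [map_natCast]
      exact hw
    let p : HeightOneSpectrum ℤ := ⟨Ideal.span {(q : ℤ)}, hpp, hq0⟩
    have hlp : w.asIdeal.LiesOver p.asIdeal := hl
    rw [Ideal.ramificationIdxIn_eq_ramificationIdx (Ideal.span {(q : ℤ)}) w.asIdeal Gal(N/ℚ)]
    rw [← Ideal.ramificationIdx'_eq_ramificationIdx (Ideal.span {(q : ℤ)}) w.asIdeal hq0]
    have h1 := HeightOneSpectrum.valuation_liesOver (K := ℚ) N p w (q : ℚ)
    rw [map_natCast (algebraMap ℚ N)] at h1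
    rw [← h1]
    have h2 : p.valuation ℚ (q : ℚ) = exp (-1 : ℤ) := by
      have h3 : ((q : ℤ) : ℚ) = algebraMap ℤ ℚ (q : ℤ) := rfl
      rw [show (q : ℚ) = ((q : ℤ) : ℚ) by push_cast; rfl, h3,
        HeightOneSpectrum.valuation_of_algebraMap]
      exact HeightOneSpectrum.intValuation_singleton _ (by exact_mod_cast hq.ne_zero) rfl
    rw [h2, ← exp_nsmul]
    congr 1
    simp
    rfl

theorem ram_three {m : ℕ} {N : Type} [Field N] [NumberField N] [IsGalois ℚ N]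
    (hN : Module.finrank ℚ N = 3 ^ m) {q : ℕ} (hq : q.Prime) (hr : RamIn q N)
    (w : HeightOneSpectrum (𝓞 N)) (hw : (q : 𝓞 N) ∈ w.asIdeal) :
    (3 : ℤ) ∣ log (w.valuation N (q : N)) := by
  obtain ⟨e, he, hv⟩ := ca_e (N := N) hq
  obtain ⟨v, hv2⟩ := hr
  have hv1 : (q : 𝓞 N) ∈ v.asIdeal := Ideal.pow_le_self two_ne_zero hv2
  have h1 := hv v hv1
  have h2 : v.valuation N (q : N) ≤ exp (-(2 : ℕ) : ℤ) := by
    have h3 : (q : N) = algebraMap (𝓞 N) N (q : 𝓞 N) := by rw [map_natCast]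
    rw [h3, HeightOneSpectrum.valuation_of_algebraMap]
    exact (v.intValuation_le_pow_iff_mem (q : 𝓞 N) 2).2 hv2
  rw [h1, exp_le_exp] at h2
  rw [hv w hw, log_exp]
  rw [hN] at he
  obtain ⟨k, -, hk⟩ := (Nat.dvd_prime_pow Nat.prime_three).1 he
  have hk0 : k ≠ 0 := by
    rintro rfl
    rw [pow_zero] at hk
    push_cast at h2
    omega
  obtain ⟨j, rfl⟩ : ∃ j, k = j + 1 := ⟨k - 1, by omega⟩
  rw [hk, dvd_neg]
  exact ⟨3 ^ j, by push_cast; ring⟩

section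

variable {F : Type} [Field F] [NumberField F]

lemma ca_gen (v : HeightOneSpectrum (𝓞 F)) :
    ∃ n : ℕ, 0 < n ∧ ∃ x : 𝓞 F, x ≠ 0 ∧ Ideal.span {x} = v.asIdeal ^ n := by
  refine ⟨NumberField.classNumber F, NumberField.classNumber_pos F, ?_⟩
  have hJm : v.asIdeal ∈ nonZeroDivisors (Ideal (𝓞 F)) := mem_nonZeroDivisors_of_ne_zero v.ne_bot
  have hh : ClassGroup.mk0 ⟨v.asIdeal, hJm⟩ ^ (NumberField.classNumber F) = 1 := by
    unfold NumberField.classNumber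
    exact pow_card_eq_one
  rw [← map_pow] at hh
  have hh' := (ClassGroup.mk0_eq_one_iff (I := v.asIdeal ^ (NumberField.classNumber F))
    (pow_mem hJm _)).mp hh
  obtain ⟨⟨c, hc⟩⟩ := hh'
  refine ⟨c, ?_, hc.symm⟩
  rintro rfl
  have h1 : v.asIdeal ^ (NumberField.classNumber F) = ⊥ := by
    rw [hc]
    simp
  exact v.ne_bot (pow_eq_zero_iff (NumberField.classNumber_pos F).ne' |>.1 h1)

lemma ca_val {v : HeightOneSpectrum (𝓞 F)} {n : ℕ} {x : 𝓞 F}
    (hx : Ideal.span {x} = v.asIdeal ^ n) : v.valuation F (x : F) = exp (-(n : ℤ)) ∧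
      ∀ v' : HeightOneSpectrum (𝓞 F), v' ≠ v → v'.valuation F (x : F) = 1 := by
  have hmem : x ∈ v.asIdeal ^ n := by
    rw [← hx]
    exact Ideal.mem_span_singleton_self x
  have hx0 : x ≠ 0 := by
    rintro rfl
    have h1 : v.asIdeal ^ n = ⊥ := by
      rw [← hx]
      simp
    have h2 : (v.asIdeal ^ n) ≠ 0 := pow_ne_zero n v.ne_bot
    exact h2 h1
  constructor
  · have h1 : v.valuation F (x : F) = v.intValuation x := v.valuation_of_algebraMap x
    rw [h1]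
    refine le_antisymm ((v.intValuation_le_pow_iff_mem x n).2 hmem) ?_
    by_contra hlt
    rw [not_le] at hlt
    have h2 : v.intValuation x ≤ exp (-((n + 1 : ℕ) : ℤ)) := by
      obtain ⟨k, hk⟩ : ∃ k : ℤ, v.intValuation x = exp k :=
        ⟨log (v.intValuation x), (exp_log (v.intValuation_ne_zero x hx0)).symm⟩
      rw [hk, exp_lt_exp] at hlt
      rw [hk, exp_le_exp]
      push_cast
      omega
    have h3 := (v.intValuation_le_pow_iff_mem x (n + 1)).1 h2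
    have h4 : v.asIdeal ^ n ≤ v.asIdeal ^ (n + 1) := by
      rw [← hx, Ideal.span_singleton_le_iff_mem]
      exact h3
    have h5 : v.asIdeal ^ (n + 1) < v.asIdeal ^ n := by
      apply Ideal.pow_right_strictAnti v.asIdeal v.ne_bot v.isPrime.ne_top
      omega
    exact absurd h4 (not_le_of_gt h5)
  · intro v' hv'
    have h1 : x ∉ v'.asIdeal := by
      intro h
      apply hv'
      have h2 : v.asIdeal ^ n ≤ v'.asIdeal := by
        rw [← hx, Ideal.span_singleton_le_iff_mem]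
        exact h
      have h3 : v.asIdeal ≤ v'.asIdeal := v'.isPrime.le_of_pow_le h2
      apply HeightOneSpectrum.ext
      exact ((v.isPrime.isMaximal v.ne_bot).eq_of_le v'.isPrime.ne_top h3).symm
    exact (v'.valuation_eq_one_iff_notMem (K := F) (r := x)).2 h1

lemma ca_root {x : 𝓞 F} {z : F} {v : HeightOneSpectrum (𝓞 F)} {k : ℕ} (hz : (x : F) = z ^ 3)
    (hx : Ideal.span {x} = v.asIdeal ^ (3 * k)) :
    ∃ y : 𝓞 F, (y : F) = z ∧ Ideal.span {y} = v.asIdeal ^ k := by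
  have hint : IsIntegral ℤ z := by
    have h1 : IsIntegral ℤ (z ^ 3) := by
      rw [← hz]
      exact x.2
    exact IsIntegral.of_pow (by norm_num) h1
  obtain ⟨y, hy⟩ : ∃ y : 𝓞 F, (y : F) = z := ⟨⟨z, hint⟩, rfl⟩
  refine ⟨y, hy, ?_⟩
  have h1 : x = y ^ 3 := by
    have h3 : (x : F) = ((y ^ 3 : 𝓞 F) : F) := by
      rw [hz, ← hy]
      rfl
    exact RingOfIntegers.coe_injective h3
  have h2 : Ideal.span {y} ^ 3 = (v.asIdeal ^ k) ^ 3 := by
    rw [Ideal.span_singleton_pow, ← h1, hx, ← pow_mul, mul_comm]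
  apply le_antisymm
  · rw [← Ideal.dvd_iff_le]
    exact (UniqueFactorizationMonoid.pow_dvd_pow_iff_dvd three_ne_zero).1 (dvd_of_eq h2.symm)
  · rw [← Ideal.dvd_iff_le]
    exact (UniqueFactorizationMonoid.pow_dvd_pow_iff_dvd three_ne_zero).1 (dvd_of_eq h2)

/-- a power of `v` prime to three is principal -/
lemma ca_gen3 (hC : Cub F) (v : HeightOneSpectrum (𝓞 F)) :
    ∃ n : ℕ, ¬ 3 ∣ n ∧ ∃ x : 𝓞 F, x ≠ 0 ∧ Ideal.span {x} = v.asIdeal ^ n := by
  have hex := ca_gen v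
  obtain ⟨n, hn⟩ : ∃ n, n = Nat.find hex := ⟨_, rfl⟩
  obtain ⟨hpos, x, hx0, hx⟩ := Nat.find_spec hex
  rw [← hn] at hpos hx
  refine ⟨n, ?_, x, hx0, hx⟩
  rintro ⟨k, hk⟩
  rw [hk] at hx
  obtain ⟨hv, hv'⟩ := ca_val hx
  have hxF : (x : F) ≠ 0 := RingOfIntegers.coe_ne_zero_iff.mpr hx0
  obtain ⟨z, hz⟩ := hC (x : F) hxF (by
    intro v'
    by_cases h : v' = v
    · rw [h, hv, log_exp]
      exact ⟨-k, by push_cast; ring⟩
    · rw [hv' v' h, log_one]
      exact dvd_zero _)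
  obtain ⟨y, hy, hyk⟩ := ca_root hz hx
  have hy0 : y ≠ 0 := by
    rintro rfl
    apply hxF
    rw [hz, ← hy]
    simp
  have hk0 : 0 < k := by omega
  have hmin := Nat.find_min' hex ⟨hk0, y, hy0, hyk⟩
  rw [← hn] at hmin
  omega

lemma ca_over {q : ℕ} (hq : q.Prime) : ∃ v : HeightOneSpectrum (𝓞 F), (q : 𝓞 F) ∈ v.asIdeal := by
  have hpp : (Ideal.span {(q : ℤ)}).IsPrime := by
    rw [Ideal.span_singleton_prime (by exact_mod_cast hq.ne_zero)]
    exact Nat.prime_iff_prime_int.1 hq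
  have hq0 : Ideal.span {(q : ℤ)} ≠ ⊥ := by
    rw [Ne, Ideal.span_singleton_eq_bot]
    exact_mod_cast hq.ne_zero
  have hmax : (Ideal.span {(q : ℤ)}).IsMaximal :=
    Ring.DimensionLEOne.maximalOfPrime hq0 inferInstance
  obtain ⟨Q, hQ, hQo⟩ := Ideal.exists_maximal_ideal_liesOver_of_isIntegral (S := 𝓞 F)
    (Ideal.span {(q : ℤ)})
  refine ⟨⟨Q, hQ.isPrime, Ideal.ne_bot_of_liesOver_of_ne_bot hq0 Q⟩, ?_⟩
  have h1 : (q : ℤ) ∈ Q.under ℤ := by
    rw [← hQo.over]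
    exact Ideal.mem_span_singleton_self _
  have h2 : algebraMap ℤ (𝓞 F) (q : ℤ) ∈ Q := h1
  rw [map_natCast] at h2
  exact h2

lemma ca_mem {q : ℕ} (hq : q.Prime) {v : HeightOneSpectrum (𝓞 F)} (hv : (q : 𝓞 F) ∈ v.asIdeal)
    {n : ℤ} (hn : (n : 𝓞 F) ∈ v.asIdeal) : (q : ℤ) ∣ n := by
  by_contra h
  have hc : IsCoprime (q : ℤ) n := (Nat.prime_iff_prime_int.1 hq).coprime_iff_not_dvd.2 h
  obtain ⟨a, b, hab⟩ := hc
  have h3 : (1 : 𝓞 F) ∈ v.asIdeal := by
    have h4 : ((a : ℤ) : 𝓞 F) * (q : 𝓞 F) + ((b : ℤ) : 𝓞 F) * ((n : ℤ) : 𝓞 F) = 1 := by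
      exact_mod_cast congrArg (fun z : ℤ => ((z : ℤ) : 𝓞 F)) hab
    rw [← h4]
    exact v.asIdeal.add_mem (v.asIdeal.mul_mem_left _ hv) (v.asIdeal.mul_mem_left _ hn)
  exact v.isPrime.ne_top ((Ideal.eq_top_iff_one _).2 h3)

lemma ca_comap (σ : F ≃ₐ[ℚ] F) {v v' : HeightOneSpectrum (𝓞 F)} {n : ℕ} {x : 𝓞 F}
    (hx : Ideal.span {x} = v.asIdeal ^ n)
    (h : RingOfIntegers.mapRingHom (σ : F →+* F) x ∈ v'.asIdeal) {y : 𝓞 F} (hy : y ∈ v.asIdeal) :
    RingOfIntegers.mapRingHom (σ : F →+* F) y ∈ v'.asIdeal := by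
  obtain ⟨I, hI⟩ : ∃ I : Ideal (𝓞 F),
    I = v'.asIdeal.comap (RingOfIntegers.mapRingHom (σ : F →+* F)) := ⟨_, rfl⟩
  have hvp := v'.isPrime
  have hp : I.IsPrime := by
    rw [hI]
    exact Ideal.comap_isPrime _ _
  have h1 : x ∈ I := by
    rw [hI]
    exact h
  have h2 : v.asIdeal ^ n ≤ I := by
    rw [← hx, Ideal.span_singleton_le_iff_mem]
    exact h1
  have h3 : v.asIdeal ≤ I := hp.le_of_pow_le h2
  have h4 := h3 hy
  rw [hI] at h4
  exact h4

/-- the place over a split prime -/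
lemma ca_split {s : F} {D : ℤ} (hs : s ^ 2 = (D : F)) {q : ℕ} (hq : q.Prime) (hq2 : q ≠ 2)
    (hsp : ¬ NonSplit q D) : ∃ (v : HeightOneSpectrum (𝓞 F)) (r : 𝓞 F) (t : ℤ), (r : F) = s ∧
      (q : 𝓞 F) ∈ v.asIdeal ∧ r - (t : 𝓞 F) ∈ v.asIdeal ∧ r + (t : 𝓞 F) ∉ v.asIdeal := by
  obtain ⟨v, hv⟩ := ca_over (F := F) hq
  have hint : IsIntegral ℤ s := by
    have h1 : IsIntegral ℤ (s ^ 2) := by
      rw [hs]
      exact isIntegral_algebraMap (x := D)
    exact IsIntegral.of_pow (by norm_num) h1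
  obtain ⟨r, hr⟩ : ∃ r : 𝓞 F, (r : F) = s := ⟨⟨s, hint⟩, rfl⟩
  unfold NonSplit at hsp
  push Not at hsp
  obtain ⟨t, ht, hqt⟩ := hsp
  have h1 : (r - (t : 𝓞 F)) * (r + (t : 𝓞 F)) ∈ v.asIdeal := by
    have h2 : (r - (t : 𝓞 F)) * (r + (t : 𝓞 F)) = ((D - t ^ 2 : ℤ) : 𝓞 F) := by
      have h3 : (((r - (t : 𝓞 F)) * (r + (t : 𝓞 F)) : 𝓞 F) : F) =
          (((D - t ^ 2 : ℤ) : 𝓞 F) : F) := by
        have hr' : algebraMap (𝓞 F) F r = s := hr
        change algebraMap (𝓞 F) F _ = algebraMap (𝓞 F) F _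
        rw [map_mul, map_sub, map_add, hr', map_intCast, map_intCast]
        push_cast
        rw [← hs]
        ring
      exact RingOfIntegers.coe_injective h3
    rw [h2]
    obtain ⟨k, hk⟩ := ht
    rw [hk]
    push_cast
    exact v.asIdeal.mul_mem_right _ hv
  have key : ∀ t : ℤ, ¬ (q : ℤ) ∣ t → r - (t : 𝓞 F) ∈ v.asIdeal → r + (t : 𝓞 F) ∉ v.asIdeal := by
    intro t hqt h2 h3
    have h4 : ((2 * t : ℤ) : 𝓞 F) ∈ v.asIdeal := by
      have h5 : ((2 * t : ℤ) : 𝓞 F) = (r + (t : 𝓞 F)) - (r - (t : 𝓞 F)) := by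
        push_cast
        ring
      rw [h5]
      exact v.asIdeal.sub_mem h3 h2
    have h5 := ca_mem hq hv h4
    rcases (Nat.prime_iff_prime_int.1 hq).dvd_or_dvd h5 with h6 | h6
    · apply hq2
      have h7 : q ∣ 2 := by exact_mod_cast h6
      exact (Nat.prime_dvd_prime_iff_eq hq Nat.prime_two).1 h7
    · exact hqt h6
  rcases v.isPrime.mem_or_mem h1 with h2 | h2
  · exact ⟨v, r, t, hr, hv, h2, key t hqt h2⟩
  · refine ⟨v, r, -t, hr, hv, ?_, ?_⟩
    · push_cast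
      rw [sub_neg_eq_add]
      exact h2
    · apply key (-t)
      · rwa [dvd_neg]
      · push_cast
        rw [sub_neg_eq_add]
        exact h2

/-- the class attached to a generator of a power of `v` -/
lemma ca_cls {s : F} {σ : F ≃ₐ[ℚ] F} (hσ : σ s = -s) (hσσ : ∀ y, σ (σ y) = y) {q : ℕ}
    {v : HeightOneSpectrum (𝓞 F)} {r : 𝓞 F} {t : ℤ} (hr : (r : F) = s)
    (hv : (q : 𝓞 F) ∈ v.asIdeal) (h1 : r - (t : 𝓞 F) ∈ v.asIdeal) (h2 : r + (t : 𝓞 F) ∉ v.asIdeal)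
    {n : ℕ} {x : 𝓞 F} (hx0 : x ≠ 0) (hx : Ideal.span {x} = v.asIdeal ^ n) :
    (x : F) / σ (x : F) ≠ 0 ∧ σ ((x : F) / σ (x : F)) * ((x : F) / σ (x : F)) = 1 ∧
    (∀ v' : HeightOneSpectrum (𝓞 F), (q : 𝓞 F) ∉ v'.asIdeal →
      v'.valuation F ((x : F) / σ (x : F)) = 1) ∧
    v.valuation F ((x : F) / σ (x : F)) = exp (-(n : ℤ)) := by
  have hxF : (x : F) ≠ 0 := RingOfIntegers.coe_ne_zero_iff.mpr hx0
  have hσx : σ (x : F) ≠ 0 := (map_ne_zero_iff σ σ.injective).2 hxF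
  obtain ⟨y, hy⟩ : ∃ y, y = RingOfIntegers.mapRingHom (σ : F →+* F) x := ⟨_, rfl⟩
  have hyF : (y : F) = σ (x : F) := by
    rw [hy]
    rfl
  obtain ⟨ha, hb⟩ := ca_val hx
  refine ⟨div_ne_zero hxF hσx, ?_, ?_, ?_⟩
  · rw [map_div₀, hσσ, div_mul_div_comm, mul_comm, div_self (mul_ne_zero hxF hσx)]
  · intro v' hv'
    have h3 : v' ≠ v := by
      rintro rfl
      exact hv' hv
    have h4 : y ∉ v'.asIdeal := by
      intro h
      rw [hy] at h
      have h5 := ca_comap σ hx h hv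
      rw [map_natCast] at h5
      exact hv' h5
    rw [map_div₀, hb v' h3, ← hyF, (v'.valuation_eq_one_iff_notMem (K := F) (r := y)).2 h4,
      div_one]
  · have h4 : y ∉ v.asIdeal := by
      intro h
      rw [hy] at h
      have h5 := ca_comap σ hx h h1
      apply h2
      have h6 : RingOfIntegers.mapRingHom (σ : F →+* F) (r - (t : 𝓞 F)) = -(r + (t : 𝓞 F)) := by
        have h7 : ((RingOfIntegers.mapRingHom (σ : F →+* F) (r - (t : 𝓞 F)) : 𝓞 F) : F) =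
            ((-(r + (t : 𝓞 F)) : 𝓞 F) : F) := by
          have h8 : ((RingOfIntegers.mapRingHom (σ : F →+* F) (r - (t : 𝓞 F)) : 𝓞 F) : F) =
            σ ((r - (t : 𝓞 F) : 𝓞 F) : F) := rfl
          have hr' : algebraMap (𝓞 F) F r = s := hr
          rw [h8]
          change σ (algebraMap (𝓞 F) F (r - (t : 𝓞 F))) = algebraMap (𝓞 F) F (-(r + (t : 𝓞 F)))
          rw [map_sub, map_neg, map_add, map_sub, hr', map_intCast, map_intCast, hσ]
          ring
        exact RingOfIntegers.coe_injective h7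
      rw [h6] at h5
      exact neg_mem_iff.1 h5
    rw [map_div₀, ha, ← hyF, (v.valuation_eq_one_iff_notMem (K := F) (r := y)).2 h4, div_one]

/-- the class for a split prime if all unramified classes are trivial -/
theorem exists_cls {s : F} {D : ℤ} (hs : s ^ 2 = (D : F)) (hC : Cub F) {σ : F ≃ₐ[ℚ] F}
    (hσ : σ s = -s) (hσσ : ∀ y, σ (σ y) = y) {q : ℕ} (hq : q.Prime) (hq2 : q ≠ 2)
    (hsp : ¬ NonSplit q D) : ∃ d : F, d ≠ 0 ∧ σ d * d = 1 ∧
      (∀ v : HeightOneSpectrum (𝓞 F), (q : 𝓞 F) ∉ v.asIdeal → v.valuation F d = 1) ∧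
      ∀ z : F, d ≠ z ^ 3 := by
  obtain ⟨v, r, t, hr, hv, h1, h2⟩ := ca_split hs hq hq2 hsp
  obtain ⟨n, hn, x, hx0, hx⟩ := ca_gen3 hC v
  obtain ⟨ha, hb, hc, hd⟩ := ca_cls hσ hσσ hr hv h1 h2 hx0 hx
  refine ⟨_, ha, hb, hc, fun z hz => hn ?_⟩
  rw [hz, map_pow] at hd
  have h3 := congrArg log hd
  rw [log_pow, log_exp, nsmul_eq_mul] at h3
  push_cast at h3
  omega

/-- the valuations of a prime in a quadratic field are not divisible by three -/
lemma ca_two (hF : Module.finrank ℚ F = 2) {q : ℕ} (hq : q.Prime) {v : HeightOneSpectrum (𝓞 F)}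
    (hv : (q : 𝓞 F) ∈ v.asIdeal) : ¬ (3 : ℤ) ∣ log (v.valuation F (q : F)) := by
  have hpp : (Ideal.span {(q : ℤ)}).IsPrime := by
    rw [Ideal.span_singleton_prime (by exact_mod_cast hq.ne_zero)]
    exact Nat.prime_iff_prime_int.1 hq
  have hq0 : Ideal.span {(q : ℤ)} ≠ ⊥ := by
    rw [Ne, Ideal.span_singleton_eq_bot]
    exact_mod_cast hq.ne_zero
  have hmax : (Ideal.span {(q : ℤ)}).IsMaximal :=
    Ring.DimensionLEOne.maximalOfPrime hq0 inferInstance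
  have hvp := v.isPrime
  have hl : v.asIdeal.LiesOver (Ideal.span {(q : ℤ)}) := by
    constructor
    refine hmax.eq_of_le (Ideal.IsPrime.under ℤ v.asIdeal).ne_top ?_
    rw [Ideal.span_singleton_le_iff_mem]
    change algebraMap ℤ (𝓞 F) (q : ℤ) ∈ v.asIdeal
    rw [map_natCast]
    exact hv
  let p : HeightOneSpectrum ℤ := ⟨Ideal.span {(q : ℤ)}, hpp, hq0⟩
  have hlp : v.asIdeal.LiesOver p.asIdeal := hl
  have h1 := HeightOneSpectrum.valuation_liesOver (K := ℚ) F p v (q : ℚ)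
  rw [map_natCast (algebraMap ℚ F)] at h1
  have h2 : p.valuation ℚ (q : ℚ) = exp (-1 : ℤ) := by
    have h3 : ((q : ℤ) : ℚ) = algebraMap ℤ ℚ (q : ℤ) := rfl
    rw [show (q : ℚ) = ((q : ℤ) : ℚ) by push_cast; rfl, h3,
      HeightOneSpectrum.valuation_of_algebraMap]
    exact HeightOneSpectrum.intValuation_singleton _ (by exact_mod_cast hq.ne_zero) rfl
  have h3 : v.asIdeal ∈ IsDedekindDomain.primesOverFinset p.asIdeal (𝓞 F) :=
    (IsDedekindDomain.mem_primesOverFinset_iff p.ne_bot _).mpr ⟨v.isPrime, hlp⟩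
  have h4 : ∑ P ∈ IsDedekindDomain.primesOverFinset p.asIdeal (𝓞 F),
      p.asIdeal.ramificationIdx' P * p.asIdeal.inertiaDeg' P = Module.finrank ℚ F :=
    Ideal.sum_ramification_inertia (𝓞 F) ℚ F p.ne_bot
  have h5 := Finset.single_le_sum
    (f := fun P => p.asIdeal.ramificationIdx' P * p.asIdeal.inertiaDeg' P)
    (fun _ _ => Nat.zero_le _) h3
  rw [h4, hF] at h5
  have h6 : p.asIdeal.ramificationIdx' v.asIdeal ≤ 2 :=
    (Nat.le_mul_of_pos_right _ (Ideal.inertiaDeg'_pos p.asIdeal v.asIdeal)).trans h5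
  have h7 : 1 ≤ p.asIdeal.ramificationIdx' v.asIdeal := Nat.one_le_iff_ne_zero.2
    (Ideal.IsDedekindDomain.ramificationIdx'_ne_zero_of_liesOver v.asIdeal p.ne_bot)
  rw [← h1, h2, log_pow, log_exp, nsmul_eq_mul]
  omega

end

theorem val_three {m : ℕ} {δ : ℤ} {K N B C : Type} [Field K] [NumberField K] [Field N]
    [NumberField N] [Field B] [NumberField B] [Field C] [NumberField C] [Algebra K N] [Algebra K B]
    [Algebra K C] [Algebra N C] [Algebra B C] [IsScalarTower K N C] [IsScalarTower K B C] {s : B}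
    {κ : C ≃ₐ[N] C} (T : Tow m δ K N B C s κ) {F : Type} [Field F] [NumberField F]
    [Algebra F C] (hF : Module.finrank ℚ F = 2) {q : ℕ} (hq : q.Prime) (hr : RamIn q N) {d : F}
    (hd : ∀ v : HeightOneSpectrum (𝓞 F), (q : 𝓞 F) ∉ v.asIdeal →
      (3 : ℤ) ∣ log (v.valuation F d)) (W : HeightOneSpectrum (𝓞 C)) :
    (3 : ℤ) ∣ log (W.valuation C (algebraMap F C d)) := by
  have hGal := T.galN
  obtain ⟨v, e, he1, -, hval, hmem⟩ := val_below (K := F) W
  rw [hval, log_pow, nsmul_eq_mul]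
  by_cases hv : (q : 𝓞 F) ∈ v.asIdeal
  · obtain ⟨w, e', -, -, hval', hmem'⟩ := val_below (K := N) W
    have hW : (q : 𝓞 C) ∈ W.asIdeal := by
      have h1 := (hmem (q : ℤ)).1 (by exact_mod_cast hv)
      exact_mod_cast h1
    have hw : (q : 𝓞 N) ∈ w.asIdeal := by
      have h1 := (hmem' (q : ℤ)).2 (by exact_mod_cast hW)
      exact_mod_cast h1
    have h1 := ram_three T.degN hq hr w hw
    have h2 := hval (q : F)
    have h3 := hval' (q : N)
    rw [map_natCast] at h2 h3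
    have h4 := congrArg log (h2.symm.trans h3)
    rw [log_pow, log_pow, nsmul_eq_mul, nsmul_eq_mul] at h4
    have h5 : (3 : ℤ) ∣ (e : ℤ) * log (v.valuation F (q : F)) := by
      rw [h4]
      exact Dvd.dvd.mul_left h1 _
    have h6 := (Int.prime_three.dvd_or_dvd h5).resolve_right (ca_two hF hq hv)
    exact Dvd.dvd.mul_right h6 _
  · exact Dvd.dvd.mul_left (hd v hv) _

end H38T8
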