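import Pool.Agent.H38.T8.Nd
import Pool.Agent.H38.T6.Ld
import Pool.Agent.H38.T6.Sa

/-!
Elements of norm one in a real quadratic field which are ramified at three (MP_78d38b_T8, helper38).
-/

set_option autoImplicit false
set_option linter.unusedSectionVars false
open scoped Classical

open IsDedekindDomain NumberField WithZero H55T3 H38T6 H86T3

namespace H38T8

/-- integral at three -/
def I3 (r : ℚ) : Prop := ∃ a b : ℤ, ¬ (3 : ℤ) ∣ b ∧ r * b = a

lemma I3.add {r s : ℚ} (hr : I3 r) (hs : I3 s) : I3 (r + s) := by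
  obtain ⟨a, b, hb, h⟩ := hr
  obtain ⟨c, d, hd, h'⟩ := hs
  refine ⟨a * d + c * b, b * d, fun h3 => (Int.prime_three.dvd_or_dvd h3).elim hb hd, ?_⟩
  push_cast
  rw [← h, ← h']
  ring

lemma I3.mul {r s : ℚ} (hr : I3 r) (hs : I3 s) : I3 (r * s) := by
  obtain ⟨a, b, hb, h⟩ := hr
  obtain ⟨c, d, hd, h'⟩ := hs
  refine ⟨a * c, b * d, fun h3 => (Int.prime_three.dvd_or_dvd h3).elim hb hd, ?_⟩
  push_cast
  rw [← h, ← h']
  ring

lemma I3.int (n : ℤ) : I3 (n : ℚ) := ⟨n, 1, by norm_num, by push_cast; ring⟩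

lemma I3.neg {r : ℚ} (hr : I3 r) : I3 (-r) := by
  obtain ⟨a, b, hb, h⟩ := hr
  refine ⟨-a, b, hb, ?_⟩
  push_cast
  rw [← h]
  ring

lemma I3.res {r : ℚ} (hr : I3 r) : ∃ (e : ℤ) (r' : ℚ), (e = 0 ∨ e = 1 ∨ e = -1) ∧ I3 r' ∧
    r = e + 3 * r' := by
  obtain ⟨a, b, hb, h⟩ := hr
  have hb0 : (b : ℚ) ≠ 0 := by
    intro h0
    apply hb
    have : b = 0 := by exact_mod_cast h0
    rw [this]
    exact dvd_zero _
  have key : ∃ e : ℤ, (e = 0 ∨ e = 1 ∨ e = -1) ∧ (3 : ℤ) ∣ a - e * b := by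
    have h1 : a % 3 = 0 ∨ a % 3 = 1 ∨ a % 3 = 2 := by omega
    have h2 : b % 3 = 1 ∨ b % 3 = 2 := by omega
    rcases h1 with h1 | h1 | h1
    · exact ⟨0, Or.inl rfl, by omega⟩
    · rcases h2 with h2 | h2
      · exact ⟨1, by omega, by omega⟩
      · exact ⟨-1, by omega, by omega⟩
    · rcases h2 with h2 | h2
      · exact ⟨-1, by omega, by omega⟩
      · exact ⟨1, by omega, by omega⟩
  obtain ⟨e, he, k, hk⟩ := key
  refine ⟨e, k / b, he, ⟨k, b, hb, by field_simp⟩, ?_⟩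
  have h3 : (a : ℚ) = e * b + 3 * k := by
    have : a = e * b + 3 * k := by linarith
    exact_mod_cast this
  field_simp
  rw [h, h3]

/-- coordinates of elements of norm one -/
lemma norm_I3 {D : ℤ} (hD : D % 3 = 2) {p q : ℚ} (h : p ^ 2 + 3 * D * q ^ 2 = 1) :
    I3 p ∧ I3 q := by
  have hex : ∃ n : ℕ, 0 < n ∧ ∃ a b : ℤ, p * n = a ∧ q * n = b := by
    refine ⟨p.den * q.den, Nat.mul_pos p.den_pos q.den_pos, p.num * q.den, q.num * p.den, ?_, ?_⟩
    · push_cast
      rw [← mul_assoc, Rat.mul_den_eq_num]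
    · push_cast
      rw [mul_comm (p.den : ℚ), ← mul_assoc, Rat.mul_den_eq_num]
  obtain ⟨n, hn⟩ : ∃ n, n = Nat.find hex := ⟨_, rfl⟩
  obtain ⟨hpos, a, b, ha, hb⟩ := Nat.find_spec hex
  rw [← hn] at hpos ha hb
  have h3n : ¬ 3 ∣ n := by
    rintro ⟨k, hk⟩
    have e1 : a ^ 2 + 3 * D * b ^ 2 = (n : ℤ) ^ 2 := by
      have e2 : (a : ℚ) ^ 2 + 3 * D * (b : ℚ) ^ 2 = (n : ℚ) ^ 2 := by
        rw [← ha, ← hb]
        linear_combination (n : ℚ) ^ 2 * h
      exact_mod_cast e2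
    have e3 : (3 : ℤ) ∣ a := by
      apply Int.prime_three.dvd_of_dvd_pow (n := 2)
      have e4 : a ^ 2 = (n : ℤ) ^ 2 - 3 * D * b ^ 2 := by linarith
      rw [e4, hk]
      exact ⟨3 * (k : ℤ) ^ 2 - D * b ^ 2, by push_cast; ring⟩
    obtain ⟨a', ha'⟩ := e3
    have e5 : (3 : ℤ) ∣ b := by
      have e6 : D * b ^ 2 = 3 * ((k : ℤ) ^ 2 - a' ^ 2) := by
        rw [ha', hk] at e1
        push_cast at e1
        linarith
      have e7 : (3 : ℤ) ∣ D * b ^ 2 := ⟨_, e6⟩
      rcases Int.prime_three.dvd_or_dvd e7 with e8 | e8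
      · omega
      · exact Int.prime_three.dvd_of_dvd_pow e8
    obtain ⟨b', hb'⟩ := e5
    have hmin := Nat.find_min' hex (m := k) ⟨by omega, a', b', ?_, ?_⟩
    · rw [← hn] at hmin
      omega
    · rw [hk, ha'] at ha
      push_cast at ha
      linarith
    · rw [hk, hb'] at hb
      push_cast at hb
      linarith
  have h3n' : ¬ (3 : ℤ) ∣ (n : ℤ) := by exact_mod_cast h3n
  exact ⟨⟨a, n, h3n', by exact_mod_cast ha⟩, ⟨b, n, h3n', by exact_mod_cast hb⟩⟩

section

variable {F : Type*} [Field F] [CharZero F] {V : Valuation F (WithZero (Multiplicative ℤ))}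

lemma v_int (n : ℤ) : V (n : F) ≤ 1 := by
  have key : ∀ n : ℕ, V (n : F) ≤ 1 := by
    intro n
    induction n with
    | zero => simp
    | succ n ih =>
      push_cast
      exact (Valuation.map_add _ _ _).trans (max_le ih (by rw [map_one]))
  rcases Int.natAbs_eq n with h | h
  · rw [h, Int.cast_natCast]
    exact key _
  · rw [h, Int.cast_neg, Int.cast_natCast, Valuation.map_neg]
    exact key _

lemma v_one (h3 : V 3 < 1) {n : ℤ} (hn : ¬ (3 : ℤ) ∣ n) : V (n : F) = 1 := by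
  refine le_antisymm (v_int n) ?_
  by_contra hlt
  rw [not_le] at hlt
  obtain ⟨a, b, hab⟩ := (Int.prime_three.coprime_iff_not_dvd).2 hn
  have h4 : ((a : ℤ) : F) * 3 + ((b : ℤ) : F) * ((n : ℤ) : F) = 1 := by
    exact_mod_cast congrArg (fun z : ℤ => ((z : ℤ) : F)) hab
  have h5 : V (1 : F) < 1 := by
    rw [← h4]
    refine Valuation.map_add_lt _ ?_ ?_
    · rw [map_mul]
      exact mul_lt_one_of_nonneg_of_lt_one_right (v_int a) zero_le h3
    · rw [map_mul]
      exact mul_lt_one_of_nonneg_of_lt_one_right (v_int b) zero_le hlt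
  rw [map_one] at h5
  exact lt_irrefl _ h5

lemma v_I3 (h3 : V 3 < 1) {r : ℚ} (hr : I3 r) : V (r : F) ≤ 1 := by
  obtain ⟨a, b, hb, h⟩ := hr
  have hb0 : (b : F) ≠ 0 := by
    intro h0
    have h1 := v_one h3 hb
    rw [h0, map_zero] at h1
    exact zero_ne_one h1
  have h1 : (r : F) = (a : F) / (b : F) := by
    rw [eq_div_iff hb0]
    exact_mod_cast congrArg (fun z : ℚ => ((z : ℚ) : F)) h
  rw [h1, map_div₀, v_one h3 hb, div_one]
  exact v_int a

/-- local cube roots above three -/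
lemma cube3 (hV : Hens3 V) (v3 : V 3 < 1) (v2 : V 2 = 1) {D : ℤ} (hD : D % 3 = 2) {p r : ℚ}
    (hpq : p ^ 2 + 3 * D * (3 * r) ^ 2 = 1) (hr : I3 r) :
    ∃ x y : F, Cube2 ((-3 * D : ℤ) : F) (p : F) ((3 * r : ℚ) : F) x y := by
  have vr := v_I3 (F := F) v3 hr
  obtain ⟨e, r', he, hr', hre⟩ := hr.res
  have vr' := v_I3 (F := F) v3 hr'
  have vD : V (D : F) ≤ 1 := v_int D
  have hsmall : V ((r : F) * (2 * D * (r : F) ^ 2 - 1)) < 1 := by
    rcases he with he | he | he
    · have h1 : (r : F) = 3 * (r' : F) := by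
        rw [hre, he]
        push_cast
        ring
      have h2 : V (r : F) < 1 := by
        rw [h1, map_mul]
        exact mul_lt_one_of_nonneg_of_lt_one_left zero_le v3 vr'
      rw [map_mul]
      refine mul_lt_one_of_nonneg_of_lt_one_left zero_le h2 ?_
      have h4 : V ((2 * D * (r : F) ^ 2 - 1)) ≤ 1 := by
        refine (Valuation.map_sub _ _ _).trans (max_le ?_ (by rw [map_one]))
        rw [map_mul, map_mul, map_pow, v2, one_mul]
        exact mul_le_one' vD (pow_le_one' vr 2)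
      exact h4
    · obtain ⟨k, hk⟩ : ∃ k : ℤ, 2 * D - 1 = 3 * k := ⟨(2 * D - 1) / 3, by omega⟩
      have hk' : 2 * (D : F) - 1 = 3 * (k : F) := by exact_mod_cast congrArg (fun z : ℤ => ((z : ℤ) : F)) hk
      have h1 : (r : F) = 1 + 3 * (r' : F) := by
        rw [hre, he]
        push_cast
        ring
      have h2 : 2 * D * (r : F) ^ 2 - 1 = 3 * ((k : F) + 2 * D * (2 * (r' : F) + 3 * (r' : F) ^ 2)) := by
        rw [h1]
        linear_combination hk'
      rw [map_mul, h2, map_mul]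
      have h3 : V ((k : F) + 2 * D * (2 * (r' : F) + 3 * (r' : F) ^ 2)) ≤ 1 := by
        refine (Valuation.map_add _ _ _).trans (max_le (v_int k) ?_)
        rw [map_mul, map_mul, v2, one_mul]
        refine mul_le_one' vD ((Valuation.map_add _ _ _).trans (max_le ?_ ?_))
        · rw [map_mul, v2, one_mul]
          exact vr'
        · rw [map_mul, map_pow]
          exact mul_le_one' v3.le (pow_le_one' vr' 2)
      exact mul_lt_one_of_nonneg_of_lt_one_right vr zero_le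
        (mul_lt_one_of_nonneg_of_lt_one_left zero_le v3 h3)
    · obtain ⟨k, hk⟩ : ∃ k : ℤ, 2 * D - 1 = 3 * k := ⟨(2 * D - 1) / 3, by omega⟩
      have hk' : 2 * (D : F) - 1 = 3 * (k : F) := by exact_mod_cast congrArg (fun z : ℤ => ((z : ℤ) : F)) hk
      have h1 : (r : F) = -1 + 3 * (r' : F) := by
        rw [hre, he]
        push_cast
        ring
      have h2 : 2 * D * (r : F) ^ 2 - 1 = 3 * ((k : F) + 2 * D * (-2 * (r' : F) + 3 * (r' : F) ^ 2)) := by
        rw [h1]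
        linear_combination hk'
      rw [map_mul, h2, map_mul]
      have h3 : V ((k : F) + 2 * D * (-2 * (r' : F) + 3 * (r' : F) ^ 2)) ≤ 1 := by
        refine (Valuation.map_add _ _ _).trans (max_le (v_int k) ?_)
        rw [map_mul, map_mul, v2, one_mul]
        refine mul_le_one' vD ((Valuation.map_add _ _ _).trans (max_le ?_ ?_))
        · rw [map_mul, Valuation.map_neg, v2, one_mul]
          exact vr'
        · rw [map_mul, map_pow]
          exact mul_le_one' v3.le (pow_le_one' vr' 2)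
      exact mul_lt_one_of_nonneg_of_lt_one_right vr zero_le
        (mul_lt_one_of_nonneg_of_lt_one_left zero_le v3 h3)
  have v4 : V (4 : F) = 1 := by
    have : (4 : F) = 2 * 2 := by norm_num
    rw [this, map_mul, v2, one_mul]
  have v12 : V (12 * D * (r : F) ^ 2) < 1 := by
    have : (12 : F) * D * (r : F) ^ 2 = 3 * (4 * (D * (r : F) ^ 2)) := by ring
    rw [this, map_mul]
    refine mul_lt_one_of_nonneg_of_lt_one_left zero_le v3 ?_
    rw [map_mul, v4, one_mul, map_mul, map_pow]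
    exact mul_le_one' vD (pow_le_one' vr 2)
  obtain ⟨z, vz, hz⟩ := hV (2 * ((r : F) * (2 * D * (r : F) ^ 2 - 1))) (1 - 12 * D * (r : F) ^ 2)
    (12 * D * (r : F)) (-4 * D)
    (by rw [map_mul, v2, one_mul]; exact hsmall)
    (by
      rw [Valuation.map_sub_eq_of_lt_left, map_one]
      rw [map_one]
      exact v12)
    (by
      have : (12 : F) * D * (r : F) = 3 * (4 * (D * (r : F))) := by ring
      rw [this, map_mul, map_mul, map_mul, v4, one_mul]
      exact mul_le_one' v3.le (mul_le_one' vD vr))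
    (by rw [map_mul, Valuation.map_neg, v4, one_mul]; exact vD)
  obtain ⟨y, hy⟩ : ∃ y, y = -(r : F) + z := ⟨_, rfl⟩
  have hy1 : y - 4 * D * y ^ 3 = (r : F) := by
    rw [hy]
    linear_combination hz
  have vy : V y ≤ 1 := by
    rw [hy]
    refine (Valuation.map_add _ _ _).trans (max_le ?_ vz.le)
    rw [Valuation.map_neg]
    exact vr
  obtain ⟨x₀, -, hx₀⟩ := lg_sqrt hV v2 (x := -(3 * (D * y ^ 2))) (by
    rw [Valuation.map_neg, map_mul]
    refine mul_lt_one_of_nonneg_of_lt_one_left zero_le v3 ?_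
    rw [map_mul, map_pow]
    exact mul_le_one' vD (pow_le_one' vy 2))
  obtain ⟨x, hx⟩ : ∃ x, x = 1 + x₀ := ⟨_, rfl⟩
  rw [← hx] at hx₀
  have hpq' : (p : F) ^ 2 + 3 * D * (3 * (r : F)) ^ 2 = 1 := by
    exact_mod_cast congrArg (fun z : ℚ => ((z : ℚ) : F)) hpq
  have hq : (3 * (r : F)) = 3 * x ^ 2 * y + (-3 * D) * y ^ 3 := by
    rw [← hx₀, ← hy1]
    ring
  have hp2 : (p : F) ^ 2 = (x ^ 3 + 3 * (-3 * D) * x * y ^ 2) ^ 2 := by
    have h5 : (x ^ 3 + 3 * (-3 * D) * x * y ^ 2) ^ 2 + 3 * D * (3 * x ^ 2 * y + (-3 * D) * y ^ 3) ^ 2 =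
        (x ^ 2 + 3 * D * y ^ 2) ^ 3 := by ring
    rw [← hq, ← hx₀] at h5
    linear_combination hpq' - h5
  rcases sq_eq_sq_iff_eq_or_eq_neg.1 hp2 with h6 | h6
  · refine ⟨x, y, ?_, ?_⟩
    · push_cast
      rw [h6]
    · push_cast
      rw [hq]
  · refine ⟨-x, y, ?_, ?_⟩
    · push_cast
      rw [h6]
      ring
    · push_cast
      rw [hq]
      ring

end

end H38T8
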