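import Pool.Agent.H38.T8.Ce

/-!
Units of norm one in a real quadratic field which are not cubes (MP_78d38b_T8, helper38).
-/

set_option autoImplicit false
set_option linter.unusedSectionVars false
open scoped Classical

open IsDedekindDomain NumberField WithZero H55T3 H38T6 H86T3

namespace H38T8

section

variable {F : Type} [Field F] [NumberField F]

lemma cf_pow {δ : ℤ} (hpos : 0 < δ) {t : F} (ht : t ^ 2 = (δ : F)) {x y : ℤ} (hx : 0 < x)
    (hy : 0 < y) (n : ℕ) : ∃ X Y : ℤ, 0 < X ∧ 0 < Y ∧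
      ((x : F) + (y : F) * t) ^ (n + 1) = (X : F) + (Y : F) * t := by
  induction n with
  | zero => exact ⟨x, y, hx, hy, by rw [zero_add, pow_one]⟩
  | succ n ih =>
    obtain ⟨X, Y, hX, hY, h⟩ := ih
    refine ⟨X * x + δ * Y * y, X * y + Y * x, by positivity, by positivity, ?_⟩
    rw [pow_succ, h]
    push_cast
    linear_combination (Y : F) * (y : F) * ht

lemma unit_val (e : (𝓞 F)ˣ) (v : HeightOneSpectrum (𝓞 F)) :
    v.valuation F ((e : 𝓞 F) : F) = 1 := by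
  apply (v.valuation_eq_one_iff_notMem (K := F) (r := (e : 𝓞 F))).2
  intro h
  exact v.isPrime.ne_top (Ideal.eq_top_of_isUnit_mem _ h e.isUnit)

theorem exists_unit {δ : ℤ} (hpos : 0 < δ) (hns : ¬ IsSquare δ) {t : F} (ht : t ^ 2 = (δ : F))
    {g : F ≃ₐ[ℚ] F} (hg : g t = -t) (hco : ∀ x : F, ∃ u v : ℚ, x = algebraMap ℚ F u +
      algebraMap ℚ F v * t) :
    ∃ u : F, g u * u = 1 ∧ (∀ v : HeightOneSpectrum (𝓞 F), v.valuation F u = 1) ∧
      ∀ z, u ≠ z ^ 3 := by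
  by_contra hcon
  push Not at hcon
  -- norms
  have hnorm : ∀ x : F, ∃ n : ℚ, g x * x = algebraMap ℚ F n := by
    intro x
    obtain ⟨u, v, rfl⟩ := hco x
    refine ⟨u ^ 2 - δ * v ^ 2, ?_⟩
    rw [map_add, map_mul, g.commutes, g.commutes, hg, map_sub, map_mul, map_pow, map_pow,
      map_intCast, ← ht]
    ring
  have hint : ∀ x : F, IsIntegral ℤ x → ∀ n : ℚ, g x * x = algebraMap ℚ F n →
      ∃ m : ℤ, (m : ℚ) = n := by
    intro x hx n hn
    have h1 : IsIntegral ℤ (algebraMap ℚ F n) := by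
      rw [← hn]
      exact (hx.map (g : F →ₐ[ℚ] F)).mul hx
    have h2 : IsIntegral ℤ n := (isIntegral_algebraMap_iff (algebraMap ℚ F).injective).1 h1
    obtain ⟨m, hm⟩ := (IsIntegrallyClosed.isIntegral_iff (R := ℤ) (K := ℚ)).1 h2
    exact ⟨m, hm⟩
  have hone : ∀ e : (𝓞 F)ˣ, (g ((e : 𝓞 F) : F) * ((e : 𝓞 F) : F)) ^ 2 = 1 := by
    intro e
    obtain ⟨n, hn⟩ := hnorm ((e : 𝓞 F) : F)
    obtain ⟨n', hn'⟩ := hnorm (((e⁻¹ : (𝓞 F)ˣ) : 𝓞 F) : F)
    obtain ⟨m, hm⟩ := hint _ (e : 𝓞 F).2 n hn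
    obtain ⟨m', hm'⟩ := hint _ ((e⁻¹ : (𝓞 F)ˣ) : 𝓞 F).2 n' hn'
    have hee : (((e : 𝓞 F) : F)) * ((((e⁻¹ : (𝓞 F)ˣ) : 𝓞 F) : F)) = 1 := by
      have h1 : (e : 𝓞 F) * ((e⁻¹ : (𝓞 F)ˣ) : 𝓞 F) = 1 := e.mul_inv
      have h2 := congrArg (algebraMap (𝓞 F) F) h1
      rw [map_mul, map_one] at h2
      exact h2
    have hnn : n * n' = 1 := by
      apply (algebraMap ℚ F).injective
      rw [map_mul, ← hn, ← hn', map_one]
      have h3 := congrArg g hee
      rw [map_mul, map_one] at h3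
      linear_combination (((e : 𝓞 F) : F)) * ((((e⁻¹ : (𝓞 F)ˣ) : 𝓞 F) : F)) * h3 + hee
    have hmm : m * m' = 1 := by
      have : (m : ℚ) * (m' : ℚ) = 1 := by rw [hm, hm', hnn]
      exact_mod_cast this
    have hm1 : m = 1 ∨ m = -1 := Int.eq_one_or_neg_one_of_mul_eq_one hmm
    rw [hn, ← map_pow, ← hm]
    rcases hm1 with h | h
    · rw [h]; norm_num
    · rw [h]; norm_num
  -- all units are cubes
  have hcube : ∀ e : (𝓞 F)ˣ, ∃ f : (𝓞 F)ˣ, e = f ^ 3 := by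
    intro e
    obtain ⟨E, hE⟩ : ∃ E, E = ((e : 𝓞 F) : F) := ⟨_, rfl⟩
    have hE0 : E ≠ 0 := by
      rw [hE]
      exact RingOfIntegers.coe_ne_zero_iff.mpr e.ne_zero
    obtain ⟨z, hz⟩ := hcon (E ^ 2) (by
      have h1 := hone e
      rw [← hE] at h1
      rw [map_pow, ← mul_pow]
      exact h1) (fun v => by
        have h1 := unit_val e v
        rw [← hE] at h1
        rw [map_pow, h1, one_pow])
    have hz0 : z ≠ 0 := by
      rintro rfl
      rw [zero_pow three_ne_zero] at hz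
      exact pow_ne_zero 2 hE0 hz
    have hw : (E / z) ^ 3 = E := by
      rw [div_pow, ← hz]
      field_simp
    have hint1 : IsIntegral ℤ (E / z) := by
      apply IsIntegral.of_pow (n := 3) (by norm_num)
      rw [hw, hE]
      exact (e : 𝓞 F).2
    obtain ⟨w, hwd⟩ : ∃ w : 𝓞 F, (w : F) = E / z := ⟨⟨_, hint1⟩, rfl⟩
    have hw3 : w ^ 3 = (e : 𝓞 F) := by
      have h1 : ((w ^ 3 : 𝓞 F) : F) = ((e : 𝓞 F) : F) := by
        rw [← hE, ← hw, ← hwd]
        rfl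
      exact RingOfIntegers.coe_injective h1
    have hwu : IsUnit w := by
      apply isUnit_of_mul_isUnit_left (y := w ^ 2)
      have h1 : w * w ^ 2 = (e : 𝓞 F) := by rw [← hw3]; ring
      rw [h1]
      exact e.isUnit
    obtain ⟨f, hf⟩ := hwu
    refine ⟨f, Units.ext ?_⟩
    rw [Units.val_pow_eq_pow_val, hf, hw3]
  have hfin : Finite (Additive (𝓞 F)ˣ) := by
    refine Db_fin (Module.Finite.iff_addGroup_fg.1 inferInstance) ?_
    intro P
    obtain ⟨f, hf⟩ := hcube P.toMul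
    exact ⟨Additive.ofMul f, hf⟩
  -- a unit of infinite order
  obtain ⟨x, y, hxy, hy⟩ := Pell.exists_of_not_isSquare hpos hns
  have hx : x ≠ 0 := by
    rintro rfl
    nlinarith [mul_nonneg hpos.le (sq_nonneg y)]
  have hxy' : |x| ^ 2 - δ * |y| ^ 2 = 1 := by rw [sq_abs, sq_abs]; exact hxy
  obtain ⟨X, hX⟩ : ∃ X, X = |x| := ⟨_, rfl⟩
  obtain ⟨Y, hY⟩ : ∃ Y, Y = |y| := ⟨_, rfl⟩
  have hXp : 0 < X := by rw [hX]; exact abs_pos.2 hx
  have hYp : 0 < Y := by rw [hY]; exact abs_pos.2 hy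
  rw [← hX, ← hY] at hxy'
  have htint : IsIntegral ℤ t := by
    have h1 : IsIntegral ℤ (t ^ 2) := by
      rw [ht]
      exact isIntegral_algebraMap (x := δ)
    exact IsIntegral.of_pow (by norm_num) h1
  obtain ⟨r, hr⟩ : ∃ r : 𝓞 F, algebraMap (𝓞 F) F r = t := ⟨⟨t, htint⟩, rfl⟩
  have hr2 : r ^ 2 = (δ : 𝓞 F) := by
    have h1 : algebraMap (𝓞 F) F (r ^ 2) = algebraMap (𝓞 F) F (δ : 𝓞 F) := by
      rw [map_pow, hr, ht, map_intCast]
    exact RingOfIntegers.coe_injective h1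
  have hunit : ((X : 𝓞 F) + (Y : 𝓞 F) * r) * ((X : 𝓞 F) - (Y : 𝓞 F) * r) = 1 := by
    have h1 : ((X : 𝓞 F)) ^ 2 - (δ : 𝓞 F) * (Y : 𝓞 F) ^ 2 = 1 := by exact_mod_cast hxy'
    linear_combination h1 - (Y : 𝓞 F) ^ 2 * hr2
  obtain ⟨e, he⟩ : ∃ e : (𝓞 F)ˣ, (e : 𝓞 F) = (X : 𝓞 F) + (Y : 𝓞 F) * r :=
    ⟨Units.mkOfMulEqOne _ _ hunit, rfl⟩
  have hfin' : Finite (𝓞 F)ˣ := hfin
  obtain ⟨n, hn, hen⟩ := isOfFinOrder_iff_pow_eq_one.1 (isOfFinOrder_of_finite e)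
  obtain ⟨k, rfl⟩ : ∃ k, n = k + 1 := ⟨n - 1, by omega⟩
  obtain ⟨X', Y', hX', hY', hXY⟩ := cf_pow hpos ht hXp hYp k
  have h1 : (X' : F) + (Y' : F) * t = 1 := by
    rw [← hXY]
    have h2 : ((e : 𝓞 F)) ^ (k + 1) = 1 := by
      have h3 := congrArg Units.val hen
      rwa [Units.val_pow_eq_pow_val, Units.val_one] at h3
    have h4 := congrArg (algebraMap (𝓞 F) F) h2
    rw [map_pow, he, map_add, map_mul, map_intCast, map_intCast, hr, map_one] at h4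
    exact h4
  have hY0 : (Y' : F) ≠ 0 := by exact_mod_cast hY'.ne'
  apply Gd_nsq hns ((1 - X') / Y')
  apply (algebraMap ℚ F).injective
  have h5 : algebraMap ℚ F (((1 - X') / Y' : ℚ)) = t := by
    rw [map_div₀, map_sub, map_one, map_intCast, map_intCast, div_eq_iff hY0]
    linear_combination -h1
  rw [map_pow, h5, ht, map_intCast]

end

end H38T8
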