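import Pool.Agent.H38.T8.Cf

/-!
The class for a split prime in the real quadratic field (MP_78d38b_T8, helper38).
-/

set_option autoImplicit false
set_option linter.unusedSectionVars false
open scoped Classical

open IsDedekindDomain NumberField WithZero Pool.Agent.H10 H55T3 H38T6 H86T3

namespace H38T8

section

variable {F : Type} [Field F] [NumberField F]

/-- two places over a prime of a quadratic field -/
lemma two_places (hF : Module.finrank ℚ F = 2) {q : ℕ} (hq : q.Prime)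
    {v v' : HeightOneSpectrum (𝓞 F)} (hv : (q : 𝓞 F) ∈ v.asIdeal) (hv' : (q : 𝓞 F) ∈ v'.asIdeal)
    (hne : v ≠ v') : v.valuation F (q : F) = exp (-1 : ℤ) ∧
      ∀ w : HeightOneSpectrum (𝓞 F), (q : 𝓞 F) ∈ w.asIdeal → w = v ∨ w = v' := by
  have hpp : (Ideal.span {(q : ℤ)}).IsPrime := by
    rw [Ideal.span_singleton_prime (by exact_mod_cast hq.ne_zero)]
    exact Nat.prime_iff_prime_int.1 hq
  have hq0 : Ideal.span {(q : ℤ)} ≠ ⊥ := by
    rw [Ne, Ideal.span_singleton_eq_bot]
    exact_mod_cast hq.ne_zero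
  have hmax : (Ideal.span {(q : ℤ)}).IsMaximal :=
    Ring.DimensionLEOne.maximalOfPrime hq0 inferInstance
  let p : HeightOneSpectrum ℤ := ⟨Ideal.span {(q : ℤ)}, hpp, hq0⟩
  have hl : ∀ w : HeightOneSpectrum (𝓞 F), (q : 𝓞 F) ∈ w.asIdeal →
      w.asIdeal.LiesOver p.asIdeal := by
    intro w hw
    have hvp := w.isPrime
    constructor
    refine hmax.eq_of_le (Ideal.IsPrime.under ℤ w.asIdeal).ne_top ?_
    rw [Ideal.span_singleton_le_iff_mem]
    change algebraMap ℤ (𝓞 F) (q : ℤ) ∈ w.asIdeal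
    rw [map_natCast]
    exact hw
  obtain ⟨f, hf⟩ : ∃ f : Ideal (𝓞 F) → ℕ, ∀ P, f P = p.asIdeal.ramificationIdx' P *
      p.asIdeal.inertiaDeg' P := ⟨_, fun _ => rfl⟩
  have hsum : ∑ P ∈ IsDedekindDomain.primesOverFinset p.asIdeal (𝓞 F), f P = 2 := by
    rw [← hF, ← Ideal.sum_ramification_inertia (𝓞 F) ℚ F p.ne_bot]
    exact Finset.sum_congr rfl fun P _ => hf P
  have hmem : ∀ w : HeightOneSpectrum (𝓞 F), (q : 𝓞 F) ∈ w.asIdeal →
      w.asIdeal ∈ IsDedekindDomain.primesOverFinset p.asIdeal (𝓞 F) := fun w hw =>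
    (IsDedekindDomain.mem_primesOverFinset_iff p.ne_bot _).mpr ⟨w.isPrime, hl w hw⟩
  have hpos : ∀ w : HeightOneSpectrum (𝓞 F), (q : 𝓞 F) ∈ w.asIdeal → 1 ≤ f w.asIdeal := by
    intro w hw
    have hlw := hl w hw
    have hwp := w.isPrime
    rw [hf]
    have h1 : p.asIdeal.ramificationIdx' w.asIdeal ≠ 0 :=
      Ideal.IsDedekindDomain.ramificationIdx'_ne_zero_of_liesOver w.asIdeal p.ne_bot
    have h2 := Ideal.inertiaDeg'_pos p.asIdeal w.asIdeal
    exact Nat.mul_pos (Nat.pos_of_ne_zero h1) h2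
  have hne' : v.asIdeal ≠ v'.asIdeal := fun h => hne (HeightOneSpectrum.ext h)
  have hsub : ({v.asIdeal, v'.asIdeal} : Finset (Ideal (𝓞 F))) ⊆
      IsDedekindDomain.primesOverFinset p.asIdeal (𝓞 F) := by
    intro P hP
    rw [Finset.mem_insert, Finset.mem_singleton] at hP
    rcases hP with rfl | rfl
    · exact hmem v hv
    · exact hmem v' hv'
  constructor
  · have h1 := Finset.sum_le_sum_of_subset (f := f) hsub
    rw [hsum, Finset.sum_pair hne'] at h1
    have h2 := hpos v hv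
    have h3 := hpos v' hv'
    have h4 : f v.asIdeal = 1 := by omega
    rw [hf] at h4
    have h5 : p.asIdeal.ramificationIdx' v.asIdeal = 1 := Nat.eq_one_of_mul_eq_one_right h4
    have hlp := hl v hv
    have h6 := HeightOneSpectrum.valuation_liesOver (K := ℚ) F p v (q : ℚ)
    rw [map_natCast (algebraMap ℚ F)] at h6
    rw [← h6]
    have h7 : p.valuation ℚ (q : ℚ) = exp (-1 : ℤ) := by
      have h3 : ((q : ℤ) : ℚ) = algebraMap ℤ ℚ (q : ℤ) := rfl
      rw [show (q : ℚ) = ((q : ℤ) : ℚ) by push_cast; rfl, h3,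
        HeightOneSpectrum.valuation_of_algebraMap]
      exact HeightOneSpectrum.intValuation_singleton _ (by exact_mod_cast hq.ne_zero) rfl
    rw [h7, h5, pow_one]
  · intro w hw
    by_contra hcon
    push Not at hcon
    have hsub3 : ({w.asIdeal, v.asIdeal, v'.asIdeal} : Finset (Ideal (𝓞 F))) ⊆
        IsDedekindDomain.primesOverFinset p.asIdeal (𝓞 F) := by
      intro P hP
      rw [Finset.mem_insert] at hP
      rcases hP with rfl | hP
      · exact hmem w hw
      · exact hsub hP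
    have h1 := Finset.sum_le_sum_of_subset (f := f) hsub3
    have hn : w.asIdeal ∉ ({v.asIdeal, v'.asIdeal} : Finset (Ideal (𝓞 F))) := by
      intro h
      rw [Finset.mem_insert, Finset.mem_singleton] at h
      rcases h with h | h
      · exact hcon.1 (HeightOneSpectrum.ext h)
      · exact hcon.2 (HeightOneSpectrum.ext h)
    rw [hsum, Finset.sum_insert hn, Finset.sum_pair hne'] at h1
    have h2 := hpos v hv
    have h3 := hpos v' hv'
    have h4 := hpos w hw
    omega

lemma place_ext {v v' : HeightOneSpectrum (𝓞 F)}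
    (h : ∀ x : F, v.valuation F x = v'.valuation F x) : v = v' := by
  apply HeightOneSpectrum.ext
  ext x
  rw [← v.valuation_lt_one_iff_mem (K := F), ← v'.valuation_lt_one_iff_mem (K := F), h]

/-- elements of norm one with second coordinate divisible by three are locally cubes -/
lemma lc3_Q3 (K : Type) [Field K] [NumberField K] [IsGalois ℚ K]
    (hodd : Odd (Module.finrank ℚ K)) {D : ℤ} (hD : D % 3 = 2) {t : F}
    (ht : t ^ 2 = ((-3 * D : ℤ) : F)) {p r : ℚ} (hpq : p ^ 2 + 3 * D * (3 * r) ^ 2 = 1)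
    (hr : I3 r) : LC3 (algebraMap ℚ F p + algebraMap ℚ F (3 * r) * t) := by
  have hv : ∀ w : HeightOneSpectrum (𝓞 ℚ), (3 : 𝓞 ℚ) ∈ w.asIdeal →
      (Valued.v (3 : w.adicCompletion ℚ) : WithZero (Multiplicative ℤ)) < 1 := by
    intro w hw
    rw [valued_ofNat w 3]
    have h1 := (w.valuation_lt_one_iff_mem (K := ℚ) (3 : 𝓞 ℚ)).2 hw
    have e2 : ((3 : 𝓞 ℚ) : ℚ) = 3 := map_ofNat (algebraMap (𝓞 ℚ) ℚ) 3
    change w.valuation ℚ ((3 : 𝓞 ℚ) : ℚ) < 1 at h1
    rwa [e2] at h1
  refine lc3_of_loc (K := ℚ) ht ?_ ?_ ?_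
  · by_contra hcon
    push Not at hcon
    rw [hcon.1, hcon.2] at hpq
    norm_num at hpq
  · intro w hw z hz
    have hch : CharZero (w.adicCompletion ℚ) := charZero_of_alg (K := ℚ)
    have h3D : ¬ (3 : ℤ) ∣ D := by omega
    have h1 : (Valued.v (z ^ 2) : WithZero (Multiplicative ℤ)) =
        w.valuation ℚ ((3 : ℕ) : ℚ) := by
      rw [hz]
      push_cast
      rw [map_mul, Valuation.map_neg, v_one (hv w hw) h3D, mul_one, valued_ofNat w 3]
    have h5 := odd_log (K := ℚ) (N := K) hodd Nat.prime_three w (by exact_mod_cast hw)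
    rw [← h1, map_pow, log_pow] at h5
    obtain ⟨c, hc⟩ := h5
    rw [nsmul_eq_mul] at hc
    push_cast at hc
    omega
  · intro w hw
    have hch : CharZero (w.adicCompletion ℚ) := charZero_of_alg (K := ℚ)
    have h2 : (Valued.v (2 : w.adicCompletion ℚ) : WithZero (Multiplicative ℤ)) = 1 := by
      have := v_one (F := w.adicCompletion ℚ) (hv w hw) (n := 2) (by norm_num)
      exact_mod_cast this
    obtain ⟨x, y, hxy⟩ := cube3 (ad_hens w) (hv w hw) h2 hD hpq hr
    refine ⟨x, y, ?_⟩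
    rw [eq_ratCast, eq_ratCast]
    exact hxy

end

end H38T8
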