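import Pool.Agent.H38.T8.Cg

/-!
The class for a split prime in the real quadratic field, conclusion (MP_78d38b_T8, helper38).
-/

set_option autoImplicit false
set_option linter.unusedSectionVars false
open scoped Classical

open IsDedekindDomain NumberField WithZero Pool.Agent.H10 H55T3 H38T6 H86T3

namespace H38T8

lemma I3_third : ¬ I3 (1 / 3) := by
  rintro ⟨a, b, hb, h⟩
  apply hb
  refine ⟨a, ?_⟩
  have h1 : (b : ℚ) = 3 * a := by linarith
  exact_mod_cast h1

/-- residues of the coordinates of an element of norm one -/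
lemma norm_res {D : ℤ} (hD : D % 3 = 2) {p q : ℚ} (h : p ^ 2 + 3 * D * q ^ 2 = 1) :
    ∃ (f e : ℤ) (p' q' : ℚ), (f = 1 ∨ f = -1) ∧ (e = 0 ∨ e = 1 ∨ e = -1) ∧ I3 p' ∧ I3 q' ∧
      p = f + 3 * p' ∧ q = e + 3 * q' := by
  obtain ⟨hp, hq⟩ := norm_I3 hD h
  obtain ⟨f, p', hf, hp', hpf⟩ := hp.res
  obtain ⟨e, q', he, hq', hqe⟩ := hq.res
  refine ⟨f, e, p', q', ?_, he, hp', hq', hpf, hqe⟩
  rcases hf with hf | hf
  · exfalso
    apply I3_third
    have h1 : (1 / 3 : ℚ) = 3 * p' * p' + D * (q * q) := by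
      have h2 : p = 3 * p' := by rw [hpf, hf]; push_cast; ring
      rw [h2] at h
      linear_combination (-1 / 3 : ℚ) * h
    rw [h1]
    have i3 : I3 3 := by
      have := I3.int 3
      exact_mod_cast this
    exact ((i3.mul hp').mul hp').add ((I3.int D).mul (hq.mul hq))
  · exact hf

/-- one of the three products has second coordinate divisible by three -/
lemma adjust {D : ℤ} (hD : D % 3 = 2) {p q p₁ q₁ : ℚ} (h : p ^ 2 + 3 * D * q ^ 2 = 1)
    (h₁ : p₁ ^ 2 + 3 * D * q₁ ^ 2 = 1) (hn : ¬ ∃ r, I3 r ∧ q₁ = 3 * r) :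
    (∃ r, I3 r ∧ q = 3 * r) ∨ (∃ r, I3 r ∧ p * q₁ + q * p₁ = 3 * r) ∨
      ∃ r, I3 r ∧ q * p₁ - p * q₁ = 3 * r := by
  obtain ⟨f, e, p', q', hf, he, hp', hq', hp, hq⟩ := norm_res hD h
  obtain ⟨f₁, e₁, p₁', q₁', hf₁, he₁, hp₁', hq₁', hp₁, hq₁⟩ := norm_res hD h₁
  have hI := fun n : ℤ => I3.int n
  have i3 : I3 3 := by
    have := I3.int 3
    exact_mod_cast this
  have key : ∀ z : ℤ, f * e₁ + z * (e * f₁) = 0 → z = 1 ∨ z = -1 →
      ∃ r, I3 r ∧ p * q₁ + z * (q * p₁) = 3 * r := by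
    intro z hz hz1
    have hz' : (f : ℚ) * e₁ + z * (e * f₁) = 0 := by exact_mod_cast hz
    refine ⟨f * q₁' + p' * e₁ + 3 * p' * q₁' + z * (e * p₁' + q' * f₁ + 3 * q' * p₁'), ?_, ?_⟩
    · exact ((((hI f).mul hq₁').add (hp'.mul (hI e₁))).add ((i3.mul hp').mul hq₁')).add
        ((hI z).mul ((((hI e).mul hp₁').add (hq'.mul (hI f₁))).add ((i3.mul hq').mul hp₁')))
    · rw [hp, hq, hp₁, hq₁]
      linear_combination hz'
  have he₁0 : e₁ = 1 ∨ e₁ = -1 := by
    rcases he₁ with h2 | h2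
    · exfalso
      apply hn
      refine ⟨q₁', hq₁', ?_⟩
      rw [hq₁, h2]
      push_cast
      ring
    · exact h2
  rcases he with h2 | h2
  · left
    refine ⟨q', hq', ?_⟩
    rw [hq, h2]
    push_cast
    ring
  · right
    have h3 : f * e₁ + 1 * (e * f₁) = 0 ∨ f * e₁ + (-1) * (e * f₁) = 0 := by
      rcases hf with rfl | rfl <;> rcases hf₁ with rfl | rfl <;> rcases h2 with rfl | rfl <;>
        rcases he₁0 with rfl | rfl <;> norm_num
    rcases h3 with h3 | h3
    · left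
      obtain ⟨r, hr, h4⟩ := key 1 h3 (Or.inl rfl)
      refine ⟨r, hr, ?_⟩
      rw [← h4]
      push_cast
      ring
    · right
      obtain ⟨r, hr, h4⟩ := key (-1) h3 (Or.inr rfl)
      refine ⟨-r, hr.neg, ?_⟩
      push_cast at h4
      linear_combination -h4

section

variable {F : Type} [Field F] [NumberField F]

theorem phi_cls (K : Type) [Field K] [NumberField K] [IsGalois ℚ K]
    (hodd : Odd (Module.finrank ℚ K)) {D : ℤ} (hneg : D < 0) (h3 : D % 3 = 2)
    (hC : CubD D) (hns : ¬ IsSquare (-3 * D)) {t : F}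
    (ht : t ^ 2 = ((-3 * D : ℤ) : F)) (hF : Module.finrank ℚ F = 2) {g : F ≃ₐ[ℚ] F}
    (hg : g t = -t) (hgg : ∀ y, g (g y) = y)
    (hco : ∀ x : F, ∃ u v : ℚ, x = algebraMap ℚ F u + algebraMap ℚ F v * t) {q : ℕ}
    (hq : q.Prime) (hq2 : q ≠ 2) (hsp : ¬ NonSplit q (-3 * D)) :
    ∃ (d : F) (p r : ℚ), d ≠ 0 ∧ g d * d = 1 ∧
      (∀ v : HeightOneSpectrum (𝓞 F), (q : 𝓞 F) ∉ v.asIdeal → v.valuation F d = 1) ∧
      (∀ z : F, d ≠ z ^ 3) ∧ d = algebraMap ℚ F p + algebraMap ℚ F (3 * r) * t ∧ I3 r ∧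
      p ^ 2 + 3 * D * (3 * r) ^ 2 = 1 := by
  have htne : t ≠ 0 := by
    rintro rfl
    rw [zero_pow two_ne_zero] at ht
    have : (-3 * D : ℤ) = 0 := by exact_mod_cast ht.symm
    omega
  have ht' : t ^ 2 = -3 * (D : F) := by rw [ht]; push_cast; rfl
  -- norms
  have hnorm : ∀ p q : ℚ, g (algebraMap ℚ F p + algebraMap ℚ F q * t) *
      (algebraMap ℚ F p + algebraMap ℚ F q * t) = 1 → p ^ 2 + 3 * D * q ^ 2 = 1 := by
    intro p q h
    apply (algebraMap ℚ F).injective
    rw [map_one, ← h, map_add g, map_mul g, g.commutes, g.commutes, hg]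
    simp only [map_add, map_mul, map_pow, map_intCast, map_ofNat]
    linear_combination (algebraMap ℚ F q) ^ 2 * ht'
  -- the unit
  obtain ⟨u, hu1, huv, hu3⟩ := exists_unit (δ := -3 * D) (by omega) hns ht hg hco
  obtain ⟨p₁, q₁, hu⟩ := hco u
  have hnu := hnorm p₁ q₁ (by rw [← hu]; exact hu1)
  have hbase : ∀ (p r : ℚ), p ^ 2 + 3 * D * (3 * r) ^ 2 = 1 → I3 r →
      algebraMap ℚ F p + algebraMap ℚ F (3 * r) * t ≠ 0 →
      (∀ v : HeightOneSpectrum (𝓞 F), (3 : ℤ) ∣ log (v.valuation F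
        (algebraMap ℚ F p + algebraMap ℚ F (3 * r) * t))) →
      ∃ z : F, algebraMap ℚ F p + algebraMap ℚ F (3 * r) * t = z ^ 3 := by
    intro p r hpq hr hne hval
    exact base hneg h3 hC ht' hF (c := 1) (by rw [hpq]; norm_num) hne hval
      (lc3_Q3 K hodd h3 ht hpq hr)
  have hu0 : u ≠ 0 := by
    rintro rfl
    rw [mul_zero] at hu1
    exact zero_ne_one hu1
  have hnQ : ¬ ∃ r, I3 r ∧ q₁ = 3 * r := by
    rintro ⟨r, hr, hq₁⟩
    rw [hq₁] at hu hnu
    obtain ⟨z, hz⟩ := hbase p₁ r hnu hr (by rw [← hu]; exact hu0) (by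
      intro v
      rw [← hu, huv v, log_one]
      exact dvd_zero _)
    rw [← hu] at hz
    exact hu3 z hz
  -- the place and the element
  obtain ⟨v, r₀, t₀, hr₀, hv, hm1, hm2⟩ := ca_split ht hq hq2 hsp
  have hex : ∃ n : ℕ, 0 < n ∧ ∃ x : F, x ≠ 0 ∧ v.valuation F x = exp (-(n : ℤ)) ∧
      ∀ v' : HeightOneSpectrum (𝓞 F), v' ≠ v → v'.valuation F x = 1 := by
    obtain ⟨n, hn, x, hx0, hx⟩ := ca_gen v
    obtain ⟨h1, h2⟩ := ca_val hx
    exact ⟨n, hn, (x : F), RingOfIntegers.coe_ne_zero_iff.mpr hx0, h1, h2⟩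
  obtain ⟨n, hnd⟩ : ∃ n, n = Nat.find hex := ⟨_, rfl⟩
  obtain ⟨hpos, x, hx0, hvx, hvx'⟩ := Nat.find_spec hex
  rw [← hnd] at hpos hvx
  -- the conjugate place
  obtain ⟨vb, hvb, -⟩ := exists_conj (K := ℚ) g v
  have hqv : v.valuation F (q : F) < 1 := by
    have h1 := pc_lt v (n := (q : ℤ)) (by exact_mod_cast hv)
    exact_mod_cast h1
  have hqvb : (q : 𝓞 F) ∈ vb.asIdeal := by
    by_contra hcon
    have h1 := hvb (q : F)
    rw [map_natCast] at h1
    have h2 := pc_one vb (n := (q : ℤ)) (by exact_mod_cast hcon)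
    rw [Int.cast_natCast, ← h1] at h2
    rw [h2] at hqv
    exact lt_irrefl _ hqv
  have hvvb : v ≠ vb := by
    intro h
    have h1 := hvb (algebraMap (𝓞 F) F (r₀ - (t₀ : 𝓞 F)))
    rw [← h] at h1
    have h2 := (v.valuation_lt_one_iff_mem (K := F) (r₀ - (t₀ : 𝓞 F))).2 hm1
    rw [← h1] at h2
    have h3 : g (algebraMap (𝓞 F) F (r₀ - (t₀ : 𝓞 F))) =
        -(algebraMap (𝓞 F) F (r₀ + (t₀ : 𝓞 F))) := by
      have hr' : algebraMap (𝓞 F) F r₀ = t := hr₀
      rw [map_sub, map_add, hr', map_intCast, map_sub, hg, map_intCast]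
      ring
    rw [h3, Valuation.map_neg] at h2
    exact hm2 ((v.valuation_lt_one_iff_mem (K := F) _).1 h2)
  obtain ⟨hq1, hq2'⟩ := two_places hF hq hv hqvb hvvb
  -- valuations of g x
  have hgx : ∀ v' : HeightOneSpectrum (𝓞 F), v' ≠ vb → v'.valuation F (g x) = 1 := by
    intro v' hv'
    obtain ⟨v'', hv'', -⟩ := exists_conj (K := ℚ) g v'
    rw [hv'' x]
    apply hvx'
    rintro rfl
    apply hv'
    apply place_ext
    intro y
    rw [← hvb y, ← hv'' (g y), hgg]
  have hgxb : vb.valuation F (g x) = exp (-(n : ℤ)) := by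
    rw [← hvb (g x), hgg, hvx]
  have hgx0 : g x ≠ 0 := (map_ne_zero_iff g g.injective).2 hx0
  obtain ⟨y, hy⟩ : ∃ y, y = x / g x := ⟨_, rfl⟩
  have hy0 : y ≠ 0 := by rw [hy]; exact div_ne_zero hx0 hgx0
  have hy1 : g y * y = 1 := by
    rw [hy, map_div₀, hgg, div_mul_div_comm, mul_comm, div_self (mul_ne_zero hx0 hgx0)]
  obtain ⟨p, q', hpq⟩ := hco y
  have hny := hnorm p q' (by rw [← hpq]; exact hy1)
  -- the adjusted element
  have hadj : ∃ (w : F) (p' r : ℚ), g w * w = 1 ∧ (∀ v' : HeightOneSpectrum (𝓞 F),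
      v'.valuation F w = 1) ∧ y * w = algebraMap ℚ F p' + algebraMap ℚ F (3 * r) * t ∧ I3 r := by
    rcases adjust h3 hny hnu hnQ with ⟨r, hr, h1⟩ | ⟨r, hr, h1⟩ | ⟨r, hr, h1⟩
    · refine ⟨1, p, r, by rw [map_one, one_mul], fun v' => by rw [map_one], ?_, hr⟩
      rw [mul_one, hpq, h1]
    · refine ⟨u, p * p₁ + (-3 * D) * (q' * q₁), r, hu1, huv, ?_, hr⟩
      rw [← h1, hpq, hu]
      simp only [map_add, map_mul, map_intCast, map_ofNat, map_neg]
      linear_combination (algebraMap ℚ F q') * (algebraMap ℚ F q₁) * ht'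
    · refine ⟨g u, p * p₁ - (-3 * D) * (q' * q₁), r, ?_, ?_, ?_, hr⟩
      · rw [hgg, mul_comm]
        exact hu1
      · intro v'
        obtain ⟨v'', hv'', -⟩ := exists_conj (K := ℚ) g v'
        rw [hv'' u, huv]
      · rw [← h1, hpq, hu, map_add g, map_mul g, g.commutes, g.commutes, hg]
        simp only [map_sub, map_mul, map_intCast, map_ofNat, map_neg]
        linear_combination -(algebraMap ℚ F q') * (algebraMap ℚ F q₁) * ht'
  obtain ⟨w, p', r, hw1, hwv, hyw, hr⟩ := hadj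
  have hw0 : w ≠ 0 := by
    rintro rfl
    rw [mul_zero] at hw1
    exact zero_ne_one hw1
  have hd0 : y * w ≠ 0 := mul_ne_zero hy0 hw0
  have hd1 : g (y * w) * (y * w) = 1 := by
    rw [map_mul]
    linear_combination g w * w * hy1 + hw1
  have hnd' := hnorm p' (3 * r) (by rw [← hyw]; exact hd1)
  have hvd : ∀ v' : HeightOneSpectrum (𝓞 F), v'.valuation F (y * w) =
      v'.valuation F x / v'.valuation F (g x) := by
    intro v'
    rw [map_mul, hwv, mul_one, hy, map_div₀]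
  have hvdv : v.valuation F (y * w) = exp (-(n : ℤ)) := by
    rw [hvd, hvx, hgx v hvvb, div_one]
  refine ⟨y * w, p', r, hd0, hd1, ?_, ?_, hyw, hr, hnd'⟩
  · intro v' hv'
    rw [hvd, hvx' v', hgx v', div_one]
    · rintro rfl
      exact hv' hqvb
    · rintro rfl
      exact hv' hv
  · intro z hz
    -- the valuation is not divisible by three
    have h3n : 3 ∣ n := by
      rw [hz, map_pow] at hvdv
      have h5 := congrArg log hvdv
      rw [log_pow, log_exp, nsmul_eq_mul] at h5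
      push_cast at h5
      omega
    obtain ⟨k, hk⟩ := h3n
    have hz0 : z ≠ 0 := by
      rintro rfl
      rw [zero_pow three_ne_zero] at hz
      exact hd0 hz
    have hq0 : (q : F) ≠ 0 := by exact_mod_cast hq.ne_zero
    have hcube : ∀ (v' : HeightOneSpectrum (𝓞 F)) (j : ℤ), v'.valuation F z ^ 3 = exp (3 * j) →
        v'.valuation F z = exp j := by
      intro v' j h
      have h5 : v'.valuation F z ^ 3 = exp j ^ 3 := by
        rw [h, ← exp_nsmul]
        congr 1
      exact (pow_left_inj₀ zero_le zero_le three_ne_zero).1 h5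
    have hvz : v.valuation F z = exp (-(k : ℤ)) := by
      apply hcube
      rw [← map_pow, ← hz, hvdv, hk]
      congr 1
      push_cast
      ring
    have hmin := Nat.find_min' hex (m := k) ⟨by omega, x / (z * (q : F) ^ k),
      div_ne_zero hx0 (mul_ne_zero hz0 (pow_ne_zero k hq0)), ?_, ?_⟩
    · rw [← hnd] at hmin
      omega
    · rw [map_div₀, map_mul, map_pow, hvx, hvz, hq1, ← exp_nsmul, ← exp_add, ← exp_sub, hk]
      congr 1
      simp only [nsmul_eq_mul]
      push_cast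
      ring
    · intro v' hv'
      rw [map_div₀, map_mul, map_pow, hvx' v' hv']
      by_cases hvb' : v' = vb
      · have hzb : v'.valuation F z = exp (k : ℤ) := by
          apply hcube
          rw [← map_pow, ← hz, hvd, hvx' v' hv', hvb', hgxb, hk, one_div, ← exp_neg]
          congr 1
          push_cast
          ring
        have hqb : v'.valuation F (q : F) = exp (-1 : ℤ) := by
          have h6 := hvb (q : F)
          rw [map_natCast] at h6
          rw [hvb', ← h6, hq1]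
        rw [hzb, hqb, ← exp_nsmul, ← exp_add]
        have : (k : ℤ) + k • (-1 : ℤ) = 0 := by simp
        rw [this, exp_zero, div_one]
      · have hzb : v'.valuation F z = 1 := by
          have h6 := hcube v' 0 (by
            rw [← map_pow, ← hz, hvd, hvx' v' hv', hgx v' hvb', div_one, mul_zero, exp_zero])
          rw [h6, exp_zero]
        have hqb : v'.valuation F (q : F) = 1 := by
          have h6 : (q : 𝓞 F) ∉ v'.asIdeal := by
            intro h7
            rcases hq2' v' h7 with h8 | h8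
            · exact hv' h8
            · exact hvb' h8
          have h7 := pc_one v' (n := (q : ℤ)) (by exact_mod_cast h6)
          exact_mod_cast h7
        rw [hzb, hqb, one_pow, one_mul, div_one]

end

end H38T8
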