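import Pool.Agent.H38.T8.Ia
import Pool.Agent.H38.T6.Dc

/-!
The cocycle over K attached to an element of a quadratic extension B, and the conclusion (MP_78d38b_T8, helper38).
-/

set_option autoImplicit false
set_option linter.unusedSectionVars false
open scoped Classical

open WeierstrassCurve IsDedekindDomain NumberField WithZero Pool.Agent.H10 Pool.Agent.H11 H55T3 H38T6

namespace H38T8

theorem ee_opp {k : Type*} [Field k] {W : WeierstrassCurve k} {D a b s : k} (h : Is3 W D a b)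
    (hs : s ^ 2 = D) {P : W.toAffine.Point} (hP : Kr P) : ee (-s) b P = (ee s b P)⁻¹ := by
  rcases Ke_kr h hP with rfl | ⟨y, n, rfl, hy⟩
  · rw [ee_zero, ee_zero, inv_one]
  · change (y - (-s) * b) / (2 * (-s) * b) = ((y - s * b) / (2 * s * b))⁻¹
    have h1 := Ke_quad h hs hy
    have h2 : (y - (-s) * b) / (2 * (-s) * b) = -1 - (y - s * b) / (2 * s * b) := by
      have h6 := Ke_s h hs
      have h7 := h.hb
      have h8 := h.two
      field_simp
      ring
    rw [h2]
    apply eq_inv_of_mul_eq_one_left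
    linear_combination -h1

theorem ee_ne {k : Type*} [Field k] {W : WeierstrassCurve k} {D a b s : k} (h : Is3 W D a b)
    (hs : s ^ 2 = D) {P : W.toAffine.Point} (hP : Kr P) : ee s b P ≠ 0 := by
  intro h0
  have h1 := ee_cube h hs hP
  rw [h0, zero_pow (by norm_num)] at h1
  exact zero_ne_one h1

section

variable {K B : Type} [Field K] [NumberField K] [Field B] [NumberField B] [Algebra K B]

/-- the embedding of `B` in the closure of `K` -/
noncomputable def jB (K B : Type) [Field K] [NumberField K] [Field B] [NumberField B]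
    [Algebra K B] : B →+* AlgebraicClosure K :=
  ((jj K B).symm : AlgebraicClosure B →+* AlgebraicClosure K).comp
    (algebraMap B (AlgebraicClosure B))

lemma jj_jB (x : B) : jj K B (jB K B x) = algebraMap B (AlgebraicClosure B) x :=
  (jj K B).apply_symm_apply _

lemma jB_K (x : K) : jB K B (algebraMap K B x) = algebraMap K (AlgebraicClosure K) x := by
  change (jj K B).symm (algebraMap B (AlgebraicClosure B) (algebraMap K B x)) = _
  rw [← IsScalarTower.algebraMap_apply K B (AlgebraicClosure B)]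
  exact (jj K B).symm.commutes x

/-- data for the cocycle -/
structure CD (V : WeierstrassCurve K) (D a b : K) (s d : B) (g : B ≃ₐ[K] B) (ρ : K)
    (δ : AlgebraicClosure K) : Prop where
  is3 : Is3 V D a b
  hs : s ^ 2 = algebraMap K B D
  hg : g s = -s
  span : ∀ x : B, ∃ u v : K, x = algebraMap K B u + algebraMap K B v * s
  hd : d ≠ 0
  hn : g d * d = algebraMap K B ρ ^ 3
  hδ : δ ^ 3 = jB K B d

variable {V : WeierstrassCurve K} {D a b : K} {s d : B} {g : B ≃ₐ[K] B} {ρ : K}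
  {δ : AlgebraicClosure K}

lemma CD.ne (h : CD V D a b s d g ρ δ) : δ ≠ 0 := by
  intro h0
  have h1 := h.hδ
  rw [h0, zero_pow three_ne_zero] at h1
  exact h.hd ((map_eq_zero_iff _ (jB K B).injective).1 h1.symm)

lemma CD.ρne (h : CD V D a b s d g ρ δ) : ρ ≠ 0 := by
  rintro rfl
  have h1 := h.hn
  rw [map_zero, zero_pow three_ne_zero, mul_eq_zero, map_eq_zero] at h1
  exact h.hd (h1.elim id id)

lemma CD.S2 (h : CD V D a b s d g ρ δ) :
    (jB K B s) ^ 2 = algebraMap K (AlgebraicClosure K) D := by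
  rw [← map_pow, h.hs, jB_K]

lemma CD.sig_or (h : CD V D a b s d g ρ δ) (σ : AlgebraicClosure K ≃ₐ[K] AlgebraicClosure K) :
    σ (jB K B s) = jB K B s ∨ σ (jB K B s) = -jB K B s := by
  have h1 : (σ (jB K B s)) ^ 2 = (jB K B s) ^ 2 := by
    rw [← map_pow, h.S2, σ.commutes]
  exact sq_eq_sq_iff_eq_or_eq_neg.1 h1

lemma CD.sig_pos (h : CD V D a b s d g ρ δ) {σ : AlgebraicClosure K ≃ₐ[K] AlgebraicClosure K}
    (hσ : σ (jB K B s) = jB K B s) (x : B) : σ (jB K B x) = jB K B x := by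
  obtain ⟨u, v, rfl⟩ := h.span x
  rw [map_add, map_mul, jB_K, jB_K, map_add, map_mul, σ.commutes, σ.commutes, hσ]

lemma CD.sig_neg (h : CD V D a b s d g ρ δ) {σ : AlgebraicClosure K ≃ₐ[K] AlgebraicClosure K}
    (hσ : σ (jB K B s) = -jB K B s) (x : B) : σ (jB K B x) = jB K B (g x) := by
  obtain ⟨u, v, rfl⟩ := h.span x
  rw [map_add, map_mul, jB_K, jB_K, map_add, map_mul, σ.commutes, σ.commutes, hσ, map_add, map_mul,
    g.commutes, g.commutes, h.hg, map_add, map_mul, jB_K, jB_K, map_neg]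

/-- the values of the cocycle -/
noncomputable def eF (s : B) (ρ : K) (δ : AlgebraicClosure K)
    (σ : AlgebraicClosure K ≃ₐ[K] AlgebraicClosure K) : AlgebraicClosure K :=
  if σ (jB K B s) = jB K B s then σ δ / δ
  else algebraMap K (AlgebraicClosure K) ρ / (σ δ * δ)

lemma CD.sne (h : CD V D a b s d g ρ δ) : jB K B s ≠ -jB K B s := by
  intro h0
  have h1 : (2 : AlgebraicClosure K) * jB K B s = 0 := by linear_combination h0
  have h2 : jB K B s = 0 := (mul_eq_zero.1 h1).resolve_left two_ne_zero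
  have h3 := h.S2
  rw [h2, zero_pow two_ne_zero] at h3
  exact h.is3.hD ((map_eq_zero_iff _ (algebraMap K (AlgebraicClosure K)).injective).1 h3.symm)

lemma eF_pos {σ : AlgebraicClosure K ≃ₐ[K] AlgebraicClosure K}
    (hσ : σ (jB K B s) = jB K B s) : eF s ρ δ σ = σ δ / δ := if_pos hσ

lemma CD.eF_neg (h : CD V D a b s d g ρ δ) {σ : AlgebraicClosure K ≃ₐ[K] AlgebraicClosure K}
    (hσ : σ (jB K B s) = -jB K B s) :
    eF s ρ δ σ = algebraMap K (AlgebraicClosure K) ρ / (σ δ * δ) :=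
  if_neg fun h0 => h.sne (h0.symm.trans hσ)

lemma CD.sδ (σ : AlgebraicClosure K ≃ₐ[K] AlgebraicClosure K) (h : CD V D a b s d g ρ δ) :
    σ δ ≠ 0 := (map_ne_zero_iff σ σ.injective).2 h.ne

lemma CD.cube (h : CD V D a b s d g ρ δ) (σ : AlgebraicClosure K ≃ₐ[K] AlgebraicClosure K) :
    eF s ρ δ σ ^ 3 = 1 := by
  have h0 := h.ne
  have h1 := h.sδ σ
  rcases h.sig_or σ with hσ | hσ
  · rw [eF_pos hσ, div_pow, ← map_pow, h.hδ, h.sig_pos hσ, div_self]
    rw [← h.hδ]
    exact pow_ne_zero 3 h0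
  · rw [h.eF_neg hσ, div_pow, mul_pow, ← map_pow σ, h.hδ, h.sig_neg hσ, ← map_mul, h.hn, ← map_pow,
      ← map_pow, jB_K, div_self]
    exact (map_ne_zero_iff _ (algebraMap K (AlgebraicClosure K)).injective).2
      (pow_ne_zero 3 h.ρne)

lemma CD.mul_pos (h : CD V D a b s d g ρ δ) {σ : AlgebraicClosure K ≃ₐ[K] AlgebraicClosure K}
    (hσ : σ (jB K B s) = jB K B s) (τ : AlgebraicClosure K ≃ₐ[K] AlgebraicClosure K) :
    eF s ρ δ (σ * τ) = eF s ρ δ σ * σ (eF s ρ δ τ) := by
  have h0 := h.ne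
  have h1 := h.sδ σ
  have h2 := h.sδ (σ * τ)
  have h5 := (map_ne_zero_iff σ σ.injective).2 (h.sδ τ)
  rw [AlgEquiv.mul_apply] at h2
  rcases h.sig_or τ with hτ | hτ
  · have h3 : (σ * τ) (jB K B s) = jB K B s := by rw [AlgEquiv.mul_apply, hτ, hσ]
    rw [eF_pos hσ, eF_pos hτ, eF_pos h3, AlgEquiv.mul_apply, map_div₀]
    field_simp
  · have h3 : (σ * τ) (jB K B s) = -jB K B s := by rw [AlgEquiv.mul_apply, hτ, map_neg, hσ]
    rw [eF_pos hσ, h.eF_neg hτ, h.eF_neg h3, AlgEquiv.mul_apply, map_div₀, map_mul, σ.commutes]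
    field_simp

lemma CD.mul_neg (h : CD V D a b s d g ρ δ) {σ : AlgebraicClosure K ≃ₐ[K] AlgebraicClosure K}
    (hσ : σ (jB K B s) = -jB K B s) (τ : AlgebraicClosure K ≃ₐ[K] AlgebraicClosure K) :
    eF s ρ δ (σ * τ) = eF s ρ δ σ * (σ (eF s ρ δ τ))⁻¹ := by
  have h0 := h.ne
  have h1 := h.sδ σ
  have h2 := h.sδ (σ * τ)
  have h5 := (map_ne_zero_iff σ σ.injective).2 (h.sδ τ)
  have h6 : algebraMap K (AlgebraicClosure K) ρ ≠ 0 :=
    (map_ne_zero_iff _ (algebraMap K (AlgebraicClosure K)).injective).2 h.ρne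
  rw [AlgEquiv.mul_apply] at h2
  rcases h.sig_or τ with hτ | hτ
  · have h3 : (σ * τ) (jB K B s) = -jB K B s := by rw [AlgEquiv.mul_apply, hτ, hσ]
    rw [h.eF_neg hσ, eF_pos hτ, h.eF_neg h3, AlgEquiv.mul_apply, map_div₀]
    field_simp
  · have h3 : (σ * τ) (jB K B s) = jB K B s := by
      rw [AlgEquiv.mul_apply, hτ, map_neg, hσ, neg_neg]
    rw [h.eF_neg hσ, h.eF_neg hτ, eF_pos h3, AlgEquiv.mul_apply, map_div₀, map_mul, σ.commutes]
    field_simp

/-- the point of the kernel with a given character value -/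
noncomputable def ptK {k : Type*} [Field k] {E : WeierstrassCurve k} {D a b : k} (h : Is3 E D a b)
    {S : k} (hS : S ^ 2 = D) (z : k) : E.toAffine.Point :=
  if hz : z ^ 3 = 1 then (ee_surj h hS hz).choose else 0

lemma ptK_spec {k : Type*} [Field k] {E : WeierstrassCurve k} {D a b : k} (h : Is3 E D a b)
    {S : k} (hS : S ^ 2 = D) {z : k} (hz : z ^ 3 = 1) :
    Kr (ptK h hS z) ∧ ee S b (ptK h hS z) = z := by
  have h1 : ptK h hS z = (ee_surj h hS hz).choose := dif_pos hz
  rw [h1]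
  exact (ee_surj h hS hz).choose_spec

theorem CD.exists_coc (h : CD V D a b s d g ρ δ) : ∃ f : Coch K V, IsCocycle K V f ∧
    (∀ σ, Kr (f σ)) ∧ ∀ σ, ee (jB K B s) (algebraMap K (AlgebraicClosure K) b) (f σ) =
      eF s ρ δ σ := by
  have hE := h.is3.bc (AlgebraicClosure K)
  refine ⟨fun σ => ptK hE h.S2 (eF s ρ δ σ), ?_, fun σ => (ptK_spec hE h.S2 (h.cube σ)).1,
    fun σ => (ptK_spec hE h.S2 (h.cube σ)).2⟩
  rw [Pool.Agent.H10.isCocycle_iff]
  constructor
  · rw [lc_iff]
    intro σ₀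
    refine ⟨{jB K B s, δ}, fun σ hσ => ?_⟩
    have h1 := hσ (jB K B s) (by simp)
    have h2 := hσ δ (by simp)
    have h3 : eF s ρ δ σ = eF s ρ δ σ₀ := by
      unfold eF
      rw [h1, h2]
    rw [h3]
  · intro σ τ
    obtain ⟨k1, e1⟩ := ptK_spec hE h.S2 (h.cube σ)
    obtain ⟨k2, e2⟩ := ptK_spec hE h.S2 (h.cube τ)
    obtain ⟨k3, e3⟩ := ptK_spec hE h.S2 (h.cube (σ * τ))
    have k4 : Kr (Pool.Agent.H10.act (inv_bc K V) σ (ptK hE h.S2 (eF s ρ δ τ))) := (kr_pm _ _).2 k2
    apply ee_inj hE h.S2 k3 (kr_add hE k1 k4)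
    rw [ee_add hE h.S2 k1 k4, e1, e3]
    have h4 := ee_pm (s := jB K B s) (b := algebraMap K (AlgebraicClosure K) b)
      (φ := (σ : AlgebraicClosure K →+* AlgebraicClosure K)) (inv_bc K V σ)
      (ptK hE h.S2 (eF s ρ δ τ))
    rw [e2] at h4
    have h5 : (σ : AlgebraicClosure K →+* AlgebraicClosure K)
      (algebraMap K (AlgebraicClosure K) b) = algebraMap K (AlgebraicClosure K) b := σ.commutes _
    rw [h5] at h4
    rcases h.sig_or σ with hσ | hσ
    · have h6 : (σ : AlgebraicClosure K →+* AlgebraicClosure K) (jB K B s) = jB K B s := hσ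
      rw [h6] at h4
      rw [h.mul_pos hσ]
      congr 1
      exact h4.symm
    · have h6 : (σ : AlgebraicClosure K →+* AlgebraicClosure K) (jB K B s) = -jB K B s := hσ
      rw [h6] at h4
      have h7 := ee_opp hE h.S2 k4
      rw [h.mul_neg hσ]
      congr 1
      have h8 : (ee (jB K B s) (algebraMap K (AlgebraicClosure K) b)
          (Pool.Agent.H10.act (inv_bc K V) σ (ptK hE h.S2 (eF s ρ δ τ))))⁻¹ =
          σ (eF s ρ δ τ) := h7.symm.trans h4
      rw [← h8, inv_inv]

/-- the class of the restriction -/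
theorem CD.res_class (h : CD V D a b s d g ρ δ) {V' : WeierstrassCurve B}
    (hV : V.map (algebraMap K B) = V') {f : Coch K V}
    (hf : ∀ σ, ee (jB K B s) (algebraMap K (AlgebraicClosure K) b) (f σ) = eF s ρ δ σ)
    (τ : AlgebraicClosure B ≃ₐ[B] AlgebraicClosure B) :
    τ (jj K B δ) = ee (algebraMap B (AlgebraicClosure B) s)
      (algebraMap B (AlgebraicClosure B) (algebraMap K B b)) (resF hV f τ) * jj K B δ := by
  obtain ⟨σ, hσ⟩ : ∃ σ : AlgebraicClosure K ≃ₐ[K] AlgebraicClosure K,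
    σ = ((jj K B).trans (τ.restrictScalars K)).trans (jj K B).symm := ⟨_, rfl⟩
  have h1 : ∀ x, jj K B (σ x) = τ (jj K B x) := by
    intro x
    rw [hσ]
    exact (jj K B).apply_symm_apply _
  have h2 : σ (jB K B s) = jB K B s := by
    apply (jj K B).injective
    rw [h1, jj_jB, τ.commutes]
  have h3 : resF hV f τ = pm (jj K B : AlgebraicClosure K →+* AlgebraicClosure B) (map_jj hV)
      (f σ) := by
    rw [hσ]
    rfl
  have h4 := ee_pm (s := jB K B s) (b := algebraMap K (AlgebraicClosure K) b)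
    (φ := (jj K B : AlgebraicClosure K →+* AlgebraicClosure B)) (map_jj hV) (f σ)
  have h5 : (jj K B : AlgebraicClosure K →+* AlgebraicClosure B) (jB K B s) =
    algebraMap B (AlgebraicClosure B) s := jj_jB s
  have h6 : (jj K B : AlgebraicClosure K →+* AlgebraicClosure B)
      (algebraMap K (AlgebraicClosure K) b) =
      algebraMap B (AlgebraicClosure B) (algebraMap K B b) := by
    rw [← jB_K (B := B)]
    exact jj_jB _
  rw [h5, h6] at h4
  have h7 : jj K B δ ≠ 0 := (map_ne_zero_iff _ (jj K B).injective).2 h.ne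
  rw [h3, h4, hf, eF_pos h2, ← h1]
  change jj K B (σ δ) = jj K B (σ δ / δ) * jj K B δ
  rw [map_div₀, div_mul_cancel₀ _ h7]

/-- local triviality over `K` -/
theorem CD.locTriv (h : CD V D a b s d g ρ δ) (h2 : Module.finrank K B = 2)
    {W : WeierstrassCurve K} (hW : Is3 W (-3 * D) a (dl D a b)) {f : Coch K V}
    (hc : IsCocycle K V f) (hk : ∀ σ, Kr (f σ))
    (hf : ∀ σ, ee (jB K B s) (algebraMap K (AlgebraicClosure K) b) (f σ) = eF s ρ δ σ)
    (H : ∀ v : HeightOneSpectrum (𝓞 B), PtSol (algebraMap B (v.adicCompletion B) s)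
      (algebraMap B (v.adicCompletion B) (algebraMap K B a))
      (algebraMap B (v.adicCompletion B) (algebraMap K B (9 * b + 4 * D * a ^ 3)))
      (algebraMap B (v.adicCompletion B) d)) : IsLocTriv K V f := by
  have hV' : V.map (algebraMap K B) = V.map (algebraMap K B) := rfl
  have hVB : Is3 (V.map (algebraMap K B)) (algebraMap K B D) (algebraMap K B a)
    (algebraMap K B b) := h.is3.up rfl
  have hWB : Is3 (W.map (algebraMap K B)) (-3 * algebraMap K B D) (algebraMap K B a)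
      (dl (algebraMap K B D) (algebraMap K B a) (algebraMap K B b)) := by
    have h1 := hW.up (φ := algebraMap K B) rfl
    rw [dl_map] at h1
    simpa only [map_mul, map_neg, map_ofNat] using h1
  have hδ3 : (jj K B δ) ^ 3 = algebraMap B (AlgebraicClosure B) d := by
    rw [← map_pow, h.hδ, jj_jB]
  have hδ0 : jj K B δ ≠ 0 := (map_ne_zero_iff _ (jj K B).injective).2 h.ne
  have hres : IsLocTriv B (V.map (algebraMap K B)) (resF hV' f) := by
    refine locTriv_of hVB hWB (s := s) h.hs (f := resF hV' f) (fun τ => (kr_pm _ _).2 (hk _))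
      hδ0 hδ3 (fun τ => h.res_class hV' hf τ) (fun v => ?_)
    have h3 := H v
    simp only [map_add, map_mul, map_pow, map_ofNat] at h3 ⊢
    exact h3
  have hcor := isLocTriv_cor hV' (isCocycle_res hV' hc) hres
  have hcorc := isCocycle_cor hV' (isCocycle_res hV' hc)
  have hA : (corF hV' (resF hV' f) : Coch K V) ∈ ShaZ K V := ⟨hcorc, hcor⟩
  have hC := shaB_le K V (corF_resF hV' hc)
  have h3 : ∀ σ, 3 • f σ = 0 := fun σ => kr_three (h.is3.bc (AlgebraicClosure K)) (hk σ)
  have h4 : (2 : ℕ) • ((corF hV' (resF hV' f) : Coch K V) -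
      (fun σ => corF hV' (resF hV' f) σ - Module.finrank K B • f σ)) ∈ ShaZ K V :=
    (ShaZ K V).nsmul_mem ((ShaZ K V).sub_mem hA hC) 2
  have h5 : (2 : ℕ) • ((corF hV' (resF hV' f) : Coch K V) -
      (fun σ => corF hV' (resF hV' f) σ - Module.finrank K B • f σ)) = f := by
    funext σ
    change (2 : ℕ) • (corF hV' (resF hV' f) σ -
      (corF hV' (resF hV' f) σ - Module.finrank K B • f σ)) = f σ
    rw [h2, sub_sub_cancel, smul_smul]
    have h6 := h3 σ
    calc (2 * 2) • f σ = 3 • f σ + 1 • f σ := by rw [← add_smul]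
      _ = f σ := by rw [h6, zero_add, one_smul]
  rw [h5] at h4
  exact h4.2

/-- the conclusion -/
theorem CD.final (h : CD V D a b s d g ρ δ) (h2 : Module.finrank K B = 2)
    {W : WeierstrassCurve K} (hW : Is3 W (-3 * D) a (dl D a b))
    (H : ∀ v : HeightOneSpectrum (𝓞 B), PtSol (algebraMap B (v.adicCompletion B) s)
      (algebraMap B (v.adicCompletion B) (algebraMap K B a))
      (algebraMap B (v.adicCompletion B) (algebraMap K B (9 * b + 4 * D * a ^ 3)))
      (algebraMap B (v.adicCompletion B) d)) (hS : NoSha3 K V)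
    (hdiv : Div3 K W) : ∃ y : B, d = y ^ 3 := by
  obtain ⟨f, hc, hk, hf⟩ := h.exists_coc
  have hE := h.is3.bc (AlgebraicClosure K)
  have hE' := hW.bcd (AlgebraicClosure K)
  have hl := h.locTriv h2 hW hc hk hf H
  have h3 : ∀ σ, 3 • f σ = 0 := fun σ => kr_three hE (hk σ)
  have hcob : IsCobound K V f := by
    refine hS f ⟨hc, hl, 1, ?_⟩
    rw [Pool.Agent.H10.isCobound_iff]
    refine ⟨0, fun σ => ?_⟩
    rw [pow_one, h3, map_zero, sub_zero]
  rw [Pool.Agent.H10.isCobound_iff] at hcob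
  obtain ⟨R, hR⟩ := hcob
  -- the image of R is rational
  have hWK : W.map (algebraMap K (AlgebraicClosure K)) = W.baseChange (AlgebraicClosure K) := rfl
  have hfix : ∀ σ : AlgebraicClosure K ≃ₐ[K] AlgebraicClosure K,
      Pool.Agent.H10.act (inv_bc K W) σ (pf V W D a b (AlgebraicClosure K) R) =
        pf V W D a b (AlgebraicClosure K) R := by
    intro σ
    rw [← pf_act h.is3 hW, ← sub_eq_zero, ← pf_sub h.is3 hW, ← hR σ]
    exact psF_kr (hk σ)
  obtain ⟨P, hP⟩ := pm_descent hWK (inv_bc K W) _ hfix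
  obtain ⟨Q, hQ⟩ := hdiv P
  obtain ⟨R₁, hR₁⟩ := psF_surj hE hE' (pm (algebraMap K (AlgebraicClosure K)) hWK Q)
  have hR₁' : pf V W D a b (AlgebraicClosure K) R₁ =
    pm (algebraMap K (AlgebraicClosure K)) hWK Q := hR₁
  have hactQ : ∀ σ : AlgebraicClosure K ≃ₐ[K] AlgebraicClosure K,
      Pool.Agent.H10.act (inv_bc K W) σ (pm (algebraMap K (AlgebraicClosure K)) hWK Q) =
        pm (algebraMap K (AlgebraicClosure K)) hWK Q := by
    intro σ
    unfold Pool.Agent.H10.act
    rw [pm_pm]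
    exact pm_congr _ _ (fun z => σ.commutes z) _
  have hk1 : ∀ σ : AlgebraicClosure K ≃ₐ[K] AlgebraicClosure K,
      Kr (Pool.Agent.H10.act (inv_bc K V) σ R₁ - R₁) := by
    intro σ
    rw [← psF_eq_zero hE hE']
    change pf V W D a b (AlgebraicClosure K) (Pool.Agent.H10.act (inv_bc K V) σ R₁ - R₁) = 0
    rw [pf_sub h.is3 hW, pf_act h.is3 hW, hR₁', hactQ, sub_self]
  obtain ⟨T, hT⟩ : ∃ T, T = R - 3 • R₁ := ⟨_, rfl⟩
  have h3R : pf V W D a b (AlgebraicClosure K) (3 • R₁) =
      3 • pf V W D a b (AlgebraicClosure K) R₁ := by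
    have e1 : (3 : ℕ) • R₁ = R₁ + R₁ + R₁ := by
      rw [show (3 : ℕ) = 2 + 1 from rfl, add_smul, two_smul, one_smul]
    have e2 : (3 : ℕ) • pf V W D a b (AlgebraicClosure K) R₁ =
        pf V W D a b (AlgebraicClosure K) R₁ + pf V W D a b (AlgebraicClosure K) R₁ +
        pf V W D a b (AlgebraicClosure K) R₁ := by
      rw [show (3 : ℕ) = 2 + 1 from rfl, add_smul, two_smul, one_smul]
    rw [e1, e2, pf_add h.is3 hW, pf_add h.is3 hW]
  have hkT : Kr T := by
    rw [← psF_eq_zero hE hE']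
    change pf V W D a b (AlgebraicClosure K) T = 0
    rw [hT, pf_sub h.is3 hW, h3R, hR₁', ← hP, hQ, map_nsmul, sub_self]
  have hfT : ∀ σ, f σ = Pool.Agent.H10.act (inv_bc K V) σ T - T := by
    intro σ
    have e1 := kr_three hE (hk1 σ)
    rw [nsmul_sub, ← map_nsmul] at e1
    rw [hR σ, hT, map_sub]
    rw [sub_eq_zero] at e1
    rw [e1]
    abel
  -- the class over B
  have hV' : V.map (algebraMap K B) = V.map (algebraMap K B) := rfl
  have hVB : Is3 (V.map (algebraMap K B)) (algebraMap K B D) (algebraMap K B a)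
    (algebraMap K B b) := h.is3.up rfl
  have hEB := hVB.bc (AlgebraicClosure B)
  have hsB : (algebraMap B (AlgebraicClosure B) s) ^ 2 =
    algebraMap B (AlgebraicClosure B) (algebraMap K B D) := by rw [← map_pow, h.hs]
  have hδ0 : jj K B δ ≠ 0 := (map_ne_zero_iff _ (jj K B).injective).2 h.ne
  obtain ⟨T', hT'⟩ : ∃ T', T' = pm (jj K B : AlgebraicClosure K →+* AlgebraicClosure B)
    (map_jj hV') T := ⟨_, rfl⟩
  have hkT' : Kr T' := by
    rw [hT', kr_pm]
    exact hkT
  obtain ⟨z, hz⟩ : ∃ z, z = ee (algebraMap B (AlgebraicClosure B) s)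
    (algebraMap B (AlgebraicClosure B) (algebraMap K B b)) T' := ⟨_, rfl⟩
  have hz0 : z ≠ 0 := by
    rw [hz]
    exact ee_ne hEB hsB hkT'
  have hz3 : z ^ 3 = 1 := by
    rw [hz]
    exact ee_cube hEB hsB hkT'
  have hfixed : ∀ τ : AlgebraicClosure B ≃ₐ[B] AlgebraicClosure B,
      τ (jj K B δ / z) = jj K B δ / z := by
    intro τ
    have e1 : resF hV' f τ = Pool.Agent.H10.act (inv_bc B (V.map (algebraMap K B))) τ T' - T' := by
      unfold resF Pool.Agent.H10.trans
      rw [hfT, map_sub, hT']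
      congr 1
      unfold Pool.Agent.H10.act
      rw [pm_pm, pm_pm]
      apply pm_congr
      intro x
      change jj K B ((jj K B).symm (τ (jj K B x))) = τ (jj K B x)
      rw [AlgEquiv.apply_symm_apply]
    have k4 : Kr (Pool.Agent.H10.act (inv_bc B (V.map (algebraMap K B))) τ T') :=
      (kr_pm _ _).2 hkT'
    have e2 := h.res_class hV' hf τ
    have e3 := ee_pm (s := algebraMap B (AlgebraicClosure B) s)
      (b := algebraMap B (AlgebraicClosure B) (algebraMap K B b))
      (φ := (τ : AlgebraicClosure B →+* AlgebraicClosure B))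
      (inv_bc B (V.map (algebraMap K B)) τ) T'
    have e4 : ∀ x : B, (τ : AlgebraicClosure B →+* AlgebraicClosure B)
      (algebraMap B (AlgebraicClosure B) x) = algebraMap B (AlgebraicClosure B) x :=
      fun x => τ.commutes x
    rw [e4, e4, ← hz] at e3
    have e5 : ee (algebraMap B (AlgebraicClosure B) s)
        (algebraMap B (AlgebraicClosure B) (algebraMap K B b))
        (Pool.Agent.H10.act (inv_bc B (V.map (algebraMap K B))) τ T') = τ z := e3
    rw [e1, sub_eq_add_neg, ee_add hEB hsB k4 (kr_neg.2 hkT'), ee_neg hEB hsB hkT', e5, ← hz] at e2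
    have hτz : τ z ≠ 0 := (map_ne_zero_iff τ τ.injective).2 hz0
    rw [map_div₀, e2]
    field_simp
  obtain ⟨y, hy⟩ := fixed_of_galois (k := B) (jj K B δ / z) hfixed
  refine ⟨y, ?_⟩
  apply (algebraMap B (AlgebraicClosure B)).injective
  rw [map_pow, hy, div_pow, hz3, div_one, ← map_pow, h.hδ, jj_jB]

end

end H38T8
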