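import Pool.Agent.H38.T8.Pb
import Pool.Agent.H38.T6.Db

/-!
The isogenous curve: divisibility by three of the group of points (MP_78d38b_T8, helper38).
-/

set_option autoImplicit false
set_option linter.unusedSectionVars false
open scoped Classical

open WeierstrassCurve IsDedekindDomain NumberField WithZero Pool.Agent.H10 H55T3 H38T6 H86T3

namespace H38T8

/-- the conditions on the twisted curve `y^2 = x^3 + D (α x + β)^2` -/
structure Dat8 (D α β : ℤ) : Prop where
  neg : D < 0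
  sqf : Squarefree D
  even : D % 4 = 2
  three : D % 3 = 2
  hα : ¬ (3 : ℤ) ∣ α
  hβ : β ≠ 0
  bad : ∀ q : ℕ, q.Prime → q ≠ 3 → (q : ℤ) ∣ β * (27 * β - 4 * D * α ^ 3) → (q : ℤ) ∣ D

lemma Dat8.gam {D α β : ℤ} (H : Dat8 D α β) : ¬ (3 : ℤ) ∣ 27 * β - 4 * D * α ^ 3 := by
  have h3Z : Prime (3 : ℤ) := Int.prime_three
  intro h
  have h1 : (3 : ℤ) ∣ 4 * D * α ^ 3 := by
    have h2 : (3 : ℤ) ∣ 27 * β := ⟨9 * β, by ring⟩
    have h4 := dvd_sub h2 h
    rwa [sub_sub_cancel] at h4
  have h5 := H.three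
  rcases h3Z.dvd_or_dvd h1 with h2 | h2
  · rcases h3Z.dvd_or_dvd h2 with h4 | h4
    · omega
    · omega
  · exact H.hα (h3Z.dvd_of_dvd_pow h2)

section

variable {k : Type*} [Field k] {V W : WeierstrassCurve k} {D a b : k}

lemma kr_eq_zero (h : Is3 V D a b) (hz : ∀ z : k, z ^ 2 ≠ -3 * D) {P : V.toAffine.Point}
    (hP : Kr P) : P = 0 := by
  rcases Ke_kr h hP with h1 | ⟨y, n, -, hy⟩
  · exact h1
  · exfalso
    apply hz (y / b)
    rw [div_pow, hy, mul_div_assoc, div_self (pow_ne_zero 2 h.hb), mul_one]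

/-- points of the double dual -/
lemma dual_inj (h : Is3 V D a b) {U : WeierstrassCurve k} {β : k}
    (hU : Is3 U (-3 * (-3 * D)) a β) (hβ : β = 9 * b) :
    ∃ f : U.toAffine.Point → V.toAffine.Point, Function.Injective f := by
  subst hβ
  have hell := h.isElliptic
  have h9 : (9 : k) ≠ 0 := nine_ne h.three
  have h27 : (27 : k) ≠ 0 := by
    have : (27 : k) = 3 * 9 := by norm_num
    rw [this]
    exact mul_ne_zero h.three h9
  have hn : ∀ x y : k, U.toAffine.Nonsingular x y → V.toAffine.Nonsingular (x / 9) (y / 27) := by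
    intro x y n
    rw [← Affine.equation_iff_nonsingular, Affine.equation_iff, h.a₁, h.a₂, h.a₃, h.a₄, h.a₆]
    have h1 := hU.eqn n
    obtain ⟨X, hX⟩ : ∃ X, X = x / 9 := ⟨_, rfl⟩
    obtain ⟨Y, hY⟩ : ∃ Y, Y = y / 27 := ⟨_, rfl⟩
    have hx : x = 9 * X := by rw [hX, mul_div_cancel₀ _ h9]
    have hy : y = 27 * Y := by rw [hY, mul_div_cancel₀ _ h27]
    rw [← hX, ← hY]
    rw [hx, hy] at h1
    apply mul_left_cancel₀ (mul_ne_zero h27 h27)
    linear_combination h1
  refine ⟨fun P => match P with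
    | 0 => 0
    | .some x y n => .some _ _ (hn x y n), ?_⟩
  intro P Q hPQ
  rcases P with _ | ⟨x, y, n⟩ <;> rcases Q with _ | ⟨x', y', n'⟩
  · rfl
  · exact absurd hPQ.symm (Affine.Point.some_ne_zero _)
  · exact absurd hPQ (Affine.Point.some_ne_zero _)
  · simp only [Affine.Point.some.injEq] at hPQ
    rw [Affine.Point.some.injEq]
    refine ⟨?_, ?_⟩
    · have h5 := hPQ.1
      field_simp at h5
      exact h5
    · have h5 := hPQ.2
      field_simp at h5
      exact h5

end

theorem div3_fin {K : Type} [Field K] [NumberField K] {V W : WeierstrassCurve K} {D a b : K}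
    (h : Is3 V D a b) (h' : Is3 W (-3 * D) a (dl D a b)) (h1 : ∀ z : K, z ^ 2 ≠ -3 * D)
    (h2 : ∀ z : K, z ^ 2 ≠ D) (hf : Finite V.toAffine.Point) : Div3 K W := by
  have h3 : (3 : K) ≠ 0 := h.three
  have h2' : ∀ z : K, z ^ 2 ≠ -3 * (-3 * D) := by
    intro z hz
    apply h2 (z / 3)
    rw [div_pow, hz]
    field_simp
    try ring
  have h1' : ∀ z : K, z ^ 2 ≠ -3 * (-3 * (-3 * D)) := by
    intro z hz
    apply h1 (z / 3)
    rw [div_pow, hz]
    field_simp
    try ring
  obtain ⟨U, hU⟩ : ∃ U : WeierstrassCurve K, Is3 U (-3 * (-3 * D)) a (dl (-3 * D) a (dl D a b)) :=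
    ⟨_, h'.dual⟩
  obtain ⟨-, -, h9⟩ := dl_facts h.three D a b
  obtain ⟨f, hfi⟩ := dual_inj h hU h9
  have hUf : Finite U.toAffine.Point := Finite.of_injective f hfi
  have hinj : Function.Injective (psi h' hU) := by
    rw [injective_iff_map_eq_zero]
    intro P hP
    exact kr_eq_zero h' h2' ((psF_eq_zero h' hU).1 hP)
  have hWf : Finite W.toAffine.Point := Finite.of_injective _ hinj
  have hthree : Function.Injective (fun P : W.toAffine.Point => 3 • P) := by
    have key : ∀ P : W.toAffine.Point, 3 • P = 0 → P = 0 := by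
      intro P hP
      have h5 := kr_psF h' hU hP
      have h6 := kr_eq_zero hU h1' h5
      exact kr_eq_zero h' h2' ((psF_eq_zero h' hU).1 h6)
    intro P Q hPQ
    have h5 : 3 • (P - Q) = 0 := by
      rw [smul_sub]
      exact sub_eq_zero.2 hPQ
    exact sub_eq_zero.1 (key _ h5)
  intro P
  obtain ⟨Q, hQ⟩ := (Finite.injective_iff_surjective.1 hthree) P
  exact ⟨Q, hQ.symm⟩

end H38T8
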