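import Pool.Agent.H38.T8.Ia
import Pool.Agent.H38.T6.La

/-!
All classes over a finite field come from points (MP_78d38b_T8, helper38).
-/

set_option autoImplicit false
set_option linter.unusedSectionVars false
open scoped Classical

open WeierstrassCurve Pool.Agent.H10 Pool.Agent.H11 H55T3 H38T6

namespace H38T8

lemma fq_card {A B M : Type*} [AddCommGroup A] [AddCommGroup B] [Finite A] [Finite B] [Finite M]
    (ψ : A →+ B) (f : ψ.ker → M) (hf : Function.Injective f) (g : M → ψ.ker)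
    (hg : Function.Injective g) (κ : B → M)
    (hκ : ∀ Q Q', κ Q = κ Q' → Q - Q' ∈ ψ.range) :
    Nat.card B ≤ Nat.card A ∧ (Nat.card A ≤ Nat.card B → Function.Surjective κ) := by
  have h1 : Nat.card ψ.ker = Nat.card M :=
    le_antisymm (Nat.card_le_card_of_injective f hf) (Nat.card_le_card_of_injective g hg)
  have h2 : Nat.card A = Nat.card ψ.range * Nat.card M := by
    rw [AddSubgroup.card_eq_card_quotient_mul_card_addSubgroup ψ.ker, h1,
      Nat.card_congr (QuotientAddGroup.quotientKerEquivRange ψ).toEquiv]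
  have h3 : Nat.card B = Nat.card (B ⧸ ψ.range) * Nat.card ψ.range :=
    AddSubgroup.card_eq_card_quotient_mul_card_addSubgroup ψ.range
  obtain ⟨F, hF⟩ : ∃ F : B ⧸ ψ.range → M, ∀ q, F q = κ q.out := ⟨fun q => κ q.out, fun q => rfl⟩
  have hFi : Function.Injective F := by
    intro q q' hq
    rw [hF, hF] at hq
    have h4 := hκ _ _ hq.symm
    rw [← q.out_eq', ← q'.out_eq']
    rw [QuotientAddGroup.eq]
    rwa [neg_add_eq_sub]
  have h5 : Nat.card (B ⧸ ψ.range) ≤ Nat.card M := Nat.card_le_card_of_injective F hFi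
  have hpos : 0 < Nat.card ψ.range := Nat.card_pos
  refine ⟨?_, fun h => ?_⟩
  · rw [h2, h3, mul_comm]
    exact Nat.mul_le_mul_left _ h5
  · have h6 : Nat.card M = Nat.card (B ⧸ ψ.range) := by
      refine le_antisymm ?_ h5
      rw [h2, h3, mul_comm] at h
      exact Nat.le_of_mul_le_mul_right h hpos
    have hb : Function.Bijective F := by
      rw [Nat.bijective_iff_injective_and_card]
      exact ⟨hFi, h6.symm⟩
    intro m
    obtain ⟨q, hq⟩ := hb.2 m
    exact ⟨q.out, by rw [← hF, hq]⟩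

lemma fq_fin {k : Type*} [Field k] [Finite k] (V : WeierstrassCurve k) :
    Finite V.toAffine.Point := by
  refine Finite.of_injective (β := Option (k × k)) (fun P => match P with
    | 0 => none
    | .some x y _ => some (x, y)) ?_
  intro P Q h
  rcases P with _ | ⟨x, y, n⟩ <;> rcases Q with _ | ⟨x', y', n'⟩
  · rfl
  · exact absurd h (by simp)
  · exact absurd h (by simp)
  · simp only [Option.some.injEq, Prod.mk.injEq] at h
    rw [Affine.Point.some.injEq]
    exact h

section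

variable {k Ω : Type*} [Field k] [Field Ω] [Algebra k Ω] {V W : WeierstrassCurve k}
  {V₁ W₁ : WeierstrassCurve Ω} {D a b s : k}

lemma fq_up' (h' : Is3 W (-3 * D) a (dl D a b)) (eW : W.map (algebraMap k Ω) = W₁) :
    Is3 W₁ (-3 * algebraMap k Ω D) (algebraMap k Ω a)
      (dl (algebraMap k Ω D) (algebraMap k Ω a) (algebraMap k Ω b)) := by
  have h1 := h'.up eW
  rw [dl_map, map_mul, map_neg, map_ofNat] at h1
  exact h1

/-- the main relation: a point over `k` and the difference of a preimage and its Frobenius image -/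
def CRel (D a b s : k) (φ : Ω →+* Ω) (hV : V₁.map φ = V₁) (eW : W.map (algebraMap k Ω) = W₁)
    (Q : W.toAffine.Point) (z : Ω) : Prop :=
  ∃ R : V₁.toAffine.Point,
    psF V₁ W₁ (algebraMap k Ω D) (algebraMap k Ω a) (algebraMap k Ω b) R =
      pm (algebraMap k Ω) eW Q ∧
    Kr (pm φ hV R - R) ∧ ee (algebraMap k Ω s) (algebraMap k Ω b) (pm φ hV R - R) = z

variable {φ : Ω →+* Ω}

lemma fq_bc (hφ : ∀ x : k, φ (algebraMap k Ω x) = algebraMap k Ω x)
    (eV : V.map (algebraMap k Ω) = V₁) : V₁.map φ = V₁ := by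
  subst eV
  rw [WeierstrassCurve.map_map]
  congr 1
  exact RingHom.ext hφ

lemma fq_pm_pm (hφ : ∀ x : k, φ (algebraMap k Ω x) = algebraMap k Ω x)
    (eW : W.map (algebraMap k Ω) = W₁) (Q : W.toAffine.Point) :
    pm φ (fq_bc hφ eW) (pm (algebraMap k Ω) eW Q) = pm (algebraMap k Ω) eW Q := by
  rw [pm_pm]
  exact pm_congr _ _ hφ _

lemma fq_exists [IsAlgClosed Ω] (hφ : ∀ x : k, φ (algebraMap k Ω x) = algebraMap k Ω x)
    (eV : V.map (algebraMap k Ω) = V₁) (eW : W.map (algebraMap k Ω) = W₁)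
    (h : Is3 V D a b) (h' : Is3 W (-3 * D) a (dl D a b)) (hs : s ^ 2 = D)
    (Q : W.toAffine.Point) :
    ∃ z : Ω, z ^ 3 = 1 ∧ CRel D a b s φ (fq_bc hφ eV) eW Q z := by
  have hE := h.up eV
  have hE' := fq_up' h' eW
  obtain ⟨R, hR⟩ := psF_surj hE hE' (pm (algebraMap k Ω) eW Q)
  have hsE : (algebraMap k Ω s) ^ 2 = algebraMap k Ω D := by rw [← map_pow, hs]
  have h1 : psF V₁ W₁ (algebraMap k Ω D) (algebraMap k Ω a)
      (algebraMap k Ω b) (pm φ (fq_bc hφ eV) R) = pm (algebraMap k Ω) eW Q := by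
    have h2 := psF_pm hE hE' (fq_bc hφ eV) (fq_bc hφ eW) R
    rw [hR, fq_pm_pm hφ, hφ, hφ, hφ] at h2
    exact h2.symm
  have hk : Kr (pm φ (fq_bc hφ eV) R - R) := by
    rw [← psF_eq_zero hE hE', sub_eq_add_neg, psF_add hE hE',
      psF_neg hE hE', h1, hR, add_neg_cancel]
  exact ⟨_, ee_cube hE hsE hk, R, hR, hk, rfl⟩

lemma fq_desc (hφ : ∀ x : k, φ (algebraMap k Ω x) = algebraMap k Ω x)
    (hfix : ∀ x : Ω, φ x = x → ∃ y : k, algebraMap k Ω y = x)
    (eV : V.map (algebraMap k Ω) = V₁) {R : V₁.toAffine.Point}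
    (hR : pm φ (fq_bc hφ eV) R = R) : ∃ P : V.toAffine.Point, pm (algebraMap k Ω) eV P = R := by
  rcases R with _ | ⟨x, y, n⟩
  · exact ⟨0, map_zero _⟩
  · rw [pm_some, Affine.Point.some.injEq] at hR
    obtain ⟨x', hx⟩ := hfix x hR.1
    obtain ⟨y', hy⟩ := hfix y hR.2
    subst hx hy
    have n' : V.toAffine.Nonsingular x' y' := by
      subst eV
      exact (Affine.map_nonsingular V (algebraMap k Ω).injective x' y').1 n
    exact ⟨.some x' y' n', rfl⟩

lemma fq_sub (hφ : ∀ x : k, φ (algebraMap k Ω x) = algebraMap k Ω x)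
    (hfix : ∀ x : Ω, φ x = x → ∃ y : k, algebraMap k Ω y = x)
    (eV : V.map (algebraMap k Ω) = V₁) (eW : W.map (algebraMap k Ω) = W₁)
    (h : Is3 V D a b) (h' : Is3 W (-3 * D) a (dl D a b)) (hs : s ^ 2 = D)
    {Q Q' : W.toAffine.Point} {z : Ω} (h1 : CRel D a b s φ (fq_bc hφ eV) eW Q z)
    (h2 : CRel D a b s φ (fq_bc hφ eV) eW Q' z) : Q - Q' ∈ (psi h h').range := by
  obtain ⟨R, hR, hk, hz⟩ := h1
  obtain ⟨R', hR', hk', hz'⟩ := h2
  have hE := h.up eV
  have hE' := fq_up' h' eW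
  have hsE : (algebraMap k Ω s) ^ 2 = algebraMap k Ω D := by rw [← map_pow, hs]
  have h3 := ee_inj hE hsE hk hk' (hz.trans hz'.symm)
  have h4 : pm φ (fq_bc hφ eV) (R - R') = R - R' := by
    rw [map_sub]
    have h5 := sub_eq_sub_iff_add_eq_add.1 h3
    rw [sub_eq_sub_iff_add_eq_add]
    rw [add_comm R, ← add_comm R', add_comm R', h5]
  obtain ⟨P, hP⟩ := fq_desc hφ hfix eV h4
  refine ⟨P, ?_⟩
  rw [psi_apply]
  apply pm_injective (algebraMap k Ω) eW
  rw [psF_pm h h' eV eW P, hP, sub_eq_add_neg, psF_add hE hE', psF_neg hE hE', hR, hR',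
    map_sub, sub_eq_add_neg]

lemma fq_le [IsAlgClosed Ω] [Finite k] (hφ : ∀ x : k, φ (algebraMap k Ω x) = algebraMap k Ω x)
    (hfix : ∀ x : Ω, φ x = x → ∃ y : k, algebraMap k Ω y = x)
    (hμ : ∀ z : Ω, z ^ 3 = 1 → ∃ w : k, algebraMap k Ω w = z)
    (eV : V.map (algebraMap k Ω) = V₁) (eW : W.map (algebraMap k Ω) = W₁)
    (h : Is3 V D a b) (h' : Is3 W (-3 * D) a (dl D a b)) (hs : s ^ 2 = D) :
    Nat.card W.toAffine.Point ≤ Nat.card V.toAffine.Point ∧
      (Nat.card V.toAffine.Point ≤ Nat.card W.toAffine.Point → ∀ z : Ω, z ^ 3 = 1 →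
        ∃ Q : W.toAffine.Point, CRel D a b s φ (fq_bc hφ eV) eW Q z) := by
  have _ := fq_fin V
  have _ := fq_fin W
  have hinj := (algebraMap k Ω).injective
  have H : ∀ Q : W.toAffine.Point, ∃ w : {w : k // w ^ 3 = 1},
      CRel D a b s φ (fq_bc hφ eV) eW Q (algebraMap k Ω w.1) := by
    intro Q
    obtain ⟨z, hz, hC⟩ := fq_exists hφ eV eW h h' hs Q
    obtain ⟨w, hw⟩ := hμ z hz
    refine ⟨⟨w, ?_⟩, ?_⟩
    · apply hinj
      rw [map_pow, hw, hz, map_one]
    · rw [hw]
      exact hC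
  choose κ hκ using H
  have hk : ∀ P : (psi h h').ker, Kr P.1 := fun P => (psF_eq_zero h h').1 P.2
  have hsurj : ∀ w : {w : k // w ^ 3 = 1}, ∃ P : (psi h h').ker, ee s b P.1 = w.1 := by
    rintro ⟨w, hw⟩
    obtain ⟨P, hP, hPw⟩ := ee_surj h hs hw
    exact ⟨⟨P, (psF_eq_zero h h').2 hP⟩, hPw⟩
  choose g hg using hsurj
  have key := fq_card (psi h h') (fun P => (⟨ee s b P.1, ee_cube h hs (hk P)⟩ :
      {w : k // w ^ 3 = 1})) ?_ g ?_ κ ?_
  · refine ⟨key.1, fun hle z hz => ?_⟩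
    obtain ⟨w, hw⟩ := hμ z hz
    have hw3 : w ^ 3 = 1 := by
      apply hinj
      rw [map_pow, hw, hz, map_one]
    obtain ⟨Q, hQ⟩ := key.2 hle ⟨w, hw3⟩
    refine ⟨Q, ?_⟩
    have h1 := hκ Q
    rw [hQ] at h1
    rw [← hw]
    exact h1
  · intro P P' hP
    exact Subtype.ext (ee_inj h hs (hk P) (hk P') (congrArg Subtype.val hP))
  · intro w w' hw
    apply Subtype.ext
    rw [← hg w, ← hg w', hw]
  · intro Q Q' hQ
    have h1 := hκ Q
    rw [hQ] at h1
    exact fq_sub hφ hfix eV eW h h' hs h1 (hκ Q')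

lemma fq_dual [Finite k] (h : Is3 V D a b) {U : WeierstrassCurve k} {β : k}
    (hU : Is3 U (-3 * (-3 * D)) a β) (hβ : β = 9 * b) :
    Nat.card V.toAffine.Point ≤ Nat.card U.toAffine.Point := by
  subst hβ
  have _ := fq_fin U
  have hell := hU.isElliptic
  have hn : ∀ x y : k, V.toAffine.Nonsingular x y → U.toAffine.Nonsingular (9 * x) (27 * y) := by
    intro x y n
    rw [← Affine.equation_iff_nonsingular, Affine.equation_iff, hU.a₁, hU.a₂, hU.a₃, hU.a₄, hU.a₆]
    have h1 := h.eqn n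
    linear_combination 729 * h1
  have h9 : (9 : k) ≠ 0 := nine_ne h.three
  have h27 : (27 : k) ≠ 0 := by
    have : (27 : k) = 3 * 9 := by norm_num
    rw [this]
    exact mul_ne_zero h.three h9
  refine Nat.card_le_card_of_injective (fun P => match P with
    | 0 => 0
    | .some x y n => .some _ _ (hn x y n)) ?_
  intro P Q hPQ
  rcases P with _ | ⟨x, y, n⟩ <;> rcases Q with _ | ⟨x', y', n'⟩
  · rfl
  · exact absurd hPQ.symm (Affine.Point.some_ne_zero _)
  · exact absurd hPQ (Affine.Point.some_ne_zero _)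
  · simp only [Affine.Point.some.injEq] at hPQ
    rw [Affine.Point.some.injEq]
    exact ⟨mul_left_cancel₀ h9 hPQ.1, mul_left_cancel₀ h27 hPQ.2⟩

/-- every class is hit -/
theorem fq_all [IsAlgClosed Ω] [Finite k] (hφ : ∀ x : k, φ (algebraMap k Ω x) = algebraMap k Ω x)
    (hfix : ∀ x : Ω, φ x = x → ∃ y : k, algebraMap k Ω y = x)
    {ζ : k} (hζ : ζ ^ 2 + ζ + 1 = 0)
    (eV : V.map (algebraMap k Ω) = V₁) (eW : W.map (algebraMap k Ω) = W₁)
    (h : Is3 V D a b) (h' : Is3 W (-3 * D) a (dl D a b)) (hs : s ^ 2 = D) {z : Ω}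
    (hz : z ^ 3 = 1) : ∃ Q : W.toAffine.Point, CRel D a b s φ (fq_bc hφ eV) eW Q z := by
  have hμ : ∀ z : Ω, z ^ 3 = 1 → ∃ w : k, algebraMap k Ω w = z := by
    intro z hz
    have hζ' := congrArg (algebraMap k Ω) hζ
    rw [map_add, map_add, map_pow, map_one, map_zero] at hζ'
    have h1 : (z - 1) * ((z - algebraMap k Ω ζ) * (z - (algebraMap k Ω ζ) ^ 2)) = 0 := by
      linear_combination hz + (-(z - 1) * z + (z - 1) * (algebraMap k Ω ζ - 1)) * hζ'
    rcases mul_eq_zero.1 h1 with h2 | h2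
    · exact ⟨1, by rw [map_one]; linear_combination -h2⟩
    · rcases mul_eq_zero.1 h2 with h3 | h3
      · exact ⟨ζ, by linear_combination -h3⟩
      · exact ⟨ζ ^ 2, by rw [map_pow]; linear_combination -h3⟩
  refine (fq_le hφ hfix hμ eV eW h h' hs).2 ?_ z hz
  obtain ⟨-, -, h9⟩ := dl_facts h.three D a b
  refine (fq_dual h h'.dual h9).trans ?_
  have hs' : ((2 * ζ + 1) * s) ^ 2 = -3 * D := by
    rw [← hs]
    linear_combination 4 * s ^ 2 * hζ
  exact (fq_le (V := W) (W := _) hφ hfix hμ eW rfl h' h'.dual hs').1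

lemma fq_core [IsAlgClosed Ω] [Finite k] (hφ : ∀ x : k, φ (algebraMap k Ω x) = algebraMap k Ω x)
    (hfix : ∀ x : Ω, φ x = x → ∃ y : k, algebraMap k Ω y = x)
    {ζ : k} (hζ : ζ ^ 2 + ζ + 1 = 0)
    (eV : V.map (algebraMap k Ω) = V₁) (eW : W.map (algebraMap k Ω) = W₁)
    (h : Is3 V D a b) (h' : Is3 W (-3 * D) a (dl D a b)) (hs : s ^ 2 = D) {u : k} (hu : u ≠ 0) :
    PtSol s a (9 * b + 4 * D * a ^ 3) u := by
  have hinj := (algebraMap k Ω).injective
  obtain ⟨r, hr⟩ := IsAlgClosed.exists_pow_nat_eq (algebraMap k Ω u) (n := 3) (by norm_num)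
  have hr0 : r ≠ 0 := by
    rintro rfl
    rw [zero_pow three_ne_zero] at hr
    exact hu ((map_eq_zero _).1 hr.symm)
  have hz : (φ r / r) ^ 3 = 1 := by
    rw [div_pow, ← map_pow, hr, hφ, div_self]
    rw [← hr]
    exact pow_ne_zero 3 hr0
  obtain ⟨Q, R, hR, hk, he⟩ := fq_all hφ hfix hζ eV eW h h' hs hz
  have hE := h.up eV
  have hE' := fq_up' h' eW
  have hsE : (algebraMap k Ω s) ^ 2 = algebraMap k Ω D := by
    rw [← map_pow, hs]
  have eR : R + (pm φ (fq_bc hφ eV) R - R) = pm φ (fq_bc hφ eV) R := by abel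
  have hr1 : φ r = (φ r / r) * r := (div_mul_cancel₀ _ hr0).symm
  have hz0 : φ r / r ≠ 0 := div_ne_zero ((map_ne_zero_iff _ φ.injective).2 hr0) hr0
  rcases Q with _ | ⟨x, y, n⟩
  · -- `u` is a cube
    have hkR : Kr R := by
      rw [← psF_eq_zero hE hE', hR]
      exact map_zero _
    left
    have hζ' := congrArg (algebraMap k Ω) hζ
    rw [map_add, map_add, map_pow, map_one, map_zero] at hζ'
    obtain ⟨e, hev⟩ : ∃ e, e = ee (algebraMap k Ω s) (algebraMap k Ω b) R := ⟨_, rfl⟩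
    have he3 : e ^ 3 = 1 := by rw [hev]; exact ee_cube hE hsE hkR
    have hfe : φ e = e := by
      have h1 : (e - 1) * ((e - algebraMap k Ω ζ) * (e - (algebraMap k Ω ζ) ^ 2)) = 0 := by
        linear_combination he3 + (-(e - 1) * e + (e - 1) * (algebraMap k Ω ζ - 1)) * hζ'
      rcases mul_eq_zero.1 h1 with h2 | h2
      · rw [sub_eq_zero.1 h2, map_one]
      · rcases mul_eq_zero.1 h2 with h3 | h3
        · rw [sub_eq_zero.1 h3, hφ]
        · rw [sub_eq_zero.1 h3, map_pow, hφ]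
    have hee := ee_pm (s := algebraMap k Ω s) (b := algebraMap k Ω b) (φ := φ) (fq_bc hφ eV) R
    rw [hφ, hφ, ← hev, hfe] at hee
    have h2 : pm φ (fq_bc hφ eV) R = R :=
      ee_inj hE hsE ((kr_pm _ _).2 hkR) hkR (hee.trans hev)
    have hz1 : φ r / r = 1 := by
      rw [← he, h2, sub_self, ee_zero]
    obtain ⟨t, ht⟩ := hfix r (by rw [hr1, hz1, one_mul])
    refine ⟨t, hinj ?_⟩
    rw [map_pow, ht, hr]
  · have hn : W₁.toAffine.Nonsingular (algebraMap k Ω x) (algebraMap k Ω y) := by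
      rw [← eW]
      exact (Affine.map_nonsingular W hinj x y).2 n
    have hQ : psF V₁ W₁ (algebraMap k Ω D) (algebraMap k Ω a) (algebraMap k Ω b) R =
        .some (algebraMap k Ω x) (algebraMap k Ω y) hn := hR
    have hkR : ¬ Kr R := by
      intro hk1
      rw [psF_kr hk1] at hQ
      exact Affine.Point.some_ne_zero _ hQ.symm
    obtain ⟨c, hc⟩ : ∃ c, c = 9 * b + 4 * D * a ^ 3 := ⟨_, rfl⟩
    rw [← hc]
    have hcubes : ww (algebraMap k Ω s) (algebraMap k Ω a) (algebraMap k Ω b) R ^ 3 =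
        algebraMap k Ω (y + s * (3 * a * x + c)) ∧
        uu (algebraMap k Ω s) (algebraMap k Ω a) (algebraMap k Ω b) R ^ 3 =
        algebraMap k Ω (y - s * (3 * a * x + c)) := by
      clear eR he hk
      rcases R with _ | ⟨X, Y, m⟩
      · exact absurd kr_zero hkR
      · have hX : X ≠ 0 := fun hx => hkR ((kr_some m).2 hx)
        rw [psF_some hE hE' m hX, Affine.Point.some.injEq] at hQ
        rw [(ww_cube hE hsE m hX).1, (ww_cube hE hsE m hX).2, hQ.1, hQ.2, hc]
        constructor <;> simp only [map_add, map_sub, map_mul, map_pow, map_ofNat]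
    have hxy : y ^ 2 = x ^ 3 + s ^ 2 * (3 * a * x + c) ^ 2 := by
      obtain ⟨h3, -⟩ := dl_facts h.three D a b
      have h4 := h'.eqn n
      rw [h4, hs, hc, ← h3]
      ring
    obtain ⟨-, t2, t3⟩ := uu_trans hE hsE hkR hk
    rw [eR, he] at t2 t3
    have hpw := uu_pm (s := algebraMap k Ω s) (a := algebraMap k Ω a) (b := algebraMap k Ω b)
      (φ := φ) (fq_bc hφ eV) R
    rw [hφ, hφ, hφ] at hpw
    obtain ⟨w, hw⟩ : ∃ w, w = ww (algebraMap k Ω s) (algebraMap k Ω a) (algebraMap k Ω b) R :=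
      ⟨_, rfl⟩
    obtain ⟨w', hw'⟩ : ∃ w', w' = uu (algebraMap k Ω s) (algebraMap k Ω a) (algebraMap k Ω b) R :=
      ⟨_, rfl⟩
    rw [hpw.1, ← hw'] at t2
    rw [hpw.2, ← hw] at t3
    rw [← hw, ← hw'] at hcubes
    right
    by_cases hw0 : w = 0
    · right
      have h5 : y + s * (3 * a * x + c) = 0 := by
        apply hinj
        rw [← hcubes.1, hw0, map_zero, zero_pow three_ne_zero]
      have hx0 : x = 0 := by
        have h6 : x ^ 3 = 0 := by linear_combination (y - s * (3 * a * x + c)) * h5 - hxy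
        exact pow_eq_zero_iff three_ne_zero |>.1 h6
      subst hx0
      have hfix' : φ (w' * r) = w' * r := by
        have h7 : φ w' * (φ r / r) = w' := by rw [mul_comm]; exact t2
        rw [map_mul, hr1, ← mul_assoc, h7]
      obtain ⟨v, hv⟩ := hfix _ hfix'
      have hv3 : v ^ 3 = -(u * (2 * s * c)) := by
        apply hinj
        have h8 : y - s * (3 * a * 0 + c) = -(2 * s * c) := by linear_combination h5
        rw [h8] at hcubes
        rw [map_pow, hv, mul_pow, hcubes.2, hr, ← map_mul]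
        congr 1
        ring
      have hc0 : c ≠ 0 := by rw [hc]; exact h.hc
      have hs0 : s ≠ 0 := Ke_s h hs
      have hv0 : v ≠ 0 := by
        rintro rfl
        rw [zero_pow three_ne_zero] at hv3
        have h9 : u * (2 * s * c) = 0 := by linear_combination hv3
        exact (mul_ne_zero hu (mul_ne_zero (mul_ne_zero h.two hs0) hc0)) h9
      refine ⟨-v⁻¹, ?_⟩
      have h10 : (-v⁻¹) ^ 3 = -(v ^ 3)⁻¹ := by
        rw [← inv_pow]
        ring
      have h11 := mul_inv_cancel₀ (pow_ne_zero 3 hv0)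
      rw [h10]
      linear_combination h11 + (v ^ 3)⁻¹ * (-hv3)
    · left
      have hfix' : φ (w / r) = w / r := by
        have hφr : φ r ≠ 0 := (map_ne_zero_iff _ φ.injective).2 hr0
        rw [map_div₀, t3]
        field_simp
      obtain ⟨v, hv⟩ := hfix _ hfix'
      refine ⟨x, y, v, ?_, hxy, ?_⟩
      · rintro rfl
        rw [map_zero] at hv
        exact hw0 ((div_eq_zero_iff.1 hv.symm).resolve_right hr0)
      · apply hinj
        rw [map_mul, map_pow, hv, div_pow, hcubes.1, ← hr]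
        field_simp

end

/-- the classes over a finite field -/
theorem ptSol_fq {k : Type*} [Field k] [Finite k] {V : WeierstrassCurve k} {D a b s u : k}
    (h : Is3 V D a b) (hs : s ^ 2 = D) (hu : u ≠ 0) :
    PtSol s a (9 * b + 4 * D * a ^ 3) u := by
  have _ := Fintype.ofFinite k
  by_cases hζ : ∃ ζ : k, ζ ^ 2 + ζ + 1 = 0
  · obtain ⟨ζ, hζ⟩ := hζ
    obtain ⟨φ, hφd⟩ : ∃ φ : AlgebraicClosure k →ₐ[k] AlgebraicClosure k,
      ∀ x, φ x = x ^ Fintype.card k := ⟨FiniteField.frobeniusAlgHom k _, fun x => rfl⟩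
    have hfix : ∀ x : AlgebraicClosure k, (φ : AlgebraicClosure k →+* AlgebraicClosure k) x = x →
        ∃ y : k, algebraMap k (AlgebraicClosure k) y = x := by
      intro x hx
      have hx' : φ x = x := hx
      rw [hφd] at hx'
      exact La_mem hx'
    exact fq_core (φ := (φ : AlgebraicClosure k →+* AlgebraicClosure k)) (fun x => φ.commutes x)
      hfix hζ rfl rfl h h.dual hs hu
  · left
    have hinj : Function.Injective (fun x : k => x ^ 3) := by
      intro x y hxy
      simp only at hxy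
      by_cases hy : y = 0
      · subst hy
        rw [zero_pow three_ne_zero] at hxy
        exact pow_eq_zero_iff three_ne_zero |>.1 hxy
      · have h1 : (x / y) ^ 3 = 1 := by
          rw [div_pow, hxy, div_self (pow_ne_zero 3 hy)]
        have h2 : (x / y - 1) * ((x / y) ^ 2 + x / y + 1) = 0 := by linear_combination h1
        rcases mul_eq_zero.1 h2 with h3 | h3
        · exact (div_eq_one_iff_eq hy).1 (sub_eq_zero.1 h3)
        · exact absurd ⟨_, h3⟩ hζ
    obtain ⟨t, ht⟩ := (Finite.injective_iff_surjective.1 hinj) u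
    exact ⟨t, ht.symm⟩

end H38T8
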