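import Pool.Agent.H38.T8.Cg

/-!
Inertia groups in a Galois field (MP_78d38b_T8, helper38).
-/

set_option autoImplicit false
set_option linter.unusedSectionVars false
open scoped Classical

open IsDedekindDomain NumberField WithZero H38T6

namespace H38T8

/-- the inertia group of `W` over `k` -/
noncomputable def inr (k : Type) {N : Type} [Field k] [NumberField k] [Field N] [NumberField N] [Algebra k N]
    (W : HeightOneSpectrum (𝓞 N)) : Subgroup (N ≃ₐ[k] N) := W.asIdeal.inertia (N ≃ₐ[k] N)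

lemma mem_inr {k N : Type} [Field k] [NumberField k] [Field N] [NumberField N] [Algebra k N]
    {W : HeightOneSpectrum (𝓞 N)} {σ : N ≃ₐ[k] N} :
    σ ∈ inr k W ↔ ∀ x : 𝓞 N, W.valuation N (σ (x : N) - (x : N)) < 1 := by
  have h1 : σ ∈ inr k W ↔ ∀ x : 𝓞 N, RingOfIntegers.mapRingHom (σ : N →+* N) x - x ∈ W.asIdeal :=
    Iff.rfl
  rw [h1]
  refine forall_congr' fun x => ?_
  rw [← W.valuation_lt_one_iff_mem (K := N)]
  exact Iff.rfl

/-- the automorphisms over the rationals which fix `k` -/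
def fx (k N : Type) [Field k] [NumberField k] [Field N] [NumberField N] [Algebra k N] :
    Subgroup (N ≃ₐ[ℚ] N) where
  carrier := {σ | ∀ x : k, σ (algebraMap k N x) = algebraMap k N x}
  mul_mem' := by
    intro σ τ hσ hτ x
    rw [AlgEquiv.mul_apply, hτ x, hσ x]
  one_mem' := fun x => rfl
  inv_mem' := by
    intro σ hσ x
    have h1 : σ⁻¹ (σ (algebraMap k N x)) = algebraMap k N x := by
      rw [← AlgEquiv.mul_apply, inv_mul_cancel, AlgEquiv.one_apply]
    rw [hσ x] at h1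
    exact h1

section

variable {k N : Type} [Field k] [NumberField k] [Field N] [NumberField N] [Algebra k N]

lemma mem_fx {σ : N ≃ₐ[ℚ] N} : σ ∈ fx k N ↔ ∀ x : k, σ (algebraMap k N x) = algebraMap k N x :=
  Iff.rfl

lemma lift_fx {σ : N ≃ₐ[ℚ] N} (h : σ ∈ fx k N) : ∃ τ : N ≃ₐ[k] N, ∀ x, τ x = σ x :=
  ⟨{ σ.toRingEquiv with commutes' := fun x => h x }, fun _ => rfl⟩

lemma card_inr (W : HeightOneSpectrum (𝓞 N)) :
    Nat.card (inr k W) = Nat.card (inr ℚ W ⊓ fx k N : Subgroup (N ≃ₐ[ℚ] N)) := by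
  let f : inr k W → (inr ℚ W ⊓ fx k N : Subgroup (N ≃ₐ[ℚ] N)) := fun σ =>
    ⟨(σ : N ≃ₐ[k] N).restrictScalars ℚ, by
      refine Subgroup.mem_inf.2 ⟨?_, ?_⟩
      · rw [mem_inr]
        have h1 := σ.2
        rw [mem_inr] at h1
        exact h1
      · intro x
        exact (σ : N ≃ₐ[k] N).commutes x⟩
  refine Nat.card_eq_of_bijective f ⟨?_, ?_⟩
  · intro σ τ h
    apply Subtype.ext
    apply AlgEquiv.ext
    intro x
    have h1 := congrArg (fun z : (inr ℚ W ⊓ fx k N : Subgroup (N ≃ₐ[ℚ] N)) =>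
      (z : N ≃ₐ[ℚ] N) x) h
    exact h1
  · rintro ⟨σ, hσ⟩
    obtain ⟨h1, h2⟩ := Subgroup.mem_inf.1 hσ
    obtain ⟨τ, hτ⟩ := lift_fx h2
    refine ⟨⟨τ, ?_⟩, ?_⟩
    · rw [mem_inr] at h1 ⊢
      intro x
      rw [hτ]
      exact h1 x
    · apply Subtype.ext
      apply AlgEquiv.ext
      intro x
      exact hτ x

theorem in_lies [IsGalois k N] (v : HeightOneSpectrum (𝓞 k)) (W : HeightOneSpectrum (𝓞 N))
    [hl : W.asIdeal.LiesOver v.asIdeal] (x : k) : W.valuation N (algebraMap k N x) =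
      v.valuation k x ^ Nat.card (inr k W) := by
  have hWp := W.isPrime
  have hvp := v.isPrime
  have hmax := v.isPrime.isMaximal v.ne_bot
  have hfin : Finite (𝓞 k ⧸ v.asIdeal) := Ring.HasFiniteQuotients.finiteQuotient v.ne_bot
  have h1 := Ideal.card_inertia_eq_ramificationIdxIn (G := N ≃ₐ[k] N) v.asIdeal W.asIdeal
  have h2 := Ideal.ramificationIdxIn_eq_ramificationIdx v.asIdeal W.asIdeal (N ≃ₐ[k] N)
  have h3 := Ideal.ramificationIdx'_eq_ramificationIdx v.asIdeal W.asIdeal v.ne_bot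
  have h4 := HeightOneSpectrum.valuation_liesOver (K := k) N v W x
  rw [← h4]
  unfold inr
  rw [h1, h2, h3]

/-- `w` lies over `v` -/
def Ov (k K : Type) [Field k] [NumberField k] [Field K] [NumberField K] [Algebra k K]
    (v : HeightOneSpectrum (𝓞 k)) (w : HeightOneSpectrum (𝓞 K)) : Prop :=
  w.asIdeal.LiesOver v.asIdeal

lemma ov_iff {k K : Type} [Field k] [NumberField k] [Field K] [NumberField K] [Algebra k K]
    {v : HeightOneSpectrum (𝓞 k)} {w : HeightOneSpectrum (𝓞 K)} :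
    Ov k K v w ↔ ∀ x : k, v.valuation k x < 1 ↔ w.valuation K (algebraMap k K x) < 1 := by
  constructor
  · intro h x
    have hl : w.asIdeal.LiesOver v.asIdeal := h
    obtain ⟨e, he, -, hval, -⟩ := Oa_liesOver_e v w
    rw [hval]
    rw [pow_lt_one_iff_of_nonneg zero_le (by omega)]
  · intro h
    constructor
    ext x
    have h1 := h (algebraMap (𝓞 k) k x)
    rw [v.valuation_lt_one_iff_mem] at h1
    rw [h1, Ideal.mem_comap, ← w.valuation_lt_one_iff_mem (K := K)]
    exact Iff.rfl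

lemma ov_below {k K : Type} [Field k] [NumberField k] [Field K] [NumberField K] [Algebra k K]
    (w : HeightOneSpectrum (𝓞 K)) : ∃ v, Ov k K v w := by
  have := w.isPrime
  let v : HeightOneSpectrum (𝓞 k) := ⟨w.asIdeal.under (𝓞 k), inferInstance,
    Ideal.IsIntegral.comap_ne_bot _ w.ne_bot⟩
  exact ⟨v, ⟨rfl⟩⟩

lemma ov_above {k K : Type} [Field k] [NumberField k] [Field K] [NumberField K] [Algebra k K]
    (v : HeightOneSpectrum (𝓞 k)) : ∃ w, Ov k K v w := by
  have := v.isPrime.isMaximal v.ne_bot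
  obtain ⟨Q, hQ, hQo⟩ := Ideal.exists_maximal_ideal_liesOver_of_isIntegral (S := 𝓞 K) v.asIdeal
  exact ⟨⟨Q, hQ.isPrime, Ideal.ne_bot_of_liesOver_of_ne_bot v.ne_bot Q⟩, hQo⟩

lemma ov_unique {k K : Type} [Field k] [NumberField k] [Field K] [NumberField K] [Algebra k K]
    {v v' : HeightOneSpectrum (𝓞 k)} {w : HeightOneSpectrum (𝓞 K)} (h : Ov k K v w)
    (h' : Ov k K v' w) : v = v' := by
  rw [ov_iff] at h h'
  apply HeightOneSpectrum.ext
  ext x
  rw [← v.valuation_lt_one_iff_mem (K := k), ← v'.valuation_lt_one_iff_mem (K := k), h, h']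

lemma ov_val {k K : Type} [Field k] [NumberField k] [Field K] [NumberField K] [Algebra k K]
    {v : HeightOneSpectrum (𝓞 k)} {w : HeightOneSpectrum (𝓞 K)} (h : Ov k K v w) :
    ∃ e : ℕ, 1 ≤ e ∧ e ≤ Module.finrank k K ∧
      (∀ x : k, w.valuation K (algebraMap k K x) = v.valuation k x ^ e) ∧
      ∀ n : ℤ, (n : 𝓞 k) ∈ v.asIdeal ↔ (n : 𝓞 K) ∈ w.asIdeal := by
  have hl : w.asIdeal.LiesOver v.asIdeal := h
  exact Oa_liesOver_e v w

lemma ov_tower {k K L : Type} [Field k] [NumberField k] [Field K] [NumberField K] [Field L]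
    [NumberField L] [Algebra k K] [Algebra k L] [Algebra K L] [IsScalarTower k K L]
    {v : HeightOneSpectrum (𝓞 k)} {w : HeightOneSpectrum (𝓞 K)} {W : HeightOneSpectrum (𝓞 L)}
    (h : Ov k K v w) (h' : Ov K L w W) : Ov k L v W := by
  rw [ov_iff] at h h' ⊢
  intro x
  rw [h, h', IsScalarTower.algebraMap_apply k K L]

lemma ov_in [IsGalois k N] {v : HeightOneSpectrum (𝓞 k)} {W : HeightOneSpectrum (𝓞 N)}
    (h : Ov k N v W) (x : k) : W.valuation N (algebraMap k N x) =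
      v.valuation k x ^ Nat.card (inr k W) := by
  have hl : W.asIdeal.LiesOver v.asIdeal := h
  exact in_lies v W x

/-- transitivity -/
lemma ov_conj [IsGalois k N] {v : HeightOneSpectrum (𝓞 k)} {W W' : HeightOneSpectrum (𝓞 N)}
    (h : Ov k N v W) (h' : Ov k N v W') : ∃ g : N ≃ₐ[k] N,
      ∀ x : N, W'.valuation N (g x) = W.valuation N x := by
  have h1 := W.isPrime
  have h2 := W'.isPrime
  have h3 : W.asIdeal.under (𝓞 k) = W'.asIdeal.under (𝓞 k) := by
    have e1 : W.asIdeal.LiesOver v.asIdeal := h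
    have e2 : W'.asIdeal.LiesOver v.asIdeal := h'
    rw [← e1.over, ← e2.over]
  obtain ⟨g, hg⟩ := Algebra.IsInvariant.exists_smul_of_under_eq (𝓞 k) (𝓞 N) (N ≃ₐ[k] N)
    W.asIdeal W'.asIdeal h3
  obtain ⟨W'', hW, -⟩ := Pool.Agent.H10.exists_conj (K := k) g W'
  refine ⟨g, fun x => ?_⟩
  rw [hW]
  congr 1
  have h4 : W'' = W := by
    apply HeightOneSpectrum.ext
    ext y
    rw [← W''.valuation_lt_one_iff_mem (K := N), ← hW]
    have h5 : g (algebraMap (𝓞 N) N y) = algebraMap (𝓞 N) N (g • y) := rfl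
    rw [h5, W'.valuation_lt_one_iff_mem, hg, Ideal.smul_mem_pointwise_smul_iff]
  rw [h4]

end

end H38T8
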