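import Pool.Agent.H38.T8.Ga

/-!
The inertia groups of a set of primes (MP_78d38b_T8, helper38).
-/

set_option autoImplicit false
set_option linter.unusedSectionVars false
open scoped Classical

open IsDedekindDomain NumberField WithZero H38T6

namespace H38T8

section

variable {k : Type} [Field k] [NumberField k]

lemma ram_log {q : ℕ} (hq : q.Prime) (v : HeightOneSpectrum (𝓞 k)) (hv : (q : 𝓞 k) ∈ v.asIdeal) :
    ∃ e : ℕ, 1 ≤ e ∧ v.valuation k (q : k) = exp (-(e : ℤ)) ∧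
      (2 ≤ e ↔ (q : 𝓞 k) ∈ v.asIdeal ^ 2) := by
  have h1 : v.valuation k (q : k) < 1 := by
    have := pc_lt v (n := (q : ℤ)) (by exact_mod_cast hv)
    exact_mod_cast this
  have h0 : v.valuation k (q : k) ≠ 0 := by
    rw [Valuation.ne_zero_iff]
    exact_mod_cast hq.ne_zero
  obtain ⟨z, hz⟩ : ∃ z : ℤ, v.valuation k (q : k) = exp z := ⟨log (v.valuation k (q : k)),
    (exp_log h0).symm⟩
  rw [hz, ← exp_zero, exp_lt_exp] at h1
  obtain ⟨e, he⟩ : ∃ e : ℕ, z = -(e : ℤ) := ⟨z.natAbs, by omega⟩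
  refine ⟨e, by omega, by rw [hz, he], ?_⟩
  have h3 : ((q : 𝓞 k) : k) = (q : k) := map_natCast (algebraMap (𝓞 k) k) q
  have h4 := v.intValuation_le_pow_iff_mem (q : 𝓞 k) 2
  have h5 : v.intValuation (q : 𝓞 k) = v.valuation k (q : k) := by
    rw [← h3]
    exact (HeightOneSpectrum.valuation_of_algebraMap (K := k) v (q : 𝓞 k)).symm
  rw [← h4, h5, hz, exp_le_exp, he]
  push_cast
  omega

lemma val_rat {q : ℕ} (hq : q.Prime) (v : HeightOneSpectrum (𝓞 ℚ))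
    (hv : (q : 𝓞 ℚ) ∈ v.asIdeal) : v.valuation ℚ (q : ℚ) = exp (-1 : ℤ) := by
  have hG : @IsGalois ℚ _ ℚ _ DivisionRing.toRatAlgebra := by
    have h1 : (DivisionRing.toRatAlgebra : Algebra ℚ ℚ) = Algebra.id ℚ := Subsingleton.elim _ _
    rw [h1]
    exact IsGalois.self ℚ
  obtain ⟨e, he, h⟩ := ca_e (N := ℚ) hq
  rw [Module.finrank_self, Nat.dvd_one] at he
  rw [h v hv, he]
  rfl

end

section

variable {k N : Type} [Field k] [NumberField k] [Field N] [NumberField N] [Algebra k N]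
  [IsGalois ℚ N]

lemma val_q {q : ℕ} (hq : q.Prime) (W : HeightOneSpectrum (𝓞 N)) (hW : (q : 𝓞 N) ∈ W.asIdeal) :
    W.valuation N (q : N) = exp (-(Nat.card (inr ℚ W) : ℤ)) := by
  obtain ⟨v, hv⟩ := ov_below (k := ℚ) W
  have h1 := ov_in hv (q : ℚ)
  obtain ⟨-, -, -, -, hm⟩ := ov_val hv
  have hqv : (q : 𝓞 ℚ) ∈ v.asIdeal := by
    have := (hm q).2 (by exact_mod_cast hW)
    exact_mod_cast this
  rw [map_natCast, val_rat hq v hqv, ← exp_nsmul] at h1
  rw [h1]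
  congr 1
  simp

lemma card_pos' (W : HeightOneSpectrum (𝓞 N)) : 0 < Nat.card (inr k W) := Nat.card_pos

/-- inertia in the fixing subgroup means unramified -/
lemma unr_iff {q : ℕ} (hq : q.Prime) {v : HeightOneSpectrum (𝓞 k)} {W : HeightOneSpectrum (𝓞 N)}
    (h : Ov k N v W) (hv : (q : 𝓞 k) ∈ v.asIdeal) :
    inr ℚ W ≤ fx k N ↔ ¬ (q : 𝓞 k) ∈ v.asIdeal ^ 2 := by
  have hGal : IsGalois k N := IsGalois.tower_top_of_isGalois ℚ k N
  obtain ⟨e, he, hval, hram⟩ := ram_log hq v hv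
  obtain ⟨-, -, -, -, hm⟩ := ov_val h
  have hW : (q : 𝓞 N) ∈ W.asIdeal := by
    have := (hm q).1 (by exact_mod_cast hv)
    exact_mod_cast this
  have h1 := ov_in h (q : k)
  rw [map_natCast, val_q hq W hW, hval, ← exp_nsmul] at h1
  have h2 := congrArg log h1
  rw [log_exp, log_exp, nsmul_eq_mul] at h2
  have h3 : Nat.card (inr ℚ W) = Nat.card (inr k W) * e := by
    have h4 : (Nat.card (inr ℚ W) : ℤ) = (Nat.card (inr k W) : ℤ) * e := by linarith
    exact_mod_cast h4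
  rw [← hram]
  have hc := card_inr (k := k) W
  have hpos : 0 < Nat.card (inr k W) := Nat.card_pos
  constructor
  · intro h5
    rw [inf_eq_left.2 h5] at hc
    rw [hc] at h3
    rw [hc] at hpos
    have h6 : e = 1 := by
      have : Nat.card (inr ℚ W) * e = Nat.card (inr ℚ W) * 1 := by rw [mul_one]; exact h3.symm
      exact Nat.eq_of_mul_eq_mul_left hpos this
    omega
  · intro h5
    have h6 : e = 1 := by omega
    rw [h6, mul_one] at h3
    have h7 : (inr ℚ W ⊓ fx k N : Subgroup (N ≃ₐ[ℚ] N)) = inr ℚ W :=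
      Subgroup.eq_of_le_of_card_ge inf_le_left (by rw [← hc, h3])
    exact inf_eq_left.1 h7

/-- the group generated by the inertia groups at a set of primes -/
noncomputable def RR (P : ℕ → Prop) (N : Type) [Field N] [NumberField N] : Subgroup (N ≃ₐ[ℚ] N) :=
  Subgroup.closure {σ | ∃ (W : HeightOneSpectrum (𝓞 N)) (q : ℕ), P q ∧ (q : 𝓞 N) ∈ W.asIdeal ∧
    σ ∈ inr ℚ W}

lemma inr_le_RR {P : ℕ → Prop} {W : HeightOneSpectrum (𝓞 N)} {q : ℕ} (hq : P q)
    (hW : (q : 𝓞 N) ∈ W.asIdeal) : inr ℚ W ≤ RR P N := by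
  intro σ hσ
  exact Subgroup.subset_closure ⟨W, q, hq, hW, hσ⟩

/-- conjugates of inertia groups -/
lemma inr_conj (τ : N ≃ₐ[ℚ] N) {W W' : HeightOneSpectrum (𝓞 N)}
    (h : ∀ y : N, W'.valuation N (τ y) = W.valuation N y) {σ : N ≃ₐ[ℚ] N} (hσ : σ ∈ inr ℚ W) :
    τ * σ * τ⁻¹ ∈ inr ℚ W' := by
  rw [mem_inr] at hσ ⊢
  intro x
  obtain ⟨y, hy⟩ : ∃ y : 𝓞 N, (y : N) = τ⁻¹ (x : N) :=
    ⟨RingOfIntegers.mapRingHom ((τ⁻¹ : N ≃ₐ[ℚ] N) : N →+* N) x, rfl⟩
  have h1 : (x : N) = τ (y : N) := by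
    rw [hy, ← AlgEquiv.mul_apply, mul_inv_cancel, AlgEquiv.one_apply]
  have h2 : (τ * σ * τ⁻¹) (x : N) - (x : N) = τ (σ (y : N) - (y : N)) := by
    rw [AlgEquiv.mul_apply, AlgEquiv.mul_apply, ← hy, map_sub, ← h1]
  rw [h2, h]
  exact hσ y

instance RR_normal (P : ℕ → Prop) : (RR P N).Normal := by
  constructor
  intro σ hσ τ
  unfold RR at hσ
  induction hσ using Subgroup.closure_induction with
  | mem σ h =>
    obtain ⟨W, q, hq, hW, hσ⟩ := h
    obtain ⟨W', hW', -⟩ := Pool.Agent.H10.exists_conj (K := ℚ) τ⁻¹ W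
    have h1 : ∀ y : N, W'.valuation N (τ y) = W.valuation N y := by
      intro y
      rw [← hW', ← AlgEquiv.mul_apply, inv_mul_cancel, AlgEquiv.one_apply]
    apply Subgroup.subset_closure
    refine ⟨W', q, hq, ?_, inr_conj τ h1 hσ⟩
    have h2 := h1 (q : N)
    rw [map_natCast] at h2
    have h4 : ((q : 𝓞 N) : N) = (q : N) := map_natCast (algebraMap (𝓞 N) N) q
    have h5 := (W.valuation_lt_one_iff_mem (K := N) (q : 𝓞 N)).2 hW
    apply (W'.valuation_lt_one_iff_mem (K := N) (q : 𝓞 N)).1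
    change W.valuation N ((q : 𝓞 N) : N) < 1 at h5
    change W'.valuation N ((q : 𝓞 N) : N) < 1
    rw [h4] at h5 ⊢
    rw [h2]
    exact h5
  | one => rw [mul_one, mul_inv_cancel]; exact one_mem _
  | mul x y _ _ hx hy =>
    have h1 : τ * (x * y) * τ⁻¹ = (τ * x * τ⁻¹) * (τ * y * τ⁻¹) := by group
    rw [h1]
    exact mul_mem hx hy
  | inv x _ hx =>
    have h1 : τ * x⁻¹ * τ⁻¹ = (τ * x * τ⁻¹)⁻¹ := by group
    rw [h1]
    exact inv_mem hx

/-- unramified outside -/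
theorem RR_le_iff {P : ℕ → Prop} (hP : ∀ q, P q → q.Prime) :
    RR P N ≤ fx k N ↔ ∀ q, P q → ¬ RamIn q k := by
  constructor
  · rintro h q hq ⟨v, hv⟩
    have hv1 : (q : 𝓞 k) ∈ v.asIdeal := Ideal.pow_le_self two_ne_zero hv
    obtain ⟨W, hW⟩ := ov_above (K := N) v
    obtain ⟨-, -, -, -, hm⟩ := ov_val hW
    have hqW : (q : 𝓞 N) ∈ W.asIdeal := by
      have := (hm q).1 (by exact_mod_cast hv1)
      exact_mod_cast this
    exact (unr_iff (hP q hq) hW hv1).1 ((inr_le_RR hq hqW).trans h) hv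
  · intro h
    unfold RR
    rw [Subgroup.closure_le]
    rintro σ ⟨W, q, hq, hqW, hσ⟩
    obtain ⟨v, hv⟩ := ov_below (k := k) W
    obtain ⟨-, -, -, -, hm⟩ := ov_val hv
    have hqv : (q : 𝓞 k) ∈ v.asIdeal := by
      have := (hm q).2 (by exact_mod_cast hqW)
      exact_mod_cast this
    exact (unr_iff (hP q hq) hv hqv).2 (fun h1 => h q hq ⟨v, h1⟩) hσ

end

end H38T8
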