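import Pool.Agent.H38.T8.Gb

/-!
Subfields cut out by inertia (MP_78d38b_T8, helper38).
-/

set_option autoImplicit false
set_option linter.unusedSectionVars false
open scoped Classical

open IsDedekindDomain NumberField WithZero H38T6

namespace H38T8

theorem grp {G : Type*} [Group G] [Finite G] (hG : IsPGroup 3 G) (H R : Subgroup G) [R.Normal]
    (h : ¬ R ≤ H) : ∃ H' : Subgroup G, H ≤ H' ∧ ¬ R ≤ H' ∧
      ∀ g ∈ H ⊔ R, ∀ x ∈ H', g * x * g⁻¹ ∈ H' := by
  have h3 : Fact (Nat.Prime 3) := ⟨Nat.prime_three⟩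
  obtain ⟨H1, hH1⟩ : ∃ H1, H1 = H ⊔ R := ⟨_, rfl⟩
  have hle : H ≤ H1 := by rw [hH1]; exact le_sup_left
  have hne : H.subgroupOf H1 ≠ ⊤ := by
    intro h1
    apply h
    rw [Subgroup.subgroupOf_eq_top] at h1
    refine le_trans ?_ h1
    rw [hH1]
    exact le_sup_right
  obtain ⟨M, hM, hHM⟩ := (IsCoatomic.eq_top_or_exists_le_coatom (H.subgroupOf H1)).resolve_left hne
  have hnil : Group.IsNilpotent H1 := (hG.to_subgroup H1).isNilpotent
  have hMn : M.Normal :=
    Subgroup.NormalizerCondition.normal_of_coatom M Group.normalizerCondition_of_isNilpotent hM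
  rw [← hH1]
  have hH' : H ≤ M.map H1.subtype := by
    intro x hx
    exact ⟨⟨x, hle hx⟩, hHM hx, rfl⟩
  refine ⟨M.map H1.subtype, hH', ?_, ?_⟩
  · intro h1
    apply hM.1
    rw [Subgroup.eq_top_iff']
    rintro ⟨x, hx⟩
    have h2 : H1 ≤ M.map H1.subtype := by
      conv_lhs => rw [hH1]
      exact sup_le hH' h1
    obtain ⟨y, hy, hyx⟩ := h2 hx
    have h4 : y = ⟨x, hx⟩ := Subtype.ext hyx
    rw [← h4]
    exact hy
  · rintro g hg x ⟨y, hy, rfl⟩
    exact ⟨⟨g, hg⟩ * y * ⟨g, hg⟩⁻¹, hMn.conj_mem y hy ⟨g, hg⟩, rfl⟩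

section

variable {K N : Type} [Field K] [NumberField K] [Field N] [NumberField N] [Algebra K N]
  [IsGalois ℚ N]

lemma fx_fixed (H : Subgroup (N ≃ₐ[ℚ] N)) : fx (IntermediateField.fixedField H) N = H := by
  ext σ
  rw [mem_fx]
  conv_rhs => rw [← IntermediateField.fixingSubgroup_fixedField H]
  rw [IntermediateField.mem_fixingSubgroup_iff]
  constructor
  · intro h x hx
    exact h ⟨x, hx⟩
  · intro h x
    exact h x x.2

lemma exists_map {H : Subgroup (N ≃ₐ[ℚ] N)} (h : fx K N ≤ H) :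
    ∃ f : IntermediateField.fixedField H →+* K, ∀ x, algebraMap K N (f x) = (x : N) := by
  have hGal : IsGalois K N := IsGalois.tower_top_of_isGalois ℚ K N
  have h1 : ∀ x : IntermediateField.fixedField H, ∃ y : K, algebraMap K N y = (x : N) := by
    intro x
    have h2 := (IsGalois.mem_range_algebraMap_iff_fixed (F := K) (x : N)).2 (by
      intro σ
      have h3 : σ.restrictScalars ℚ ∈ H := h (fun y => σ.commutes y)
      exact x.2 ⟨_, h3⟩)
    exact h2
  choose f hf using h1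
  have hinj := (algebraMap K N).injective
  refine ⟨{ toFun := f, map_one' := ?_, map_mul' := ?_, map_zero' := ?_, map_add' := ?_ }, hf⟩
  · apply hinj
    rw [hf, map_one]
    rfl
  · intro x y
    apply hinj
    rw [hf, map_mul, hf, hf]
    rfl
  · apply hinj
    rw [hf, map_zero]
    rfl
  · intro x y
    apply hinj
    rw [hf, map_add, hf, hf]
    rfl

lemma range_map {H : Subgroup (N ≃ₐ[ℚ] N)} (h : H ≤ fx K N) :
    ∃ f : K →+* IntermediateField.fixedField H, ∀ x, (f x : N) = algebraMap K N x := by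
  have h1 : ∀ x : K, algebraMap K N x ∈ IntermediateField.fixedField H := by
    intro x
    rw [IntermediateField.mem_fixedField_iff]
    intro σ hσ
    exact h hσ x
  exact ⟨(algebraMap K N).codRestrict _ h1, fun x => rfl⟩

lemma fixed_pow {m : ℕ} (hN : Module.finrank ℚ N = 3 ^ m) (H : Subgroup (N ≃ₐ[ℚ] N)) :
    ∃ m1, Module.finrank ℚ (IntermediateField.fixedField H) = 3 ^ m1 := by
  have h1 : Module.finrank ℚ (IntermediateField.fixedField H) ∣ 3 ^ m := by
    rw [← hN]
    exact ⟨_, (Module.finrank_mul_finrank ℚ (IntermediateField.fixedField H) N).symm⟩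
  obtain ⟨m1, -, h2⟩ := (Nat.dvd_prime_pow Nat.prime_three).1 h1
  exact ⟨m1, h2⟩

/-- the fields without ramification at the given primes -/
theorem unr_field {m : ℕ} (hN : Module.finrank ℚ N = 3 ^ m) {P : ℕ → Prop}
    (hP : ∀ q, P q → q.Prime) : ∃ (N1 : Type) (_ : Field N1) (_ : NumberField N1) (m1 : ℕ),
      IsGalois ℚ N1 ∧ Module.finrank ℚ N1 = 3 ^ m1 ∧ (∀ q, P q → ¬ RamIn q N1) ∧
      ((∀ q, P q → ¬ RamIn q K) → Nonempty (K →+* N1)) := by
  obtain ⟨m1, hm1⟩ := fixed_pow hN (RR P N)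
  refine ⟨IntermediateField.fixedField (RR P N), inferInstance, inferInstance, m1,
    IsGalois.of_fixedField_normal_subgroup _, hm1, ?_, ?_⟩
  · rw [← RR_le_iff (N := N) hP, fx_fixed]
  · intro h
    obtain ⟨f, -⟩ := range_map ((RR_le_iff (N := N) hP).2 h)
    exact ⟨f⟩

end

end H38T8
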