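import Pool.Agent.H38.T8.Gc

/-!
The place where a bad prime ramifies (MP_78d38b_T8, helper38).
-/

set_option autoImplicit false
set_option linter.unusedSectionVars false
open scoped Classical

open IsDedekindDomain NumberField WithZero H38T6

namespace H38T8

lemma card_three {m : ℕ} {N : Type} [Field N] [NumberField N] [IsGalois ℚ N]
    (hN : Module.finrank ℚ N = 3 ^ m) {A B : Subgroup (N ≃ₐ[ℚ] N)} (h : A < B) :
    ∃ c : ℕ, Nat.card B = 3 * c * Nat.card A := by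
  have hG : Nat.card (N ≃ₐ[ℚ] N) = 3 ^ m := by rw [IsGalois.card_aut_eq_finrank, hN]
  have h1 : Nat.card B ∣ 3 ^ m := by
    rw [← hG]
    exact Subgroup.card_subgroup_dvd_card B
  have h2 : Nat.card A ∣ 3 ^ m := by
    rw [← hG]
    exact Subgroup.card_subgroup_dvd_card A
  obtain ⟨b, -, hb⟩ := (Nat.dvd_prime_pow Nat.prime_three).1 h1
  obtain ⟨a, -, ha⟩ := (Nat.dvd_prime_pow Nat.prime_three).1 h2
  have h3 : Nat.card A < Nat.card B := by
    by_contra hcon
    exact absurd (Subgroup.eq_of_le_of_card_ge h.le (not_lt.1 hcon)) h.ne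
  rw [ha, hb] at h3
  have h4 : a < b := (Nat.pow_lt_pow_iff_right (by norm_num)).1 h3
  obtain ⟨c, rfl⟩ : ∃ c, b = a + 1 + c := ⟨b - a - 1, by omega⟩
  exact ⟨3 ^ c, by rw [ha, hb]; ring⟩

theorem split_place {m : ℕ} {K N : Type} [Field K] [NumberField K] [Field N] [NumberField N]
    [Algebra K N] [IsGalois ℚ N] (hN : Module.finrank ℚ N = 3 ^ m) {P : ℕ → Prop}
    (hP : ∀ q, P q → q.Prime) (hr : ∃ q, P q ∧ RamIn q K) :
    ∃ (k N1 : Type) (_ : Field k) (_ : NumberField k) (_ : Field N1) (_ : NumberField N1)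
      (_ : Algebra k N1) (_ : Algebra k K) (m1 : ℕ), IsGalois ℚ N1 ∧
      Module.finrank ℚ N1 = 3 ^ m1 ∧ (∀ q, P q → ¬ RamIn q N1) ∧
      ∃ (q : ℕ) (v : HeightOneSpectrum (𝓞 k)), P q ∧ RamIn q N ∧ (q : 𝓞 k) ∈ v.asIdeal ∧
        ∀ w : HeightOneSpectrum (𝓞 K), Ov k K v w → ∀ x : k,
          (3 : ℤ) ∣ log (w.valuation K (algebraMap k K x)) := by
  have hGal : IsGalois K N := IsGalois.tower_top_of_isGalois ℚ K N
  have hG : IsPGroup 3 (N ≃ₐ[ℚ] N) := by
    apply IsPGroup.of_card (n := m)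
    rw [IsGalois.card_aut_eq_finrank, hN]
  have hRH : ¬ RR P N ≤ fx K N := by
    rw [RR_le_iff hP]
    push Not
    exact hr
  obtain ⟨H', hH, hR, hconj⟩ := grp hG (fx K N) (RR P N) hRH
  obtain ⟨H1, hH1⟩ : ∃ H1, H1 = fx K N ⊔ RR P N := ⟨_, rfl⟩
  rw [← hH1] at hconj
  have hK1 : fx K N ≤ H1 := by rw [hH1]; exact le_sup_left
  have hR1 : RR P N ≤ H1 := by rw [hH1]; exact le_sup_right
  obtain ⟨f, hf⟩ := exists_map (K := K) hK1
  have hle : IntermediateField.fixedField H1 ≤ IntermediateField.fixedField (RR P N) :=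
    IntermediateField.fixedField_antitone hR1
  obtain ⟨m1, hm1⟩ := fixed_pow hN (RR P N)
  letI aKK : Algebra (IntermediateField.fixedField H1) K := f.toAlgebra
  have hst : IsScalarTower (IntermediateField.fixedField H1) K N :=
    IsScalarTower.of_algebraMap_eq fun x => (hf x).symm
  refine ⟨IntermediateField.fixedField H1, IntermediateField.fixedField (RR P N), inferInstance,
    inferInstance, inferInstance, inferInstance,
    (IntermediateField.inclusion hle).toRingHom.toAlgebra, f.toAlgebra, m1,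
    IsGalois.of_fixedField_normal_subgroup _, hm1, ?_, ?_⟩
  · rw [← RR_le_iff (N := N) hP, fx_fixed]
  have hS : ∃ (σ : N ≃ₐ[ℚ] N) (W : HeightOneSpectrum (𝓞 N)) (q : ℕ), P q ∧
      (q : 𝓞 N) ∈ W.asIdeal ∧ σ ∈ inr ℚ W ∧ σ ∉ H' := by
    by_contra hcon
    push Not at hcon
    apply hR
    unfold RR
    rw [Subgroup.closure_le]
    rintro σ ⟨W, q, hq, hqW, hσ⟩
    exact hcon σ W q hq hqW hσ
  obtain ⟨σ, W₀, q, hq, hqW, hσ, hσ'⟩ := hS
  obtain ⟨v, hv⟩ := ov_below (k := IntermediateField.fixedField H1) W₀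
  have hrN : RamIn q N := by
    obtain ⟨W, hW⟩ : ∃ W, W = W₀ := ⟨_, rfl⟩
    refine ⟨W₀, ?_⟩
    obtain ⟨e, he, hval, hram⟩ := ram_log (hP q hq) W₀ hqW
    rw [← hram]
    have h1 := val_q (hP q hq) W₀ hqW
    rw [hval] at h1
    have h2 : (e : ℤ) = (Nat.card (inr ℚ W₀) : ℤ) := by
      have h3 := congrArg log h1
      rw [log_exp, log_exp] at h3
      omega
    have h3 : Nat.card (inr ℚ W₀) ≠ 1 := by
      intro h4
      have h5 : inr ℚ W₀ = ⊥ := Subgroup.card_eq_one.1 h4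
      apply hσ'
      rw [h5, Subgroup.mem_bot] at hσ
      rw [hσ]
      exact one_mem _
    have h4 : e = Nat.card (inr ℚ W₀) := by exact_mod_cast h2
    omega
  refine ⟨q, v, hq, hrN, ?_, fun w hw x => ?_⟩
  · obtain ⟨-, -, -, -, hm⟩ := ov_val hv
    have := (hm q).2 (by exact_mod_cast hqW)
    exact_mod_cast this
  obtain ⟨W, hW⟩ := ov_above (K := N) w
  have hvW : Ov (IntermediateField.fixedField H1) N v W := ov_tower hw hW
  have hGk : IsGalois (IntermediateField.fixedField H1) N :=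
    IsGalois.tower_top_of_isGalois ℚ _ N
  obtain ⟨g, hg⟩ := ov_conj hv hvW
  obtain ⟨g', hg'⟩ : ∃ g' : N ≃ₐ[ℚ] N, g' = g.restrictScalars ℚ := ⟨_, rfl⟩
  have hgH : g' ∈ H1 := by
    rw [← fx_fixed H1, mem_fx]
    intro y
    rw [hg']
    exact g.commutes y
  have hgσ : g' * σ * g'⁻¹ ∈ inr ℚ W := by
    apply inr_conj g' _ hσ
    intro y
    rw [hg']
    exact hg y
  have hgσ' : g' * σ * g'⁻¹ ∉ H' := by
    intro h
    apply hσ'
    have h1 := hconj g'⁻¹ (H1.inv_mem hgH) _ h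
    have h2 : g'⁻¹ * (g' * σ * g'⁻¹) * g'⁻¹⁻¹ = σ := by group
    rwa [h2] at h1
  have hqW' : (q : 𝓞 N) ∈ W.asIdeal := by
    obtain ⟨-, -, -, -, hm⟩ := ov_val hv
    obtain ⟨-, -, -, -, hm'⟩ := ov_val hvW
    have := (hm' q).1 ((hm q).2 (by exact_mod_cast hqW))
    exact_mod_cast this
  have hlt : (inr ℚ W ⊓ fx K N : Subgroup (N ≃ₐ[ℚ] N)) < inr ℚ W := by
    refine lt_of_le_of_ne inf_le_left ?_
    intro h
    have h1 : inr ℚ W ≤ fx K N := inf_eq_left.1 h
    exact hgσ' (hH (h1 hgσ))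
  obtain ⟨c, hc⟩ := card_three hN hlt
  rw [← card_inr] at hc
  have hck : Nat.card (inr (IntermediateField.fixedField H1) W) = Nat.card (inr ℚ W) := by
    rw [card_inr, fx_fixed, inf_eq_left.2 ((inr_le_RR hq hqW').trans hR1)]
  have h1 := ov_in hvW x
  have h2 := ov_in hW (algebraMap (IntermediateField.fixedField H1) K x)
  rw [← IsScalarTower.algebraMap_apply, h1, hck, hc] at h2
  have h3 := congrArg log h2
  rw [log_pow, log_pow, nsmul_eq_mul, nsmul_eq_mul] at h3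
  have hpos : 0 < Nat.card (inr K W) := Nat.card_pos
  push_cast at h3
  refine ⟨c * log (v.valuation _ x), ?_⟩
  have h4 : ((Nat.card (inr K W) : ℕ) : ℤ) ≠ 0 := by positivity
  apply mul_left_cancel₀ h4
  rw [← h3]
  ring

end H38T8
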