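import Pool.Agent.H38.T6.Def1
import Pool.Agent.H55.T3.Xa

/-!
Classes which come from points over a field; local triviality of kernel valued cocycles (MP_78d38b_T8, helper38).
-/

set_option autoImplicit false
set_option linter.unusedSectionVars false
open scoped Classical

open WeierstrassCurve IsDedekindDomain NumberField WithZero Pool.Agent.H10 Pool.Agent.H11 H55T3

namespace H38T8

/-- The class of `d` comes from a point over `F`. -/
def ImgF {F Ω : Type*} [Field F] [Field Ω] [Algebra F Ω] {E : WeierstrassCurve Ω} (h : Inv F E)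
    (s b d : F) : Prop :=
  ∃ (P : E.toAffine.Point) (r : Ω), r ≠ 0 ∧ r ^ 3 = algebraMap F Ω d ∧
    (∀ τ : Ω ≃ₐ[F] Ω, Kr (act h τ P - P)) ∧
    ∀ τ : Ω ≃ₐ[F] Ω, τ r = ee (algebraMap F Ω s) (algebraMap F Ω b) (act h τ P - P) * r

/-- `d` is a cube or `d v^3 = y + s (3 a x + c)` for a point of the isogenous curve, or `d v^3 2 s c = 1`. -/
def PtSol {F : Type*} [Field F] (s a c d : F) : Prop :=
  (∃ t, d = t ^ 3) ∨ (∃ x y v : F, v ≠ 0 ∧ y ^ 2 = x ^ 3 + s ^ 2 * (3 * a * x + c) ^ 2 ∧
    d * v ^ 3 = y + s * (3 * a * x + c)) ∨ ∃ v : F, d * v ^ 3 * (2 * s * c) = 1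

section

variable {F Ω : Type*} [Field F] [Field Ω] [Algebra F Ω] {E E' : WeierstrassCurve Ω} {D a b s : F}

theorem imgF_cube (h : Inv F E) {t : F} (ht : t ≠ 0) : ImgF h s b (t ^ 3) := by
  refine ⟨0, algebraMap F Ω t, ?_, ?_, ?_, ?_⟩
  · exact (map_ne_zero_iff _ (algebraMap F Ω).injective).2 ht
  · rw [map_pow]
  · intro σ
    rw [map_zero, sub_zero]
    exact kr_zero
  · intro σ
    rw [map_zero, sub_zero, ee_zero, one_mul]
    exact σ.commutes t

theorem imgF_mul_cube (h : Inv F E) {d t : F} (ht : t ≠ 0) (H : ImgF h s b (d * t ^ 3)) :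
    ImgF h s b d := by
  obtain ⟨P, r, hr, hd, hk, hσ⟩ := H
  have ht' : algebraMap F Ω t ≠ 0 := (map_ne_zero_iff _ (algebraMap F Ω).injective).2 ht
  refine ⟨P, r / algebraMap F Ω t, div_ne_zero hr ht', ?_, hk, fun τ => ?_⟩
  · rw [div_pow, hd, map_mul, map_pow, mul_div_cancel_right₀ _ (pow_ne_zero 3 ht')]
  · rw [map_div₀, hσ, τ.commutes, mul_div_assoc]

theorem imgF_point [IsAlgClosed Ω]
    (hE : Is3 E (algebraMap F Ω D) (algebraMap F Ω a) (algebraMap F Ω b))
    (hE' : Is3 E' (-3 * algebraMap F Ω D) (algebraMap F Ω a)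
      (dl (algebraMap F Ω D) (algebraMap F Ω a) (algebraMap F Ω b)))
    (hs : s ^ 2 = D) (h : Inv F E) (h' : Inv F E') {x y : F}
    (hxy : y ^ 2 = x ^ 3 + D * (3 * a * x + (9 * b + 4 * D * a ^ 3)) ^ 2)
    (h0 : y + s * (3 * a * x + (9 * b + 4 * D * a ^ 3)) ≠ 0) :
    ImgF h s b (y + s * (3 * a * x + (9 * b + 4 * D * a ^ 3))) := by
  have hsE : (algebraMap F Ω s) ^ 2 = algebraMap F Ω D := by rw [← map_pow, hs]
  have hell := hE'.isElliptic
  have n : E'.toAffine.Nonsingular (algebraMap F Ω x) (algebraMap F Ω y) := by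
    rw [← Affine.equation_iff_nonsingular, Affine.equation_iff, hE'.a₁, hE'.a₂, hE'.a₃, hE'.a₄,
      hE'.a₆]
    obtain ⟨h3, -⟩ := dl_facts hE.three (algebraMap F Ω D) (algebraMap F Ω a) (algebraMap F Ω b)
    have e1 := congrArg (algebraMap F Ω) hxy
    simp only [map_add, map_mul, map_pow, map_ofNat] at e1
    rw [← h3] at e1
    linear_combination e1
  obtain ⟨Q, hQ⟩ : ∃ Q : E'.toAffine.Point, Q = .some _ _ n := ⟨_, rfl⟩
  obtain ⟨P, hP⟩ := psF_surj hE hE' Q
  have hPk : ¬ Kr P := by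
    intro hk
    rw [psF_kr hk, hQ] at hP
    exact Affine.Point.some_ne_zero _ hP.symm
  have hcube : ww (algebraMap F Ω s) (algebraMap F Ω a) (algebraMap F Ω b) P ^ 3 =
      algebraMap F Ω (y + s * (3 * a * x + (9 * b + 4 * D * a ^ 3))) := by
    rcases P with _ | ⟨X, Y, m⟩
    · exact absurd kr_zero hPk
    · have hX : X ≠ 0 := fun hx => hPk ((kr_some m).2 hx)
      rw [psF_some hE hE' m hX, hQ, Affine.Point.some.injEq] at hP
      rw [(ww_cube hE hsE m hX).1, hP.1, hP.2]
      simp only [map_add, map_mul, map_pow, map_ofNat]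
  have hact : ∀ σ : Ω ≃ₐ[F] Ω, act h' σ Q = Q := by
    intro σ
    rw [hQ]
    unfold Pool.Agent.H10.act
    rw [pm_some, Affine.Point.some.injEq]
    exact ⟨σ.commutes x, σ.commutes y⟩
  have hD : ∀ σ : Ω ≃ₐ[F] Ω, ∀ z : F, (σ : Ω →+* Ω) (algebraMap F Ω z) = algebraMap F Ω z :=
    fun σ z => σ.commutes z
  have hpact : ∀ σ : Ω ≃ₐ[F] Ω, psF E E' (algebraMap F Ω D) (algebraMap F Ω a) (algebraMap F Ω b)
      (act h σ P) = Q := by
    intro σ
    have h1 := psF_pm hE hE' (h σ) (h' σ) P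
    rw [hD, hD, hD, hP] at h1
    exact h1.symm.trans (hact σ)
  have hkr : ∀ σ : Ω ≃ₐ[F] Ω, Kr (act h σ P - P) := by
    intro σ
    rw [← psF_eq_zero hE hE', sub_eq_add_neg, psF_add hE hE', psF_neg hE hE', hpact, hP,
      add_neg_cancel]
  refine ⟨P, ww (algebraMap F Ω s) (algebraMap F Ω a) (algebraMap F Ω b) P, ?_, hcube, hkr, ?_⟩
  · intro hz
    rw [hz, zero_pow three_ne_zero] at hcube
    exact h0 ((map_eq_zero_iff _ (algebraMap F Ω).injective).1 hcube.symm)
  · intro σ
    have h1 := (uu_pm (s := algebraMap F Ω s) (a := algebraMap F Ω a) (b := algebraMap F Ω b)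
      (φ := (σ : Ω →+* Ω)) (h σ) P).2
    rw [hD, hD, hD] at h1
    have h5 := (uu_trans hE hsE hPk (hkr σ)).2.2
    rw [add_sub_cancel] at h5
    rw [← h5]
    exact h1.symm

theorem imgF_inv (hE : Is3 E (algebraMap F Ω D) (algebraMap F Ω a) (algebraMap F Ω b))
    (hs : s ^ 2 = D) (h : Inv F E) {d : F} (H : ImgF h s b d) : ImgF h s b d⁻¹ := by
  obtain ⟨P, r, hr, hd, hk, hσ⟩ := H
  have hsE : (algebraMap F Ω s) ^ 2 = algebraMap F Ω D := by rw [← map_pow, hs]
  have e1 : ∀ τ : Ω ≃ₐ[F] Ω, act h τ (-P) - -P = -(act h τ P - P) := by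
    intro τ
    rw [map_neg]
    abel
  refine ⟨-P, r⁻¹, inv_ne_zero hr, ?_, fun τ => ?_, fun τ => ?_⟩
  · rw [inv_pow, hd, map_inv₀]
  · rw [e1, kr_neg]
    exact hk τ
  · rw [e1, ee_neg hE hsE (hk τ), map_inv₀, hσ, mul_inv]

theorem imgF_of_ptSol [IsAlgClosed Ω]
    (hE : Is3 E (algebraMap F Ω D) (algebraMap F Ω a) (algebraMap F Ω b))
    (hE' : Is3 E' (-3 * algebraMap F Ω D) (algebraMap F Ω a)
      (dl (algebraMap F Ω D) (algebraMap F Ω a) (algebraMap F Ω b)))
    (hs : s ^ 2 = D) (h : Inv F E) (h' : Inv F E') {d : F} (hd : d ≠ 0)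
    (H : PtSol s a (9 * b + 4 * D * a ^ 3) d) : ImgF h s b d := by
  rcases H with ⟨t, ht⟩ | ⟨x, y, v, hv, hxy, hdv⟩ | ⟨v, hv⟩
  · have ht0 : t ≠ 0 := by
      rintro rfl
      apply hd
      rw [ht]
      ring
    rw [ht]
    exact imgF_cube h ht0
  · apply imgF_mul_cube h hv
    rw [hdv]
    refine imgF_point hE hE' hs h h' ?_ ?_
    · rw [← hs] at hxy ⊢
      exact hxy
    · rw [← hdv]
      exact mul_ne_zero hd (pow_ne_zero 3 hv)
  · obtain ⟨c, hc⟩ : ∃ c, c = 9 * b + 4 * D * a ^ 3 := ⟨_, rfl⟩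
    have h2 : 2 * s * c ≠ 0 := by
      intro h0
      rw [← hc, h0, mul_zero] at hv
      exact zero_ne_one hv
    have hv0 : v ≠ 0 := by
      rintro rfl
      rw [zero_pow three_ne_zero, mul_zero, zero_mul] at hv
      exact zero_ne_one hv
    apply imgF_mul_cube h hv0
    have e1 : d * v ^ 3 = (2 * s * c)⁻¹ := eq_inv_of_mul_eq_one_left (by rw [hc]; exact hv)
    rw [e1]
    apply imgF_inv hE hs h
    have e2 : (s * c) + s * (3 * a * 0 + (9 * b + 4 * D * a ^ 3)) = 2 * s * c := by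
      rw [← hc]
      ring
    rw [← e2]
    refine imgF_point hE hE' hs h h' ?_ ?_
    · rw [← hc, ← hs]
      ring
    · rw [e2]
      exact h2

end

/-- local triviality at one embedding -/
theorem trivAt_of {L : Type} [Field L] [NumberField L] {V W : WeierstrassCurve L} {D a b s : L}
    (h : Is3 V D a b) (h' : Is3 W (-3 * D) a (dl D a b)) (hs : s ^ 2 = D) {F : Type} [Field F]
    [Algebra L F] {f : Coch L V}
    (ι : AlgebraicClosure L →ₐ[L] AlgebraicClosure F) (hk : ∀ σ, Kr (f σ))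
    {r : AlgebraicClosure L} {d : L} (hr : r ≠ 0) (hd : r ^ 3 = algebraMap L (AlgebraicClosure L) d)
    (hr' : ∀ σ : AlgebraicClosure L ≃ₐ[L] AlgebraicClosure L,
      σ r = ee (algebraMap L (AlgebraicClosure L) s) (algebraMap L (AlgebraicClosure L) b) (f σ) * r)
    (H : PtSol (algebraMap L F s) (algebraMap L F a) (algebraMap L F (9 * b + 4 * D * a ^ 3))
      (algebraMap L F d)) :
    TrivAt (F := F) (inv_bc' V) (ι : AlgebraicClosure L →+* AlgebraicClosure F)
      (map_bc V ι) f := by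
  have hch : CharZero F := charZero_of_alg (K := L)
  have hE : Is3 (V.baseChange (AlgebraicClosure F))
      (algebraMap F (AlgebraicClosure F) (algebraMap L F D))
      (algebraMap F (AlgebraicClosure F) (algebraMap L F a))
      (algebraMap F (AlgebraicClosure F) (algebraMap L F b)) := by
    have h1 := h.bc (AlgebraicClosure F)
    rw [IsScalarTower.algebraMap_apply L F (AlgebraicClosure F) D,
      IsScalarTower.algebraMap_apply L F (AlgebraicClosure F) a,
      IsScalarTower.algebraMap_apply L F (AlgebraicClosure F) b] at h1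
    exact h1
  have hE' : Is3 (W.baseChange (AlgebraicClosure F))
      (-3 * algebraMap F (AlgebraicClosure F) (algebraMap L F D))
      (algebraMap F (AlgebraicClosure F) (algebraMap L F a))
      (dl (algebraMap F (AlgebraicClosure F) (algebraMap L F D))
        (algebraMap F (AlgebraicClosure F) (algebraMap L F a))
        (algebraMap F (AlgebraicClosure F) (algebraMap L F b))) := by
    have h1 := h'.bcd (AlgebraicClosure F)
    rw [IsScalarTower.algebraMap_apply L F (AlgebraicClosure F) D,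
      IsScalarTower.algebraMap_apply L F (AlgebraicClosure F) a,
      IsScalarTower.algebraMap_apply L F (AlgebraicClosure F) b] at h1
    exact h1
  have hs2 : (algebraMap L F s) ^ 2 = algebraMap L F D := by rw [← map_pow, hs]
  have hdL : algebraMap L F d ≠ 0 := by
    intro h0
    rw [map_eq_zero] at h0
    rw [h0, map_zero] at hd
    exact pow_ne_zero 3 hr hd
  have e1 : algebraMap L F (9 * b + 4 * D * a ^ 3) =
      9 * algebraMap L F b + 4 * algebraMap L F D * algebraMap L F a ^ 3 := by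
    simp only [map_add, map_mul, map_pow, map_ofNat]
  rw [e1] at H
  obtain ⟨P, t, ht, ht3, hkP, hσP⟩ := imgF_of_ptSol hE hE' hs2 (inv_bc' V) (inv_bc' W) hdL H
  have hsE : (algebraMap F (AlgebraicClosure F) (algebraMap L F s)) ^ 2 =
      algebraMap F (AlgebraicClosure F) (algebraMap L F D) := by rw [← map_pow, hs2]
  have hιr : ι r ≠ 0 := by
    intro h0
    exact hr ((map_eq_zero_iff ι ι.injective).1 h0)
  have hιr3 : (ι r) ^ 3 = t ^ 3 := by
    rw [← map_pow, hd, ι.commutes, ht3, IsScalarTower.algebraMap_apply L F (AlgebraicClosure F)]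
  obtain ⟨z, hz⟩ : ∃ z, ι r = z * t := ⟨ι r / t, (div_mul_cancel₀ _ ht).symm⟩
  have hz3 : z ^ 3 = 1 := by
    have h1 : z ^ 3 * t ^ 3 = 1 * t ^ 3 := by
      rw [← mul_pow, ← hz, hιr3, one_mul]
    exact mul_right_cancel₀ (pow_ne_zero 3 ht) h1
  have hz0 : z ≠ 0 := by
    rintro rfl
    rw [zero_pow three_ne_zero] at hz3
    exact zero_ne_one hz3
  obtain ⟨T, hT, hTz⟩ := ee_surj hE hsE hz3
  refine ⟨P + T, fun τ σ hστ => ?_⟩
  have k2 : Kr (act (inv_bc' V : Inv F _) τ T) := (kr_pm _ _).2 hT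
  have k3 : Kr (act (inv_bc' V : Inv F _) τ T - T) := by
    rw [sub_eq_add_neg]
    exact kr_add hE k2 (kr_neg.2 hT)
  have e : act (inv_bc' V : Inv F _) τ (P + T) - (P + T) =
      (act (inv_bc' V : Inv F _) τ P - P) + (act (inv_bc' V : Inv F _) τ T - T) := by
    rw [map_add]
    abel
  rw [e]
  apply ee_inj hE hsE ((kr_pm _ _).2 (hk σ)) (kr_add hE (hkP τ) k3)
  have hee : ee (algebraMap F (AlgebraicClosure F) (algebraMap L F s))
      (algebraMap F (AlgebraicClosure F) (algebraMap L F b))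
      (act (inv_bc' V : Inv F _) τ T) = τ z := by
    have h1 := ee_pm (s := algebraMap F (AlgebraicClosure F) (algebraMap L F s))
      (b := algebraMap F (AlgebraicClosure F) (algebraMap L F b))
      (φ := (τ : AlgebraicClosure F →+* AlgebraicClosure F)) ((inv_bc' V : Inv F _) τ) T
    have h2 : (τ : AlgebraicClosure F →+* AlgebraicClosure F)
        (algebraMap F (AlgebraicClosure F) (algebraMap L F s)) =
        algebraMap F (AlgebraicClosure F) (algebraMap L F s) := τ.commutes _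
    have h3 : (τ : AlgebraicClosure F →+* AlgebraicClosure F)
        (algebraMap F (AlgebraicClosure F) (algebraMap L F b)) =
        algebraMap F (AlgebraicClosure F) (algebraMap L F b) := τ.commutes _
    rw [h2, h3, hTz] at h1
    exact h1
  have hee2 : ee (algebraMap F (AlgebraicClosure F) (algebraMap L F s))
      (algebraMap F (AlgebraicClosure F) (algebraMap L F b))
      (pm (ι : AlgebraicClosure L →+* AlgebraicClosure F) (map_bc V ι) (f σ)) * ι r =
      τ (ι r) := by
    have h2 := ee_pm (s := algebraMap L (AlgebraicClosure L) s)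
      (b := algebraMap L (AlgebraicClosure L) b)
      (φ := (ι : AlgebraicClosure L →+* AlgebraicClosure F)) (map_bc V ι) (f σ)
    have e2 : (ι : AlgebraicClosure L →+* AlgebraicClosure F)
        (algebraMap L (AlgebraicClosure L) s) =
        algebraMap F (AlgebraicClosure F) (algebraMap L F s) := by
      rw [← IsScalarTower.algebraMap_apply L F (AlgebraicClosure F)]
      exact ι.commutes s
    have e3 : (ι : AlgebraicClosure L →+* AlgebraicClosure F)
        (algebraMap L (AlgebraicClosure L) b) =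
        algebraMap F (AlgebraicClosure F) (algebraMap L F b) := by
      rw [← IsScalarTower.algebraMap_apply L F (AlgebraicClosure F)]
      exact ι.commutes b
    rw [e2, e3] at h2
    have e4 : τ (ι r) = ι (σ r) := hστ r
    rw [h2, e4, hr', map_mul]
    rfl
  rw [ee_add hE hsE (hkP τ) k3, sub_eq_add_neg (act (inv_bc' V : Inv F _) τ T) T,
    ee_add hE hsE k2 (kr_neg.2 hT), ee_neg hE hsE hT, hee, hTz]
  apply mul_right_cancel₀ hιr
  rw [hee2, hz, map_mul, hσP τ]
  field_simp

/-- elements of the archimedean completions are cubes -/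
theorem inf_cube {L : Type} [Field L] [NumberField L] (v : InfinitePlace L) (z : v.Completion) :
    ∃ t : v.Completion, z = t ^ 3 := by
  rcases v.isReal_or_isComplex with hv | hv
  · obtain ⟨e⟩ : Nonempty (v.Completion ≃+* ℝ) :=
      ⟨InfinitePlace.Completion.ringEquivRealOfIsReal hv⟩
    obtain ⟨u, hu⟩ : ∃ u : ℝ, u ^ 3 = e z := by
      rcases le_total 0 (e z) with h0 | h0
      · exact ⟨e z ^ (((3 : ℕ) : ℝ)⁻¹), Real.rpow_inv_natCast_pow h0 (by norm_num)⟩
      · refine ⟨-((-(e z)) ^ (((3 : ℕ) : ℝ)⁻¹)), ?_⟩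
        have h1 := Real.rpow_inv_natCast_pow (x := -(e z)) (by linarith) (n := 3) (by norm_num)
        rw [Odd.neg_pow (by decide), h1, neg_neg]
    refine ⟨e.symm u, e.injective ?_⟩
    rw [map_pow, e.apply_symm_apply, hu]
  · obtain ⟨e⟩ : Nonempty (v.Completion ≃+* ℂ) :=
      ⟨InfinitePlace.Completion.ringEquivComplexOfIsComplex hv⟩
    obtain ⟨u, hu⟩ := IsAlgClosed.exists_pow_nat_eq (e z) (n := 3) (by norm_num)
    refine ⟨e.symm u, e.injective ?_⟩
    rw [map_pow, e.apply_symm_apply, hu]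

/-- local triviality everywhere -/
theorem locTriv_of {L : Type} [Field L] [NumberField L] {V W : WeierstrassCurve L} {D a b s : L}
    (h : Is3 V D a b) (h' : Is3 W (-3 * D) a (dl D a b)) (hs : s ^ 2 = D) {f : Coch L V}
    (hk : ∀ σ, Kr (f σ)) {r : AlgebraicClosure L} {d : L} (hr : r ≠ 0)
    (hd : r ^ 3 = algebraMap L (AlgebraicClosure L) d)
    (hr' : ∀ σ : AlgebraicClosure L ≃ₐ[L] AlgebraicClosure L,
      σ r = ee (algebraMap L (AlgebraicClosure L) s) (algebraMap L (AlgebraicClosure L) b) (f σ) * r)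
    (H : ∀ v : HeightOneSpectrum (𝓞 L), PtSol (algebraMap L (v.adicCompletion L) s)
      (algebraMap L (v.adicCompletion L) a)
      (algebraMap L (v.adicCompletion L) (9 * b + 4 * D * a ^ 3))
      (algebraMap L (v.adicCompletion L) d)) : IsLocTriv L V f := by
  rw [isLocTriv_iff]
  refine ⟨fun v ι => trivAt_of h h' hs ι hk hr hd hr' (H v), fun v ι => ?_⟩
  refine trivAt_of h h' hs ι hk hr hd hr' (Or.inl ?_)
  exact inf_cube v _

end H38T8
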