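import Pool.Agent.H38.T8.Fq
import Pool.Agent.H38.T6.Lc

/-!
All unit classes at a place of good reduction come from points (MP_78d38b_T8, helper38).
-/

set_option autoImplicit false
set_option linter.unusedSectionVars false
open scoped Classical

open WeierstrassCurve IsDedekindDomain NumberField WithZero Pool.Agent.H10 H55T3 H38T6 H86T3

namespace H38T8

section

variable {F : Type*} [Field F] {V : Valuation F (WithZero (Multiplicative ℤ))}

lemma lg_sqrt (hV : Hens3 V) (h2 : V 2 = 1) {x : F} (hx : V x < 1) :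
    ∃ t, V t < 1 ∧ 1 + x = (1 + t) ^ 2 := by
  obtain ⟨y, h1, hy⟩ := hV (-x) 2 1 0 (by rw [Valuation.map_neg]; exact hx) h2
    (by rw [map_one]) (by rw [map_zero]; exact zero_le_one)
  exact ⟨y, h1, by linear_combination (-1 : F) * hy⟩

lemma lg_cube (hV : Hens3 V) (h3 : V 3 = 1) {u t : F} (ht : V t = 1) (h : V (u - t ^ 3) < 1) :
    ∃ r, u = r ^ 3 := by
  have ht0 : t ≠ 0 := by
    rintro rfl
    rw [map_zero] at ht
    exact zero_ne_one ht
  obtain ⟨r, hr⟩ := cube_tame hV h3 (x := (u - t ^ 3) / t ^ 3)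
    (by rw [map_div₀, map_pow, ht, one_pow, div_one]; exact h)
  refine ⟨t * r, ?_⟩
  rw [mul_pow, ← hr]
  field_simp
  ring

theorem ptSol_lift {k : Type*} [Field k] [Finite k] (hV : Hens3 V) (ρ : V.integer →+* k)
    (hρs : Function.Surjective ρ) (hρ : ∀ x : V.integer, ρ x = 0 ↔ V (x : F) < 1)
    (h2 : V 2 = 1) (h3 : V 3 = 1) {D a b s u : F} (hs : s ^ 2 = D) (vD : V D = 1) (va : V a ≤ 1)
    (vb : V b = 1) (vc : V (9 * b + 4 * D * a ^ 3) = 1) (vu : V u = 1) :
    PtSol s a (9 * b + 4 * D * a ^ 3) u := by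
  have hone : ∀ x : V.integer, ρ x ≠ 0 → V (x : F) = 1 := by
    intro x hx
    refine le_antisymm x.2 (not_lt.1 fun h => hx ((hρ x).2 h))
  have hne : ∀ x : V.integer, V (x : F) = 1 → ρ x ≠ 0 := by
    intro x hx h
    have h1 := (hρ x).1 h
    rw [hx] at h1
    exact lt_irrefl _ h1
  have vs : V s = 1 := by
    rw [← hs, map_pow] at vD
    exact (pow_left_inj₀ zero_le zero_le two_ne_zero).1 (by rw [vD, one_pow])
  obtain ⟨s', hs'⟩ : ∃ s' : V.integer, (s' : F) = s := ⟨⟨s, vs.le⟩, rfl⟩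
  obtain ⟨a', ha'⟩ : ∃ a' : V.integer, (a' : F) = a := ⟨⟨a, va⟩, rfl⟩
  obtain ⟨b', hb'⟩ : ∃ b' : V.integer, (b' : F) = b := ⟨⟨b, vb.le⟩, rfl⟩
  obtain ⟨u', hu'⟩ : ∃ u' : V.integer, (u' : F) = u := ⟨⟨u, vu.le⟩, rfl⟩
  subst hs' ha' hb' hu' hs
  have h2' : V ((2 : V.integer) : F) = 1 := h2
  have h3' : V ((3 : V.integer) : F) = 1 := h3
  have hD' : ρ (s' ^ 2) ≠ 0 := hne _ (by rw [← vD]; rfl)
  have hb' : ρ b' ≠ 0 := hne _ vb
  have hc' : ρ (9 * b' + 4 * s' ^ 2 * a' ^ 3) ≠ 0 := hne _ (by rw [← vc]; rfl)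
  have hu' : ρ u' ≠ 0 := hne _ vu
  have h2k : (2 : k) ≠ 0 := by
    have h4 := hne _ h2'
    rwa [map_ofNat] at h4
  have h3k : (3 : k) ≠ 0 := by
    have h4 := hne _ h3'
    rwa [map_ofNat] at h4
  obtain ⟨c', hc⟩ : ∃ c' : V.integer, c' = 9 * b' + 4 * s' ^ 2 * a' ^ 3 := ⟨_, rfl⟩
  have hcF : (c' : F) = 9 * (b' : F) + 4 * (s' : F) ^ 2 * (a' : F) ^ 3 := by rw [hc]; rfl
  rw [← hcF] at vc ⊢
  rw [← hc] at hc'
  have hIs : Is3 (⟨0, -3 * ρ (s' ^ 2) * ρ a' ^ 2, 0, -6 * ρ (s' ^ 2) * ρ a' * ρ b',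
      -3 * ρ (s' ^ 2) * ρ b' ^ 2⟩ : WeierstrassCurve k) (ρ (s' ^ 2)) (ρ a') (ρ b') := by
    refine ⟨rfl, rfl, rfl, rfl, rfl, hD', hb', ?_, h2k, h3k⟩
    rw [hc, map_add, map_mul, map_mul, map_mul, map_pow ρ a', map_ofNat, map_ofNat] at hc'
    exact hc'
  have hsol := ptSol_fq hIs (s := ρ s') (by rw [map_pow]) hu'
  have hck : 9 * ρ b' + 4 * ρ (s' ^ 2) * ρ a' ^ 3 = ρ c' := by
    rw [hc, map_add, map_mul, map_mul, map_mul, map_pow ρ a', map_ofNat, map_ofNat]
  rw [hck] at hsol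
  have hcube : ∀ t : k, ρ u' = t ^ 3 → PtSol (s' : F) (a' : F) (c' : F) (u' : F) := by
    intro t ht
    left
    obtain ⟨t', rfl⟩ := hρs t
    have ht0 : ρ t' ≠ 0 := by
      intro h0
      rw [h0, zero_pow three_ne_zero] at ht
      exact hu' ht
    refine lg_cube hV h3 (hone t' ht0) ?_
    have h5 : ρ (u' - t' ^ 3) = 0 := by rw [map_sub, map_pow, ht, sub_self]
    exact (hρ _).1 h5
  rcases hsol with ⟨t, ht⟩ | ⟨x, y, v, hv, hxy, huv⟩ | ⟨v, hv⟩
  · exact hcube t ht
  · by_cases hy : y = 0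
    · have hx0 : x ≠ 0 := by
        rintro rfl
        rw [hy, zero_pow two_ne_zero, zero_pow three_ne_zero, zero_add] at hxy
        have h5 : ρ s' * (3 * ρ a' * 0 + ρ c') = 0 := by
          have h6 : (ρ s' * (3 * ρ a' * 0 + ρ c')) ^ 2 = 0 := by rw [mul_pow]; exact hxy.symm
          exact pow_eq_zero_iff two_ne_zero |>.1 h6
        rw [h5, hy, add_zero] at huv
        exact (mul_ne_zero hu' (pow_ne_zero 3 hv)) huv
      apply hcube (-(ρ u' * v ^ 2 / x))
      have h5 : x ^ 3 = -(ρ u' * v ^ 3) ^ 2 := by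
        rw [huv, hy, zero_add, mul_pow]
        rw [hy] at hxy
        linear_combination -hxy
      have hx3 := pow_ne_zero 3 hx0
      have h6 : (-(ρ u' * v ^ 2 / x)) ^ 3 = -(ρ u' * v ^ 2) ^ 3 / x ^ 3 := by
        rw [neg_pow, div_pow]
        ring
      rw [h6, eq_div_iff hx3, h5]
      ring
    · obtain ⟨x', rfl⟩ := hρs x
      obtain ⟨y', rfl⟩ := hρs y
      obtain ⟨v', rfl⟩ := hρs v
      obtain ⟨L, hL⟩ : ∃ L : V.integer, L = 3 * a' * x' + c' := ⟨_, rfl⟩
      have hLF : (L : F) = 3 * (a' : F) * (x' : F) + (c' : F) := by rw [hL]; rfl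
      have hLk : ρ L = 3 * ρ a' * ρ x' + ρ c' := by
        rw [hL, map_add, map_mul, map_mul, map_ofNat]
      rw [← hLk] at hxy huv
      have vy := hone y' hy
      have vv := hone v' hv
      have hy0 : (y' : F) ≠ 0 := by
        intro h0
        rw [h0, map_zero] at vy
        exact zero_ne_one vy
      have e1 : V ((x' : F) ^ 3 + (s' : F) ^ 2 * (L : F) ^ 2 - (y' : F) ^ 2) < 1 := by
        have h5 : ρ (x' ^ 3 + s' ^ 2 * L ^ 2 - y' ^ 2) = 0 := by
          rw [map_sub, map_add, map_mul, map_pow, map_pow, map_pow, map_pow, hxy, sub_self]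
        exact (hρ _).1 h5
      obtain ⟨t, ht, htt⟩ := lg_sqrt hV h2
        (x := ((x' : F) ^ 3 + (s' : F) ^ 2 * (L : F) ^ 2 - (y' : F) ^ 2) / (y' : F) ^ 2)
        (by rw [map_div₀, map_pow, vy, one_pow, div_one]; exact e1)
      obtain ⟨z, hz⟩ : ∃ z, z = (y' : F) * (1 + t) := ⟨_, rfl⟩
      have hz2 : z ^ 2 = (x' : F) ^ 3 + (s' : F) ^ 2 * (L : F) ^ 2 := by
        rw [hz, mul_pow, ← htt]
        field_simp
        ring
      have e2 : V ((u' : F) * (v' : F) ^ 3 - ((y' : F) + (s' : F) * (L : F))) < 1 := by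
        have h5 : ρ (u' * v' ^ 3 - (y' + s' * L)) = 0 := by
          rw [map_sub, map_mul, map_pow, huv, map_add, map_mul, sub_self]
        exact (hρ _).1 h5
      have e3 : V ((u' : F) * (v' : F) ^ 3 - (z + (s' : F) * (L : F))) < 1 := by
        have h5 : (u' : F) * (v' : F) ^ 3 - (z + (s' : F) * (L : F)) =
            ((u' : F) * (v' : F) ^ 3 - ((y' : F) + (s' : F) * (L : F))) - (y' : F) * t := by
          rw [hz]; ring
        rw [h5]
        refine Valuation.map_sub_lt _ e2 ?_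
        rw [map_mul, vy, one_mul]
        exact ht
      have hu0 : (u' : F) ≠ 0 := by
        intro h0
        rw [h0, map_zero] at vu
        exact zero_ne_one vu
      obtain ⟨r, hr⟩ := lg_cube hV h3 (u := (z + (s' : F) * (L : F)) / (u' : F)) (t := (v' : F)) vv (by
        have h5 : (z + (s' : F) * (L : F)) / (u' : F) - (v' : F) ^ 3 =
            -((u' : F) * (v' : F) ^ 3 - (z + (s' : F) * (L : F))) / (u' : F) := by
          field_simp
          ring
        rw [h5, map_div₀, vu, div_one, Valuation.map_neg]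
        exact e3)
      right
      left
      have hm : V (z + (s' : F) * (L : F)) = 1 := by
        have h5 : z + (s' : F) * (L : F) = (u' : F) * (v' : F) ^ 3 -
          ((u' : F) * (v' : F) ^ 3 - (z + (s' : F) * (L : F))) := by ring
        have h6 : V ((u' : F) * (v' : F) ^ 3) = 1 := by
          rw [map_mul, map_pow, vu, vv, one_pow, one_mul]
        rw [h5]
        rw [Valuation.map_sub_eq_of_lt_left, h6]
        rw [h6]
        exact e3
      refine ⟨(x' : F), z, r, ?_, ?_, ?_⟩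
      · rintro rfl
        rw [zero_pow three_ne_zero, div_eq_zero_iff] at hr
        rcases hr with h5 | h5
        · rw [h5, map_zero] at hm
          exact zero_ne_one hm
        · exact hu0 h5
      · rw [← hLF]
        exact hz2
      · rw [← hLF, ← hr, mul_div_cancel₀ _ hu0]
  · obtain ⟨v', rfl⟩ := hρs v
    have e1 : V ((u' : F) * (v' : F) ^ 3 * (2 * (s' : F) * (c' : F)) - 1) < 1 := by
      have h5 : ρ (u' * v' ^ 3 * (2 * s' * c') - 1) = 0 := by
        rw [map_sub, map_mul, map_mul, map_mul, map_mul, map_pow, map_ofNat, hv, map_one, sub_self]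
      exact (hρ _).1 h5
    have hv0 : ρ v' ≠ 0 := by
      intro h0
      rw [h0, zero_pow three_ne_zero, mul_zero, zero_mul] at hv
      exact zero_ne_one hv
    have vm : V ((u' : F) * (2 * (s' : F) * (c' : F))) = 1 := by
      rw [map_mul, map_mul, map_mul, vu, h2, vs, vc, one_mul, one_mul, one_mul]
    have hm0 : (u' : F) * (2 * (s' : F) * (c' : F)) ≠ 0 := by
      intro h0
      rw [h0, map_zero] at vm
      exact zero_ne_one vm
    obtain ⟨r, hr⟩ := lg_cube hV h3 (u := ((u' : F) * (2 * (s' : F) * (c' : F)))⁻¹) (t := (v' : F))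
      (hone v' hv0) (by
        have h5 : ((u' : F) * (2 * (s' : F) * (c' : F)))⁻¹ - (v' : F) ^ 3 =
            -((u' : F) * (v' : F) ^ 3 * (2 * (s' : F) * (c' : F)) - 1) *
              ((u' : F) * (2 * (s' : F) * (c' : F)))⁻¹ := by
          linear_combination ((v' : F) ^ 3) * mul_inv_cancel₀ hm0
        rw [h5, map_mul, Valuation.map_neg, map_inv₀, vm, inv_one, mul_one]
        exact e1)
    right
    right
    refine ⟨r, ?_⟩
    rw [← hr]
    linear_combination mul_inv_cancel₀ hm0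

end

end H38T8
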