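import Pool.Agent.H38.T8.Pk
import Pool.Agent.H55.T3.KD

/-!
A ramified split prime gives a nontrivial class: the curve with the multiplicative kernel (MP_78d38b_T8, helper38).
-/

set_option autoImplicit false
set_option linter.unusedSectionVars false
open scoped Classical

open WeierstrassCurve IsDedekindDomain NumberField WithZero Pool.Agent.H10 H55T3 H38T6 H86T3

namespace H38T8

/-- the local conditions at all places, first case -/
theorem loc_dual {m : ℕ} {K : Type} [Field K] [NumberField K] [IsGalois ℚ K]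
    (hK : Module.finrank ℚ K = 3 ^ m) {F C : Type} [Field F] [NumberField F] [Field C]
    [NumberField C] [Algebra F C] [Algebra K C] {t : F} {s : C} {κ : C ≃ₐ[K] C}
    {g : F ≃ₐ[ℚ] F} {D α β : ℤ} (H : Dat8 D α β) (P : Pk D K F C t s κ g) {d r : C} (hd : d ≠ 0)
    (hr : κ d * d = r ^ 3) (hv : ∀ W : HeightOneSpectrum (𝓞 C), (3 : ℤ) ∣ log (W.valuation C d))
    (W : HeightOneSpectrum (𝓞 C)) :
    PtSol (algebraMap C (W.adicCompletion C) s) (algebraMap C (W.adicCompletion C) ((α : C) / 3))
      (algebraMap C (W.adicCompletion C) (β : C)) (algebraMap C (W.adicCompletion C) d) := by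
  have hodd : Odd (Module.finrank ℚ K) := by
    rw [hK]
    exact Odd.pow (by decide)
  by_cases h3 : ((3 : ℤ) : 𝓞 C) ∈ W.asIdeal
  · have v3 := pc_lt W h3
    have e3 : (((3 : ℤ) : C)) = 3 := by norm_num
    rw [e3] at v3
    have h3' : ((3 : ℕ) : 𝓞 C) ∈ W.asIdeal := by exact_mod_cast h3
    have vD : W.valuation C (D : C) = 1 := by
      apply pc_one W
      apply pc_notMem W Nat.prime_three h3'
      have := H.three
      push_cast
      omega
    have vs : W.valuation C s = 1 := by
      have h4 : W.valuation C s ^ 2 = 1 := by rw [← map_pow, P.s2, vD]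
      exact (pow_left_inj₀ zero_le zero_le two_ne_zero).1 (by rw [h4, one_pow])
    have vα : W.valuation C (α : C) = 1 := by
      apply pc_one W
      exact pc_notMem W Nat.prime_three h3' (by exact_mod_cast H.hα)
    have v2 : W.valuation C ((2 : ℤ) : C) = 1 := by
      apply pc_one W
      apply pc_notMem W Nat.prime_three h3'
      norm_num
    have e2 : (((2 : ℤ) : C)) = 2 := by norm_num
    rw [e2] at v2
    have hconj : ∀ x, W.valuation C (κ x) = W.valuation C x := by
      intro x
      obtain ⟨u, v, rfl⟩ := P.span x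
      rw [map_add, map_mul, κ.commutes, κ.commutes, P.κs]
      obtain ⟨w, e, he, -, hval, hmem⟩ := val_below (K := K) W
      have hw3 : (3 : 𝓞 K) ∈ w.asIdeal := by
        have h5 := (hmem 3).2 h3
        exact_mod_cast h5
      rw [conj_inert (K := K) (δ := (D : K)) (W.valuation C) (by rw [P.s2, map_intCast]) vs ?_ u v]
      · congr 1
        ring
      · intro u _
        rw [hval]
        exact one_le_pow₀ (no_sqrt (N := K) hodd H.three w hw3 u)
    refine ptSol_three (K := K) (κ := κ) W v3 v2 vs ?_ (pc_le W β) hconj hd hr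
    have e4 : (3 : C) * ((α : C) / 3) = (α : C) := by field_simp
    rw [e4, vα]
  · refine loc_not3 (K := K) hodd H (Or.inl rfl) P.s2 P.κs P.span
      (b := ((27 * β - 4 * D * α ^ 3 : ℤ) : C) / 243) (Or.inl rfl) (c := (β : C)) ?_
      (Or.inr rfl) W h3 hd hr (hv W)
    push_cast
    ring

theorem nec_dual {m : ℕ} {D α β : ℤ} (H : Dat8 D α β) (hC : CubD D) {K : Type} [Field K]
    [NumberField K] [IsGalois ℚ K] (hK : Module.finrank ℚ K = 3 ^ m) {q : ℕ} (hq : q.Prime)
    (hq3 : q ≠ 3) (hr : RamIn q K) (hsp : ¬ NonSplit q D) {V : WeierstrassCurve K}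
    (hV : V = curVD (D : K) (α : K) (27 * (β : K) - 4 * (D : K) * (α : K) ^ 3))
    (hf : Finite V.toAffine.Point) (hS : NoSha3 K V) : False := by
  have hnsq : ¬ IsSquare D := Gd_neg H.neg
  have hnsq3 : ¬ IsSquare (-3 * D) := Gd_nsq3 H.three
  obtain ⟨F, C, _, _, _, _, _, _, t, s, κ, g, P⟩ := exists_pk (δ := D) hnsq hnsq3 hK
  have hq2 : q ≠ 2 := by
    rintro rfl
    have := ram_one_mod_three hK hq hq3 hr
    omega
  obtain ⟨d₀, hd0, hn, hv, hnc⟩ := exists_cls (D := D) P.t2 (hC F t P.t2 P.fin) P.gt P.gg hq hq2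
    hsp
  obtain ⟨d, hd⟩ : ∃ d, d = algebraMap F C d₀ := ⟨_, rfl⟩
  have hdne : d ≠ 0 := by
    rw [hd]
    exact (map_ne_zero_iff _ (algebraMap F C).injective).2 hd0
  have hκd : κ d * d = 1 ^ 3 := by
    rw [hd, P.κg, ← map_mul, hn, map_one, one_pow]
  have hvd : ∀ W : HeightOneSpectrum (𝓞 C), (3 : ℤ) ∣ log (W.valuation C d) := by
    intro W
    rw [hd]
    refine P.val q hq hr d₀ (fun v hv' => ?_) W
    rw [hv v hv', log_one]
    exact dvd_zero _
  have hD : (D : K) ≠ 0 := by
    have := H.neg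
    exact_mod_cast (by omega : D ≠ 0)
  have hβ : (β : K) ≠ 0 := by exact_mod_cast H.hβ
  have hγ : 27 * (β : K) - 4 * (D : K) * (α : K) ^ 3 ≠ 0 := by
    have h0 : 27 * β - 4 * D * α ^ 3 ≠ 0 := by
      intro h0
      apply H.gam
      rw [h0]
      exact dvd_zero _
    exact_mod_cast h0
  have hV3 := is3_VD (α := (α : K)) hD hβ hγ
  have hW3 := is3_WD' (α := (α : K)) hD hβ hγ
  rw [← hV] at hV3
  obtain ⟨δ, hδ⟩ := IsAlgClosed.exists_pow_nat_eq (jB K C d) (n := 3) (by norm_num)
  have hCD : CD V (D : K) (3 * (α : K)) (3 * (27 * (β : K) - 4 * (D : K) * (α : K) ^ 3)) s d κ 1 δ :=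
    ⟨hV3, by rw [P.s2, map_intCast], P.κs, P.span, hdne, by rw [hκd, map_one], hδ⟩
  have hdiv : Div3 K (curWD (D : K) (9 * (α : K)) (729 * (β : K))) := by
    refine div3_fin hV3 hW3 ?_ ?_ hf
    · have h1 := Ea_nonsq m hnsq3 K hK
      intro z
      have h2 := h1 z
      push_cast at h2
      exact h2
    · exact Ea_nonsq m hnsq K hK
  obtain ⟨y, hy⟩ := hCD.final P.finC hW3 (fun W => by
    have h1 := loc_dual hK H P hdne hκd hvd W
    have h2 := PtSol.scale (u := 1) (t := 9)
      (a := algebraMap C (W.adicCompletion C) (algebraMap K C (3 * (α : K))))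
      (c' := algebraMap C (W.adicCompletion C) (algebraMap K C (9 * (3 * (27 * (β : K) -
        4 * (D : K) * (α : K) ^ 3)) + 4 * (D : K) * (3 * (α : K)) ^ 3))) ?_ ?_ ?_ h1
    · rw [one_mul] at h2
      exact h2
    · have hch : CharZero (W.adicCompletion C) := charZero_of_alg (K := C)
      norm_num
    · rw [one_mul]
      simp only [map_mul, map_div₀, map_ofNat, map_intCast]
      have hch : CharZero (W.adicCompletion C) := charZero_of_alg (K := C)
      ring
    · rw [one_mul]
      simp only [map_mul, map_add, map_sub, map_pow, map_ofNat, map_intCast]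
      ring) hS hdiv
  rw [hd] at hy
  obtain ⟨z, hz⟩ := P.down d₀ y hy
  exact hnc z hz

end H38T8
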