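import Pool.Agent.H38.T8.Ch

/-!
A ramified split prime gives a nontrivial class: the curve with the etale kernel (MP_78d38b_T8, helper38).
-/

set_option autoImplicit false
set_option linter.unusedSectionVars false
open scoped Classical

open WeierstrassCurve IsDedekindDomain NumberField WithZero Pool.Agent.H10 H55T3 H38T6 H86T3

namespace H38T8

theorem split_twist {q : ℕ} (hq : q.Prime) (h1 : q % 3 = 1) {D : ℤ} (h : NonSplit q (-3 * D)) :
    NonSplit q D := by
  have h2 := nonsplit_twist hq h1 h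
  intro t ht
  have h3 := h2 (3 * t) (by
    have e1 : -3 * (-3 * D) - (3 * t) ^ 2 = 9 * (D - t ^ 2) := by ring
    rw [e1]
    exact Dvd.dvd.mul_left ht 9)
  rcases (Nat.prime_iff_prime_int.1 hq).dvd_or_dvd h3 with h4 | h4
  · exfalso
    have h5 : q ∣ 3 := by exact_mod_cast h4
    have h6 := (Nat.prime_dvd_prime_iff_eq hq Nat.prime_three).1 h5
    omega
  · exact h4

theorem nec_phi {m : ℕ} {D α β : ℤ} (H : Dat8 D α β) (hC : CubD D) {K : Type} [Field K]
    [NumberField K] [IsGalois ℚ K] (hK : Module.finrank ℚ K = 3 ^ m) {q : ℕ} (hq : q.Prime)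
    (hq3 : q ≠ 3) (hr : RamIn q K) (hsp : ¬ NonSplit q D) {V : WeierstrassCurve K}
    (hV : V = curWD (D : K) (α : K) (β : K))
    (hf : Finite V.toAffine.Point) (hS : NoSha3 K V) : False := by
  have hodd : Odd (Module.finrank ℚ K) := by
    rw [hK]
    exact Odd.pow (by decide)
  have hnsq : ¬ IsSquare D := Gd_neg H.neg
  have hnsq3 : ¬ IsSquare (-3 * D) := Gd_nsq3 H.three
  have hnsq9 : ¬ IsSquare (-3 * (-3 * D)) := by
    apply Gd_neg
    have := H.neg
    omega
  obtain ⟨F, C, _, _, _, _, _, _, t, s, κ, g, P⟩ := exists_pk (δ := -3 * D) hnsq3 hnsq9 hK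
  have hq1 := ram_one_mod_three hK hq hq3 hr
  have hq2 : q ≠ 2 := by
    rintro rfl
    omega
  obtain ⟨d₀, p, r, hd0, hn, hv, hnc, hdpr, hrI, hpr⟩ := phi_cls K hodd H.neg H.three hC hnsq3 P.t2
    P.fin P.gt P.gg P.coord hq hq2 (fun h => hsp (split_twist hq hq1 h))
  obtain ⟨d, hd⟩ : ∃ d, d = algebraMap F C d₀ := ⟨_, rfl⟩
  have hdne : d ≠ 0 := by
    rw [hd]
    exact (map_ne_zero_iff _ (algebraMap F C).injective).2 hd0
  have hκd : κ d * d = 1 ^ 3 := by
    rw [hd, P.κg, ← map_mul, hn, map_one, one_pow]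
  have hvd : ∀ W : HeightOneSpectrum (𝓞 C), (3 : ℤ) ∣ log (W.valuation C d) := by
    intro W
    rw [hd]
    refine P.val q hq hr d₀ (fun v hv' => ?_) W
    rw [hv v hv', log_one]
    exact dvd_zero _
  have hdC : d = (p : C) + ((3 * r : ℚ) : C) * s := by
    have hQ : ∀ r : ℚ, algebraMap F C (algebraMap ℚ F r) = (r : C) := fun r => by
      rw [eq_ratCast, map_ratCast]
    rw [hd, hdpr, map_add, map_mul, hQ, hQ, P.ts]
  have hD : (D : K) ≠ 0 := by
    have := H.neg
    exact_mod_cast (by omega : D ≠ 0)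
  have hβ : (β : K) ≠ 0 := by exact_mod_cast H.hβ
  have hγ : 27 * (β : K) - 4 * (D : K) * (α : K) ^ 3 ≠ 0 := by
    have h0 : 27 * β - 4 * D * α ^ 3 ≠ 0 := by
      intro h0
      apply H.gam
      rw [h0]
      exact dvd_zero _
    exact_mod_cast h0
  have hV3 := is3_WD (α := (α : K)) hD hβ hγ
  have hW3 := is3_VD' (α := (α : K)) hD hβ hγ
  rw [← hV] at hV3
  have hs2 : s ^ 2 = -3 * (D : C) := by
    rw [P.s2]
    push_cast
    rfl
  obtain ⟨δ, hδ⟩ := IsAlgClosed.exists_pow_nat_eq (jB K C d) (n := 3) (by norm_num)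
  have hCD : CD V (-3 * (D : K)) ((α : K) / 3) ((β : K) / 3) s d κ 1 δ :=
    ⟨hV3, by rw [hs2, map_mul, map_neg, map_ofNat, map_intCast], P.κs, P.span, hdne,
      by rw [hκd, map_one], hδ⟩
  have h1 : ∀ z : K, z ^ 2 ≠ -3 * (D : K) := by
    intro z
    have h2 := Ea_nonsq m hnsq3 K hK z
    push_cast at h2
    exact h2
  have h2 : ∀ z : K, z ^ 2 ≠ -3 * (-3 * (D : K)) := by
    intro z
    have h2 := Ea_nonsq m hnsq9 K hK z
    push_cast at h2
    exact h2
  have hdiv := div3_fin hV3 hW3 h2 h1 hf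
  obtain ⟨y, hy⟩ := hCD.final P.finC hW3 (fun W => by
    have hch : CharZero (W.adicCompletion C) := charZero_of_alg (K := C)
    by_cases h3 : ((3 : ℤ) : 𝓞 C) ∈ W.asIdeal
    · left
      have v3 : (Valued.v (3 : W.adicCompletion C) : WithZero (Multiplicative ℤ)) < 1 := by
        rw [valued_ofNat W 3]
        have h4 := pc_lt W h3
        exact_mod_cast h4
      have v2 : (Valued.v (2 : W.adicCompletion C) : WithZero (Multiplicative ℤ)) = 1 := by
        have := v_one (F := W.adicCompletion C) v3 (n := 2) (by norm_num)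
        exact_mod_cast this
      obtain ⟨x, y, hx, hy⟩ := cube3 (ad_hens W) v3 v2 H.three hpr hrI
      refine ⟨x + y * algebraMap C (W.adicCompletion C) s, ?_⟩
      have hs3 : (algebraMap C (W.adicCompletion C) s) ^ 2 = ((-3 * D : ℤ) : W.adicCompletion C) := by
        rw [← map_pow, P.s2, map_intCast]
      rw [hdC, map_add, map_mul, map_ratCast, map_ratCast, hx, hy]
      linear_combination (-(3 * x * y ^ 2) - y ^ 3 * algebraMap C (W.adicCompletion C) s) * hs3
    · have h4 := loc_not3 (K := K) hodd H (Or.inr rfl) P.s2 P.κs P.span (b := (β : C) / 3)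
        (Or.inr rfl) (c := ((27 * β - 4 * D * α ^ 3 : ℤ) : C) / 9) (by push_cast; ring)
        (Or.inl rfl) W h3 hdne hκd (hvd W)
      have e1 : (α : C) / 3 = algebraMap K C ((α : K) / 3) := by
        rw [map_div₀, map_intCast, map_ofNat]
      have e2 : ((27 * β - 4 * D * α ^ 3 : ℤ) : C) / 9 = algebraMap K C (9 * ((β : K) / 3) +
          4 * (-3 * (D : K)) * ((α : K) / 3) ^ 3) := by
        simp only [map_add, map_mul, map_neg, map_pow, map_div₀, map_intCast, map_ofNat]
        push_cast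
        ring
      rw [e1, e2] at h4
      exact h4) hS hdiv
  rw [hd] at hy
  obtain ⟨z, hz⟩ := P.down d₀ y hy
  exact hnc z hz

end H38T8
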