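import Pool.Agent.H38.T8.Lg
import Pool.Agent.H38.T6.Oc
import Pool.Agent.H38.T6.Va

/-!
Local solubility at the places not above three (MP_78d38b_T8, helper38).
-/

set_option autoImplicit false
set_option linter.unusedSectionVars false
open scoped Classical

open WeierstrassCurve IsDedekindDomain NumberField WithZero Pool.Agent.H10 H55T3 H38T6 H86T3

namespace H38T8

section

variable {F : Type*} [Field F]

lemma PtSol.scale {s al c d u t a c' : F} (ht : t ≠ 0) (ha : u * a = t * al)
    (hc : u * c' = t ^ 3 * c) (H : PtSol s al c d) : PtSol (u * s) a c' d := by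
  rcases H with H | ⟨x, y, v, hv, hxy, hdv⟩ | ⟨v, hv⟩
  · exact Or.inl H
  · refine Or.inr (Or.inl ⟨t ^ 2 * x, t ^ 3 * y, t * v, mul_ne_zero ht hv, ?_, ?_⟩)
    · have e1 : (u * s) ^ 2 * (3 * a * (t ^ 2 * x) + c') ^ 2 =
          s ^ 2 * (3 * (u * a) * (t ^ 2 * x) + u * c') ^ 2 := by ring
      rw [e1, ha, hc]
      linear_combination t ^ 6 * hxy
    · have e1 : u * s * (3 * a * (t ^ 2 * x) + c') = s * (3 * (u * a) * (t ^ 2 * x) + u * c') := by
        ring
      rw [e1, ha, hc]
      linear_combination t ^ 3 * hdv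
  · refine Or.inr (Or.inr ⟨v / t, ?_⟩)
    have e1 : 2 * (u * s) * c' = 2 * s * (u * c') := by ring
    rw [e1, hc, div_pow]
    field_simp
    linear_combination hv

lemma PtSol.of_mul_cube {s a c d z : F} (hz : z ≠ 0) (H : PtSol s a c (d * z ^ 3)) :
    PtSol s a c d := by
  rcases H with ⟨t, ht⟩ | ⟨x, y, v, hv, hxy, hdv⟩ | ⟨v, hv⟩
  · refine Or.inl ⟨t / z, ?_⟩
    rw [div_pow, ← ht]
    field_simp
  · refine Or.inr (Or.inl ⟨x, y, z * v, mul_ne_zero hz hv, hxy, ?_⟩)
    rw [← hdv]
    ring
  · refine Or.inr (Or.inr ⟨z * v, ?_⟩)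
    rw [← hv]
    ring

end

section

variable {L : Type} [Field L] [NumberField L]

lemma unit_part (w : HeightOneSpectrum (𝓞 L)) {d : L} (hd : d ≠ 0)
    (h : (3 : ℤ) ∣ log (w.valuation L d)) :
    ∃ z : L, z ≠ 0 ∧ w.valuation L (d * z ^ 3) = 1 := by
  obtain ⟨k, hk⟩ := h
  obtain ⟨π, hπ⟩ := w.valuation_exists_uniformizer L
  have hπ0 : π ≠ 0 := by
    rintro rfl
    rw [map_zero] at hπ
    exact exp_ne_zero hπ.symm
  refine ⟨π ^ k, zpow_ne_zero k hπ0, ?_⟩
  have h1 : w.valuation L d = exp (3 * k) := by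
    rw [← hk, exp_log]
    exact (Valuation.ne_zero_iff _).2 hd
  rw [map_mul, map_pow, map_zpow₀, h1, hπ, ← exp_zsmul, ← exp_nsmul, ← exp_add, ← exp_zero]
  congr 1
  simp only [nsmul_eq_mul, zsmul_eq_mul]
  push_cast
  ring

/-- good places -/
theorem ptSol_good (w : HeightOneSpectrum (𝓞 L)) {D a b s d : L} (hs : s ^ 2 = D)
    (h2 : w.valuation L 2 = 1) (h3 : w.valuation L 3 = 1) (vD : w.valuation L D = 1)
    (va : w.valuation L a ≤ 1) (vb : w.valuation L b = 1)
    (vc : w.valuation L (9 * b + 4 * D * a ^ 3) = 1) (hd : d ≠ 0)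
    (h : (3 : ℤ) ∣ log (w.valuation L d)) :
    PtSol (algebraMap L (w.adicCompletion L) s) (algebraMap L (w.adicCompletion L) a)
      (algebraMap L (w.adicCompletion L) (9 * b + 4 * D * a ^ 3))
      (algebraMap L (w.adicCompletion L) d) := by
  obtain ⟨z, hz, hv⟩ := unit_part w hd h
  obtain ⟨k, _, _, ρ, hρs, hρ⟩ := Lc_resid w
  have hinj := (algebraMap L (w.adicCompletion L)).injective
  refine PtSol.of_mul_cube (z := algebraMap L (w.adicCompletion L) z)
    ((map_ne_zero_iff _ hinj).2 hz) ?_
  rw [← map_pow, ← map_mul]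
  have e1 : algebraMap L (w.adicCompletion L) (9 * b + 4 * D * a ^ 3) =
      9 * algebraMap L (w.adicCompletion L) b + 4 * algebraMap L (w.adicCompletion L) D *
        algebraMap L (w.adicCompletion L) a ^ 3 := by
    simp only [map_add, map_mul, map_pow, map_ofNat]
  have e2 : (Valued.v (2 : w.adicCompletion L) : WithZero (Multiplicative ℤ)) = 1 := by
    rw [← map_ofNat (algebraMap L (w.adicCompletion L)) 2, valued_algebraMap]
    exact h2
  have e3 : (Valued.v (3 : w.adicCompletion L) : WithZero (Multiplicative ℤ)) = 1 := by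
    rw [← map_ofNat (algebraMap L (w.adicCompletion L)) 3, valued_algebraMap]
    exact h3
  have vc' := vc
  rw [← valued_algebraMap w, e1] at vc'
  rw [e1]
  refine ptSol_lift (V := (Valued.v : Valuation (w.adicCompletion L) (WithZero (Multiplicative ℤ))))
    (ad_hens w) ρ hρs hρ e2 e3 ?_ ?_ ?_ ?_ vc' ?_
  · rw [← map_pow, hs]
  · rw [valued_algebraMap, vD]
  · rw [valued_algebraMap]; exact va
  · rw [valued_algebraMap, vb]
  · rw [valued_algebraMap, hv]

/-- elements close to cubes -/
lemma cube_near (w : HeightOneSpectrum (𝓞 L)) (h3 : w.valuation L 3 = 1) {d z t : L} (hz : z ≠ 0)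
    (ht : w.valuation L t = 1) (h : w.valuation L (d * z ^ 3 - t ^ 3) < 1) :
    ∃ r : w.adicCompletion L, algebraMap L (w.adicCompletion L) d = r ^ 3 := by
  have e3 : (Valued.v (3 : w.adicCompletion L) : WithZero (Multiplicative ℤ)) = 1 := by
    rw [← map_ofNat (algebraMap L (w.adicCompletion L)) 3, valued_algebraMap]
    exact h3
  have hz' : algebraMap L (w.adicCompletion L) z ≠ 0 :=
    (map_ne_zero_iff _ (algebraMap L (w.adicCompletion L)).injective).2 hz
  obtain ⟨r, hr⟩ := lg_cube (ad_hens w) e3 (u := algebraMap L (w.adicCompletion L) (d * z ^ 3))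
    (t := algebraMap L (w.adicCompletion L) t) (by rw [valued_algebraMap, ht])
    (by rw [← map_pow, ← map_sub, valued_algebraMap]; exact h)
  refine ⟨r / algebraMap L (w.adicCompletion L) z, ?_⟩
  rw [div_pow, ← hr, map_mul, map_pow]
  field_simp

/-- ramified places prime to three -/
theorem cube_ram {K : Type} [Field K] [NumberField K] [Algebra K L] {s : L} {δ : K}
    (hs : s ^ 2 = algebraMap K L δ) {κ : L ≃ₐ[K] L} (hκ : κ s = -s)
    (hspan : ∀ x : L, ∃ u v : K, x = algebraMap K L u + algebraMap K L v * s)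
    (w : HeightOneSpectrum (𝓞 L)) (h3 : w.valuation L 3 = 1) (h2 : w.valuation L 2 ≤ 1)
    (hw : ∀ u : K, w.valuation L (algebraMap K L u) ^ 2 ≠ w.valuation L (algebraMap K L δ))
    {d r : L} (hd : d ≠ 0) (hr : κ d * d = r ^ 3) :
    ∃ t : w.adicCompletion L, algebraMap L (w.adicCompletion L) d = t ^ 3 := by
  have hconj : ∀ x : L, w.valuation L (κ x) = w.valuation L x := by
    intro x
    obtain ⟨u, v, rfl⟩ := hspan x
    rw [map_add, map_mul, κ.commutes, κ.commutes, hκ]
    have h1 := conj_ram (w.valuation L) hs hw u v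
    rw [h1]
    congr 1
    ring
  have hres : ∀ x : L, w.valuation L x ≤ 1 → w.valuation L (x - κ x) < 1 := by
    intro x hx
    obtain ⟨u, v, rfl⟩ := hspan x
    have hne : w.valuation L (algebraMap K L u) ≠ w.valuation L (algebraMap K L v * s) ∨ v = 0 := by
      by_cases hv : v = 0
      · exact Or.inr hv
      · left
        intro h
        apply hw (u / v)
        have hb : w.valuation L (algebraMap K L v) ≠ 0 := by
          rw [Valuation.ne_zero_iff, map_ne_zero]
          exact hv
        rw [map_div₀, map_div₀, h, map_mul, mul_div_cancel_left₀ _ hb, ← map_pow, hs]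
    have e1 : algebraMap K L u + algebraMap K L v * s - κ (algebraMap K L u + algebraMap K L v * s) =
        2 * (algebraMap K L v * s) := by
      rw [map_add, map_mul, κ.commutes, κ.commutes, hκ]
      ring
    rw [e1]
    rcases hne with hne | hv
    · have h4 : w.valuation L (algebraMap K L v * s) ≤ 1 := by
        have h5 := Valuation.map_add_of_distinct_val (w.valuation L) hne
        rw [h5] at hx
        exact (le_max_right _ _).trans hx
      have h6 : w.valuation L (algebraMap K L v * s) ≠ 1 := by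
        intro h7
        by_cases hv : v = 0
        · rw [hv, map_zero, zero_mul, map_zero] at h7
          exact zero_ne_one h7
        · apply hw (1 / v)
          have hb : w.valuation L (algebraMap K L v) ≠ 0 := by
            rw [Valuation.ne_zero_iff, map_ne_zero]
            exact hv
          rw [map_mul] at h7
          rw [map_div₀, map_div₀, map_one, map_one, ← hs, map_pow]
          congr 1
          rw [one_div]
          exact inv_eq_of_mul_eq_one_right h7
      have h7 : w.valuation L (algebraMap K L v * s) < 1 := lt_of_le_of_ne h4 h6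
      rw [map_mul]
      calc w.valuation L 2 * w.valuation L (algebraMap K L v * s)
          ≤ 1 * w.valuation L (algebraMap K L v * s) := mul_le_mul' h2 le_rfl
        _ < 1 := by rw [one_mul]; exact h7
    · rw [hv, map_zero, zero_mul, mul_zero, map_zero]
      exact zero_lt_one
  have hdvd : (3 : ℤ) ∣ log (w.valuation L d) :=
    three_dvd_of_conj (w.valuation L) hd hr (hconj d)
  obtain ⟨z, hz, hv⟩ := unit_part w hd hdvd
  obtain ⟨u, hu⟩ : ∃ u, u = d * z ^ 3 := ⟨_, rfl⟩
  obtain ⟨m, hm⟩ : ∃ m, m = r * κ z * z := ⟨_, rfl⟩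
  rw [← hu] at hv
  have hum : κ u * u = m ^ 3 := by
    rw [hu, hm, map_mul, map_pow]
    linear_combination (κ z * z) ^ 3 * hr
  have hvm : w.valuation L m = 1 := by
    have h4 : w.valuation L m ^ 3 = 1 := by
      rw [← map_pow, ← hum, map_mul, hconj, hv, one_mul]
    exact (pow_left_inj₀ zero_le zero_le three_ne_zero).1 (by rw [h4, one_pow])
  have hm0 : m ≠ 0 := by
    rintro rfl
    rw [map_zero] at hvm
    exact zero_ne_one hvm
  refine cube_near w h3 (z := z) (t := u / m) hz (by rw [map_div₀, hv, hvm, div_one]) ?_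
  rw [← hu]
  have e1 : u - (u / m) ^ 3 = -(u ^ 2 * (u - κ u)) / m ^ 3 := by
    rw [div_pow, eq_div_iff (pow_ne_zero 3 hm0), sub_mul, div_mul_cancel₀ _ (pow_ne_zero 3 hm0),
      ← hum]
    ring
  rw [e1, map_div₀, Valuation.map_neg, map_mul, map_pow, map_pow, hv, hvm, one_pow, one_pow, div_one,
    one_mul]
  exact hres u hv.le

end

end H38T8
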