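import Pool.Agent.H38.T8.Pa

/-!
Local solubility at the places above three, first case (MP_78d38b_T8, helper38).
-/

set_option autoImplicit false
set_option linter.unusedSectionVars false
open scoped Classical

open WeierstrassCurve IsDedekindDomain NumberField WithZero Pool.Agent.H10 H55T3 H38T6 H86T3

namespace H38T8

section

variable {L : Type} [Field L] [NumberField L]

/-- units are cubes modulo a place above three -/
lemma cube_res (w : HeightOneSpectrum (𝓞 L)) (h3 : w.valuation L 3 < 1) {u : L}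
    (hu : w.valuation L u = 1) :
    ∃ z : L, w.valuation L z = 1 ∧ w.valuation L (u * z ^ 3 - 1) < 1 := by
  obtain ⟨k, _, hfin, ρ, hρs, hρ⟩ := Lc_resid w
  have _ := Fintype.ofFinite k
  have e3 : (Valued.v (3 : w.adicCompletion L) : WithZero (Multiplicative ℤ)) < 1 := by
    rw [← map_ofNat (algebraMap L (w.adicCompletion L)) 3, valued_algebraMap]
    exact h3
  have h3k : (3 : k) = 0 := by
    have h1 : ρ 3 = 0 := (hρ 3).2 e3
    rwa [map_ofNat] at h1
  have hch : CharP k 3 := by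
    have h1 : ((3 : ℕ) : k) = 0 := by exact_mod_cast h3k
    exact (CharP.charP_iff_prime_eq_zero Nat.prime_three).2 h1
  obtain ⟨n, hp, hcard⟩ := FiniteField.card k 3
  obtain ⟨j, hj⟩ : ∃ j : ℕ, (n : ℕ) = j + 1 := ⟨(n : ℕ) - 1, by have := n.pos; omega⟩
  rw [hj] at hcard
  have hu0 : u ≠ 0 := by
    rintro rfl
    rw [map_zero] at hu
    exact zero_ne_one hu
  have hv : (Valued.v (algebraMap L (w.adicCompletion L) u) : WithZero (Multiplicative ℤ)) = 1 := by
    rw [valued_algebraMap, hu]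
  obtain ⟨x, hx⟩ : ∃ x : (Valued.v : Valuation (w.adicCompletion L)
      (WithZero (Multiplicative ℤ))).integer, (x : w.adicCompletion L) =
      algebraMap L (w.adicCompletion L) u := ⟨⟨_, hv.le⟩, rfl⟩
  have h4 : ρ (x - x ^ 3 ^ (j + 1)) = 0 := by
    rw [map_sub, map_pow, ← hcard, FiniteField.pow_card, sub_self]
  have h5 := (hρ _).1 h4
  have h6 : ((x - x ^ 3 ^ (j + 1) : (Valued.v : Valuation (w.adicCompletion L)
      (WithZero (Multiplicative ℤ))).integer) : w.adicCompletion L) =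
      algebraMap L (w.adicCompletion L) (u - u ^ 3 ^ (j + 1)) := by
    rw [map_sub, map_pow, ← hx]
    rfl
  rw [h6, valued_algebraMap] at h5
  refine ⟨(u ^ 3 ^ j)⁻¹, by rw [map_inv₀, map_pow, hu, one_pow, inv_one], ?_⟩
  have hw0 : u ^ 3 ^ (j + 1) ≠ 0 := pow_ne_zero _ hu0
  have e1 : u * (u ^ 3 ^ j)⁻¹ ^ 3 - 1 = (u - u ^ 3 ^ (j + 1)) * (u ^ 3 ^ (j + 1))⁻¹ := by
    rw [inv_pow, ← pow_mul, ← pow_succ, sub_mul, mul_inv_cancel₀ hw0]
  rw [e1, map_mul, map_inv₀, map_pow, hu, one_pow, inv_one, mul_one]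
  exact h5

/-- the local condition above three is empty in the first case -/
theorem ptSol_three {K : Type} [Field K] [NumberField K] [Algebra K L] {s a c : L}
    {κ : L ≃ₐ[K] L} (w : HeightOneSpectrum (𝓞 L)) (h3 : w.valuation L 3 < 1)
    (h2 : w.valuation L 2 = 1) (vs : w.valuation L s = 1) (va : w.valuation L (3 * a) = 1)
    (vc : w.valuation L c ≤ 1) (hκ : ∀ x, w.valuation L (κ x) = w.valuation L x) {d r : L}
    (hd : d ≠ 0) (hr : κ d * d = r ^ 3) :
    PtSol (algebraMap L (w.adicCompletion L) s) (algebraMap L (w.adicCompletion L) a)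
      (algebraMap L (w.adicCompletion L) c) (algebraMap L (w.adicCompletion L) d) := by
  have hdvd : (3 : ℤ) ∣ log (w.valuation L d) :=
    three_dvd_of_conj (w.valuation L) hd hr (hκ d)
  obtain ⟨z₁, hz₁, hv₁⟩ := unit_part w hd hdvd
  obtain ⟨z₂, hz₂, hv₂⟩ := cube_res w h3 hv₁
  have hz₂0 : z₂ ≠ 0 := by
    rintro rfl
    rw [map_zero] at hz₂
    exact zero_ne_one hz₂
  obtain ⟨z, hz⟩ : ∃ z, z = z₁ * z₂ := ⟨_, rfl⟩
  have hz0 : z ≠ 0 := by
    rw [hz]
    exact mul_ne_zero hz₁ hz₂0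
  obtain ⟨e, he⟩ : ∃ e, e = d * z ^ 3 := ⟨_, rfl⟩
  have he1 : w.valuation L (e - 1) < 1 := by
    have h4 : e - 1 = d * z₁ ^ 3 * z₂ ^ 3 - 1 := by
      rw [he, hz]
      ring
    rw [h4]
    exact hv₂
  obtain ⟨m, hm⟩ : ∃ m, m = r * κ z * z := ⟨_, rfl⟩
  have hem : κ e * e = m ^ 3 := by
    rw [he, hm, map_mul, map_pow]
    linear_combination (κ z * z) ^ 3 * hr
  have hve : w.valuation L e = 1 := by
    rw [he, hz]
    have h4 : d * (z₁ * z₂) ^ 3 = d * z₁ ^ 3 * z₂ ^ 3 := by ring
    rw [h4, map_mul, hv₁, map_pow, hz₂, one_pow, one_mul]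
  have hvm : w.valuation L m = 1 := by
    have h4 : w.valuation L m ^ 3 = 1 := by
      rw [← map_pow, ← hem, map_mul, hκ, hve, one_mul]
    exact (pow_left_inj₀ zero_le zero_le three_ne_zero).1 (by rw [h4, one_pow])
  have hke1 : w.valuation L (e - κ e) < 1 := by
    have h4 : e - κ e = (e - 1) - κ (e - 1) := by
      rw [map_sub, map_one]
      ring
    rw [h4]
    exact Valuation.map_sub_lt _ he1 (by rw [hκ]; exact he1)
  have hinj := (algebraMap L (w.adicCompletion L)).injective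
  refine PtSol.of_mul_cube (z := algebraMap L (w.adicCompletion L) z)
    ((map_ne_zero_iff _ hinj).2 hz0) ?_
  rw [← map_pow, ← map_mul, ← he]
  obtain ⟨φ, hφ⟩ : ∃ φ, φ = algebraMap L (w.adicCompletion L) := ⟨_, rfl⟩
  rw [← hφ] at hinj ⊢
  have hval : ∀ x : L, (Valued.v (φ x) : WithZero (Multiplicative ℤ)) = w.valuation L x := by
    intro x
    rw [hφ, valued_algebraMap]
  have hs0 : φ s ≠ 0 := by
    intro h
    have h4 := hval s
    rw [h, map_zero, vs] at h4
    exact zero_ne_one h4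
  have h20 : (2 : w.adicCompletion L) ≠ 0 := by
    intro h
    have h4 := hval 2
    rw [map_ofNat, h, map_zero, h2] at h4
    exact zero_ne_one h4
  obtain ⟨t, -, ht⟩ := ad_hens w (-(φ (e - κ e))) (φ (2 * s * (3 * a) * m)) 0 (φ (2 * s * c))
    (by rw [Valuation.map_neg, hval]; exact hke1)
    (by rw [hval, map_mul, map_mul, map_mul, h2, vs, va, hvm]; simp)
    (by rw [map_zero]; exact zero_le_one)
    (by
      rw [hval, map_mul, map_mul, h2, vs, one_mul, one_mul]
      exact vc)
  simp only [map_sub, map_mul, map_ofNat] at ht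
  have hem' := congrArg φ hem
  rw [map_mul, map_pow] at hem'
  have he0 : φ e ≠ 0 := by
    intro h
    have h4 := hval e
    rw [h, map_zero, hve] at h4
    exact zero_ne_one h4
  have hm0 : φ m ≠ 0 := by
    intro h
    have h4 := hval m
    rw [h, map_zero, hvm] at h4
    exact zero_ne_one h4
  by_cases ht0 : t = 0
  · left
    rw [ht0] at ht
    have h4 : φ (κ e) = φ e := by linear_combination ht
    rw [h4] at hem'
    refine ⟨φ e / φ m, ?_⟩
    rw [div_pow, eq_div_iff (pow_ne_zero 3 hm0), ← hem']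
    ring
  · right
    left
    refine ⟨φ m / t ^ 2, (φ e + φ (κ e)) / (2 * t ^ 3), 1 / t, div_ne_zero one_ne_zero ht0, ?_, ?_⟩
    · have h5 : φ s * (3 * φ a * (φ m / t ^ 2) + φ c) = (φ e - φ (κ e)) / (2 * t ^ 3) := by
        field_simp
        linear_combination ht
      have h6 : φ s ^ 2 * (3 * φ a * (φ m / t ^ 2) + φ c) ^ 2 =
          ((φ e - φ (κ e)) / (2 * t ^ 3)) ^ 2 := by
        rw [← h5]
        ring
      rw [h6]
      field_simp
      linear_combination 4 * hem'
    · have h5 : φ s * (3 * φ a * (φ m / t ^ 2) + φ c) = (φ e - φ (κ e)) / (2 * t ^ 3) := by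
        field_simp
        linear_combination ht
      rw [h5]
      field_simp
      ring

end

end H38T8
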