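import Pool.Agent.H38.T8.Dv
import Pool.Agent.H38.T8.Ca

/-!
Local solubility at all places prime to three, for the fields of the tower (MP_78d38b_T8, helper38).
-/

set_option autoImplicit false
set_option linter.unusedSectionVars false
open scoped Classical

open WeierstrassCurve IsDedekindDomain NumberField WithZero Pool.Agent.H10 H55T3 H38T6 H86T3

namespace H38T8

section

variable {C : Type} [Field C] [NumberField C]

/-- a prime number below a nonzero integer of a place -/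
theorem pc_prime {D : ℤ} (hD : D ≠ 0) (v : HeightOneSpectrum (𝓞 C)) (hv : (D : 𝓞 C) ∈ v.asIdeal) :
    ∃ q : ℕ, q.Prime ∧ (q : ℤ) ∣ D ∧ (q : 𝓞 C) ∈ v.asIdeal := by
  have hD0 : D.natAbs ≠ 0 := Int.natAbs_ne_zero.mpr hD
  have hDv : (D.natAbs : 𝓞 C) ∈ v.asIdeal := by
    rcases Int.natAbs_eq D with h | h
    · rw [h, Int.cast_natCast] at hv
      exact hv
    · rw [h, Int.cast_neg, Int.cast_natCast] at hv
      exact neg_mem_iff.mp hv
  have key : ∀ n : ℕ, n ≠ 0 → n ∣ D.natAbs → (n : 𝓞 C) ∈ v.asIdeal →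
      ∃ q : ℕ, q.Prime ∧ q ∣ D.natAbs ∧ (q : 𝓞 C) ∈ v.asIdeal := by
    intro n
    induction n using Nat.recOnMul with
    | zero => intro h; exact absurd rfl h
    | one =>
      intro _ _ h
      rw [Nat.cast_one] at h
      exact absurd ((Ideal.eq_top_iff_one _).mpr h) v.isPrime.ne_top
    | prime q hq => intro _ h1 h2; exact ⟨q, hq, h1, h2⟩
    | mul a b iha ihb =>
      intro h0 h1 h2
      rw [Nat.cast_mul] at h2
      rcases v.isPrime.mem_or_mem h2 with h | h
      · exact iha (left_ne_zero_of_mul h0) (dvd_of_mul_right_dvd h1) h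
      · exact ihb (right_ne_zero_of_mul h0) (dvd_of_mul_left_dvd h1) h
  obtain ⟨q, hq, h1, h2⟩ := key _ hD0 dvd_rfl hDv
  exact ⟨q, hq, Int.natCast_dvd.2 h1, h2⟩

lemma pc_mem_of_dvd (v : HeightOneSpectrum (𝓞 C)) {a b : ℤ} (hab : a ∣ b)
    (ha : (a : 𝓞 C) ∈ v.asIdeal) : (b : 𝓞 C) ∈ v.asIdeal := by
  obtain ⟨k, rfl⟩ := hab
  rw [Int.cast_mul]
  exact Ideal.mul_mem_right _ _ ha

lemma pc_notMem (v : HeightOneSpectrum (𝓞 C)) {q : ℕ} (hq : q.Prime)
    (hqv : (q : 𝓞 C) ∈ v.asIdeal) {n : ℤ} (hn : ¬ (q : ℤ) ∣ n) : (n : 𝓞 C) ∉ v.asIdeal :=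
  fun h => hn (ca_mem hq hqv h)

lemma pc_one (v : HeightOneSpectrum (𝓞 C)) {n : ℤ} (hn : (n : 𝓞 C) ∉ v.asIdeal) :
    v.valuation C (n : C) = 1 := by
  have h := (v.valuation_eq_one_iff_notMem (K := C)).2 hn
  rwa [map_intCast] at h

lemma pc_le (v : HeightOneSpectrum (𝓞 C)) (n : ℤ) : v.valuation C (n : C) ≤ 1 := by
  rw [← map_intCast (algebraMap (𝓞 C) C) n]
  exact v.valuation_le_one _

lemma pc_lt (v : HeightOneSpectrum (𝓞 C)) {n : ℤ} (hn : (n : 𝓞 C) ∈ v.asIdeal) :
    v.valuation C (n : C) < 1 := by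
  rw [← map_intCast (algebraMap (𝓞 C) C) n]
  exact (v.valuation_lt_one_iff_mem (K := C) _).2 hn

end

/-- the valuation of an integer exactly divisible by `q` is not a square from `K` -/
lemma pc_ram {K N : Type} [Field K] [NumberField K] [Field N] [NumberField N] [Algebra K N]
    [IsGalois ℚ N] (hodd : Odd (Module.finrank ℚ N)) {C : Type} [Field C] [NumberField C]
    [Algebra K C] (W : HeightOneSpectrum (𝓞 C)) {q : ℕ} (hq : q.Prime)
    (hqW : (q : 𝓞 C) ∈ W.asIdeal) {m : ℤ} (hm : ¬ (q : ℤ) ∣ m) (u : K) :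
    W.valuation C (algebraMap K C u) ^ 2 ≠
      W.valuation C (algebraMap K C (((q : ℤ) * m : ℤ) : K)) := by
  obtain ⟨v, e, he, -, hval, hmem⟩ := val_below (K := K) W
  have hqv : (q : 𝓞 K) ∈ v.asIdeal := by
    have := (hmem q).2 (by exact_mod_cast hqW)
    exact_mod_cast this
  have e1 : v.valuation K (((q : ℤ) * m : ℤ) : K) = v.valuation K (q : K) := by
    rw [Int.cast_mul, map_mul, pc_one v (pc_notMem v hq hqv hm), mul_one, Int.cast_natCast]
  have h0 : v.valuation K (q : K) ≠ 0 := by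
    rw [Valuation.ne_zero_iff]
    exact_mod_cast hq.ne_zero
  have hl : Odd (log (v.valuation K (q : K))) := odd_log (N := N) hodd hq v hqv
  intro hu
  rw [hval, hval, e1] at hu
  by_cases hu0 : v.valuation K u = 0
  · rw [hu0, zero_pow (by omega), zero_pow (by norm_num)] at hu
    exact pow_ne_zero e h0 hu.symm
  · have h1 := congrArg log hu
    rw [log_pow, log_pow, log_pow] at h1
    simp only [nsmul_eq_mul] at h1
    push_cast at h1
    have he0 : (e : ℤ) ≠ 0 := by positivity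
    have h3 : (e : ℤ) * (2 * log (v.valuation K u)) = (e : ℤ) * log (v.valuation K (q : K)) := by
      rw [← h1]; ring
    have h4 := mul_left_cancel₀ he0 h3
    rw [← h4] at hl
    exact (Int.not_odd_iff_even.2 (even_two_mul _)) hl

/-- `D` is squarefree -/
lemma pc_sqf {D : ℤ} (h : Squarefree D) {q : ℕ} (hq : q.Prime) (hqD : (q : ℤ) ∣ D) :
    ∃ m : ℤ, D = q * m ∧ ¬ (q : ℤ) ∣ m := by
  obtain ⟨m, rfl⟩ := hqD
  refine ⟨m, rfl, ?_⟩
  rintro ⟨k, rfl⟩
  have h1 := h (q : ℤ) ⟨k, by ring⟩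
  have h2 : (q : ℕ) = 1 := by
    have := Int.isUnit_iff_natAbs_eq.1 h1
    simpa using this
  exact hq.one_lt.ne' h2

/-- the places prime to three -/
theorem loc_not3 {K : Type} [Field K] [NumberField K] [IsGalois ℚ K]
    (hodd : Odd (Module.finrank ℚ K)) {C : Type} [Field C] [NumberField C]
    [Algebra K C] {D α β δ : ℤ} (H : Dat8 D α β) (hδ : δ = D ∨ δ = -3 * D) {s : C}
    (hs : s ^ 2 = (δ : C)) {κ : C ≃ₐ[K] C} (hκ : κ s = -s)
    (hspan : ∀ x : C, ∃ u v : K, x = algebraMap K C u + algebraMap K C v * s) {b : C}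
    (hb : b = ((27 * β - 4 * D * α ^ 3 : ℤ) : C) / 243 ∨ b = (β : C) / 3) {c : C}
    (hc : c = 9 * b + 4 * (δ : C) * ((α : C) / 3) ^ 3)
    (hc' : c = ((27 * β - 4 * D * α ^ 3 : ℤ) : C) / 9 ∨ c = (β : C))
    (W : HeightOneSpectrum (𝓞 C)) (h3 : ((3 : ℤ) : 𝓞 C) ∉ W.asIdeal) {d r : C} (hd : d ≠ 0)
    (hr : κ d * d = r ^ 3) (hv : (3 : ℤ) ∣ log (W.valuation C d)) :
    PtSol (algebraMap C (W.adicCompletion C) s) (algebraMap C (W.adicCompletion C) ((α : C) / 3))
      (algebraMap C (W.adicCompletion C) c) (algebraMap C (W.adicCompletion C) d) := by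
  have v3 := pc_one W h3
  have e3 : (((3 : ℤ) : C)) = 3 := by norm_num
  rw [e3] at v3
  have hD0 : D ≠ 0 := by
    have := H.neg
    omega
  have h3D : ¬ (3 : ℤ) ∣ D := by
    have := H.three
    omega
  by_cases hDW : (D : 𝓞 C) ∈ W.asIdeal
  · obtain ⟨q, hq, hqD, hqW⟩ := pc_prime hD0 W hDW
    obtain ⟨m, hm, hqm⟩ := pc_sqf H.sqf hq hqD
    have hq3 : q ≠ 3 := by
      rintro rfl
      exact h3D (by exact_mod_cast hqD)
    obtain ⟨m', hm', hqm'⟩ : ∃ m' : ℤ, δ = q * m' ∧ ¬ (q : ℤ) ∣ m' := by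
      rcases hδ with rfl | rfl
      · exact ⟨m, hm, hqm⟩
      · refine ⟨-3 * m, by rw [hm]; ring, ?_⟩
        intro h
        rcases (Nat.prime_iff_prime_int.1 hq).dvd_or_dvd h with h | h
        · apply hq3
          rw [dvd_neg] at h
          exact (Nat.prime_dvd_prime_iff_eq hq Nat.prime_three).1 (by exact_mod_cast h)
        · exact hqm h
    left
    refine cube_ram (K := K) (δ := (δ : K)) (by rw [hs, map_intCast]) hκ hspan W v3 ?_ ?_ hd hr
    · have := pc_le W 2
      exact_mod_cast this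
    · intro u
      rw [hm']
      exact pc_ram (N := K) hodd W hq hqW hqm' u
  · have h2W : ((2 : ℤ) : 𝓞 C) ∉ W.asIdeal := by
      intro h
      apply hDW
      apply pc_mem_of_dvd W _ h
      have := H.even
      omega
    have hne3 : ∀ q : ℕ, (q : 𝓞 C) ∈ W.asIdeal → q ≠ 3 := by
      rintro q hq rfl
      exact h3 (by exact_mod_cast hq)
    have hβW : (β : 𝓞 C) ∉ W.asIdeal := by
      intro h
      obtain ⟨q, hq, hqd, hqW⟩ := pc_prime H.hβ W h
      apply hDW
      exact pc_mem_of_dvd W (H.bad q hq (hne3 q hqW) (dvd_mul_of_dvd_left hqd _))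
        (by exact_mod_cast hqW)
    have hγW : ((27 * β - 4 * D * α ^ 3 : ℤ) : 𝓞 C) ∉ W.asIdeal := by
      intro h
      have h0 : 27 * β - 4 * D * α ^ 3 ≠ 0 := by
        intro h0
        apply H.gam
        rw [h0]
        exact dvd_zero _
      obtain ⟨q, hq, hqd, hqW⟩ := pc_prime h0 W h
      apply hDW
      exact pc_mem_of_dvd W (H.bad q hq (hne3 q hqW) (dvd_mul_of_dvd_right hqd _))
        (by exact_mod_cast hqW)
    have v2 := pc_one W h2W
    have e2 : (((2 : ℤ) : C)) = 2 := by norm_num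
    rw [e2] at v2
    have vD := pc_one W hDW
    have vβ := pc_one W hβW
    have vγ := pc_one W hγW
    have v9 : W.valuation C 9 = 1 := by
      have : (9 : C) = 3 ^ 2 := by norm_num
      rw [this, map_pow, v3, one_pow]
    have v243 : W.valuation C 243 = 1 := by
      have : (243 : C) = 3 ^ 5 := by norm_num
      rw [this, map_pow, v3, one_pow]
    rw [hc] at hc' ⊢
    refine ptSol_good W hs v2 v3 ?_ ?_ ?_ ?_ hd hv
    · rcases hδ with rfl | rfl
      · exact vD
      · push_cast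
        rw [map_mul, Valuation.map_neg, v3, one_mul, vD]
    · rw [map_div₀, v3, div_one]
      exact pc_le W α
    · rcases hb with rfl | rfl
      · rw [map_div₀, v243, div_one, vγ]
      · rw [map_div₀, v3, div_one, vβ]
    · rcases hc' with h | h
      · rw [h, map_div₀, v9, div_one, vγ]
      · rw [h, vβ]

end H38T8
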