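import Pool.Agent.H38.T8.Pc
import Pool.Agent.H38.T8.Co

/-!
The quadratic field and its composite with a Galois field of three-power degree (MP_78d38b_T8, helper38).
-/

set_option autoImplicit false
set_option linter.unusedSectionVars false
open scoped Classical

open WeierstrassCurve IsDedekindDomain NumberField WithZero Pool.Agent.H10 H55T3 H38T6 H86T3

namespace H38T8

/-- `F = ℚ(t)`, `C = K(s)`, `t ^ 2 = s ^ 2 = δ` -/
structure Pk (δ : ℤ) (K F C : Type) [Field K] [NumberField K] [Field F] [NumberField F]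
    [Field C] [NumberField C] [Algebra F C] [Algebra K C] (t : F) (s : C)
    (κ : C ≃ₐ[K] C) (g : F ≃ₐ[ℚ] F) : Prop where
  t2 : t ^ 2 = (δ : F)
  s2 : s ^ 2 = (δ : C)
  ts : algebraMap F C t = s
  κs : κ s = -s
  gt : g t = -t
  gg : ∀ y, g (g y) = y
  κg : ∀ y, κ (algebraMap F C y) = algebraMap F C (g y)
  fin : Module.finrank ℚ F = 2
  finC : Module.finrank K C = 2
  span : ∀ x : C, ∃ u v : K, x = algebraMap K C u + algebraMap K C v * s
  coord : ∀ x : F, ∃ u v : ℚ, x = algebraMap ℚ F u + algebraMap ℚ F v * t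
  down : ∀ (d : F) (z : C), algebraMap F C d = z ^ 3 → ∃ y : F, d = y ^ 3
  val : ∀ q : ℕ, q.Prime → RamIn q K → ∀ d : F, (∀ v : HeightOneSpectrum (𝓞 F),
    (q : 𝓞 F) ∉ v.asIdeal → (3 : ℤ) ∣ log (v.valuation F d)) →
    ∀ W : HeightOneSpectrum (𝓞 C), (3 : ℤ) ∣ log (W.valuation C (algebraMap F C d))

theorem exists_pk {m : ℕ} {δ : ℤ} (hδ : ¬ IsSquare δ) (h3 : ¬ IsSquare (-3 * δ)) {K : Type}
    [Field K] [NumberField K] [IsGalois ℚ K] (hK : Module.finrank ℚ K = 3 ^ m) :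
    ∃ (F C : Type) (_ : Field F) (_ : NumberField F) (_ : Field C) (_ : NumberField C)
      (_ : Algebra F C) (_ : Algebra K C) (t : F) (s : C) (κ : C ≃ₐ[K] C) (g : F ≃ₐ[ℚ] F),
      Pk δ K F C t s κ g := by
  obtain ⟨B, C, iB, iB', iC, iC', a1, a2, a3, a4, a5, a6, s, κ, T⟩ := exists_tow m hδ ℚ K hK
  obtain rfl : a1 = DivisionRing.toRatAlgebra := Subsingleton.elim _ _
  obtain rfl : a2 = DivisionRing.toRatAlgebra := Subsingleton.elim _ _
  have hδQ : ∀ r : ℚ, r ^ 2 ≠ (δ : ℚ) := Gd_nsq hδ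
  obtain ⟨F, jF, jF', jFC, t, ht, ht2, hF, hG, -⟩ := Gd_quad hδQ T
  have hns : ∀ z : K, z ^ 2 ≠ (δ : K) := Ea_nonsq m hδ K hK
  have hfin : Module.finrank K C = 2 := by
    have h1 := Module.finrank_mul_finrank ℚ K C
    rw [T.degN, T.degC, mul_comm 2] at h1
    exact Nat.eq_of_mul_eq_mul_left (by positivity) h1
  have hs2 : (algebraMap B C s) ^ 2 = (δ : C) := by
    rw [← map_pow, T.sq, map_intCast]
  obtain ⟨-, -, ⟨g, hg⟩, hco⟩ := quad_ext (K := ℚ) (B := F) hF hδQ (s := t)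
    (by rw [ht2, map_intCast])
  obtain ⟨-, -, -, hspan⟩ := quad_ext (K := K) (B := C) hfin hns (s := algebraMap B C s)
    (by rw [hs2, map_intCast])
  have hGC : IsGalois F C := hG
  have hfd : FiniteDimensional F C := Module.Finite.of_restrictScalars_finite ℚ F C
  refine ⟨F, C, jF, jF', iC, iC', jFC, a3, t, algebraMap B C s, κ, g, ht2, hs2, ht, T.neg, hg, ?_,
    ?_, hF, hfin, hspan, hco, ?_, ?_⟩
  · intro y
    obtain ⟨u, v, rfl⟩ := hco y
    rw [map_add, map_mul, g.commutes, g.commutes, hg, map_add, map_mul, g.commutes, g.commutes,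
      map_neg, hg, neg_neg]
  · intro y
    obtain ⟨u, v, rfl⟩ := hco y
    have hQ : ∀ r : ℚ, algebraMap F C (algebraMap ℚ F r) = (r : C) := fun r => by
      rw [eq_ratCast, map_ratCast]
    have hκ : ∀ r : ℚ, κ (r : C) = (r : C) := fun r => map_ratCast κ r
    rw [map_add, map_mul, hQ, hQ, ht, map_add, map_mul, hκ, hκ, T.neg, map_add, map_mul, g.commutes,
      g.commutes, hg, map_add, map_mul, hQ, hQ, map_neg, ht]
  · intro d z hz
    exact cube_down (fun z => no_zeta h3 T z) hz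
  · intro q hq hr d hd W
    exact val_three T hF hq hr hd W

end H38T8
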