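import Pool.Agent.H38.T8.Dv
import Pool.Agent.H38.T6.Lc

/-!
Sufficiency, the places above three (`β` may be divisible by three) (MP_78d38b_T8, helper38).
-/

set_option autoImplicit false
set_option linter.unusedSectionVars false
open scoped Classical

open WeierstrassCurve IsDedekindDomain NumberField WithZero Pool.Agent.H10 H55T3 H38T6 H86T3

namespace H38T8

theorem root_small {F : Type*} [Field F] {V : Valuation F (WithZero (Multiplicative ℤ))}
    (hV : Hens3 V) (h3 : V 3 < 1) {u D α β : F} (hD : V D = 1) (hα : V α = 1) (hβ : V β < 1) :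
    ∃ x : F, x ^ 3 - u * x ^ 2 + 4 * D * α * β * x + 4 * D * β ^ 2 = 0 := by
  have hn : ∀ x : V.integer, V (x : F) ≤ 1 := fun x => x.2
  have h4 : V (4 : F) = 1 := by
    have e : (4 : F) = 1 + 3 := by norm_num
    rw [e]
    exact V.map_one_add_of_lt h3
  have h4' : V (4 : F) ≤ 1 := h4.le
  have h2 : V (2 : F) ≤ 1 := hn (2 : V.integer)
  rcases lt_trichotomy 1 (V u) with hu | hu | hu
  · have hu0 : u ≠ 0 := by
      rintro rfl
      rw [map_zero] at hu
      exact absurd hu (not_lt.2 zero_le)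
    have hi : V u⁻¹ < 1 := by
      rw [map_inv₀]
      exact inv_lt_one_of_one_lt₀ hu
    have hp : V (4 * D * α * β * u⁻¹ ^ 2) < 1 := by
      rw [map_mul, map_mul, map_mul, map_mul, hD, hα, h4, one_mul, one_mul, one_mul, map_pow]
      exact lt_of_le_of_lt (mul_le_of_le_one_left' hβ.le) (pow_lt_one₀ zero_le hi two_ne_zero)
    have hq : V (4 * D * β ^ 2 * u⁻¹ ^ 3) < 1 := by
      rw [map_mul, map_mul, map_mul, hD, map_pow, h4, one_mul, one_mul, map_pow]
      exact lt_of_le_of_lt (mul_le_of_le_one_left' (pow_le_one₀ zero_le hβ.le))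
        (pow_lt_one₀ zero_le hi three_ne_zero)
    obtain ⟨Y, -, hY⟩ := hV (4 * D * α * β * u⁻¹ ^ 2 + 4 * D * β ^ 2 * u⁻¹ ^ 3)
      (1 + 4 * D * α * β * u⁻¹ ^ 2) 2 1 (V.map_add_lt hp hq) (V.map_one_add_of_lt hp) h2
      (le_of_eq V.map_one)
    refine ⟨u * (1 + Y), ?_⟩
    have e1 : u ^ 3 * (4 * D * α * β * u⁻¹ ^ 2) = 4 * D * α * β * u := by
      field_simp
    have e2 : u ^ 3 * (4 * D * β ^ 2 * u⁻¹ ^ 3) = 4 * D * β ^ 2 := by
      field_simp
    linear_combination u ^ 3 * hY - (1 + Y) * e1 - e2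
  · have hu' : V u = 1 := hu.symm
    have hc : V (4 * D * α * β) < 1 := by
      rw [map_mul, map_mul, map_mul, hD, hα, h4, one_mul, one_mul, one_mul]
      exact hβ
    have hg0 : V (4 * D * α * β * u + 4 * D * β ^ 2) < 1 := by
      refine V.map_add_lt ?_ ?_
      · rw [map_mul, hu', mul_one]
        exact hc
      · rw [map_mul, map_mul, hD, h4, one_mul, one_mul, map_pow]
        exact pow_lt_one₀ zero_le hβ two_ne_zero
    have hg1 : V (u ^ 2 + 4 * D * α * β) = 1 := by
      rw [Valuation.map_add_eq_of_lt_left, map_pow, hu', one_pow]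
      rw [map_pow, hu', one_pow]
      exact hc
    obtain ⟨Y, -, hY⟩ := hV _ _ (2 * u) 1 hg0 hg1 (by rw [map_mul, hu', mul_one]; exact h2)
      (le_of_eq V.map_one)
    exact ⟨u + Y, by linear_combination hY⟩
  · have hα0 : α ≠ 0 := by
      rintro rfl
      rw [map_zero] at hα
      exact zero_ne_one hα
    have hz : V (α⁻¹) = 1 := by rw [map_inv₀, hα, inv_one]
    have hg0 : V (-(β * α⁻¹ ^ 3) - u * α⁻¹ ^ 2) < 1 := by
      refine lt_of_le_of_lt (V.map_sub _ _) (max_lt ?_ ?_)
      · rw [Valuation.map_neg, map_mul, map_pow, hz, one_pow, mul_one]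
        exact hβ
      · rw [map_mul, map_pow, hz, one_pow, mul_one]
        exact hu
    have hg1 : V (4 * D * α + (3 * β * α⁻¹ ^ 2 + 2 * u * α⁻¹)) = 1 := by
      have h5 : V (4 * D * α) = 1 := by
        rw [map_mul, map_mul, hD, hα, h4, one_mul, one_mul]
      rw [Valuation.map_add_eq_of_lt_left, h5]
      rw [h5]
      refine V.map_add_lt ?_ ?_
      · rw [map_mul, map_mul, map_pow, hz, one_pow, mul_one]
        exact lt_of_le_of_lt (mul_le_of_le_one_left' h3.le) hβ
      · rw [map_mul, map_mul, hz, mul_one]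
        exact lt_of_le_of_lt (mul_le_of_le_one_left' h2) hu
    have hg2 : V (-(3 * β * α⁻¹) - u) ≤ 1 := by
      refine (V.map_sub _ _).trans (max_le ?_ hu.le)
      rw [Valuation.map_neg, map_mul, map_mul, hz, mul_one]
      exact mul_le_one' h3.le hβ.le
    obtain ⟨Y, -, hY⟩ := hV _ _ _ β hg0 hg1 hg2 hβ.le
    refine ⟨β * (-α⁻¹ + Y), ?_⟩
    have e1 : 4 * D * α * (-α⁻¹) = -(4 * D) := by
      field_simp
    linear_combination β ^ 2 * hY + β ^ 2 * e1

theorem loc_cube3' {K N B : Type} [Field K] [NumberField K] [Field N] [NumberField N] [Field B]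
    [NumberField B] [Algebra K N] [Algebra K B] [IsGalois ℚ N]
    (hodd : Odd (Module.finrank ℚ N)) {D α β : ℤ} (H : Dat8 D α β) {s d : B}
    (hM : FinM s (-3 * (D : K)) ((α : K) / 3) ((27 * (β : K) - 4 * (D : K) * (α : K) ^ 3) / 9) d)
    {d₁ d₂ : K} (hd : d = algebraMap K B d₁ + algebraMap K B d₂ * s)
    (w : HeightOneSpectrum (𝓞 K)) (hw : (3 : 𝓞 K) ∈ w.asIdeal) :
    ∃ t₁ t₂ : w.adicCompletion K, Cube2 (-3 * (D : w.adicCompletion K))
      (algebraMap K (w.adicCompletion K) d₁) (algebraMap K (w.adicCompletion K) d₂) t₁ t₂ := by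
  have hch : CharZero (w.adicCompletion K) := charZero_of_alg (K := K)
  have h3Z : Prime (3 : ℤ) := Int.prime_three
  have hD3 : ¬ (3 : ℤ) ∣ D := by
    have := H.three
    omega
  have hγ3 := H.gam
  have vα := Lc_int w hw H.hα
  have vD := Lc_int w hw hD3
  have vγ := Lc_int w hw hγ3
  have v3 : (Valued.v (3 : w.adicCompletion K) : WithZero (Multiplicative ℤ)) < 1 := by
    rw [valued_ofNat w 3]
    have h1 := (w.valuation_lt_one_iff_mem (K := K) (3 : 𝓞 K)).2 hw
    have e2 : ((3 : 𝓞 K) : K) = 3 := map_ofNat (algebraMap (𝓞 K) K) 3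
    change w.valuation K ((3 : 𝓞 K) : K) < 1 at h1
    rwa [e2] at h1
  have hD0 : ((D : ℤ) : w.adicCompletion K) ≠ 0 := by
    intro h
    rw [h, map_zero] at vD
    exact zero_ne_one vD
  have hβ0 : ((β : ℤ) : w.adicCompletion K) ≠ 0 := Int.cast_ne_zero.2 H.hβ
  have hγ0 : 27 * ((β : ℤ) : w.adicCompletion K) - 4 * ((D : ℤ) : w.adicCompletion K) *
      ((α : ℤ) : w.adicCompletion K) ^ 3 ≠ 0 := by
    intro h
    have h1 : ((27 * β - 4 * D * α ^ 3 : ℤ) : w.adicCompletion K) = 0 := by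
      push_cast
      exact h
    rw [h1, map_zero] at vγ
    exact zero_ne_one vγ
  have hns : ∀ z : w.adicCompletion K, z ^ 2 ≠ -3 * ((D : ℤ) : w.adicCompletion K) := by
    intro z hz
    have h1 := odd_log (K := K) (N := N) hodd Nat.prime_three w (by exact_mod_cast hw)
    have h2 : (Valued.v (z ^ 2) : WithZero (Multiplicative ℤ)) = w.valuation K ((3 : ℕ) : K) := by
      rw [hz, map_mul, vD, mul_one, Valuation.map_neg, valued_ofNat w 3]
      rfl
    rw [← h2, map_pow, log_pow] at h1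
    rw [nsmul_eq_mul] at h1
    exact (Int.not_even_iff_odd.2 h1) ⟨log (Valued.v z), by push_cast; ring⟩
  have hL := hM d₁ d₂ hd w (by
    intro z
    have h1 := hns z
    rw [map_mul, map_neg, map_ofNat, map_intCast]
    exact h1)
  rw [map_mul, map_neg, map_ofNat, map_intCast, map_div₀, map_intCast, map_ofNat, map_div₀, map_sub,
    map_mul, map_ofNat, map_intCast, map_mul, map_mul, map_ofNat, map_intCast, map_pow, map_intCast,
    map_ofNat] at hL
  obtain ⟨k, _, _, ρ, hρs, hρ⟩ := Lc_resid w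
  refine cube_of_loc two_ne_zero three_ne_zero hD0 hns ?_ hL
  intro xt yt hpt
  have e3 : 3 * (((α : ℤ) : w.adicCompletion K) / 3) = ((α : ℤ) : w.adicCompletion K) := by
    field_simp
  rw [e3] at hpt ⊢
  have hpt' : yt ^ 2 = xt ^ 3 - 3 * ((D : ℤ) : w.adicCompletion K) *
      (((α : ℤ) : w.adicCompletion K) * xt + (27 * ((β : ℤ) : w.adicCompletion K) -
        4 * ((D : ℤ) : w.adicCompletion K) * ((α : ℤ) : w.adicCompletion K) ^ 3) / 9) ^ 2 := by
    rw [hpt]
    ring
  refine pt_cube two_ne_zero three_ne_zero hD0 hβ0 hγ0 hpt' ?_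
  by_cases h3β : (3 : ℤ) ∣ β
  · have vβ : (Valued.v ((β : ℤ) : w.adicCompletion K) : WithZero (Multiplicative ℤ)) < 1 := by
      obtain ⟨k, rfl⟩ := h3β
      rw [Int.cast_mul, map_mul]
      have h5 : (Valued.v ((k : ℤ) : w.adicCompletion K) : WithZero (Multiplicative ℤ)) ≤ 1 := by
        have h6 : ((k : ℤ) : w.adicCompletion K) =
            algebraMap K (w.adicCompletion K) ((k : 𝓞 K) : K) := by simp
        rw [h6, valued_algebraMap]
        exact w.valuation_le_one _
      have h7 : (Valued.v (((3 : ℤ)) : w.adicCompletion K) : WithZero (Multiplicative ℤ)) < 1 := by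
        push_cast
        exact v3
      exact lt_of_le_of_lt (mul_le_of_le_one_right' h5) h7
    exact root_small
      (V := (Valued.v : Valuation (w.adicCompletion K) (WithZero (Multiplicative ℤ))))
      (H86T3.ad_hens w) v3 vD vα vβ
  · refine etale_root
      (V := (Valued.v : Valuation (w.adicCompletion K) (WithZero (Multiplicative ℤ))))
      (H86T3.ad_hens w) hρs hρ v3 vD (fun X => no_sqrt_loc (N := N) hodd H.three w hw X) vα
      (Lc_int w hw h3β) (y := yt) ?_
    rw [hpt']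
    ring

end H38T8
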