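import Pool.Agent.H38.T8.Dv
import Pool.Agent.H38.T6.Va

/-!
Sufficiency, the valuations (MP_78d38b_T8, helper38).
-/

set_option autoImplicit false
set_option linter.unusedSectionVars false
open scoped Classical

open WeierstrassCurve IsDedekindDomain NumberField WithZero Pool.Agent.H10 H55T3 H38T6

namespace H38T8

/-- a prime number below a nonzero integer of a place -/
private theorem Qb_prime {C : Type} [Field C] [NumberField C] {D : ℤ} (hD : D ≠ 0)
    (v : HeightOneSpectrum (𝓞 C)) (hv : (D : 𝓞 C) ∈ v.asIdeal) :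
    ∃ q : ℕ, q.Prime ∧ (q : ℤ) ∣ D ∧ (q : 𝓞 C) ∈ v.asIdeal := by
  have hD0 : D.natAbs ≠ 0 := Int.natAbs_ne_zero.mpr hD
  have hDv : (D.natAbs : 𝓞 C) ∈ v.asIdeal := by
    rcases Int.natAbs_eq D with h | h
    · rw [h, Int.cast_natCast] at hv
      exact hv
    · rw [h, Int.cast_neg, Int.cast_natCast] at hv
      exact neg_mem_iff.mp hv
  have key : ∀ n : ℕ, n ≠ 0 → n ∣ D.natAbs → (n : 𝓞 C) ∈ v.asIdeal →
      ∃ q : ℕ, q.Prime ∧ q ∣ D.natAbs ∧ (q : 𝓞 C) ∈ v.asIdeal := by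
    intro n
    induction n using Nat.recOnMul with
    | zero => intro h; exact absurd rfl h
    | one =>
      intro _ _ h
      rw [Nat.cast_one] at h
      exact absurd ((Ideal.eq_top_iff_one _).mpr h) v.isPrime.ne_top
    | prime q hq => intro _ h1 h2; exact ⟨q, hq, h1, h2⟩
    | mul a b iha ihb =>
      intro h0 h1 h2
      rw [Nat.cast_mul] at h2
      rcases v.isPrime.mem_or_mem h2 with h | h
      · exact iha (left_ne_zero_of_mul h0) (dvd_of_mul_right_dvd h1) h
      · exact ihb (right_ne_zero_of_mul h0) (dvd_of_mul_left_dvd h1) h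
  obtain ⟨q, hq, h1, h2⟩ := key _ hD0 dvd_rfl hDv
  exact ⟨q, hq, Int.natCast_dvd.2 h1, h2⟩

private lemma Qb_mem_of_dvd {C : Type} [Field C] [NumberField C] (v : HeightOneSpectrum (𝓞 C))
    {a b : ℤ} (hab : a ∣ b) (ha : (a : 𝓞 C) ∈ v.asIdeal) : (b : 𝓞 C) ∈ v.asIdeal := by
  obtain ⟨k, rfl⟩ := hab
  rw [Int.cast_mul]
  exact Ideal.mul_mem_right _ _ ha

private lemma Qb_notMem {C : Type} [Field C] [NumberField C] (v : HeightOneSpectrum (𝓞 C)) {q : ℕ}
    (hq : q.Prime) (hqv : (q : 𝓞 C) ∈ v.asIdeal) {n : ℤ} (hn : ¬ (q : ℤ) ∣ n) :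
    (n : 𝓞 C) ∉ v.asIdeal := by
  intro h
  have hc : IsCoprime (q : ℤ) n := (Nat.prime_iff_prime_int.1 hq).coprime_iff_not_dvd.2 hn
  obtain ⟨a, b, hab⟩ := hc
  apply v.isPrime.ne_top
  rw [Ideal.eq_top_iff_one]
  have e : (1 : 𝓞 C) = (a : 𝓞 C) * (q : 𝓞 C) + (b : 𝓞 C) * (n : 𝓞 C) := by
    have := congrArg (Int.cast : ℤ → 𝓞 C) hab
    push_cast at this
    exact this.symm
  rw [e]
  exact Ideal.add_mem _ (Ideal.mul_mem_left _ _ hqv) (Ideal.mul_mem_left _ _ h)

private lemma Qb_val_one {C : Type} [Field C] [NumberField C] (v : HeightOneSpectrum (𝓞 C)) {n : ℤ}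
    (hn : (n : 𝓞 C) ∉ v.asIdeal) : v.valuation C (n : C) = 1 := by
  have h := (v.valuation_eq_one_iff_notMem (K := C)).2 hn
  rwa [map_intCast] at h

private lemma Qb_val_le {C : Type} [Field C] [NumberField C] (v : HeightOneSpectrum (𝓞 C)) (n : ℤ) :
    v.valuation C (n : C) ≤ 1 := by
  rw [← map_intCast (algebraMap (𝓞 C) C) n]
  exact v.valuation_le_one _

section

variable {K N B : Type} [Field K] [NumberField K] [Field N] [NumberField N] [Field B]
  [NumberField B] [Algebra K N] [Algebra K B] [IsGalois ℚ N] {s d : B}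

private lemma Qb_log (N : Type) [Field N] [NumberField N] [Algebra K N] [IsGalois ℚ N]
    (hodd : Odd (Module.finrank ℚ N)) {q : ℕ} (hq : q.Prime) (v : HeightOneSpectrum (𝓞 K))
    (hqv : (q : 𝓞 K) ∈ v.asIdeal) {m : ℤ} (hm : ¬ (q : ℤ) ∣ m) :
    v.valuation K (((q : ℤ) * m : ℤ) : K) ≠ 0 ∧
      Odd (log (v.valuation K (((q : ℤ) * m : ℤ) : K))) := by
  have e : v.valuation K (((q : ℤ) * m : ℤ) : K) = v.valuation K (q : K) := by
    rw [Int.cast_mul, map_mul, Qb_val_one v (Qb_notMem v hq hqv hm), mul_one, Int.cast_natCast]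
  rw [e]
  refine ⟨?_, odd_log (N := N) hodd hq v hqv⟩
  rw [Valuation.ne_zero_iff]
  exact_mod_cast hq.ne_zero

/-- conjugation stable places -/
private lemma Qb_conj (h2 : Module.finrank K B = 2) {δ : K} (hδ : ∀ z : K, z ^ 2 ≠ δ)
    (hs : s ^ 2 = algebraMap K B δ) (hd : d ≠ 0)
    (hJ : ∀ g : B ≃ₐ[K] B, g s = -s → ∃ y, g d * d = y ^ 3) (W : HeightOneSpectrum (𝓞 B))
    (hc : ∀ x y : K, W.valuation B (algebraMap K B x + algebraMap K B y * s) =
      W.valuation B (algebraMap K B x - algebraMap K B y * s)) :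
    (3 : ℤ) ∣ log (W.valuation B d) := by
  obtain ⟨-, -, ⟨g, hg⟩, hspan⟩ := quad_ext h2 hδ hs
  obtain ⟨x, y, hxy⟩ := hspan d
  obtain ⟨z, hz⟩ := hJ g hg
  refine three_dvd_of_conj (W.valuation B) hd hz ?_
  have e : g d = algebraMap K B x - algebraMap K B y * s := by
    rw [hxy, map_add, map_mul, g.commutes, g.commutes, hg]
    ring
  rw [e, ← hc, ← hxy]

private lemma Qb_ram (h2 : Module.finrank K B = 2) {δ : K} (hδ : ∀ z : K, z ^ 2 ≠ δ)
    (hs : s ^ 2 = algebraMap K B δ) (hd : d ≠ 0)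
    (hJ : ∀ g : B ≃ₐ[K] B, g s = -s → ∃ y, g d * d = y ^ 3) (W : HeightOneSpectrum (𝓞 B))
    (v : HeightOneSpectrum (𝓞 K)) {e : ℕ} (he : 1 ≤ e)
    (hval : ∀ x : K, W.valuation B (algebraMap K B x) = v.valuation K x ^ e)
    (h0 : v.valuation K δ ≠ 0) (hl : Odd (log (v.valuation K δ))) :
    (3 : ℤ) ∣ log (W.valuation B d) := by
  refine Qb_conj h2 hδ hs hd hJ W (conj_ram (W.valuation B) hs ?_)
  intro u hu
  rw [hval, hval] at hu
  by_cases hu0 : v.valuation K u = 0
  · rw [hu0, zero_pow (by omega), zero_pow (by norm_num)] at hu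
    exact pow_ne_zero e h0 hu.symm
  · have h1 := congrArg log hu
    rw [log_pow, log_pow, log_pow] at h1
    simp only [nsmul_eq_mul] at h1
    push_cast at h1
    have he0 : (e : ℤ) ≠ 0 := by positivity
    have h3 : (e : ℤ) * (2 * log (v.valuation K u)) = (e : ℤ) * log (v.valuation K δ) := by
      rw [← h1]; ring
    have h4 := mul_left_cancel₀ he0 h3
    rw [← h4] at hl
    exact (Int.not_odd_iff_even.2 (even_two_mul _)) hl

/-- good places -/
private lemma Qb_good {a c : B} (W : HeightOneSpectrum (𝓞 B)) (hs : W.valuation B s = 1)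
    (ha : W.valuation B (6 * a) ≤ 1) (hc : W.valuation B (2 * c) = 1) (hd : d ≠ 0)
    (hF : FinSol3 B s a c d) : (3 : ℤ) ∣ log (W.valuation B d) := by
  rw [← valued_algebraMap W d]
  refine vg (V := Valued.v) ?_ ?_ ?_ ?_ (hF W)
  · rw [valued_algebraMap, hs]
  · have e : (6 : W.adicCompletion B) * algebraMap B (W.adicCompletion B) a =
        algebraMap B (W.adicCompletion B) (6 * a) := by
      rw [map_mul, map_ofNat]
    rw [e, valued_algebraMap]
    exact ha
  · have e : (2 : W.adicCompletion B) * algebraMap B (W.adicCompletion B) c =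
        algebraMap B (W.adicCompletion B) (2 * c) := by
      rw [map_mul, map_ofNat]
    rw [e, valued_algebraMap]
    exact hc
  · exact (map_ne_zero_iff _ (algebraMap B (W.adicCompletion B)).injective).2 hd

private lemma Qb_sq {V : Valuation B (WithZero (Multiplicative ℤ))} {x : B} (h : V (x ^ 2) = 1) :
    V x = 1 := by
  rw [map_pow] at h
  rcases lt_trichotomy (V x) 1 with h1 | h1 | h1
  · exact absurd h (ne_of_lt (pow_lt_one₀ zero_le h1 two_ne_zero))
  · exact h1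
  · exact absurd h (ne_of_gt (one_lt_pow₀ h1 two_ne_zero))

/-- the bad primes divide the discriminant -/
private lemma Qb_gam {D α β : ℤ} (H : Dat8 D α β) (W : HeightOneSpectrum (𝓞 B))
    (hW : (D : 𝓞 B) ∉ W.asIdeal) (h3W : ((3 : ℤ) : 𝓞 B) ∉ W.asIdeal) :
    (β : 𝓞 B) ∉ W.asIdeal ∧ ((27 * β - 4 * D * α ^ 3 : ℤ) : 𝓞 B) ∉ W.asIdeal := by
  have h3 : ¬ (3 : ℤ) ∣ D := by
    have := H.three
    omega
  constructor
  · intro h
    obtain ⟨q, hq, hqd, hqW⟩ := Qb_prime H.hβ W h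
    apply hW
    refine Qb_mem_of_dvd W (H.bad q hq ?_ (dvd_mul_of_dvd_left hqd _)) (by exact_mod_cast hqW)
    rintro rfl
    exact h3W (by exact_mod_cast hqW)
  · intro h
    have h0 : 27 * β - 4 * D * α ^ 3 ≠ 0 := by
      intro h0
      apply H.gam
      rw [h0]
      exact dvd_zero _
    obtain ⟨q, hq, hqd, hqW⟩ := Qb_prime h0 W h
    apply hW
    refine Qb_mem_of_dvd W (H.bad q hq ?_ (dvd_mul_of_dvd_right hqd _)) (by exact_mod_cast hqW)
    rintro rfl
    exact h3W (by exact_mod_cast hqW)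

/-- `D` is squarefree -/
private lemma Qb_sqf {D α β : ℤ} (H : Dat8 D α β) {q : ℕ} (hq : q.Prime) (hqD : (q : ℤ) ∣ D) :
    ∃ m : ℤ, D = q * m ∧ ¬ (q : ℤ) ∣ m := by
  obtain ⟨m, rfl⟩ := hqD
  refine ⟨m, rfl, ?_⟩
  rintro ⟨k, rfl⟩
  have h1 := H.sqf (q : ℤ) ⟨k, by ring⟩
  have h2 : (q : ℕ) = 1 := by
    have := Int.isUnit_iff_natAbs_eq.1 h1
    simpa using this
  exact hq.one_lt.ne' h2

end

section

variable {K N B : Type} [Field K] [NumberField K] [Field N] [NumberField N] [Field B]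
  [NumberField B] [Algebra K N] [Algebra K B] [IsGalois ℚ N] {D α β : ℤ} {s d : B}

theorem val_phi8 (hodd : Odd (Module.finrank ℚ N)) (H : Dat8 D α β) (h2 : Module.finrank K B = 2)
    (hd2 : ∀ z : K, z ^ 2 ≠ (-3 * (D : K))) (hs : s ^ 2 = (-3 * D : B)) (hd : d ≠ 0)
    (hF : FinSol3 B s (algebraMap K B ((α : K) / 3))
      (algebraMap K B ((27 * (β : K) - 4 * (D : K) * (α : K) ^ 3) / 9)) d)
    (hJ : ∀ g : B ≃ₐ[K] B, g s = -s → ∃ y, g d * d = y ^ 3) (W : HeightOneSpectrum (𝓞 B)) :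
    (3 : ℤ) ∣ log (W.valuation B d) := by
  obtain ⟨v, e, he, -, hval, hmem⟩ := val_below (K := K) W
  have hs' : s ^ 2 = algebraMap K B (-3 * (D : K)) := by
    rw [hs, map_mul, map_neg, map_ofNat, map_intCast]
  have hD0 : D ≠ 0 := by
    have := H.neg
    omega
  have h3D : ¬ (3 : ℤ) ∣ D := by
    have := H.three
    omega
  by_cases h3 : ((3 * D : ℤ) : 𝓞 B) ∈ W.asIdeal
  · obtain ⟨q, hq, hqd, hqW⟩ := Qb_prime (by omega) W h3
    have hqv : (q : 𝓞 K) ∈ v.asIdeal := by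
      have := (hmem q).2 (by exact_mod_cast hqW)
      exact_mod_cast this
    obtain ⟨m, hm, hqm⟩ : ∃ m : ℤ, -3 * D = q * m ∧ ¬ (q : ℤ) ∣ m := by
      by_cases hq3 : q = 3
      · subst hq3
        refine ⟨-D, by push_cast; ring, ?_⟩
        rw [dvd_neg]
        exact_mod_cast h3D
      · have hqD : (q : ℤ) ∣ D := by
          rcases (Nat.prime_iff_prime_int.1 hq).dvd_or_dvd hqd with h | h
          · exfalso
            apply hq3
            exact (Nat.prime_dvd_prime_iff_eq hq Nat.prime_three).1 (by exact_mod_cast h)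
          · exact h
        obtain ⟨m, hm, hqm⟩ := Qb_sqf H hq hqD
        refine ⟨-3 * m, by rw [hm]; ring, ?_⟩
        intro h
        rcases (Nat.prime_iff_prime_int.1 hq).dvd_or_dvd h with h | h
        · apply hq3
          rw [dvd_neg] at h
          exact (Nat.prime_dvd_prime_iff_eq hq Nat.prime_three).1 (by exact_mod_cast h)
        · exact hqm h
    obtain ⟨h4, h5⟩ := Qb_log N hodd hq v hqv hqm
    have e1 : (((q : ℤ) * m : ℤ) : K) = -3 * (D : K) := by
      rw [← hm]; push_cast; ring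
    rw [e1] at h4 h5
    exact Qb_ram h2 hd2 hs' hd hJ W v he hval h4 h5
  · have hDW : (D : 𝓞 B) ∉ W.asIdeal := fun h => h3 (Qb_mem_of_dvd W (dvd_mul_left D 3) h)
    have h3W : ((3 : ℤ) : 𝓞 B) ∉ W.asIdeal := fun h => h3 (Qb_mem_of_dvd W (dvd_mul_right 3 D) h)
    have h2W : ((2 : ℤ) : 𝓞 B) ∉ W.asIdeal := by
      intro h
      apply hDW
      apply Qb_mem_of_dvd W _ h
      have := H.even
      omega
    obtain ⟨-, hg⟩ := Qb_gam H W hDW h3W
    have v2 := Qb_val_one W h2W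
    have v3 := Qb_val_one W h3W
    have vD := Qb_val_one W hDW
    have vg := Qb_val_one W hg
    refine Qb_good W ?_ ?_ ?_ hd hF
    · apply Qb_sq
      rw [hs, map_mul, vD, mul_one, Valuation.map_neg]
      exact_mod_cast v3
    · have e1 : (6 : B) * algebraMap K B ((α : K) / 3) = ((2 * α : ℤ) : B) := by
        rw [map_div₀, map_intCast, map_ofNat]
        push_cast
        ring
      rw [e1]
      exact Qb_val_le W _
    · have e1 : (2 : B) * algebraMap K B ((27 * (β : K) - 4 * (D : K) * (α : K) ^ 3) / 9) =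
          ((2 : ℤ) : B) * ((27 * β - 4 * D * α ^ 3 : ℤ) : B) / (((3 : ℤ) : B) * ((3 : ℤ) : B)) := by
        have e2 : (27 * (β : K) - 4 * (D : K) * (α : K) ^ 3) / 9 =
            ((27 * β - 4 * D * α ^ 3 : ℤ) : K) / 9 := by push_cast; ring
        rw [e2, map_div₀, map_intCast, map_ofNat]
        have e3 : (((3 : ℤ) : B) * ((3 : ℤ) : B)) = 9 := by push_cast; norm_num
        rw [e3]
        push_cast
        ring
      rw [e1, map_div₀, map_mul, map_mul, v2, v3, vg]
      simp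

theorem val_dual8 (hodd : Odd (Module.finrank ℚ N)) (H : Dat8 D α β) (h2 : Module.finrank K B = 2)
    (hd2 : ∀ z : K, z ^ 2 ≠ (D : K)) (hs : s ^ 2 = (D : B)) (hd : d ≠ 0)
    (hF : FinSol3 B s (algebraMap K B ((α : K) / 3)) (algebraMap K B (β : K)) d)
    (hJ : ∀ g : B ≃ₐ[K] B, g s = -s → ∃ y, g d * d = y ^ 3) (W : HeightOneSpectrum (𝓞 B)) :
    (3 : ℤ) ∣ log (W.valuation B d) := by
  obtain ⟨v, e, he, -, hval, hmem⟩ := val_below (K := K) W
  have hs' : s ^ 2 = algebraMap K B (D : K) := by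
    rw [hs, map_intCast]
  have hD0 : D ≠ 0 := by
    have := H.neg
    omega
  have h3D : ¬ (3 : ℤ) ∣ D := by
    have := H.three
    omega
  by_cases h3 : ((3 * D : ℤ) : 𝓞 B) ∈ W.asIdeal
  · obtain ⟨q, hq, hqd, hqW⟩ := Qb_prime (by omega) W h3
    have hqv : (q : 𝓞 K) ∈ v.asIdeal := by
      have := (hmem q).2 (by exact_mod_cast hqW)
      exact_mod_cast this
    by_cases hqD : (q : ℤ) ∣ D
    · obtain ⟨m, hm, hqm⟩ := Qb_sqf H hq hqD
      obtain ⟨h4, h5⟩ := Qb_log N hodd hq v hqv hqm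
      rw [← hm] at h4 h5
      exact Qb_ram h2 hd2 hs' hd hJ W v he hval h4 h5
    · have hq3 : q = 3 := by
        rcases (Nat.prime_iff_prime_int.1 hq).dvd_or_dvd hqd with h | h
        · exact (Nat.prime_dvd_prime_iff_eq hq Nat.prime_three).1 (by exact_mod_cast h)
        · exact absurd h hqD
      subst hq3
      have hv3 : (3 : 𝓞 K) ∈ v.asIdeal := by exact_mod_cast hqv
      have hDW : (D : 𝓞 B) ∉ W.asIdeal := Qb_notMem W hq hqW hqD
      refine Qb_conj h2 hd2 hs' hd hJ W (conj_inert (W.valuation B) hs' ?_ ?_)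
      · apply Qb_sq
        rw [hs]
        exact Qb_val_one W hDW
      · intro u _
        rw [hval]
        exact one_le_pow₀ (no_sqrt (N := N) hodd H.three v hv3 u)
  · have hDW : (D : 𝓞 B) ∉ W.asIdeal := fun h => h3 (Qb_mem_of_dvd W (dvd_mul_left D 3) h)
    have h2W : ((2 : ℤ) : 𝓞 B) ∉ W.asIdeal := by
      intro h
      apply hDW
      apply Qb_mem_of_dvd W _ h
      have := H.even
      omega
    have h3W : ((3 : ℤ) : 𝓞 B) ∉ W.asIdeal := fun h => h3 (Qb_mem_of_dvd W (dvd_mul_right 3 D) h)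
    obtain ⟨hb, -⟩ := Qb_gam H W hDW h3W
    have v2 := Qb_val_one W h2W
    have vD := Qb_val_one W hDW
    have vb := Qb_val_one W hb
    refine Qb_good W ?_ ?_ ?_ hd hF
    · apply Qb_sq
      rw [hs]
      exact vD
    · have e1 : (6 : B) * algebraMap K B ((α : K) / 3) = ((2 * α : ℤ) : B) := by
        rw [map_div₀, map_intCast, map_ofNat]
        push_cast
        ring
      rw [e1]
      exact Qb_val_le W _
    · have e1 : (2 : B) * algebraMap K B (β : K) = ((2 : ℤ) : B) * (β : B) := by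
        rw [map_intCast]
        push_cast
        ring
      rw [e1, map_mul, v2, vb, mul_one]

end

end H38T8
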