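import Pool.Agent.H38.T8.Qa
import Pool.Agent.H38.T8.Qb
import Pool.Agent.H38.T6.Sa

/-!
Sufficiency, the theorem over `K` (MP_78d38b_T8, helper38).
-/

set_option autoImplicit false
set_option linter.unusedSectionVars false
open scoped Classical

open WeierstrassCurve IsDedekindDomain NumberField WithZero Pool.Agent.H10 H55T3 H38T6

namespace H38T8

theorem Qc_lift {m : ℕ} {δ : ℤ} {K N B C : Type} [Field K] [NumberField K] [Field N]
    [NumberField N] [Field B] [NumberField B] [Field C] [NumberField C] [Algebra K N] [Algebra K B]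
    [Algebra K C] [Algebra N C] [Algebra B C] [IsScalarTower K N C] [IsScalarTower K B C] {s : B}
    {κ : C ≃ₐ[N] C} (T : Tow m δ K N B C s κ) (hδ : ∀ z : K, z ^ 2 ≠ (δ : K)) {d : B}
    (hJ : ∀ g : B ≃ₐ[K] B, g s = -s → ∃ y, g d * d = y ^ 3) :
    ∃ r, κ (algebraMap B C d) * algebraMap B C d = r ^ 3 := by
  have hs : s ^ 2 = algebraMap K B ((δ : ℤ) : K) := by rw [T.sq, map_intCast]
  obtain ⟨-, -, ⟨g, hg⟩, hrep⟩ := quad_ext T.degB hδ hs
  have hK : ∀ u : K, κ (algebraMap B C (algebraMap K B u)) =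
      algebraMap B C (algebraMap K B u) := by
    intro u
    rw [← IsScalarTower.algebraMap_apply K B C, IsScalarTower.algebraMap_apply K N C, κ.commutes]
  have hx : ∀ x : B, κ (algebraMap B C x) = algebraMap B C (g x) := by
    intro x
    obtain ⟨u, v, rfl⟩ := hrep x
    simp only [map_add, map_mul, hK, T.neg, g.commutes, hg, map_neg]
  obtain ⟨y, hy⟩ := hJ g hg
  exact ⟨algebraMap B C y, by rw [hx, ← map_mul, hy, map_pow]⟩

theorem Qc_down {m : ℕ} {δ : ℤ} {K N B C : Type} [Field K] [NumberField K] [Field N]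
    [NumberField N] [Field B] [NumberField B] [Field C] [NumberField C] [Algebra K N] [Algebra K B]
    [Algebra K C] [Algebra N C] [Algebra B C] [IsScalarTower K N C] [IsScalarTower K B C] {s : B}
    {κ : C ≃ₐ[N] C} (T : Tow m δ K N B C s κ) (h3 : ¬ IsSquare (-3 * δ)) {d : B} {z : C}
    (h : algebraMap B C d = z ^ 3) : ∃ y, d = y ^ 3 := by
  have i1 := T.galC
  have i2 : IsGalois B C := IsGalois.tower_top_of_isGalois ℚ B C
  have i3 : FiniteDimensional B C := Module.Finite.of_restrictScalars_finite ℚ B C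
  exact cube_down (no_zeta h3 T) h

theorem Qc_nsq {D : ℤ} (h3 : D % 3 = 2) : ¬ IsSquare (-3 * D) := by
  rintro ⟨r, hr⟩
  have h1 : (3 : ℤ) ∣ r := by
    have h2 : (3 : ℤ) ∣ r * r := ⟨-D, by rw [← hr]; ring⟩
    exact (Int.prime_three.dvd_mul.1 h2).elim id id
  obtain ⟨q, rfl⟩ := h1
  have h2 : D = -3 * (q * q) := by linarith
  generalize q * q = t at h2
  omega

theorem Qc_neg {D : ℤ} (h : D < 0) : ¬ IsSquare D := by
  rintro ⟨r, hr⟩
  have := mul_self_nonneg r
  omega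

theorem Qc_val {K : Type} [Field K] [NumberField K] {D : ℤ} (h3 : D % 3 = 2)
    (w : HeightOneSpectrum (𝓞 K)) (hw : (3 : 𝓞 K) ∈ w.asIdeal) : w.valuation K (D : K) = 1 := by
  have h1 : ((D : ℤ) : 𝓞 K) ∉ w.asIdeal := by
    intro h
    apply w.isPrime.ne_top
    rw [Ideal.eq_top_iff_one]
    have h2 : (1 : 𝓞 K) = 3 * ((1 + D / 3 : ℤ) : 𝓞 K) - ((D : ℤ) : 𝓞 K) := by
      have h4 : (1 : ℤ) = 3 * (1 + D / 3) - D := by omega
      have h5 := congrArg (Int.cast : ℤ → 𝓞 K) h4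
      push_cast at h5 ⊢
      exact h5
    rw [h2]
    exact w.asIdeal.sub_mem (w.asIdeal.mul_mem_right _ hw) h
  have h2 := (w.valuation_eq_one_iff_notMem (K := K)).2 h1
  rwa [map_intCast] at h2

theorem Qc_hns {K N : Type} [Field K] [NumberField K] [Field N] [NumberField N]
    [Algebra K N] [IsGalois ℚ N] (hodd : Odd (Module.finrank ℚ N)) {D : ℤ} (h3 : D % 3 = 2)
    (w : HeightOneSpectrum (𝓞 K)) (hw : (3 : 𝓞 K) ∈ w.asIdeal) (z : w.adicCompletion K) :
    z ^ 2 ≠ ((-3 * D : ℤ) : w.adicCompletion K) := by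
  intro hz
  have h1 : Valued.v (z ^ 2) = w.valuation K (((-3 * D : ℤ)) : K) := by
    rw [hz, ← map_intCast (algebraMap K (w.adicCompletion K)), valued_algebraMap]
  have h2 : w.valuation K (((-3 * D : ℤ)) : K) = w.valuation K ((3 : ℕ) : K) := by
    have h4 : (((-3 * D : ℤ)) : K) = -(((3 : ℕ) : K) * (D : K)) := by
      push_cast
      ring
    rw [h4, Valuation.map_neg, map_mul, Qc_val h3 w hw, mul_one]
  rw [map_pow, h2] at h1
  have h5 := odd_log (K := K) (N := N) hodd Nat.prime_three w (by exact_mod_cast hw)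
  rw [← h1, log_pow] at h5
  obtain ⟨c, hc⟩ := h5
  rw [nsmul_eq_mul] at hc
  push_cast at hc
  omega

section

variable {m : ℕ} {D α β : ℤ} {K N : Type} [Field K] [NumberField K] [Field N] [NumberField N]
  [Algebra K N] [IsGalois ℚ N]

theorem arith_dual8 (hN : Module.finrank ℚ N = 3 ^ m) (H : Dat8 D α β) (hC : CubD D)
    (hram : ∀ l : ℕ, l.Prime → l ≠ 3 → RamIn l N → NonSplit l D) :
    ∃ (B : Type) (_ : Field B) (_ : NumberField B) (_ : Algebra K B) (s : B),
      Module.finrank K B = 2 ∧ s ^ 2 = (D : B) ∧ Arith s (D : K) ((α : K) / 3) (β : K) := by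
  have hodd : Odd (Module.finrank ℚ N) := by
    rw [hN]
    exact Odd.pow (by decide)
  have hD := Qc_neg H.neg
  obtain ⟨B, C, iB, iBN, iC, iCN, aKB, aKC, aNC, aBC, t1, t2, s, κ, T⟩ := exists_tow m hD K N hN
  have hd2 : ∀ z : K, z ^ 2 ≠ (D : K) := fun z => no_sq_odd hD hN z
  refine ⟨B, iB, iBN, aKB, s, T.degB, T.sq, ?_⟩
  intro d hd hF hM hJ
  have hv := fun W => val_dual8 (N := N) hodd H T.degB hd2 T.sq hd hF hJ W
  have hy : algebraMap B C d ≠ 0 := (map_ne_zero _).2 hd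
  obtain ⟨z, hz⟩ := triv_dual H.neg H.sqf H.three hC T hram hy (Qc_lift T hd2 hJ) (val_up hv)
  exact Qc_down T (Qc_nsq H.three) hz

theorem arith_phi8 (hN : Module.finrank ℚ N = 3 ^ m) (H : Dat8 D α β) (hC : CubD D)
    (hram : ∀ l : ℕ, l.Prime → l ≠ 3 → RamIn l N → NonSplit l D) :
    ∃ (B : Type) (_ : Field B) (_ : NumberField B) (_ : Algebra K B) (s : B),
      Module.finrank K B = 2 ∧ s ^ 2 = (-3 * (D : B)) ∧
      Arith s (-3 * (D : K)) ((α : K) / 3) ((27 * (β : K) - 4 * (D : K) * (α : K) ^ 3) / 9) := by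
  have hodd : Odd (Module.finrank ℚ N) := by
    rw [hN]
    exact Odd.pow (by decide)
  have hD := Qc_nsq H.three
  obtain ⟨B, C, iB, iBN, iC, iCN, aKB, aKC, aNC, aBC, t1, t2, s, κ, T⟩ := exists_tow m hD K N hN
  have hd1 : ∀ z : K, z ^ 2 ≠ ((-3 * D : ℤ) : K) := fun z => no_sq_odd hD hN z
  have hd2 : ∀ z : K, z ^ 2 ≠ (-3 * (D : K)) := fun z => by
    have h1 := hd1 z
    push_cast at h1
    exact h1
  have hs : s ^ 2 = (-3 * (D : B)) := by
    rw [T.sq]
    push_cast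
    rfl
  refine ⟨B, iB, iBN, aKB, s, T.degB, hs, ?_⟩
  intro d hd hF hM hJ
  have hv := fun W => val_phi8 (N := N) hodd H T.degB hd2 hs hd hF hJ W
  have hy : algebraMap B C d ≠ 0 := (map_ne_zero _).2 hd
  have hs' : s ^ 2 = algebraMap K B ((-3 * D : ℤ) : K) := by rw [T.sq, map_intCast]
  obtain ⟨-, -, -, hrep⟩ := quad_ext T.degB hd1 hs'
  have hLC : LC3 d := by
    obtain ⟨d₁, d₂, hdd⟩ := hrep d
    have h12 : d₁ ≠ 0 ∨ d₂ ≠ 0 := by
      by_contra hcon
      push Not at hcon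
      apply hd
      rw [hdd, hcon.1, hcon.2, map_zero, zero_mul, add_zero]
    have h5 := lc3_of_loc T.sq h12 (fun w hw z => Qc_hns (N := N) hodd H.three w hw z)
      (fun w hw => by
        obtain ⟨t₁, t₂, ht⟩ := loc_cube3' (N := N) hodd H hM hdd w hw
        refine ⟨t₁, t₂, ?_⟩
        have e1 : ((-3 * D : ℤ) : w.adicCompletion K) = -3 * (D : w.adicCompletion K) := by
          push_cast
          rfl
        rw [e1]
        exact ht)
    rw [hdd]
    exact h5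
  obtain ⟨z, hz⟩ := triv_phi H.neg H.sqf H.three hC T hram hy (Qc_lift T hd1 hJ) (val_up hv)
    (lc3_up hLC)
  refine Qc_down T ?_ hz
  apply Qc_neg
  have := H.neg
  omega

theorem main_K8 (hN : Module.finrank ℚ N = 3 ^ m) (H : Dat8 D α β) (hC : CubD D)
    (hram : ∀ l : ℕ, l.Prime → l ≠ 3 → RamIn l N → NonSplit l D) (E : WeierstrassCurve K)
    (hE : E = curWD (D : K) (α : K) (β : K) ∨
      E = curVD (D : K) (α : K) (27 * (β : K) - 4 * (D : K) * (α : K) ^ 3)) :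
    Finite E.toAffine.Point ∧ NoSha3 K E := by
  obtain ⟨B₁, i1, i2, i3, s₁, e1, e2, S1⟩ := arith_phi8 (K := K) (N := N) hN H hC hram
  obtain ⟨B₂, j1, j2, j3, s₂, f1, f2, S2⟩ := arith_dual8 (K := K) (N := N) hN H hC hram
  have hD := Qc_neg H.neg
  have hD3 := Qc_nsq H.three
  have hd2 : ∀ z : K, z ^ 2 ≠ (D : K) := fun z => no_sq_odd hD hN z
  have hd1 : ∀ z : K, z ^ 2 ≠ (-3 * (D : K)) := fun z => by
    have h1 := no_sq_odd (K := K) hD3 hN z
    push_cast at h1
    exact h1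
  have hD0 : (D : K) ≠ 0 := Int.cast_ne_zero.2 H.neg.ne
  have hβ0 : (β : K) ≠ 0 := Int.cast_ne_zero.2 H.hβ
  have hγ0 : 27 * (β : K) - 4 * (D : K) * (α : K) ^ 3 ≠ 0 := by
    have h1 : (27 * β - 4 * D * α ^ 3 : ℤ) ≠ 0 := by
      intro h
      have h2 : (3 : ℤ) ∣ 4 * D * α ^ 3 := ⟨9 * β, by linarith⟩
      rcases Int.prime_three.dvd_mul.1 h2 with h3 | h3
      · have := H.three
        omega
      · exact H.hα (Int.prime_three.dvd_of_dvd_pow h3)
    exact_mod_cast h1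
  refine both hD0 hβ0 hγ0 e1 f1 hd1 hd2 (s₁ := s₁) ?_ (s₂ := s₂) ?_ S1 S2 E hE
  · rw [e2, map_mul, map_intCast, map_neg, map_ofNat]
  · rw [f2, map_intCast]

end

end H38T8
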