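import Pool.Agent.H38.T8.Dv
import Pool.Agent.H38.T6.Fin

/-!
The count (MP_78d38b_T8, helper38).
-/

set_option autoImplicit false
open scoped Classical

open WeierstrassCurve IsDedekindDomain NumberField Pool.Agent.H10 H55T3 H38T6

namespace H38T8

section

variable {d a b : ℤ} {S : Finset ℕ}

lemma h3_parts' (h3 : ¬ (3 : ℤ) ∣ a * d) : ¬ (3 : ℤ) ∣ a ∧ ¬ (3 : ℤ) ∣ d :=
  ⟨fun h => h3 (h.mul_right d), fun h => h3 (h.mul_left a)⟩

lemma three_ndvd' (h3 : ¬ (3 : ℤ) ∣ a * d) : ¬ (3 : ℤ) ∣ 27 * b - 4 * d * a ^ 3 := by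
  obtain ⟨ha, hd⟩ := h3_parts' h3
  intro h
  have h1 : (3 : ℤ) ∣ 4 * d * a ^ 3 := by
    have h2 : (3 : ℤ) ∣ 27 * b := Dvd.dvd.mul_right (by norm_num) b
    have h4 := dvd_sub h2 h
    rwa [sub_sub_cancel] at h4
  have hp := Int.prime_three
  rcases hp.dvd_or_dvd h1 with h2 | h2
  · rcases hp.dvd_or_dvd h2 with h5 | h5
    · norm_num at h5
    · exact hd h5
  · exact ha (hp.dvd_of_dvd_pow h2)

lemma e_ne' (h3 : ¬ (3 : ℤ) ∣ a * d) (hb : b ≠ 0) : d * b * (27 * b - 4 * d * a ^ 3) ≠ 0 := by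
  obtain ⟨ha, hd⟩ := h3_parts' h3
  intro h
  rcases mul_eq_zero.1 h with h1 | h1
  · rcases mul_eq_zero.1 h1 with h2 | h2
    · exact hd (h2 ▸ dvd_zero _)
    · exact hb h2
  · exact three_ndvd' (b := b) h3 (h1 ▸ dvd_zero _)

lemma dvd_of_bad' (h3 : ¬ (3 : ℤ) ∣ a * d) (hb : b ≠ 0) {q : ℕ} (hq : q.Prime)
    (h : (q : ℤ) ∣ d * b * (27 * b - 4 * d * a ^ 3)) (hq3 : q ≠ 3) : q ∣ m0 (PP d a b S) := by
  by_cases h2 : q = 2
  · subst h2
    exact Dvd.intro _ rfl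
  · apply prime_dvd_m0
    unfold PP
    rw [Finset.mem_erase, Finset.mem_erase, Finset.mem_union]
    refine ⟨hq3, h2, Or.inl ?_⟩
    rw [Nat.mem_primeFactors]
    refine ⟨hq, ?_, ?_⟩
    · exact Int.natCast_dvd.1 h
    · rw [Int.natAbs_ne_zero]
      exact e_ne' h3 hb

lemma exists_k' (hd : Squarefree d) (h3 : ¬ (3 : ℤ) ∣ a * d) (hb : b ≠ 0) :
    ∃ k : ℤ, ((m0 (PP d a b S) : ℕ) : ℤ) = d * k := by
  have h1 : d.natAbs ∣ m0 (PP d a b S) := by
    have hsq : Squarefree d.natAbs := Int.squarefree_natAbs.2 hd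
    rw [← Nat.prod_primeFactors_of_squarefree hsq]
    refine Finset.prod_primes_dvd _ ?_ ?_
    · intro p hp
      exact (Nat.prime_of_mem_primeFactors hp).prime
    · intro p hp
      have hpp := Nat.prime_of_mem_primeFactors hp
      have hpd : (p : ℤ) ∣ d := Int.natCast_dvd.2 (Nat.dvd_of_mem_primeFactors hp)
      refine dvd_of_bad' h3 hb hpp ((hpd.mul_right b).mul_right _) ?_
      rintro rfl
      exact (h3_parts' h3).2 hpd
  have h2 : d ∣ ((m0 (PP d a b S) : ℕ) : ℤ) := Int.natAbs_dvd.1 (Int.natCast_dvd_natCast.2 h1)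
  exact h2

end

lemma adm_dat8 {d a b k n : ℤ} {S : Finset ℕ} (h3 : ¬ (3 : ℤ) ∣ a * d) (hb : b ≠ 0)
    (hk : ((m0 (PP d a b S) : ℕ) : ℤ) = d * k) {m : ℕ} (hm : Adm (PP d a b S) m)
    (hn : n = -k * m) : d * n = -((m0 (PP d a b S) * m : ℕ) : ℤ) ∧ Squarefree (d * n) ∧
      Dat8 (d * n) a (b * n) := by
  obtain ⟨hm1, hm2, hm3⟩ := hm
  have hP := pp_prs d a b S
  have e : d * n = -((m0 (PP d a b S) * m : ℕ) : ℤ) := by
    rw [hn]
    push_cast
    rw [hk]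
    ring
  have hsqf : Squarefree (m0 (PP d a b S) * m) := by
    rw [Nat.squarefree_mul_iff]
    exact ⟨hm2.symm, sqf_m0 hP, hm1⟩
  have hsq : Squarefree (d * n) := by
    rw [e, ← Int.squarefree_natAbs, Int.natAbs_neg, Int.natAbs_natCast]
    exact hsqf
  have hpos : 0 < m0 (PP d a b S) * m := Nat.pos_of_ne_zero hsqf.ne_zero
  obtain ⟨ha, hd⟩ := h3_parts' h3
  have hD3 : (d * n) % 3 = 2 := by
    rw [e]
    omega
  have hD4 : (d * n) % 4 = 2 := by
    have ho : (∏ q ∈ PP d a b S, q) % 2 = 1 := by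
      have := m0_odd hP
      omega
    have hmo : m % 2 = 1 := by
      have h2 : ¬ 2 ∣ m := by
        intro h2
        have h4 : 2 ∣ m0 (PP d a b S) := Dvd.intro _ rfl
        have h5 := Nat.dvd_gcd h2 h4
        rw [hm2] at h5
        norm_num at h5
      omega
    obtain ⟨u, hu⟩ : ∃ u, (∏ q ∈ PP d a b S, q) = 2 * u + 1 := ⟨(∏ q ∈ PP d a b S, q) / 2, by omega⟩
    obtain ⟨v, hv⟩ : ∃ v, m = 2 * v + 1 := ⟨m / 2, by omega⟩
    have e2 : m0 (PP d a b S) * m = 4 * (2 * u * v + u + v) + 2 := by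
      unfold m0
      rw [hu, hv]
      ring
    rw [e, e2]
    omega
  have hn0 : n ≠ 0 := by
    rintro rfl
    rw [mul_zero] at hD3
    norm_num at hD3
  refine ⟨e, hsq, ?_, hsq, hD4, hD3, ha, mul_ne_zero hb hn0, ?_⟩
  · rw [e]
    have : (0 : ℤ) < ((m0 (PP d a b S) * m : ℕ) : ℤ) := by exact_mod_cast hpos
    omega
  · intro q hq hq3 h
    have hqp : Prime (q : ℤ) := Nat.prime_iff_prime_int.1 hq
    have e1 : b * n * (27 * (b * n) - 4 * (d * n) * a ^ 3) =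
        b * (27 * b - 4 * d * a ^ 3) * n ^ 2 := by ring
    rw [e1] at h
    rcases hqp.dvd_or_dvd h with h1 | h1
    · have h2 : (q : ℤ) ∣ d * b * (27 * b - 4 * d * a ^ 3) := by
        rw [mul_assoc]
        exact h1.mul_left d
      have h4 : q ∣ m0 (PP d a b S) := dvd_of_bad' h3 hb hq h2 hq3
      rw [e, dvd_neg]
      exact_mod_cast h4.mul_right m
    · exact (hqp.dvd_of_dvd_pow h1).mul_left d

theorem final8 {d a b : ℤ} (hd : Squarefree d) (h3 : ¬ (3 : ℤ) ∣ a * d) (hb : b ≠ 0)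
    (S : Finset ℕ) :
    ∃ c : ℝ, 0 < c ∧ ∃ x₀ : ℕ, ∀ x : ℕ, x₀ ≤ x →
      c * x ≤ (((Finset.Icc (-(x : ℤ)) x).filter (fun n => d * n < 0 ∧ Squarefree (d * n) ∧
        (d * n) % 12 = 2 ∧ (∀ q ∈ S, q.Prime → NonSplit q (d * n)) ∧ Dat8 (d * n) a (b * n) ∧
        CubD (d * n))).card : ℝ) := by
  obtain ⟨k, hk⟩ := exists_k' (S := S) hd h3 hb
  have hP := pp_prs d a b S
  have hk0 : k ≠ 0 := by
    rintro rfl
    rw [mul_zero] at hk
    have := (sqf_m0 hP).ne_zero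
    exact this (by exact_mod_cast hk)
  obtain ⟨c, hc, X₀, hX⟩ := good_count hP
  obtain ⟨K, hK⟩ : ∃ K : ℕ, K = k.natAbs := ⟨_, rfl⟩
  have hK0 : 0 < K := by
    rw [hK]
    exact Int.natAbs_pos.2 hk0
  have hKr : (0 : ℝ) < K := by exact_mod_cast hK0
  refine ⟨c / (2 * K), by positivity, 2 * K * (X₀ + 1), fun x hx => ?_⟩
  obtain ⟨X, hXdef⟩ : ∃ X : ℕ, X = x / K := ⟨_, rfl⟩
  have hX1 : X₀ ≤ X := by
    rw [hXdef, Nat.le_div_iff_mul_le hK0]
    nlinarith
  have hX2 : K * X ≤ x := by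
    rw [hXdef]
    exact Nat.mul_div_le x K
  have hX3 : x < K * (X + 1) := by
    rw [hXdef]
    exact Nat.lt_mul_div_succ x hK0
  have h1 := hX X hX1
  have hXr : (x : ℝ) / (2 * K) ≤ X := by
    rw [div_le_iff₀ (by positivity)]
    have h2 : (x : ℝ) < K * (X + 1) := by exact_mod_cast hX3
    have h4 : (K : ℝ) ≤ K * X := by
      have : 1 ≤ X := by
        rw [hXdef, Nat.le_div_iff_mul_le hK0]
        nlinarith
      have h5 : K * 1 ≤ K * X := Nat.mul_le_mul_left K this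
      rw [mul_one] at h5
      exact_mod_cast h5
    nlinarith
  have h2 : c / (2 * K) * x ≤ c * X := by
    calc c / (2 * K) * x = c * (x / (2 * K)) := by ring
      _ ≤ c * X := mul_le_mul_of_nonneg_left hXr hc.le
  refine (h2.trans h1).trans ?_
  have hcard : ((Finset.Icc 1 X).filter (fun m => Adm (PP d a b S) m ∧
      CubD (-((m0 (PP d a b S) * m : ℕ) : ℤ)))).card ≤
      ((Finset.Icc (-(x : ℤ)) x).filter (fun n => d * n < 0 ∧ Squarefree (d * n) ∧
        (d * n) % 12 = 2 ∧ (∀ q ∈ S, q.Prime → NonSplit q (d * n)) ∧ Dat8 (d * n) a (b * n) ∧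
        CubD (d * n))).card := by
    refine Finset.card_le_card_of_injOn (fun m : ℕ => -k * (m : ℤ)) ?_ ?_
    · intro m hm
      have hm' := Finset.mem_filter.1 (Finset.mem_coe.1 hm)
      obtain ⟨hm1, hm2, hm3⟩ := hm'
      rw [Finset.mem_Icc] at hm1
      obtain ⟨e, hsq, hdat⟩ := adm_dat8 (n := -k * (m : ℤ)) h3 hb hk hm2 rfl
      rw [Finset.mem_coe, Finset.mem_filter, Finset.mem_Icc]
      have habs : |(-k * (m : ℤ))| ≤ x := by
        rw [abs_mul, abs_neg, Int.abs_eq_natAbs, ← hK]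
        have : |(m : ℤ)| = m := abs_of_nonneg (Int.natCast_nonneg m)
        rw [this]
        have h5 : K * m ≤ x := (Nat.mul_le_mul_left K hm1.2).trans hX2
        exact_mod_cast h5
      have h12 : (d * (-k * (m : ℤ))) % 12 = 2 := by
        have h5 := hdat.even
        have h6 := hdat.three
        omega
      refine ⟨abs_le.1 habs, hdat.neg, hsq, h12, ?_, hdat, ?_⟩
      · intro q hq hqp
        exact nonsplit_mem e hdat.three hqp hq
      · show CubD (d * (-k * (m : ℤ)))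
        rw [e]
        exact hm3
    · intro m _ m' _ h
      have h4 : -k * (m : ℤ) = -k * (m' : ℤ) := h
      have h5 := mul_left_cancel₀ (neg_ne_zero.2 hk0) h4
      exact_mod_cast h5
  exact_mod_cast hcard

end H38T8
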