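import Pool.Agent.H38.T8.Ge

/-!
Ranks of unit groups (MP_78d38b_T8, helper38).
-/

set_option autoImplicit false
set_option linter.unusedSectionVars false
open scoped Classical

open IsDedekindDomain NumberField WithZero H38T6

namespace H38T8

/-- all complex embeddings are real -/
def Rl (K : Type) [Field K] : Prop := ∀ (φ : K →+* ℂ) (x : K), (starRingEnd ℂ) (φ x) = φ x

theorem rl_gal {N : Type} [Field N] [NumberField N] [IsGalois ℚ N]
    (hodd : Odd (Module.finrank ℚ N)) : Rl N := by
  intro φ x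
  obtain ⟨σ, hσ⟩ := ComplexEmbedding.exists_comp_symm_eq_of_comp_eq (k := ℚ) φ
    (ComplexEmbedding.conjugate φ) (by
      ext y
      simp)
  have h1 : ∀ y, φ (σ.symm y) = (starRingEnd ℂ) (φ y) := fun y => congrArg (fun f => f y) hσ
  have h2 : σ.symm ^ 2 = 1 := by
    apply AlgEquiv.ext
    intro y
    apply φ.injective
    rw [pow_two, AlgEquiv.mul_apply, h1, h1, Complex.conj_conj]
    rfl
  have h3 : orderOf σ.symm ∣ 2 := orderOf_dvd_of_pow_eq_one h2
  have h4 : orderOf σ.symm ∣ Module.finrank ℚ N := by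
    rw [← IsGalois.card_aut_eq_finrank]
    exact orderOf_dvd_natCard _
  have h5 : orderOf σ.symm = 1 := by
    rcases (Nat.dvd_prime Nat.prime_two).1 h3 with h | h
    · exact h
    · exfalso
      rw [h] at h4
      exact (Nat.not_even_iff_odd.2 hodd) (even_iff_two_dvd.2 h4)
  rw [orderOf_eq_one_iff] at h5
  rw [← h1, h5, AlgEquiv.one_apply]

theorem rl_sub {K N : Type} [Field K] [NumberField K] [Field N] [NumberField N] [Algebra K N]
    (h : Rl N) : Rl K := by
  intro φ x
  letI := φ.toAlgebra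
  have hK : Algebra.IsAlgebraic K N := Algebra.IsAlgebraic.tower_top (K := ℚ) K
  let f : N →ₐ[K] ℂ := IsAlgClosed.lift
  have h1 : f (algebraMap K N x) = φ x := f.commutes x
  rw [← h1]
  exact h f.toRingHom (algebraMap K N x)

theorem rl_quad {k B : Type} [Field k] [NumberField k] [Field B] [NumberField B] [Algebra k B]
    (h : Rl k) {s : B} {δ : ℤ} (hδ : 0 < δ) (hs : s ^ 2 = (δ : B))
    (hspan : ∀ x : B, ∃ u v : k, x = algebraMap k B u + algebraMap k B v * s) : Rl B := by
  intro φ x
  have hk : ∀ u : k, (starRingEnd ℂ) (φ (algebraMap k B u)) = φ (algebraMap k B u) := fun u =>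
    h (φ.comp (algebraMap k B)) u
  have hs' : (starRingEnd ℂ) (φ s) = φ s := by
    have h1 : φ s ^ 2 = (δ : ℂ) := by rw [← map_pow, hs, map_intCast]
    have h2 : φ s ^ 2 = ((δ : ℝ) : ℂ) := by rw [h1]; push_cast; rfl
    have h3 : ((Real.sqrt (δ : ℝ) : ℝ) : ℂ) ^ 2 = ((δ : ℝ) : ℂ) := by
      rw [← Complex.ofReal_pow, Real.sq_sqrt]
      exact_mod_cast hδ.le
    rw [← h3] at h2
    rcases sq_eq_sq_iff_eq_or_eq_neg.1 h2 with h4 | h4
    · rw [h4, Complex.conj_ofReal]
    · rw [h4, map_neg, Complex.conj_ofReal]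
  obtain ⟨u, v, rfl⟩ := hspan x
  rw [map_add, map_mul, map_add, map_mul, hk, hk, hs']

theorem rl_rank {K : Type} [Field K] [NumberField K] (h : Rl K) :
    Module.finrank ℤ (Additive (𝓞 K)ˣ) + 1 = Module.finrank ℚ K := by
  rw [NumberField.Units.finrank_eq, NumberField.Units.rank]
  have h1 : InfinitePlace.nrComplexPlaces K = 0 := by
    unfold InfinitePlace.nrComplexPlaces
    rw [Fintype.card_eq_zero_iff]
    constructor
    rintro ⟨w, hw⟩
    rw [InfinitePlace.isComplex_iff] at hw
    apply hw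
    rw [ComplexEmbedding.isReal_iff]
    ext x
    exact h _ x
  have h2 := InfinitePlace.card_eq_nrRealPlaces_add_nrComplexPlaces K
  have h3 := InfinitePlace.card_add_two_mul_card_eq_rank K
  have h4 : 0 < Module.finrank ℚ K := Module.finrank_pos
  omega

end H38T8
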