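import Pool.Agent.H38.T8.Ua

/-!
Units of relative norm one modulo cubes (MP_78d38b_T8, helper38).
-/

set_option autoImplicit false
set_option linter.unusedSectionVars false
open scoped Classical

open IsDedekindDomain NumberField WithZero H38T6

namespace H38T8

theorem theta {A : Type} [AddCommGroup A] [Module.Finite ℤ A] {n : ℕ}
    (h : n ≤ Module.finrank ℤ A) : ∃ Θ : A →+ (Fin n → ZMod 3), Function.Surjective Θ := by
  obtain ⟨T, hT⟩ : ∃ T : Submodule ℤ A, T = Submodule.torsion ℤ A := ⟨_, rfl⟩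
  have hfr : Module.finrank ℤ (A ⧸ T) = Module.finrank ℤ A :=
    finrank_quotient_eq_of_le_torsion hT.le
  have htf : Module.IsTorsionFree ℤ (A ⧸ T) := by
    rw [hT]
    infer_instance
  have hfree : Module.Free ℤ (A ⧸ T) := Module.free_of_finite_type_torsion_free'
  obtain ⟨b⟩ : Nonempty (Module.Basis (Fin (Module.finrank ℤ (A ⧸ T))) ℤ (A ⧸ T)) :=
    ⟨Module.finBasis ℤ (A ⧸ T)⟩
  have hle : n ≤ Module.finrank ℤ (A ⧸ T) := by rw [hfr]; exact h
  let Θ : A →+ (Fin n → ZMod 3) :=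
    { toFun := fun a i => ((b.repr (T.mkQ a) (Fin.castLE hle i) : ℤ) : ZMod 3)
      map_zero' := by
        ext i
        simp
      map_add' := by
        intro x y
        ext i
        simp }
  refine ⟨Θ, fun f => ?_⟩
  obtain ⟨c, hc⟩ : ∃ c : Fin (Module.finrank ℤ (A ⧸ T)) → ℤ, ∀ i : Fin n,
      ((c (Fin.castLE hle i) : ℤ) : ZMod 3) = f i := by
    refine ⟨fun j => if hj : (j : ℕ) < n then ((f ⟨j, hj⟩).val : ℤ) else 0, fun i => ?_⟩
    have hi : ((Fin.castLE hle i : Fin _) : ℕ) < n := i.2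
    beta_reduce
    rw [dif_pos hi]
    push_cast
    rw [ZMod.natCast_zmod_val]
    rfl
  obtain ⟨a, ha⟩ := T.mkQ_surjective (b.equivFun.symm c)
  refine ⟨a, ?_⟩
  ext i
  change ((b.repr (T.mkQ a) (Fin.castLE hle i) : ℤ) : ZMod 3) = f i
  rw [ha, ← Module.Basis.equivFun_apply, LinearEquiv.apply_symm_apply, hc]

section

variable {k B : Type} [Field k] [NumberField k] [Field B] [NumberField B] [Algebra k B]

/-- the action on units -/
noncomputable def gu (g : B ≃ₐ[k] B) : (𝓞 B)ˣ →* (𝓞 B)ˣ :=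
  Units.map (RingOfIntegers.mapRingHom (g : B →+* B) : 𝓞 B →* 𝓞 B)

lemma gu_coe (g : B ≃ₐ[k] B) (u : (𝓞 B)ˣ) :
    (((gu g u : (𝓞 B)ˣ) : 𝓞 B) : B) = g ((u : 𝓞 B) : B) := rfl

/-- units of relative norm one -/
noncomputable def Eu (g : B ≃ₐ[k] B) : Subgroup (𝓞 B)ˣ := (gu g * MonoidHom.id _).ker

lemma mem_Eu {g : B ≃ₐ[k] B} {u : (𝓞 B)ˣ} :
    u ∈ Eu g ↔ g ((u : 𝓞 B) : B) * ((u : 𝓞 B) : B) = 1 := by
  unfold Eu
  rw [MonoidHom.mem_ker, MonoidHom.mul_apply, MonoidHom.id_apply, Units.ext_iff,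
    Units.val_mul, Units.val_one]
  constructor
  · intro h
    have h1 := congrArg (algebraMap (𝓞 B) B) h
    rw [map_mul, map_one] at h1
    exact h1
  · intro h
    apply RingOfIntegers.coe_injective
    have h1 : (((gu g u : (𝓞 B)ˣ) : 𝓞 B) : B) * ((u : 𝓞 B) : B) = 1 := by
      rw [gu_coe]
      exact h
    change algebraMap (𝓞 B) B _ = algebraMap (𝓞 B) B 1
    rw [map_mul, map_one]
    exact h1

theorem rank_Eu {g : B ≃ₐ[k] B} (hgg : ∀ y, g (g y) = y)
    (hfix : ∀ y, g y = y → ∃ x : k, algebraMap k B x = y) :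
    Module.finrank ℤ (Additive (𝓞 B)ˣ) ≤ Module.finrank ℤ (Additive (Eu g)) +
      Module.finrank ℤ (Additive (𝓞 k)ˣ) := by
  let δ : (𝓞 B)ˣ →* (𝓞 B)ˣ := MonoidHom.id _ / gu g
  have hδ : ∀ u, δ u = u / gu g u := fun _ => rfl
  let f : Additive (𝓞 B)ˣ →ₗ[ℤ] Additive (𝓞 B)ˣ := δ.toAdditive.toIntLinearMap
  have hf : ∀ u, f (Additive.ofMul u) = Additive.ofMul (δ u) := fun _ => rfl
  let ι : Additive (𝓞 k)ˣ →ₗ[ℤ] Additive (𝓞 B)ˣ :=
    (Units.map (algebraMap (𝓞 k) (𝓞 B) : 𝓞 k →* 𝓞 B)).toAdditive.toIntLinearMap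
  let j : Additive (Eu g) →ₗ[ℤ] Additive (𝓞 B)ˣ := (Eu g).subtype.toAdditive.toIntLinearMap
  have hggu : ∀ u, gu g (gu g u) = u := by
    intro u
    apply Units.ext
    apply RingOfIntegers.coe_injective
    change (((gu g (gu g u) : (𝓞 B)ˣ) : 𝓞 B) : B) = ((u : 𝓞 B) : B)
    rw [gu_coe, gu_coe, hgg]
  have h1 : LinearMap.range f ≤ LinearMap.range j := by
    rintro _ ⟨u, rfl⟩
    have h2 : δ u.toMul ∈ Eu g := by
      unfold Eu
      rw [MonoidHom.mem_ker, MonoidHom.mul_apply, MonoidHom.id_apply, hδ, map_div, hggu]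
      rw [div_mul_div_comm, mul_comm, div_self']
    exact ⟨Additive.ofMul ⟨_, h2⟩, rfl⟩
  have h2 : LinearMap.ker f ≤ LinearMap.range ι := by
    intro u hu
    rw [LinearMap.mem_ker] at hu
    have h3 : u.toMul / gu g u.toMul = 1 := hu
    rw [div_eq_one] at h3
    obtain ⟨e, he⟩ : ∃ e : (𝓞 B)ˣ, e = u.toMul := ⟨_, rfl⟩
    rw [← he] at h3
    have h4 : g ((e : 𝓞 B) : B) = ((e : 𝓞 B) : B) := by
      rw [← gu_coe, ← h3]
    have h4' : g (((e⁻¹ : (𝓞 B)ˣ) : 𝓞 B) : B) = (((e⁻¹ : (𝓞 B)ˣ) : 𝓞 B) : B) := by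
      rw [← gu_coe, map_inv, ← h3]
    have key : ∀ y : 𝓞 B, g (y : B) = (y : B) → ∃ x : 𝓞 k, algebraMap (𝓞 k) (𝓞 B) x = y := by
      intro y hy
      obtain ⟨x, hx⟩ := hfix _ hy
      have hint : IsIntegral ℤ x := by
        apply (isIntegral_algebraMap_iff (algebraMap k B).injective).1
        rw [hx]
        exact y.2
      refine ⟨⟨x, hint⟩, ?_⟩
      apply RingOfIntegers.coe_injective
      exact hx
    obtain ⟨x, hx⟩ := key _ h4
    obtain ⟨y, hy⟩ := key _ h4'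
    have hxy : x * y = 1 := by
      have hinj : Function.Injective (algebraMap (𝓞 k) (𝓞 B)) :=
        FaithfulSMul.algebraMap_injective (𝓞 k) (𝓞 B)
      apply hinj
      rw [map_mul, hx, hy, map_one, Units.mul_inv]
    refine ⟨Additive.ofMul (Units.mkOfMulEqOne x y hxy), ?_⟩
    have h5 : Units.map (algebraMap (𝓞 k) (𝓞 B) : 𝓞 k →* 𝓞 B) (Units.mkOfMulEqOne x y hxy) =
        u.toMul := by
      rw [← he]
      apply Units.ext
      exact hx
    exact congrArg Additive.ofMul h5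
  have h3 := (LinearMap.ker f).finrank_quotient_add_finrank
  rw [f.quotKerEquivRange.finrank_eq] at h3
  have h4 : Module.finrank ℤ (LinearMap.range f) ≤ Module.finrank ℤ (Additive (Eu g)) :=
    (Submodule.finrank_mono h1).trans (by
      have hfinE : Module.Finite ℤ (Additive (Eu g)) := by
        have hj : Function.Injective j := fun x y h => Subtype.val_injective h
        exact Module.Finite.of_injective j hj
      exact LinearMap.finrank_range_le j)
  have h5 : Module.finrank ℤ (LinearMap.ker f) ≤ Module.finrank ℤ (Additive (𝓞 k)ˣ) :=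
    (Submodule.finrank_mono h2).trans (LinearMap.finrank_range_le ι)
  omega

theorem fin_Eu {g : B ≃ₐ[k] B} : Module.Finite ℤ (Additive (Eu g)) := by
  let j : Additive (Eu g) →ₗ[ℤ] Additive (𝓞 B)ˣ := (Eu g).subtype.toAdditive.toIntLinearMap
  have hj : Function.Injective j := fun x y h => Subtype.val_injective h
  exact Module.Finite.of_injective j hj

/-- `3 ^ [k : ℚ]` classes of units of relative norm one modulo cubes -/
theorem theta_Eu {g : B ≃ₐ[k] B} (hgg : ∀ y, g (g y) = y)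
    (hfix : ∀ y, g y = y → ∃ x : k, algebraMap k B x = y) (hfin : Module.finrank k B = 2)
    (hk : Rl k) (hB : Rl B) : ∃ Θ : Additive (Eu g) →+ (Fin (Module.finrank ℚ k) → ZMod 3),
      Function.Surjective Θ := by
  have h1 := rl_rank hk
  have h2 := rl_rank hB
  have h3 := rank_Eu hgg hfix
  have h4 := Module.finrank_mul_finrank ℚ k B
  rw [hfin] at h4
  have h5 := fin_Eu (g := g)
  apply theta
  omega

end

end H38T8
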