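import Pool.Agent.H38.T8.Ub

/-!
Congruences at the places above three (MP_78d38b_T8, helper38).
-/

set_option autoImplicit false
set_option linter.unusedSectionVars false
open scoped Classical

open IsDedekindDomain NumberField WithZero H38T6

namespace H38T8

/-- `x` is divisible by `c` at three -/
def Z3 {K : Type} [Field K] [NumberField K] (c x : K) : Prop :=
  ∀ W : HeightOneSpectrum (𝓞 K), (3 : 𝓞 K) ∈ W.asIdeal → W.valuation K x ≤ W.valuation K c

section

variable {K : Type} [Field K] [NumberField K] {c d x y : K}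

lemma Z3.add (hx : Z3 c x) (hy : Z3 c y) : Z3 c (x + y) := fun W hW =>
  (Valuation.map_add _ _ _).trans (max_le (hx W hW) (hy W hW))

lemma Z3.sub (hx : Z3 c x) (hy : Z3 c y) : Z3 c (x - y) := fun W hW =>
  (Valuation.map_sub _ _ _).trans (max_le (hx W hW) (hy W hW))

lemma Z3.neg (hx : Z3 c x) : Z3 c (-x) := fun W hW => by
  rw [Valuation.map_neg]
  exact hx W hW

lemma Z3.mul (hx : Z3 c x) (hy : Z3 d y) : Z3 (c * d) (x * y) := fun W hW => by
  rw [map_mul, map_mul]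
  exact mul_le_mul' (hx W hW) (hy W hW)

lemma Z3.mul_one (hx : Z3 c x) (hy : Z3 1 y) : Z3 c (x * y) := by
  have h := hx.mul hy
  rwa [_root_.mul_one] at h

lemma Z3.trans (hx : Z3 c x) (h : Z3 d c) : Z3 d x := fun W hW => (hx W hW).trans (h W hW)

lemma Z3.self (c : K) : Z3 c c := fun _ _ => le_rfl

lemma Z3.int (a : 𝓞 K) : Z3 1 (a : K) := fun W _ => by
  rw [map_one]
  exact W.valuation_le_one a

lemma Z3.intCast (n : ℤ) : Z3 (1 : K) (n : K) := by
  have := Z3.int (n : 𝓞 K)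
  have e : ((n : 𝓞 K) : K) = (n : K) := map_intCast (algebraMap (𝓞 K) K) n
  rwa [e] at this

lemma z3_mul_iff {t : K} (ht : t ≠ 0) : Z3 (t * c) (t * x) ↔ Z3 c x := by
  refine forall_congr' fun W => forall_congr' fun _ => ?_
  rw [map_mul, map_mul]
  have h0 : 0 < W.valuation K t := zero_lt_iff.2 ((Valuation.ne_zero_iff _).2 ht)
  exact mul_le_mul_iff_right₀ h0

lemma val_int_one (W : HeightOneSpectrum (𝓞 K)) (hW : (3 : 𝓞 K) ∈ W.asIdeal) {n : ℤ}
    (hn : ¬ (3 : ℤ) ∣ n) : W.valuation K (n : K) = 1 := by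
  apply pc_one W
  exact pc_notMem W Nat.prime_three (by exact_mod_cast hW) (by exact_mod_cast hn)

lemma val_three_one (W : HeightOneSpectrum (𝓞 K)) (hW : (3 : 𝓞 K) ∉ W.asIdeal) :
    W.valuation K (3 : K) = 1 := by
  have := pc_one W (n := 3) (by exact_mod_cast hW)
  exact_mod_cast this

lemma val_three_lt (W : HeightOneSpectrum (𝓞 K)) (hW : (3 : 𝓞 K) ∈ W.asIdeal) :
    W.valuation K (3 : K) < 1 := by
  have := pc_lt W (n := 3) (by exact_mod_cast hW)
  exact_mod_cast this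

lemma pow_six0 {a : ℕ} (h : a < 9) (h0 : a ≠ 0) (h3 : a ≠ 3) (h6 : a ≠ 6) : a ^ 6 % 9 = 1 := by
  interval_cases a <;> first | rfl | exact absurd rfl h0 | exact absurd rfl h3 | exact absurd rfl h6

lemma pow_six {n : ℕ} (hn : ¬ 3 ∣ n) : ∃ t : ℤ, 1 - (n : ℤ) ^ 6 = 9 * t := by
  have h1 : n ^ 6 % 9 = 1 := by
    rw [Nat.pow_mod]
    exact pow_six0 (Nat.mod_lt _ (by norm_num)) (by omega) (by omega) (by omega)
  have h2 : ((n : ℤ) ^ 6) % 9 = 1 := by exact_mod_cast h1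
  exact ⟨(1 - (n : ℤ) ^ 6) / 9, by omega⟩

/-- integral representatives -/
theorem int_rep (hx : Z3 1 x) : ∃ a : 𝓞 K, Z3 9 (x - (a : K)) := by
  obtain ⟨c, hc0, hc⟩ := exists_integral_multiples ℤ ℚ ({x} : Finset K)
  replace hc := hc x (Finset.mem_singleton_self x)
  have hc1 : IsIntegral ℤ ((c.natAbs : K) * x) := by
    have h1 : c • x = (c : K) * x := zsmul_eq_mul _ _
    rw [h1] at hc
    rcases Int.natAbs_eq c with h | h
    · rw [h, Int.cast_natCast] at hc
      exact hc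
    · rw [h, Int.cast_neg, Int.cast_natCast] at hc
      have h2 := hc.neg
      rwa [neg_mul, neg_neg] at h2
  obtain ⟨e, n, hn, he⟩ := Nat.exists_eq_pow_mul_and_not_dvd (Int.natAbs_ne_zero.2 hc0) 3 (by norm_num)
  rw [he] at hc1
  obtain ⟨y₀, hy₀⟩ : ∃ y₀ : 𝓞 K, algebraMap (𝓞 K) K y₀ = ((3 ^ e * n : ℕ) : K) * x :=
    ⟨⟨_, hc1⟩, rfl⟩
  obtain ⟨y, hy⟩ := HeightOneSpectrum.mem_integers_of_valuation_le_one (R := 𝓞 K) K ((n : K) * x) (by
    intro W
    have hn1 : W.valuation K (n : K) ≤ 1 := by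
      have := pc_le W (n : ℤ)
      exact_mod_cast this
    by_cases hW : (3 : 𝓞 K) ∈ W.asIdeal
    · rw [map_mul]
      have h2 := hx W hW
      rw [map_one] at h2
      exact mul_le_one' hn1 h2
    · have h1 : W.valuation K (algebraMap (𝓞 K) K y₀) ≤ 1 := W.valuation_le_one (K := K) y₀
      rw [hy₀] at h1
      push_cast at h1
      rw [map_mul, map_mul, map_pow, val_three_one W hW, one_pow, one_mul, ← map_mul] at h1
      exact h1)
  obtain ⟨t, ht⟩ := pow_six hn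
  refine ⟨(n : 𝓞 K) ^ 5 * y, ?_⟩
  have h1 : (((n : 𝓞 K) ^ 5 * y : 𝓞 K) : K) = (n : K) ^ 5 * ((n : K) * x) := by
    change algebraMap (𝓞 K) K _ = _
    rw [map_mul, map_pow, map_natCast, hy]
  have h2 : x - (((n : 𝓞 K) ^ 5 * y : 𝓞 K) : K) = 9 * ((t : K) * x) := by
    have h3 : (1 : K) - (n : K) ^ 6 = 9 * (t : K) := by
      have := congrArg (fun z : ℤ => (z : K)) ht
      push_cast at this
      exact this
    rw [h1]
    linear_combination x * h3
  rw [h2]
  have h3 : Z3 (1 : K) ((t : K) * x) := (Z3.intCast t).mul_one hx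
  exact (Z3.self 9).mul_one h3

/-- divisibility in the ring of integers -/
theorem int_dvd {n : ℕ} {a : 𝓞 K} (h : Z3 ((3 : K) ^ n) (a : K)) :
    a ∈ Ideal.span {((3 : 𝓞 K) ^ n)} := by
  have h3 : (3 : K) ≠ 0 := by norm_num
  obtain ⟨y, hy⟩ := HeightOneSpectrum.mem_integers_of_valuation_le_one (R := 𝓞 K) K
    ((a : K) / 3 ^ n) (by
    intro W
    rw [map_div₀, map_pow]
    by_cases hW : (3 : 𝓞 K) ∈ W.asIdeal
    · have h1 := h W hW
      rw [map_pow] at h1
      exact div_le_one_of_le₀ h1 zero_le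
    · rw [val_three_one W hW, one_pow, div_one]
      exact W.valuation_le_one a)
  rw [Ideal.mem_span_singleton]
  refine ⟨y, ?_⟩
  apply RingOfIntegers.coe_injective
  rw [map_mul, map_pow, map_ofNat, hy, mul_div_cancel₀]
  exact pow_ne_zero n h3

theorem card_span (n : ℕ) : Nat.card (𝓞 K ⧸ Ideal.span {((3 : 𝓞 K) ^ n)}) =
    (3 ^ n) ^ (Module.finrank ℚ K) := by
  have h1 : Ideal.absNorm (Ideal.span {((3 : 𝓞 K) ^ n)}) = Nat.card (𝓞 K ⧸ Ideal.span {((3 : 𝓞 K) ^ n)}) := by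
    rw [Ideal.absNorm_apply, Submodule.cardQuot_apply]
  rw [← h1, Ideal.absNorm_span_singleton]
  have h2 : ((3 : 𝓞 K) ^ n) = algebraMap ℤ (𝓞 K) (3 ^ n) := by
    rw [map_pow]
    norm_num
  rw [h2, Algebra.norm_algebraMap, Int.natAbs_pow, Int.natAbs_pow, RingOfIntegers.rank]
  rfl

end

end H38T8
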