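import Mathlib

/-!
Counting classes modulo cubes (MP_78d38b_T8, helper38).
-/

set_option autoImplicit false
open scoped Classical

namespace H38T8

theorem count_quot {M : Type} [CommGroup M] (U3 U1 L : Subgroup M) {X : Type} [Finite X]
    (hfin : Finite (M ⧸ U3)) (hU : ∀ y, y ^ 3 ∈ U3 → y ∈ U1) (f : M → X)
    (hf : ∀ y ∈ U1, ∀ y' ∈ U1, f y = f y' → y / y' ∈ U3) (hL3 : U3 ≤ L) (hLc : ∀ y, y ^ 3 ∈ L) :
    Finite (M ⧸ L) ∧ Nat.card (M ⧸ L) ≤ Nat.card X := by
  let π : M →* M ⧸ U3 := QuotientGroup.mk' U3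
  have hπ : Function.Surjective π := QuotientGroup.mk'_surjective U3
  have hker : π.ker = U3 := QuotientGroup.ker_mk' U3
  have hm : ∀ y, y ∈ U3 ↔ π y = 1 := fun y => (QuotientGroup.eq_one_iff y).symm
  let cub : (M ⧸ U3) →* (M ⧸ U3) := powMonoidHom 3
  have hcub : ∀ y, cub y = y ^ 3 := fun _ => rfl
  have h1 : (L.map π).index = L.index := Subgroup.index_map_eq L hπ (by rw [hker]; exact hL3)
  have h2 : cub.range ≤ L.map π := by
    rintro _ ⟨q, rfl⟩
    obtain ⟨y, rfl⟩ := hπ q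
    exact ⟨y ^ 3, hLc y, by rw [map_pow, hcub]⟩
  have h3 : (L.map π).index ∣ cub.range.index := Subgroup.index_dvd_of_le h2
  have h4 : cub.range.index = Nat.card cub.ker := by
    have e1 := cub.ker.card_mul_index
    have e2 := cub.range.card_mul_index
    have e3 : cub.ker.index = Nat.card cub.range := Subgroup.index_ker cub
    rw [e3, ← e2, mul_comm] at e1
    exact (Nat.eq_of_mul_eq_mul_left Nat.card_pos e1).symm
  have h5 : Nat.card cub.ker ≤ Nat.card X := by
    have hin : ∀ q : cub.ker, (Quotient.out (q : M ⧸ U3)) ∈ U1 := by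
      intro q
      apply hU
      have h6 := q.2
      rw [MonoidHom.mem_ker, hcub] at h6
      rw [hm, map_pow]
      have h7 : π (Quotient.out (q : M ⧸ U3)) = (q : M ⧸ U3) := QuotientGroup.out_eq' _
      rw [h7]
      exact h6
    refine Nat.card_le_card_of_injective (fun q : cub.ker => f (Quotient.out (q : M ⧸ U3))) ?_
    intro q q' h
    have h6 := hf _ (hin q) _ (hin q') h
    apply Subtype.ext
    rw [hm, map_div, div_eq_one] at h6
    have h7 : π (Quotient.out (q : M ⧸ U3)) = (q : M ⧸ U3) := QuotientGroup.out_eq' _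
    have h8 : π (Quotient.out (q' : M ⧸ U3)) = (q' : M ⧸ U3) := QuotientGroup.out_eq' _
    rw [h7, h8] at h6
    exact h6
  have h0 : cub.range.index ≠ 0 := by
    rw [h4]
    exact Nat.card_pos.ne'
  have hL0 : L.index ≠ 0 := by
    rw [← h1]
    intro h
    rw [h, zero_dvd_iff] at h3
    exact h0 h3
  refine ⟨?_, ?_⟩
  · exact Nat.finite_of_card_ne_zero hL0
  · change L.index ≤ _
    rw [← h1]
    refine (Nat.le_of_dvd (Nat.pos_of_ne_zero h0) h3).trans ?_
    rw [h4]
    exact h5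

/-- surjectivity by counting -/
theorem surj_quot {E M : Type} [CommGroup E] [CommGroup M] (L : Subgroup M) {n : ℕ}
    (hfin : Finite (M ⧸ L)) (hcard : Nat.card (M ⧸ L) ≤ 3 ^ n) (j : E →* M)
    (Θ : Additive E →+ (Fin n → ZMod 3)) (hΘ : Function.Surjective Θ)
    (hker : ∀ u : E, j u ∈ L → ∃ z : E, u = z ^ 3) (y : M) : ∃ u : E, y * j u ∈ L := by
  let Φ : E →* M ⧸ L := (QuotientGroup.mk' L).comp j
  have hΦ : ∀ u, Φ u = QuotientGroup.mk' L (j u) := fun _ => rfl
  have h1 : ∀ u u' : E, Φ u = Φ u' → Θ (Additive.ofMul u) = Θ (Additive.ofMul u') := by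
    intro u u' h
    have h2 : Φ (u / u') = 1 := by rw [map_div, h, div_self']
    rw [hΦ] at h2
    have h3 : j (u / u') ∈ L := (QuotientGroup.eq_one_iff _).1 h2
    obtain ⟨z, hz⟩ := hker _ h3
    have h4 : Θ (Additive.ofMul (u / u')) = 0 := by
      rw [hz, ofMul_pow, map_nsmul]
      ext i
      have h5 : ((3 : ℕ) : ZMod 3) = 0 := rfl
      rw [Pi.smul_apply, nsmul_eq_mul, h5, zero_mul, Pi.zero_apply]
    rw [ofMul_div, map_sub, sub_eq_zero] at h4
    exact h4
  have h2 : Nat.card (Fin n → ZMod 3) ≤ Nat.card Φ.range := by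
    refine Nat.card_le_card_of_surjective
      (fun q : Φ.range => Θ (Additive.ofMul (Classical.choose q.2))) ?_
    intro x
    obtain ⟨a, ha⟩ := hΘ x
    refine ⟨⟨Φ a.toMul, ⟨a.toMul, rfl⟩⟩, ?_⟩
    have h3 := Classical.choose_spec (⟨a.toMul, rfl⟩ : ∃ b, Φ b = Φ a.toMul)
    rw [← ha]
    exact h1 _ _ h3
  have h3 : Nat.card (Fin n → ZMod 3) = 3 ^ n := by
    rw [Nat.card_fun, Nat.card_zmod, Nat.card_eq_fintype_card, Fintype.card_fin]
  have h4 : Φ.range = ⊤ := by
    apply Subgroup.eq_top_of_le_card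
    rw [h3] at h2
    exact hcard.trans h2
  have h5 : (QuotientGroup.mk' L y)⁻¹ ∈ Φ.range := by rw [h4]; exact Subgroup.mem_top _
  obtain ⟨u, hu⟩ := h5
  refine ⟨u, ?_⟩
  rw [hΦ] at hu
  rw [← QuotientGroup.eq_one_iff]
  change QuotientGroup.mk' L (y * j u) = 1
  rw [map_mul, hu, mul_inv_cancel]

end H38T8
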