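import Pool.Agent.H38.T8.Ud
import Pool.Agent.H38.T8.Uc
import Pool.Agent.H38.T8.Qa

/-!
Elements of relative norm one congruent to one modulo `3 s` are locally cubes (MP_78d38b_T8, helper38).
-/

set_option autoImplicit false
set_option linter.unusedSectionVars false
open scoped Classical

open IsDedekindDomain NumberField WithZero Pool.Agent.H10 H55T3 H38T6 H86T3

namespace H38T8

theorem cube3g {F : Type*} [Field F] {V : Valuation F (WithZero (Multiplicative ℤ))}
    (hV : Hens3 V) {k : Type*} [Field k] [Finite k] {ρ : V.integer →+* k}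
    (hρs : Function.Surjective ρ) (hρ : ∀ x : V.integer, ρ x = 0 ↔ V x < 1) (v3 : V 3 < 1)
    (v2 : V 2 = 1) {D : F} (vD : V D ≤ 1) (hns : ∀ X : F, 1 ≤ V (X ^ 2 - D)) {p r : F}
    (hpq : p ^ 2 + 3 * D * (3 * r) ^ 2 = 1) (vr : V r ≤ 1) :
    ∃ x y : F, Cube2 (-3 * D) p (3 * r) x y := by
  have h3k : (3 : k) = 0 := by
    have h := (hρ (3 : V.integer)).2 v3
    rwa [map_ofNat] at h
  obtain ⟨D', hD'⟩ : ∃ D' : V.integer, (D' : F) = D := ⟨⟨D, vD⟩, rfl⟩
  obtain ⟨r', hr'⟩ : ∃ r' : V.integer, (r' : F) = r := ⟨⟨r, vr⟩, rfl⟩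
  -- an approximate root
  have hinj : Function.Injective (fun t : k => t - ρ D' * t ^ 3) := by
    intro t t' h
    have h1 : t - ρ D' * t ^ 3 = t' - ρ D' * t' ^ 3 := h
    by_contra hne
    have h2 : t - t' ≠ 0 := sub_ne_zero.2 hne
    have h3 : (t - t') * (1 - ρ D' * (t - t') ^ 2) = 0 := by
      linear_combination h1 + ρ D' * t * t' * (t - t') * h3k
    rcases mul_eq_zero.1 h3 with h4 | h4
    · exact h2 h4
    · obtain ⟨X, hX⟩ := hρs ((t - t')⁻¹)
      have h5 : ρ (X ^ 2 - D') = 0 := by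
        rw [map_sub, map_pow, hX, inv_pow]
        field_simp
        linear_combination h4
      have h6 := (hρ _).1 h5
      have h7 : ((X ^ 2 - D' : V.integer) : F) = (X : F) ^ 2 - D := by rw [← hD']; rfl
      rw [h7] at h6
      exact absurd h6 (not_lt.2 (hns _))
  obtain ⟨t, ht⟩ := (Finite.injective_iff_surjective.1 hinj) (ρ r')
  obtain ⟨Y, hY⟩ := hρs t
  have vY : V (Y : F) ≤ 1 := Y.2
  have hY1 : V ((Y : F) - D * (Y : F) ^ 3 - r) < 1 := by
    have h5 : ρ (Y - D' * Y ^ 3 - r') = 0 := by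
      rw [map_sub, map_sub, map_mul, map_pow, hY, ← ht]
      ring
    have h6 := (hρ _).1 h5
    have h7 : ((Y - D' * Y ^ 3 - r' : V.integer) : F) = (Y : F) - D * (Y : F) ^ 3 - r := by
      rw [← hD', ← hr']; rfl
    rwa [h7] at h6
  have v4 : V (4 : F) = 1 := by
    have : (4 : F) = 2 * 2 := by norm_num
    rw [this, map_mul, v2, one_mul]
  have v3DY : V (3 * (D * (Y : F) ^ 3)) < 1 := by
    rw [map_mul]
    refine mul_lt_one_of_nonneg_of_lt_one_left zero_le v3 ?_
    rw [map_mul, map_pow]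
    exact mul_le_one' vD (pow_le_one' vY 3)
  have hY4 : V ((Y : F) - 4 * D * (Y : F) ^ 3 - r) < 1 := by
    have e : (Y : F) - 4 * D * (Y : F) ^ 3 - r = ((Y : F) - D * (Y : F) ^ 3 - r) -
        3 * (D * (Y : F) ^ 3) := by ring
    rw [e]
    exact lt_of_le_of_lt (V.map_sub _ _) (max_lt hY1 v3DY)
  have v12 : V (12 * D * (Y : F) ^ 2) < 1 := by
    have : (12 : F) * D * (Y : F) ^ 2 = 3 * (4 * (D * (Y : F) ^ 2)) := by ring
    rw [this, map_mul]
    refine mul_lt_one_of_nonneg_of_lt_one_left zero_le v3 ?_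
    rw [map_mul, v4, one_mul, map_mul, map_pow]
    exact mul_le_one' vD (pow_le_one' vY 2)
  obtain ⟨z, vz, hz⟩ := hV ((Y : F) - 4 * D * (Y : F) ^ 3 - r) (1 - 12 * D * (Y : F) ^ 2)
    (-(12 * D * (Y : F))) (-(4 * D)) hY4
    (by
      rw [Valuation.map_sub_eq_of_lt_left, map_one]
      rw [map_one]
      exact v12)
    (by
      have : (12 : F) * D * (Y : F) = 3 * (4 * (D * (Y : F))) := by ring
      rw [Valuation.map_neg, this, map_mul, map_mul, map_mul, v4, one_mul]
      exact mul_le_one' v3.le (mul_le_one' vD vY))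
    (by rw [Valuation.map_neg, map_mul, v4, one_mul]; exact vD)
  obtain ⟨y, hy⟩ : ∃ y, y = (Y : F) + z := ⟨_, rfl⟩
  have hy1 : y - 4 * D * y ^ 3 = r := by
    rw [hy]
    linear_combination hz
  have vy : V y ≤ 1 := by
    rw [hy]
    exact (Valuation.map_add _ _ _).trans (max_le vY vz.le)
  obtain ⟨x₀, -, hx₀⟩ := lg_sqrt hV v2 (x := -(3 * (D * y ^ 2))) (by
    rw [Valuation.map_neg, map_mul]
    refine mul_lt_one_of_nonneg_of_lt_one_left zero_le v3 ?_
    rw [map_mul, map_pow]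
    exact mul_le_one' vD (pow_le_one' vy 2))
  obtain ⟨x, hx⟩ : ∃ x, x = 1 + x₀ := ⟨_, rfl⟩
  rw [← hx] at hx₀
  have hq : (3 * r) = 3 * x ^ 2 * y + (-3 * D) * y ^ 3 := by
    rw [← hx₀, ← hy1]
    ring
  have hp2 : p ^ 2 = (x ^ 3 + 3 * (-3 * D) * x * y ^ 2) ^ 2 := by
    have h5 : (x ^ 3 + 3 * (-3 * D) * x * y ^ 2) ^ 2 + 3 * D * (3 * x ^ 2 * y + (-3 * D) * y ^ 3) ^ 2 =
        (x ^ 2 + 3 * D * y ^ 2) ^ 3 := by ring
    rw [← hq, ← hx₀] at h5
    linear_combination hpq - h5
  rcases sq_eq_sq_iff_eq_or_eq_neg.1 hp2 with h6 | h6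
  · exact ⟨x, y, h6, hq⟩
  · refine ⟨-x, y, ?_, ?_⟩
    · rw [h6]
      ring
    · rw [hq]
      ring

theorem lc3_g {k N B : Type} [Field k] [NumberField k] [Field N] [NumberField N] [Algebra k N]
    [IsGalois ℚ N] (hodd : Odd (Module.finrank ℚ N)) [Field B] [NumberField B] [Algebra k B]
    {D : ℤ} (hD : D % 3 = 2) {s : B} (hs : s ^ 2 = ((-3 * D : ℤ) : B)) {p r : k}
    (hpq : p ^ 2 + 3 * D * (3 * r) ^ 2 = 1) (hr : Z3 1 r) :
    LC3 (algebraMap k B p + algebraMap k B (3 * r) * s) := by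
  have hv : ∀ w : HeightOneSpectrum (𝓞 k), (3 : 𝓞 k) ∈ w.asIdeal →
      (Valued.v (3 : w.adicCompletion k) : WithZero (Multiplicative ℤ)) < 1 := by
    intro w hw
    rw [valued_ofNat w 3]
    exact val_three_lt w hw
  refine lc3_of_loc hs ?_ ?_ ?_
  · by_contra hcon
    push Not at hcon
    rw [hcon.1, hcon.2] at hpq
    norm_num at hpq
  · intro w hw z hz
    have hch : CharZero (w.adicCompletion k) := Pool.Agent.H10.charZero_of_alg (K := k)
    have h3D : ¬ (3 : ℤ) ∣ D := by omega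
    have h1 : (Valued.v (z ^ 2) : WithZero (Multiplicative ℤ)) =
        w.valuation k ((3 : ℕ) : k) := by
      rw [hz]
      push_cast
      rw [map_mul, Valuation.map_neg, v_one (hv w hw) h3D, mul_one, valued_ofNat w 3]
    have h5 := odd_log (K := k) (N := N) hodd Nat.prime_three w (by exact_mod_cast hw)
    rw [← h1, map_pow, log_pow] at h5
    obtain ⟨c, hc⟩ := h5
    rw [nsmul_eq_mul] at hc
    push_cast at hc
    omega
  · intro w hw
    have hch : CharZero (w.adicCompletion k) := Pool.Agent.H10.charZero_of_alg (K := k)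
    have h2 : (Valued.v (2 : w.adicCompletion k) : WithZero (Multiplicative ℤ)) = 1 := by
      have := v_one (F := w.adicCompletion k) (hv w hw) (n := 2) (by norm_num)
      exact_mod_cast this
    obtain ⟨k', _, _, ρ, hρs, hρ⟩ := Lc_resid w
    have vr : (Valued.v (algebraMap k (w.adicCompletion k) r) : WithZero (Multiplicative ℤ)) ≤ 1 := by
      rw [valued_algebraMap]
      have := hr w hw
      rwa [map_one] at this
    have hpq' : (algebraMap k (w.adicCompletion k) p) ^ 2 + 3 * (D : w.adicCompletion k) *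
        (3 * algebraMap k (w.adicCompletion k) r) ^ 2 = 1 := by
      have := congrArg (algebraMap k (w.adicCompletion k)) hpq
      simp only [map_add, map_mul, map_pow, map_ofNat, map_intCast, map_one] at this
      exact this
    obtain ⟨x, y, hxy⟩ := cube3g
      (V := (Valued.v : Valuation (w.adicCompletion k) (WithZero (Multiplicative ℤ))))
      (ad_hens w) hρs hρ (hv w hw) h2 (v_int D)
      (fun X => no_sqrt_loc (N := N) hodd hD w hw X) hpq' vr
    refine ⟨x, y, ?_⟩
    have e1 : algebraMap k (w.adicCompletion k) (3 * r) =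
        3 * algebraMap k (w.adicCompletion k) r := by
      rw [map_mul, map_ofNat]
    have e2 : ((-3 * D : ℤ) : w.adicCompletion k) = -3 * (D : w.adicCompletion k) := by
      push_cast
      rfl
    rw [e1, e2]
    exact hxy

end H38T8
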