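import Pool.Agent.H38.T8.Ue

/-!
Elements of relative norm one modulo those which are locally cubes at three: the count
(MP_78d38b_T8, helper38).
-/

set_option autoImplicit false
set_option linter.unusedSectionVars false
open scoped Classical

open IsDedekindDomain NumberField WithZero Pool.Agent.H10 H55T3 H38T6 H86T3

namespace H38T8

/-- `B = k(s)`, `s ^ 2 = -3 D`, valuations above three invariant under conjugation -/
structure Qd (D : ℤ) (k B : Type) [Field k] [NumberField k] [Field B] [NumberField B] [Algebra k B]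
    (s : B) (g : B ≃ₐ[k] B) : Prop where
  s2 : s ^ 2 = ((-3 * D : ℤ) : B)
  gs : g s = -s
  gg : ∀ y, g (g y) = y
  span : ∀ x : B, ∃ u v : k, x = algebraMap k B u + algebraMap k B v * s
  vg : ∀ W : HeightOneSpectrum (𝓞 B), (3 : 𝓞 B) ∈ W.asIdeal → ∀ x,
    W.valuation B (g x) = W.valuation B x
  D3 : D % 3 = 2

section

variable {D : ℤ} {k B : Type} [Field k] [NumberField k] [Field B] [NumberField B] [Algebra k B]
  {s : B} {g : B ≃ₐ[k] B}

/-- elements of relative norm one -/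
def Mg (g : B ≃ₐ[k] B) : Subgroup Bˣ where
  carrier := {y | g (y : B) * (y : B) = 1}
  mul_mem' := by
    intro x y hx hy
    change g ((x * y : Bˣ) : B) * ((x * y : Bˣ) : B) = 1
    have hx' : g (x : B) * (x : B) = 1 := hx
    have hy' : g (y : B) * (y : B) = 1 := hy
    rw [Units.val_mul, map_mul]
    linear_combination g (x : B) * (x : B) * hy' + hx'
  one_mem' := by
    change g ((1 : Bˣ) : B) * ((1 : Bˣ) : B) = 1
    rw [Units.val_one, map_one, mul_one]
  inv_mem' := by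
    intro x hx
    change g ((x⁻¹ : Bˣ) : B) * ((x⁻¹ : Bˣ) : B) = 1
    rw [Units.val_inv_eq_inv_val, map_inv₀, ← mul_inv]
    rw [hx, inv_one]

lemma mem_Mg {y : Bˣ} : y ∈ Mg g ↔ g (y : B) * (y : B) = 1 := Iff.rfl

lemma Mg_inv {y : Bˣ} (h : y ∈ Mg g) : ((y⁻¹ : Bˣ) : B) = g (y : B) := by
  rw [mem_Mg] at h
  rw [Units.val_inv_eq_inv_val]
  exact inv_eq_of_mul_eq_one_left h

section

variable (Q : Qd D k B s g)

include Q

lemma Qd.v3 {W : HeightOneSpectrum (𝓞 B)} (hW : (3 : 𝓞 B) ∈ W.asIdeal) :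
    W.valuation B 3 = W.valuation B s ^ 2 := by
  have h3 : ¬ (3 : ℤ) ∣ D := by
    have := Q.D3
    omega
  rw [← map_pow, Q.s2]
  push_cast
  rw [map_mul, Valuation.map_neg, val_int_one W hW h3, mul_one]

lemma Qd.s0 : s ≠ 0 := by
  rintro rfl
  have h := Q.s2
  rw [zero_pow two_ne_zero] at h
  have h1 : (-3 * D : ℤ) = 0 := by exact_mod_cast h.symm
  have := Q.D3
  omega

lemma Qd.one {W : HeightOneSpectrum (𝓞 B)} (hW : (3 : 𝓞 B) ∈ W.asIdeal) {y : B}
    (hy : g y * y = 1) : W.valuation B y = 1 := by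
  have h1 := congrArg (W.valuation B) hy
  rw [map_mul, Q.vg W hW, map_one, ← pow_two] at h1
  exact (pow_left_inj₀ zero_le zero_le two_ne_zero).1 (by rw [h1, one_pow])

lemma Qd.z1 {y : B} (hy : g y * y = 1) : Z3 1 y := fun W hW => by
  rw [Q.one hW hy, map_one]

lemma Qd.gz {c x : B} (h : Z3 c x) : Z3 c (g x) := fun W hW => by
  rw [Q.vg W hW]
  exact h W hW

lemma Qd.norm {p q : k} (h : g (algebraMap k B p + algebraMap k B q * s) *
    (algebraMap k B p + algebraMap k B q * s) = 1) : p ^ 2 + 3 * D * q ^ 2 = 1 := by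
  apply (algebraMap k B).injective
  have hs := Q.s2
  push_cast at hs
  rw [map_one, ← h, map_add g, map_mul g, g.commutes, g.commutes, Q.gs]
  simp only [map_add, map_mul, map_pow, map_intCast, map_ofNat]
  linear_combination (algebraMap k B q) ^ 2 * hs

end

/-- the congruence subgroups -/
def Ug (Q : Qd D k B s g) (c : B) : Subgroup (Mg g) where
  carrier := {y | Z3 c (((y : Bˣ) : B) - 1)}
  mul_mem' := by
    intro x y hx hy
    have h1 : ((((x * y : Mg g) : Bˣ) : B) - 1) = ((((x : Bˣ) : B) - 1) * ((y : Bˣ) : B)) +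
        (((y : Bˣ) : B) - 1) := by
      rw [Subgroup.coe_mul, Units.val_mul]
      ring
    change Z3 c ((((x * y : Mg g) : Bˣ) : B) - 1)
    rw [h1]
    exact (Z3.mul_one hx (Q.z1 y.2)).add hy
  one_mem' := by
    change Z3 c ((((1 : Mg g) : Bˣ) : B) - 1)
    rw [Subgroup.coe_one, Units.val_one, sub_self]
    intro W _
    rw [map_zero]
    exact zero_le
  inv_mem' := by
    intro x hx
    change Z3 c ((((x⁻¹ : Mg g) : Bˣ) : B) - 1)
    rw [Subgroup.coe_inv]
    have h1 : (((x : Bˣ)⁻¹ : Bˣ) : B) - 1 = -((((x : Bˣ) : B) - 1) * (((x : Bˣ)⁻¹ : Bˣ) : B)) := by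
      have h2 : ((x : Bˣ) : B) * (((x : Bˣ)⁻¹ : Bˣ) : B) = 1 := Units.mul_inv _
      linear_combination h2
    rw [h1]
    exact (Z3.mul_one hx (Q.z1 ((Mg g).inv_mem x.2))).neg

lemma mem_Ug {Q : Qd D k B s g} {c : B} {y : Mg g} : y ∈ Ug Q c ↔ Z3 c (((y : Bˣ) : B) - 1) :=
  Iff.rfl

/-- locally cubes -/
def Lg (g : B ≃ₐ[k] B) : Subgroup (Mg g) where
  carrier := {y | LC3 ((y : Bˣ) : B)}
  mul_mem' := by
    intro x y hx hy
    change LC3 (((x * y : Mg g) : Bˣ) : B)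
    rw [Subgroup.coe_mul, Units.val_mul]
    exact Gd_lmul hx hy
  one_mem' := by
    change LC3 (((1 : Mg g) : Bˣ) : B)
    rw [Subgroup.coe_one, Units.val_one]
    have := Gd_lcube (one_ne_zero (α := B))
    rwa [one_pow] at this
  inv_mem' := by
    intro x hx
    change LC3 (((x⁻¹ : Mg g) : Bˣ) : B)
    rw [Subgroup.coe_inv, Mg_inv x.2]
    exact Gd_lconj (g.restrictScalars ℚ) hx

lemma mem_Lg {y : Mg g} : y ∈ Lg g ↔ LC3 ((y : Bˣ) : B) := Iff.rfl

variable (Q : Qd D k B s g)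

include Q

lemma Lg_cube (y : Mg g) : y ^ 3 ∈ Lg g := by
  rw [mem_Lg, Subgroup.coe_pow, Units.val_pow_eq_pow_val]
  exact Gd_lcube (Units.ne_zero _)

/-- cubes in the smaller congruence subgroup -/
lemma Ug_cube (y : Mg g) (h : y ^ 3 ∈ Ug Q (3 * s)) : y ∈ Ug Q s := by
  rw [mem_Ug, Subgroup.coe_pow, Units.val_pow_eq_pow_val] at h
  rw [mem_Ug]
  obtain ⟨Y, hY⟩ : ∃ Y, Y = ((y : Bˣ) : B) := ⟨_, rfl⟩
  have hyn : g Y * Y = 1 := by rw [hY]; exact y.2
  rw [← hY] at h ⊢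
  intro W hW
  have h1 := h W hW
  have v3 := Q.v3 hW
  by_contra hcon
  rw [not_le] at hcon
  obtain ⟨C, hC⟩ : ∃ C, C = W.valuation B s := ⟨_, rfl⟩
  obtain ⟨X, hX⟩ : ∃ X, X = W.valuation B (Y - 1) := ⟨_, rfl⟩
  rw [← hC, ← hX] at hcon
  have hX0 : 0 < X := lt_of_le_of_lt zero_le hcon
  have hX1 : X ≤ 1 := by
    rw [hX]
    refine (Valuation.map_sub _ _ _).trans (max_le ?_ (by rw [map_one]))
    rw [Q.one hW hyn]
  have e1 : Y ^ 3 - 1 = (Y - 1) ^ 3 + (3 * (Y - 1) + 3 * (Y - 1) ^ 2) := by ring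
  have h2 : W.valuation B (3 * (Y - 1) + 3 * (Y - 1) ^ 2) < W.valuation B ((Y - 1) ^ 3) := by
    have h3 : C ^ 2 * X < X ^ 3 := by
      have h4 : C ^ 2 < X ^ 2 := pow_lt_pow_left₀ hcon zero_le two_ne_zero
      calc C ^ 2 * X < X ^ 2 * X := mul_lt_mul_of_pos_right h4 hX0
        _ = X ^ 3 := (pow_succ X 2).symm
    refine lt_of_le_of_lt (Valuation.map_add _ _ _) (max_lt ?_ ?_)
    · rw [map_mul, map_pow, v3, ← hC, ← hX]
      exact h3
    · rw [map_mul, map_pow, map_pow, v3, ← hC, ← hX]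
      refine lt_of_le_of_lt ?_ h3
      refine mul_le_mul_right ?_ _
      rw [pow_two]
      exact mul_le_of_le_one_left' hX1
  rw [e1, Valuation.map_add_eq_of_lt_left _ h2, map_pow, map_mul, v3, ← hC, ← hX] at h1
  have h5 : C ^ 3 < X ^ 3 := pow_lt_pow_left₀ hcon zero_le three_ne_zero
  have h6 : C ^ 2 * C = C ^ 3 := (pow_succ C 2).symm
  rw [h6] at h1
  exact absurd h1 (not_le.2 h5)

end

end H38T8
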