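import Pool.Agent.H38.T8.Uf

/-!
Coordinates of elements of relative norm one (MP_78d38b_T8, helper38).
-/

set_option autoImplicit false
set_option linter.unusedSectionVars false
open scoped Classical

open IsDedekindDomain NumberField WithZero Pool.Agent.H10 H55T3 H38T6 H86T3

namespace H38T8

lemma mem3_iff {k B : Type} [Field k] [NumberField k] [Field B] [NumberField B] [Algebra k B]
    {w : HeightOneSpectrum (𝓞 k)} {W : HeightOneSpectrum (𝓞 B)} (h : Ov k B w W) :
    (3 : 𝓞 k) ∈ w.asIdeal ↔ (3 : 𝓞 B) ∈ W.asIdeal := by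
  obtain ⟨-, -, -, -, hm⟩ := ov_val h
  have := hm 3
  exact_mod_cast this

lemma z3_map {k B : Type} [Field k] [NumberField k] [Field B] [NumberField B] [Algebra k B]
    {c x : k} : Z3 (algebraMap k B c) (algebraMap k B x) ↔ Z3 c x := by
  constructor
  · intro h w hw
    obtain ⟨W, hW⟩ := ov_above (K := B) w
    obtain ⟨e, he, -, hval, -⟩ := ov_val hW
    have h1 := h W ((mem3_iff hW).1 hw)
    rw [hval, hval] at h1
    exact (pow_le_pow_iff_left₀ zero_le zero_le (by omega)).1 h1
  · intro h W hW
    obtain ⟨w, hw⟩ := ov_below (k := k) W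
    obtain ⟨e, he, -, hval, -⟩ := ov_val hw
    have h1 := h w ((mem3_iff hw).2 hW)
    rw [hval, hval]
    exact pow_le_pow_left₀ zero_le h1 e

section

variable {k : Type} [Field k] [NumberField k]

/-- coordinates at three -/
def Cq (D : ℤ) (p q : k) : Prop :=
  Z3 1 q ∧ (∀ w : HeightOneSpectrum (𝓞 k), (3 : 𝓞 k) ∈ w.asIdeal → w.valuation k (p - 1) < 1) ∧
    p ^ 2 + 3 * D * q ^ 2 = 1

lemma val_two (w : HeightOneSpectrum (𝓞 k)) (hw : (3 : 𝓞 k) ∈ w.asIdeal) :
    w.valuation k (2 : k) = 1 := by
  have := val_int_one w hw (n := 2) (by norm_num)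
  exact_mod_cast this

lemma val_le (w : HeightOneSpectrum (𝓞 k)) {p : k} (h : w.valuation k (p - 1) < 1) :
    w.valuation k p ≤ 1 := by
  have e : p = (p - 1) + 1 := by ring
  rw [e]
  exact (Valuation.map_add _ _ _).trans (max_le h.le (by rw [map_one]))

/-- the product of two elements with congruent coordinates -/
lemma Cq.key {D : ℤ} {p q p' q' : k} (h : Cq D p q) (h' : Cq D p' q') (hq : Z3 3 (q - q')) :
    Z3 3 (p' * q - p * q') ∧ Z3 9 (p * p' + 3 * D * (q * q') - 1) := by
  obtain ⟨hq1, hp1, hn⟩ := h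
  obtain ⟨hq1', hp1', hn'⟩ := h'
  have hQ : Z3 3 (p' * q - p * q') := by
    intro w hw
    have e2 := val_two w hw
    have v3 := val_three_lt w hw
    have vD : w.valuation k (D : k) ≤ 1 := pc_le w D
    have e3 : w.valuation k (p + p') = 1 := by
      have e4 : p + p' = 2 + ((p - 1) + (p' - 1)) := by ring
      rw [e4, Valuation.map_add_eq_of_lt_left, e2]
      rw [e2]
      exact Valuation.map_add_lt _ (hp1 w hw) (hp1' w hw)
    have vq : w.valuation k q ≤ 1 := by
      have := hq1 w hw
      rwa [map_one] at this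
    have vq' : w.valuation k q' ≤ 1 := by
      have := hq1' w hw
      rwa [map_one] at this
    have vp' := val_le w (hp1' w hw)
    have e5 : w.valuation k (p' - p) ≤ w.valuation k 3 := by
      have e6 : (p' - p) * (p + p') = 3 * (D * ((q - q') * (q + q'))) := by
        linear_combination hn' - hn
      have e7 := congrArg (w.valuation k) e6
      rw [map_mul, e3, mul_one] at e7
      rw [e7, map_mul]
      refine mul_le_of_le_one_right' ?_
      rw [map_mul, map_mul]
      refine mul_le_one' vD (mul_le_one' ((hq w hw).trans v3.le) ?_)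
      exact (Valuation.map_add _ _ _).trans (max_le vq vq')
    have e8 : p' * q - p * q' = p' * (q - q') + q' * (p' - p) := by ring
    rw [e8]
    refine (Valuation.map_add _ _ _).trans (max_le ?_ ?_)
    · rw [map_mul]
      exact (mul_le_of_le_one_left' vp').trans (hq w hw)
    · rw [map_mul]
      exact (mul_le_of_le_one_left' vq').trans e5
  refine ⟨hQ, ?_⟩
  intro w hw
  have e2 := val_two w hw
  have v3 := val_three_lt w hw
  have vD : w.valuation k (D : k) ≤ 1 := pc_le w D
  have vq : w.valuation k q ≤ 1 := by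
    have := hq1 w hw
    rwa [map_one] at this
  have vq' : w.valuation k q' ≤ 1 := by
    have := hq1' w hw
    rwa [map_one] at this
  obtain ⟨P, hP⟩ : ∃ P, P = p * p' + 3 * D * (q * q') := ⟨_, rfl⟩
  obtain ⟨R, hR⟩ : ∃ R, R = p' * q - p * q' := ⟨_, rfl⟩
  have hPR : (P - 1) * (P + 1) = -(3 * (D * R ^ 2)) := by
    rw [hP, hR]
    linear_combination (p' ^ 2 + 3 * D * q' ^ 2) * hn + hn'
  have vR := hQ w hw
  rw [← hR] at vR
  have vP : w.valuation k (P - 1) < 1 := by
    have e3 : P - 1 = (p - 1) * p' + (p' - 1) + 3 * (D * (q * q')) := by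
      rw [hP]; ring
    rw [e3]
    refine Valuation.map_add_lt _ (Valuation.map_add_lt _ ?_ (hp1' w hw)) ?_
    · rw [map_mul]
      exact mul_lt_one_of_nonneg_of_lt_one_left zero_le (hp1 w hw) (val_le w (hp1' w hw))
    · rw [map_mul]
      refine mul_lt_one_of_nonneg_of_lt_one_left zero_le v3 ?_
      rw [map_mul, map_mul]
      exact mul_le_one' vD (mul_le_one' vq vq')
  have vP1 : w.valuation k (P + 1) = 1 := by
    have e3 : P + 1 = 2 + (P - 1) := by ring
    rw [e3, Valuation.map_add_eq_of_lt_left, e2]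
    rw [e2]
    exact vP
  rw [← hP]
  have e4 := congrArg (w.valuation k) hPR
  rw [map_mul, vP1, mul_one, Valuation.map_neg, map_mul, map_mul, map_pow] at e4
  rw [e4]
  have e9 : (9 : k) = 3 * 3 := by norm_num
  rw [e9, map_mul]
  refine mul_le_mul_right ?_ _
  refine (mul_le_of_le_one_left' vD).trans ?_
  rw [pow_two]
  exact (mul_le_of_le_one_left' (vR.trans v3.le)).trans vR

end

section

variable {D : ℤ} {k B : Type} [Field k] [NumberField k] [Field B] [NumberField B] [Algebra k B]
  {s : B} {g : B ≃ₐ[k] B} (Q : Qd D k B s g)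

include Q

lemma Qd.lt {W : HeightOneSpectrum (𝓞 B)} (hW : (3 : 𝓞 B) ∈ W.asIdeal) :
    W.valuation B s < 1 := by
  have h1 := val_three_lt W hW
  rw [Q.v3 hW] at h1
  exact (pow_lt_one_iff_of_nonneg zero_le two_ne_zero).1 h1

lemma Qd.coord {p q : k} (hy : g (algebraMap k B p + algebraMap k B q * s) *
    (algebraMap k B p + algebraMap k B q * s) = 1)
    (h : Z3 s (algebraMap k B p + algebraMap k B q * s - 1)) : Cq D p q := by
  have hgy : g (algebraMap k B p + algebraMap k B q * s) =
      algebraMap k B p - algebraMap k B q * s := by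
    rw [map_add, map_mul, g.commutes, g.commutes, Q.gs]
    ring
  obtain ⟨y, hyd⟩ : ∃ y, y = algebraMap k B p + algebraMap k B q * s := ⟨_, rfl⟩
  rw [← hyd] at h hy hgy
  have hg1 : Z3 s (g y - 1) := by
    have := Q.gz h
    rwa [map_sub, map_one] at this
  have hv2 : ∀ {c x : B}, Z3 c (2 * x) → Z3 c x := by
    intro c x hx W hW
    have := hx W hW
    rwa [map_mul, val_two W hW, one_mul] at this
  refine ⟨?_, ?_, ?_⟩
  · apply z3_map (B := B).1
    rw [map_one, ← z3_mul_iff Q.s0]
    apply hv2
    have e1 : 2 * (s * algebraMap k B q) = (y - 1) - (g y - 1) := by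
      rw [hgy, hyd]; ring
    rw [e1, mul_one]
    exact h.sub hg1
  · intro w hw
    obtain ⟨W, hW⟩ := ov_above (K := B) w
    obtain ⟨e, he, -, hval, -⟩ := ov_val hW
    have hW3 := (mem3_iff hW).1 hw
    have h1 : Z3 s (algebraMap k B (p - 1)) := by
      apply hv2
      have e1 : 2 * (algebraMap k B (p - 1)) = (y - 1) + (g y - 1) := by
        rw [hgy, hyd, map_sub, map_one]; ring
      rw [e1]
      exact h.add hg1
    have h2 := lt_of_le_of_lt (h1 W hW3) (Q.lt hW3)
    rw [hval] at h2
    exact (pow_lt_one_iff_of_nonneg zero_le (by omega)).1 h2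
  · apply Q.norm
    rw [← hyd]
    exact hy

end

end H38T8
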