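import Pool.Agent.H38.T8.Ug

/-!
Every element of relative norm one becomes locally a cube at three after multiplication by a unit
of relative norm one (MP_78d38b_T8, helper38).
-/

set_option autoImplicit false
set_option linter.unusedSectionVars false
open scoped Classical

open IsDedekindDomain NumberField WithZero Pool.Agent.H10 H55T3 H38T6 H86T3

namespace H38T8

lemma cube_one {F : Type*} [Field F] (nz : ∀ z : F, z ^ 2 + z + 1 ≠ 0) {x : F} (h : x ^ 3 = 1) :
    x = 1 := by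
  have h1 : (x - 1) * (x ^ 2 + x + 1) = 0 := by linear_combination h
  rcases mul_eq_zero.1 h1 with h2 | h2
  · exact sub_eq_zero.1 h2
  · exact absurd h2 (nz x)

lemma z3_nine {D : ℤ} {k B : Type} [Field k] [NumberField k] [Field B] [NumberField B]
    [Algebra k B] {s : B} {g : B ≃ₐ[k] B} (Q : Qd D k B s g) : Z3 (3 * s) (9 : B) := by
  intro W hW
  have e9 : (9 : B) = 3 * 3 := by norm_num
  rw [e9, map_mul, map_mul]
  refine mul_le_mul_right ?_ _
  rw [Q.v3 hW, pow_two]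
  exact mul_le_of_le_one_left' (Q.lt hW).le

section

variable {D : ℤ} {k B : Type} [Field k] [NumberField k] [Field B] [NumberField B] [Algebra k B]
  {s : B} {g : B ≃ₐ[k] B} (Q : Qd D k B s g)

lemma exists_coords (Q : Qd D k B s g) : ∃ cp cq : Mg g → k, ∀ y : Mg g,
    ((y : Bˣ) : B) = algebraMap k B (cp y) + algebraMap k B (cq y) * s := by
  have h : ∀ y : Mg g, ∃ u v : k, ((y : Bˣ) : B) = algebraMap k B u + algebraMap k B v * s :=
    fun y => Q.span _
  choose cp cq h using h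
  exact ⟨cp, cq, h⟩

theorem fin_M3 : Finite (Mg g ⧸ Ug Q (3 * s)) := by
  have hX : Finite (𝓞 B ⧸ Ideal.span {((3 : 𝓞 B) ^ 2)}) := by
    apply Nat.finite_of_card_ne_zero
    rw [card_span]
    positivity
  have h : ∀ y : Mg g, ∃ a : 𝓞 B, Z3 9 (((y : Bˣ) : B) - (a : B)) := fun y =>
    int_rep (Q.z1 y.2)
  choose a ha using h
  refine Finite.of_injective (fun q : Mg g ⧸ Ug Q (3 * s) =>
    Ideal.Quotient.mk (Ideal.span {((3 : 𝓞 B) ^ 2)}) (a q.out)) ?_
  intro q q' hqq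
  have h1 : a q.out - a q'.out ∈ Ideal.span {((3 : 𝓞 B) ^ 2)} := Ideal.Quotient.eq.1 hqq
  rw [Ideal.mem_span_singleton] at h1
  obtain ⟨c, hc⟩ := h1
  have h2 : Z3 9 (((q.out : Bˣ) : B) - ((q'.out : Bˣ) : B)) := by
    have e1 : ((q.out : Bˣ) : B) - ((q'.out : Bˣ) : B) =
        (((q.out : Bˣ) : B) - (a q.out : B)) - (((q'.out : Bˣ) : B) - (a q'.out : B)) +
        9 * (c : B) := by
      have e2 : ((a q.out : 𝓞 B) : B) - ((a q'.out : 𝓞 B) : B) = 9 * (c : B) := by
        have := congrArg (algebraMap (𝓞 B) B) hc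
        rw [map_sub, map_mul, map_pow, map_ofNat] at this
        rw [this]
        norm_num
      linear_combination e2
    rw [e1]
    exact ((ha _).sub (ha _)).add ((Z3.self 9).mul_one (Z3.int c))
  have h3 : q.out / q'.out ∈ Ug Q (3 * s) := by
    rw [mem_Ug]
    have e1 : (((q.out / q'.out : Mg g) : Bˣ) : B) - 1 =
        (((q.out : Bˣ) : B) - ((q'.out : Bˣ) : B)) * ((((q'.out : Bˣ)⁻¹ : Bˣ)) : B) := by
      rw [Subgroup.coe_div, div_eq_mul_inv, Units.val_mul, sub_mul]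
      rw [Units.mul_inv]
    rw [e1]
    exact (Z3.mul_one h2 (Q.z1 ((Mg g).inv_mem (q'.out).2))).trans (z3_nine Q)
  have h4 : (QuotientGroup.mk' (Ug Q (3 * s))) (q.out / q'.out) = 1 :=
    (QuotientGroup.eq_one_iff _).2 h3
  rw [map_div, div_eq_one] at h4
  have h5 : QuotientGroup.mk' (Ug Q (3 * s)) q.out = q := QuotientGroup.out_eq' q
  have h6 : QuotientGroup.mk' (Ug Q (3 * s)) q'.out = q' := QuotientGroup.out_eq' q'
  rw [h5, h6] at h4
  exact h4

include Q

theorem U3_le (N : Type) [Field N] [NumberField N] [Algebra k N] [IsGalois ℚ N]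
    (hodd : Odd (Module.finrank ℚ N)) : Ug Q (3 * s) ≤ Lg g := by
  intro y hy
  rw [mem_Ug] at hy
  rw [mem_Lg]
  obtain ⟨p, q, hpq⟩ := Q.span ((y : Bˣ) : B)
  have hn : g ((y : Bˣ) : B) * ((y : Bˣ) : B) = 1 := y.2
  rw [hpq] at hn hy ⊢
  have hgy : g (algebraMap k B p + algebraMap k B q * s) =
      algebraMap k B p - algebraMap k B q * s := by
    rw [map_add, map_mul, g.commutes, g.commutes, Q.gs]
    ring
  obtain ⟨Y, hY⟩ : ∃ Y, Y = algebraMap k B p + algebraMap k B q * s := ⟨_, rfl⟩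
  have hq : Z3 3 q := by
    apply z3_map (B := B).1
    rw [map_ofNat, ← z3_mul_iff Q.s0]
    have hg1 : Z3 (3 * s) (g Y - 1) := by
      rw [← hY] at hy
      have := Q.gz hy
      rwa [map_sub, map_one] at this
    have e1 : 2 * (s * algebraMap k B q) = (Y - 1) - (g Y - 1) := by
      rw [hY, hgy]; ring
    have h2 : Z3 (3 * s) (2 * (s * algebraMap k B q)) := by
      rw [e1]
      rw [← hY] at hy
      exact hy.sub hg1
    intro W hW
    have := h2 W hW
    rw [map_mul, val_two W hW, one_mul] at this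
    rw [mul_comm s 3]
    exact this
  have hr : Z3 1 (q / 3) := by
    rw [← z3_mul_iff (t := (3 : k)) (by norm_num), mul_one, mul_div_cancel₀ _ (by norm_num)]
    exact hq
  have hnn := Q.norm hn
  have e3 : q = 3 * (q / 3) := by field_simp
  rw [e3] at hnn ⊢
  exact lc3_g (N := N) hodd Q.D3 Q.s2 hnn hr

theorem count_L (N : Type) [Field N] [NumberField N] [Algebra k N] [IsGalois ℚ N]
    (hodd : Odd (Module.finrank ℚ N)) :
    Finite (Mg g ⧸ Lg g) ∧ Nat.card (Mg g ⧸ Lg g) ≤ 3 ^ (Module.finrank ℚ k) := by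
  have hX : Finite (𝓞 k ⧸ Ideal.span {((3 : 𝓞 k) ^ 1)}) := by
    apply Nat.finite_of_card_ne_zero
    rw [card_span]
    positivity
  obtain ⟨cp, cq, hc⟩ := exists_coords Q
  have h : ∀ q : k, ∃ a : 𝓞 k, Z3 1 q → Z3 9 (q - (a : k)) := by
    intro q
    by_cases hq : Z3 1 q
    · obtain ⟨a, ha⟩ := int_rep hq
      exact ⟨a, fun _ => ha⟩
    · exact ⟨0, fun h => absurd h hq⟩
  choose a ha using h
  have hlift : ∀ y ∈ Ug Q s, Cq D (cp y) (cq y) := by
    intro y hy
    rw [mem_Ug, hc y] at hy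
    apply Q.coord _ hy
    rw [← hc y]
    exact y.2
  have h1 := count_quot (Ug Q (3 * s)) (Ug Q s) (Lg g) (fin_M3 Q) (fun y hy => Ug_cube Q y hy)
    (fun y => Ideal.Quotient.mk (Ideal.span {((3 : 𝓞 k) ^ 1)}) (a (cq y))) ?_
    (U3_le Q N hodd) (fun y => Lg_cube Q y)
  · rw [card_span, pow_one] at h1
    exact h1
  intro y hy y' hy' hyy
  have h2 : a (cq y) - a (cq y') ∈ Ideal.span {((3 : 𝓞 k) ^ 1)} := Ideal.Quotient.eq.1 hyy
  rw [pow_one, Ideal.mem_span_singleton] at h2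
  obtain ⟨c, hcc⟩ := h2
  have hC := hlift y hy
  have hC' := hlift y' hy'
  have h39 : Z3 (3 : k) 9 := by
    have e9 : (9 : k) = 3 * ((3 : ℤ) : k) := by norm_num
    rw [e9]
    exact (Z3.self 3).mul_one (Z3.intCast 3)
  have hqq : Z3 3 (cq y - cq y') := by
    have e2 : ((a (cq y) : 𝓞 k) : k) - ((a (cq y') : 𝓞 k) : k) = 3 * (c : k) := by
      have := congrArg (algebraMap (𝓞 k) k) hcc
      rw [map_sub, map_mul, map_ofNat] at this
      exact this
    have e1 : cq y - cq y' = (cq y - (a (cq y) : k)) - (cq y' - (a (cq y') : k)) + 3 * (c : k) := by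
      linear_combination e2
    rw [e1]
    exact (((ha _ hC.1).trans h39).sub ((ha _ hC'.1).trans h39)).add
      ((Z3.self 3).mul_one (Z3.int c))
  obtain ⟨k1, k2⟩ := hC.key hC' hqq
  rw [mem_Ug]
  have hs := Q.s2
  push_cast at hs
  have e1 : (((y / y' : Mg g) : Bˣ) : B) - 1 =
      algebraMap k B (cp y * cp y' + 3 * D * (cq y * cq y') - 1) +
      algebraMap k B (cp y' * cq y - cp y * cq y') * s := by
    rw [Subgroup.coe_div, div_eq_mul_inv, Units.val_mul, Mg_inv y'.2, hc y, hc y', map_add g,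
      map_mul g, g.commutes, g.commutes, Q.gs]
    simp only [map_sub, map_add, map_mul, map_intCast, map_ofNat, map_one]
    linear_combination -(algebraMap k B (cq y) * algebraMap k B (cq y')) * hs
  rw [e1]
  refine Z3.add ?_ ?_
  · have h5 := (z3_map (B := B)).2 k2
    rw [map_ofNat] at h5
    exact h5.trans (z3_nine Q)
  · have h5 := (z3_map (B := B)).2 k1
    rw [map_ofNat] at h5
    exact h5.mul (Z3.self s)

/-- the adjustment by units -/
theorem adj (N : Type) [Field N] [NumberField N] [Algebra k N] [IsGalois ℚ N]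
    (hodd : Odd (Module.finrank ℚ N)) (hfin : Module.finrank k B = 2) (hk : Rl k) (hB : Rl B)
    (hfix : ∀ y, g y = y → ∃ x : k, algebraMap k B x = y) (nz : ∀ z : B, z ^ 2 + z + 1 ≠ 0)
    (hT : ∀ y : B, y ≠ 0 → g y * y = 1 →
      (∀ W : HeightOneSpectrum (𝓞 B), W.valuation B y = 1) → LC3 y → ∃ z, y = z ^ 3)
    {y : B} (hy : g y * y = 1) :
    ∃ u : B, g u * u = 1 ∧ (∀ W : HeightOneSpectrum (𝓞 B), W.valuation B u = 1) ∧
      LC3 (y * u) := by
  obtain ⟨h1, h2⟩ := count_L Q N hodd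
  obtain ⟨Θ, hΘ⟩ := theta_Eu Q.gg hfix hfin hk hB
  have hy0 : y ≠ 0 := by
    rintro rfl
    rw [mul_zero] at hy
    exact zero_ne_one hy
  let j : Eu g →* Mg g :=
    { toFun := fun u => ⟨Units.map (algebraMap (𝓞 B) B : 𝓞 B →* B) u, mem_Eu.1 u.2⟩
      map_one' := by
        apply Subtype.ext
        exact map_one _
      map_mul' := by
        intro u v
        apply Subtype.ext
        exact map_mul _ _ _ }
  have hj : ∀ u : Eu g, (((j u : Mg g) : Bˣ) : B) = (((u : (𝓞 B)ˣ) : 𝓞 B) : B) := fun _ => rfl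
  have hker : ∀ u : Eu g, j u ∈ Lg g → ∃ z : Eu g, u = z ^ 3 := by
    intro u hu
    rw [mem_Lg, hj] at hu
    obtain ⟨e, he⟩ : ∃ e : (𝓞 B)ˣ, e = u := ⟨_, rfl⟩
    rw [← he] at hu
    have heu : g ((e : 𝓞 B) : B) * ((e : 𝓞 B) : B) = 1 := by
      rw [he]
      exact mem_Eu.1 u.2
    have he0 : ((e : 𝓞 B) : B) ≠ 0 := RingOfIntegers.coe_ne_zero_iff.mpr e.ne_zero
    obtain ⟨z, hz⟩ := hT _ he0 heu (fun W => unit_val e W) hu
    have hz0 : z ≠ 0 := by
      rintro rfl
      rw [zero_pow three_ne_zero] at hz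
      exact he0 hz
    have hint : IsIntegral ℤ z := by
      apply IsIntegral.of_pow (n := 3) (by norm_num)
      rw [← hz]
      exact (e : 𝓞 B).2
    obtain ⟨w, hwd⟩ : ∃ w : 𝓞 B, (w : B) = z := ⟨⟨_, hint⟩, rfl⟩
    have hw3 : w ^ 3 = (e : 𝓞 B) := by
      have h1 : ((w ^ 3 : 𝓞 B) : B) = ((e : 𝓞 B) : B) := by
        rw [hz, ← hwd]
        rfl
      exact RingOfIntegers.coe_injective h1
    have hwu : IsUnit w := by
      apply isUnit_of_mul_isUnit_left (y := w ^ 2)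
      have h1 : w * w ^ 2 = (e : 𝓞 B) := by rw [← hw3]; ring
      rw [h1]
      exact e.isUnit
    obtain ⟨f, hf⟩ := hwu
    have hfg : g ((f : 𝓞 B) : B) * ((f : 𝓞 B) : B) = 1 := by
      apply cube_one nz
      rw [hf, hwd, mul_pow, ← map_pow, ← hz]
      exact heu
    refine ⟨⟨f, mem_Eu.2 hfg⟩, ?_⟩
    apply Subtype.ext
    rw [Subgroup.coe_pow, ← he]
    apply Units.ext
    rw [Units.val_pow_eq_pow_val, hf, hw3]
  obtain ⟨u, hu⟩ := surj_quot (Lg g) h1 h2 j Θ hΘ hker ⟨Units.mk0 y hy0, hy⟩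
  refine ⟨(((u : (𝓞 B)ˣ) : 𝓞 B) : B), mem_Eu.1 u.2, fun W => unit_val _ W, ?_⟩
  rw [mem_Lg] at hu
  exact hu

end

end H38T8
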