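import Pool.Agent.H38.T8.Uh

/-!
The class attached to a split place (MP_78d38b_T8, helper38).
-/

set_option autoImplicit false
set_option linter.unusedSectionVars false
open scoped Classical

open IsDedekindDomain NumberField WithZero Pool.Agent.H10 H55T3 H38T6 H86T3

namespace H38T8

section

variable {k B : Type} [Field k] [NumberField k] [Field B] [NumberField B] [Algebra k B]

/-- a split place is not fixed by the conjugation -/
lemma split_ne {s : B} {g : B ≃ₐ[k] B} (gs : g s = -s) {δ : ℤ} (hs : s ^ 2 = (δ : B)) {q : ℕ}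
    (hq : q.Prime) (hq2 : q ≠ 2) (hsp : ¬ NonSplit q δ) {V : HeightOneSpectrum (𝓞 B)}
    (hV : (q : 𝓞 B) ∈ V.asIdeal) : ∃ x : B, V.valuation B (g x) ≠ V.valuation B x := by
  by_contra hcon
  push Not at hcon
  unfold NonSplit at hsp
  push Not at hsp
  obtain ⟨t, ht, hqt⟩ := hsp
  have vq : V.valuation B (q : B) < 1 := by
    have := pc_lt V (n := (q : ℤ)) (by exact_mod_cast hV)
    exact_mod_cast this
  have v2t : V.valuation B ((2 * t : ℤ) : B) = 1 := by
    apply pc_one V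
    apply pc_notMem V hq hV
    intro h
    rcases (Nat.prime_iff_prime_int.1 hq).dvd_or_dvd h with h6 | h6
    · apply hq2
      have h7 : q ∣ 2 := by exact_mod_cast h6
      exact (Nat.prime_dvd_prime_iff_eq hq Nat.prime_two).1 h7
    · exact hqt h6
  have h1 : (s - (t : B)) * (s + (t : B)) = ((δ - t ^ 2 : ℤ) : B) := by
    push_cast
    rw [← hs]
    ring
  have h2 : V.valuation B ((s - (t : B)) * (s + (t : B))) < 1 := by
    rw [h1]
    apply pc_lt V
    exact pc_mem_of_dvd V ht (by exact_mod_cast hV)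
  have h3 : V.valuation B (s + (t : B)) = V.valuation B (s - (t : B)) := by
    rw [← hcon (s - (t : B)), map_sub, gs, map_intCast]
    have e : -s - (t : B) = -(s + (t : B)) := by ring
    rw [e, Valuation.map_neg]
  rw [map_mul, h3, ← pow_two] at h2
  have h4 : V.valuation B (s - (t : B)) < 1 := by
    exact (pow_lt_one_iff_of_nonneg zero_le two_ne_zero).1 h2
  have h5 : ((2 * t : ℤ) : B) = (s + (t : B)) - (s - (t : B)) := by
    push_cast
    ring
  rw [h5] at v2t
  have h6 : V.valuation B ((s + (t : B)) - (s - (t : B))) < 1 :=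
    lt_of_le_of_lt (Valuation.map_sub _ _ _) (max_lt (by rw [h3]; exact h4) h4)
  rw [v2t] at h6
  exact lt_irrefl _ h6

theorem exists_d {s : B} {g : B ≃ₐ[k] B} (gs : g s = -s) (gg : ∀ y, g (g y) = y) {δ : ℤ}
    (hs : s ^ 2 = (δ : B)) {q : ℕ} (hq : q.Prime) (hq2 : q ≠ 2) (hsp : ¬ NonSplit q δ)
    {v : HeightOneSpectrum (𝓞 k)} (hqv : (q : 𝓞 k) ∈ v.asIdeal)
    (nz : ∀ z : B, z ^ 2 + z + 1 ≠ 0) (L : B → Prop)
    (hL : ∀ y, g y * y = 1 → ∃ u, g u * u = 1 ∧
      (∀ W : HeightOneSpectrum (𝓞 B), W.valuation B u = 1) ∧ L (y * u)) :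
    ∃ d, d ≠ 0 ∧ g d * d = 1 ∧
      (∀ W : HeightOneSpectrum (𝓞 B), ¬ Ov k B v W → W.valuation B d = 1) ∧ L d ∧
      ∀ z, d ≠ z ^ 3 := by
  obtain ⟨V, hvV⟩ := ov_above (K := B) v
  obtain ⟨Vb, hVb, -⟩ := exists_conj (K := k) g V
  have hqV : (q : 𝓞 B) ∈ V.asIdeal := by
    obtain ⟨-, -, -, -, hm⟩ := ov_val hvV
    have := (hm q).1 (by exact_mod_cast hqv)
    exact_mod_cast this
  have hne : V ≠ Vb := by
    intro h
    obtain ⟨x, hx⟩ := split_ne gs hs hq hq2 hsp hqV
    apply hx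
    rw [hVb, ← h]
  have hvVb : Ov k B v Vb := by
    rw [ov_iff] at hvV ⊢
    intro x
    rw [hvV, ← hVb, g.commutes]
  have hconj : ∀ W : HeightOneSpectrum (𝓞 B), W ≠ Vb → ∃ W' : HeightOneSpectrum (𝓞 B),
      W' ≠ V ∧ ∀ x, W.valuation B (g x) = W'.valuation B x := by
    intro W hW
    obtain ⟨W', hW', -⟩ := exists_conj (K := k) g W
    refine ⟨W', ?_, hW'⟩
    rintro rfl
    apply hW
    apply place_ext
    intro y
    rw [← hVb y, ← hW' (g y), gg]
  have hex : ∃ n : ℕ, 0 < n ∧ ∃ x : B, x ≠ 0 ∧ g x * x = 1 ∧ V.valuation B x = exp (-(n : ℤ)) ∧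
      ∀ W : HeightOneSpectrum (𝓞 B), W ≠ V → W ≠ Vb → W.valuation B x = 1 := by
    obtain ⟨n, hn, x, hx0, hx⟩ := ca_gen V
    obtain ⟨h1, h2⟩ := ca_val hx
    have hxB : (x : B) ≠ 0 := RingOfIntegers.coe_ne_zero_iff.mpr hx0
    have hgx : g (x : B) ≠ 0 := (map_ne_zero_iff g g.injective).2 hxB
    refine ⟨n, hn, (x : B) / g (x : B), div_ne_zero hxB hgx, ?_, ?_, ?_⟩
    · rw [map_div₀, gg, div_mul_div_comm, mul_comm, div_self (mul_ne_zero hxB hgx)]
    · rw [map_div₀, h1, hVb, h2 Vb (Ne.symm hne), div_one]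
    · intro W hW hWb
      obtain ⟨W', hW', hval⟩ := hconj W hWb
      rw [map_div₀, h2 W hW, hval, h2 W' hW', div_one]
  obtain ⟨n, hnd⟩ : ∃ n, n = Nat.find hex := ⟨_, rfl⟩
  obtain ⟨hpos, x, hx0, hx1, hvx, hvx'⟩ := Nat.find_spec hex
  rw [← hnd] at hpos hvx
  obtain ⟨u, hu1, huv, hLu⟩ := hL x hx1
  have hu0 : u ≠ 0 := by
    rintro rfl
    rw [mul_zero] at hu1
    exact zero_ne_one hu1
  have hd0 : x * u ≠ 0 := mul_ne_zero hx0 hu0
  have hd1 : g (x * u) * (x * u) = 1 := by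
    rw [map_mul]
    linear_combination g u * u * hx1 + hu1
  refine ⟨x * u, hd0, hd1, ?_, hLu, ?_⟩
  · intro W hW
    rw [map_mul, huv, mul_one]
    apply hvx'
    · rintro rfl
      exact hW hvV
    · rintro rfl
      exact hW hvVb
  · intro z hz
    have hz0 : z ≠ 0 := by
      rintro rfl
      rw [zero_pow three_ne_zero] at hz
      exact hd0 hz
    have hVd : V.valuation B (x * u) = exp (-(n : ℤ)) := by
      rw [map_mul, huv, mul_one, hvx]
    have h3n : 3 ∣ n := by
      rw [hz, map_pow] at hVd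
      have h5 := congrArg log hVd
      rw [log_pow, log_exp, nsmul_eq_mul] at h5
      push_cast at h5
      omega
    obtain ⟨m, hm⟩ := h3n
    have hgz : g z * z = 1 := by
      apply cube_one nz
      rw [mul_pow, ← map_pow, ← hz]
      exact hd1
    have hmin := Nat.find_min' hex (m := m) ⟨by omega, z, hz0, hgz, ?_, ?_⟩
    · rw [← hnd] at hmin
      omega
    · have h5 : V.valuation B z ^ 3 = exp (-(m : ℤ)) ^ 3 := by
        rw [← map_pow, ← hz, hVd, hm, ← exp_nsmul]
        congr 1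
        simp only [nsmul_eq_mul]
        push_cast
        ring
      exact (pow_left_inj₀ zero_le zero_le three_ne_zero).1 h5
    · intro W hW hWb
      have h5 : W.valuation B z ^ 3 = 1 ^ 3 := by
        rw [← map_pow, ← hz, map_mul, huv, mul_one, hvx' W hW hWb, one_pow]
      exact (pow_left_inj₀ zero_le zero_le three_ne_zero).1 h5

end

end H38T8
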