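import Pool.Agent.H38.T8.Ui
import Pool.Agent.H38.T8.Pk

/-!
The quadratic extensions of the two fields (MP_78d38b_T8, helper38).
-/

set_option autoImplicit false
set_option linter.unusedSectionVars false
open scoped Classical

open WeierstrassCurve IsDedekindDomain NumberField WithZero Pool.Agent.H10 H55T3 H38T6 H86T3

namespace H38T8

/-- a quadratic extension -/
structure Qx (δ : ℤ) (k B : Type) [Field k] [NumberField k] [Field B] [NumberField B] [Algebra k B]
    (s : B) (g : B ≃ₐ[k] B) : Prop where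
  s2 : s ^ 2 = (δ : B)
  nsq : ∀ z : k, z ^ 2 ≠ (δ : k)
  gs : g s = -s
  gg : ∀ y, g (g y) = y
  fin : Module.finrank k B = 2
  span : ∀ x : B, ∃ u v : k, x = algebraMap k B u + algebraMap k B v * s

section

variable {δ : ℤ} {k B : Type} [Field k] [NumberField k] [Field B] [NumberField B] [Algebra k B]
  {s : B} {g : B ≃ₐ[k] B}

lemma qx_of (h2 : Module.finrank k B = 2) (hδ : ∀ z : k, z ^ 2 ≠ (δ : k)) (hs : s ^ 2 = (δ : B)) :
    ∃ g : B ≃ₐ[k] B, Qx δ k B s g := by
  obtain ⟨-, -, ⟨g, hg⟩, hco⟩ := quad_ext h2 hδ (s := s) (by rw [hs, map_intCast])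
  refine ⟨g, hs, hδ, hg, ?_, h2, hco⟩
  intro y
  obtain ⟨u, v, rfl⟩ := hco y
  rw [map_add, map_mul, g.commutes, g.commutes, hg, map_add, map_mul, g.commutes, g.commutes,
    map_neg, hg, neg_neg]

variable (X : Qx δ k B s g)

include X

lemma Qx.s0 : s ≠ 0 := by
  rintro rfl
  have h := X.s2
  rw [zero_pow two_ne_zero] at h
  have h1 : δ = 0 := by exact_mod_cast h.symm
  apply X.nsq 0
  rw [h1]
  simp

lemma Qx.uniq {u v u' v' : k} (h : algebraMap k B u + algebraMap k B v * s =
    algebraMap k B u' + algebraMap k B v' * s) : u = u' ∧ v = v' := by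
  have hv : v = v' := by
    by_contra hne
    have h1 : algebraMap k B (v - v') ≠ 0 :=
      (map_ne_zero_iff _ (algebraMap k B).injective).2 (sub_ne_zero.2 hne)
    have h2 : s = algebraMap k B ((u' - u) / (v - v')) := by
      rw [map_div₀, eq_div_iff h1, map_sub, map_sub]
      linear_combination h
    apply X.nsq ((u' - u) / (v - v'))
    apply (algebraMap k B).injective
    rw [map_pow, ← h2, X.s2, map_intCast]
  subst hv
  refine ⟨?_, rfl⟩
  apply (algebraMap k B).injective
  linear_combination h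

lemma Qx.fix {y : B} (h : g y = y) : ∃ x : k, algebraMap k B x = y := by
  obtain ⟨u, v, rfl⟩ := X.span y
  rw [map_add, map_mul, g.commutes, g.commutes, X.gs] at h
  have h1 : algebraMap k B v * s = 0 := by
    have h2 : (2 : B) * (algebraMap k B v * s) = 0 := by linear_combination -h
    rcases mul_eq_zero.1 h2 with h3 | h3
    · norm_num at h3
    · exact h3
  exact ⟨u, by rw [h1, add_zero]⟩

/-- the embedding of quadratic extensions -/
theorem Qx.emb {K C : Type} [Field K] [NumberField K] [Field C] [NumberField C] [Algebra k K]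
    [Algebra K C] {t : C} (ht : t ^ 2 = (δ : C)) : ∃ f : B →+* C, f s = t ∧
      ∀ x : k, f (algebraMap k B x) = algebraMap K C (algebraMap k K x) := by
  obtain ⟨i, hi⟩ : ∃ i : k →+* C, ∀ x, i x = algebraMap K C (algebraMap k K x) :=
    ⟨(algebraMap K C).comp (algebraMap k K), fun _ => rfl⟩
  choose a b hab using X.span
  have key : ∀ x u v, x = algebraMap k B u + algebraMap k B v * s →
      i (a x) + i (b x) * t = i u + i v * t := by
    intro x u v h
    obtain ⟨h1, h2⟩ := X.uniq ((hab x).symm.trans h)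
    rw [h1, h2]
  refine ⟨{ toFun := fun x => i (a x) + i (b x) * t
            map_one' := ?_, map_mul' := ?_, map_zero' := ?_, map_add' := ?_ }, ?_, ?_⟩
  · rw [key 1 1 0 (by rw [map_one, map_zero, zero_mul, add_zero]), map_one, map_zero, zero_mul,
      add_zero]
  · intro x y
    rw [key (x * y) (a x * a y + b x * b y * δ) (a x * b y + b x * a y)]
    · simp only [map_add, map_mul, map_intCast]
      linear_combination -(i (b x) * i (b y)) * ht
    · conv_lhs => rw [hab x, hab y]
      simp only [map_add, map_mul, map_intCast]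
      linear_combination (algebraMap k B (b x) * algebraMap k B (b y)) * X.s2
  · rw [key 0 0 0 (by rw [map_zero, zero_mul, add_zero]), map_zero, zero_mul, add_zero]
  · intro x y
    rw [key (x + y) (a x + a y) (b x + b y)]
    · simp only [map_add]
      ring
    · conv_lhs => rw [hab x, hab y]
      simp only [map_add]
      ring
  · change i (a s) + i (b s) * t = t
    rw [key s 0 1 (by rw [map_one, map_zero, one_mul, zero_add]), map_one, map_zero, one_mul,
      zero_add]
  · intro x
    change i (a (algebraMap k B x)) + i (b (algebraMap k B x)) * t = _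
    rw [key _ x 0 (by rw [map_zero, zero_mul, add_zero]), map_zero, zero_mul, add_zero, hi]

end

/-- the two quadratic extensions -/
structure Pg (δ : ℤ) (k K B C : Type) [Field k] [NumberField k] [Field K] [NumberField K]
    [Field B] [NumberField B] [Field C] [NumberField C] [Algebra k B] [Algebra K C] [Algebra B C]
    (v : HeightOneSpectrum (𝓞 k)) (s : B) (t : C) (g : B ≃ₐ[k] B) (κ : C ≃ₐ[K] C) : Prop where
  xB : Qx δ k B s g
  xC : Qx δ K C t κ
  st : algebraMap B C s = t
  κg : ∀ y, κ (algebraMap B C y) = algebraMap B C (g y)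
  down : ∀ (d : B) (z : C), algebraMap B C d = z ^ 3 → ∃ y : B, d = y ^ 3
  val : ∀ (d : B), (∀ W : HeightOneSpectrum (𝓞 B), ¬ Ov k B v W → W.valuation B d = 1) →
    ∀ W : HeightOneSpectrum (𝓞 C), (3 : ℤ) ∣ log (W.valuation C (algebraMap B C d))

theorem exists_pg {m : ℕ} {δ : ℤ} (hδ : ¬ IsSquare δ) (h3 : ¬ IsSquare (-3 * δ))
    {k K N B : Type} [Field k] [NumberField k] [Field K] [NumberField K] [Field N] [NumberField N]
    [Algebra K N] [IsGalois ℚ N] (hN : Module.finrank ℚ N = 3 ^ m) [Algebra k K]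
    {v : HeightOneSpectrum (𝓞 k)} (hv : ∀ w : HeightOneSpectrum (𝓞 K), Ov k K v w → ∀ x : k,
      (3 : ℤ) ∣ log (w.valuation K (algebraMap k K x)))
    [Field B] [NumberField B] [Algebra k B] {s : B} {g : B ≃ₐ[k] B} (X : Qx δ k B s g) :
    ∃ (C : Type) (_ : Field C) (_ : NumberField C) (_ : Algebra K C) (_ : Algebra B C) (t : C)
      (κ : C ≃ₐ[K] C), Pg δ k K B C v s t g κ := by
  obtain ⟨C, CN, iC, iC', iCN, iCN', a1, a2, a3, a4, a5, a6, t, κN, T⟩ := exists_tow m hδ K N hN
  have hns : ∀ z : K, z ^ 2 ≠ (δ : K) := by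
    intro z hz
    apply Ea_nonsq m hδ N hN (algebraMap K N z)
    rw [← map_pow, hz, map_intCast]
  obtain ⟨κ, Y⟩ := qx_of T.degB hns T.sq
  obtain ⟨f, hfs, hfk⟩ := X.emb (K := K) T.sq
  let iBC : Algebra B C := f.toAlgebra
  have hBC : ∀ y, algebraMap B C y = f y := fun _ => rfl
  refine ⟨C, iC, iC', a1, iBC, t, κ, X, Y, hfs, ?_, ?_, ?_⟩
  · intro y
    obtain ⟨u, v, rfl⟩ := X.span y
    rw [hBC, hBC, map_add, map_mul, hfk, hfk, hfs, map_add, map_mul, κ.commutes, κ.commutes,
      Y.gs, map_add, map_mul, g.commutes, g.commutes, X.gs, map_add, map_mul, hfk, hfk, map_neg,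
      hfs]
  · intro d z hz
    let iBN : Algebra B CN := ((algebraMap C CN).comp (algebraMap B C)).toAlgebra
    have hgal := T.galC
    have i2 : IsGalois B CN := IsGalois.tower_top_of_isGalois ℚ B CN
    have i3 : FiniteDimensional B CN := Module.Finite.of_restrictScalars_finite ℚ B CN
    refine cube_down (C := CN) (fun z => no_zeta h3 T z) (z := algebraMap C CN z) ?_
    rw [← map_pow, ← hz]
    rfl
  · intro d hd W
    obtain ⟨V, hV⟩ := ov_below (k := B) W
    obtain ⟨e, he, -, hval, -⟩ := ov_val hV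
    rw [hval, log_pow, nsmul_eq_mul]
    by_cases hvV : Ov k B v V
    · obtain ⟨e₀, he₀, he₀', hval₀, -⟩ := ov_val hvV
      rw [X.fin] at he₀'
      obtain ⟨w, hw⟩ := ov_below (k := K) W
      obtain ⟨e', -, -, hval', -⟩ := ov_val hw
      have hvw : Ov k K v w := by
        rw [ov_iff] at hvV hV hw ⊢
        intro x
        rw [hvV, hV, hw, hBC, hfk]
      obtain ⟨π, hπ⟩ := v.valuation_exists_uniformizer k
      have h1 := hv w hvw π
      have h2 : log (W.valuation C (algebraMap K C (algebraMap k K π))) = (e : ℤ) * (e₀ * (-1)) := by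
        rw [← hfk, ← hBC, hval, hval₀, hπ, log_pow, log_pow, log_exp, nsmul_eq_mul, nsmul_eq_mul]
      rw [hval', log_pow, nsmul_eq_mul] at h2
      have h4 : (3 : ℤ) ∣ (e : ℤ) * (e₀ * (-1)) := by
        rw [← h2]
        exact Dvd.dvd.mul_left h1 _
      rcases Int.prime_three.dvd_or_dvd h4 with h5 | h5
      · exact Dvd.dvd.mul_right h5 _
      · omega
    · rw [hd V hvV, log_one, mul_zero]
      exact dvd_zero _

end H38T8
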