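import Pool.Agent.H38.T8.Uj
import Pool.Agent.H38.T8.Nd

/-!
Local solubility over fields contained in Galois fields of three-power degree (MP_78d38b_T8, helper38).
-/

set_option autoImplicit false
set_option linter.unusedSectionVars false
open scoped Classical

open WeierstrassCurve IsDedekindDomain NumberField WithZero Pool.Agent.H10 H55T3 H38T6 H86T3

namespace H38T8

/-- the places prime to three -/
theorem loc_not3g {K N : Type} [Field K] [NumberField K] [Field N] [NumberField N] [Algebra K N]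
    [IsGalois ℚ N] (hodd : Odd (Module.finrank ℚ N)) {C : Type} [Field C] [NumberField C]
    [Algebra K C] {D α β δ : ℤ} (H : Dat8 D α β) (hδ : δ = D ∨ δ = -3 * D) {s : C}
    (hs : s ^ 2 = (δ : C)) {κ : C ≃ₐ[K] C} (hκ : κ s = -s)
    (hspan : ∀ x : C, ∃ u v : K, x = algebraMap K C u + algebraMap K C v * s) {b : C}
    (hb : b = ((27 * β - 4 * D * α ^ 3 : ℤ) : C) / 243 ∨ b = (β : C) / 3) {c : C}
    (hc : c = 9 * b + 4 * (δ : C) * ((α : C) / 3) ^ 3)
    (hc' : c = ((27 * β - 4 * D * α ^ 3 : ℤ) : C) / 9 ∨ c = (β : C))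
    (W : HeightOneSpectrum (𝓞 C)) (h3 : ((3 : ℤ) : 𝓞 C) ∉ W.asIdeal) {d r : C} (hd : d ≠ 0)
    (hr : κ d * d = r ^ 3) (hv : (3 : ℤ) ∣ log (W.valuation C d)) :
    PtSol (algebraMap C (W.adicCompletion C) s) (algebraMap C (W.adicCompletion C) ((α : C) / 3))
      (algebraMap C (W.adicCompletion C) c) (algebraMap C (W.adicCompletion C) d) := by
  have v3 := pc_one W h3
  have e3 : (((3 : ℤ) : C)) = 3 := by norm_num
  rw [e3] at v3
  have hD0 : D ≠ 0 := by
    have := H.neg
    omega
  have h3D : ¬ (3 : ℤ) ∣ D := by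
    have := H.three
    omega
  by_cases hDW : (D : 𝓞 C) ∈ W.asIdeal
  · obtain ⟨q, hq, hqD, hqW⟩ := pc_prime hD0 W hDW
    obtain ⟨m, hm, hqm⟩ := pc_sqf H.sqf hq hqD
    have hq3 : q ≠ 3 := by
      rintro rfl
      exact h3D (by exact_mod_cast hqD)
    obtain ⟨m', hm', hqm'⟩ : ∃ m' : ℤ, δ = q * m' ∧ ¬ (q : ℤ) ∣ m' := by
      rcases hδ with rfl | rfl
      · exact ⟨m, hm, hqm⟩
      · refine ⟨-3 * m, by rw [hm]; ring, ?_⟩
        intro h
        rcases (Nat.prime_iff_prime_int.1 hq).dvd_or_dvd h with h | h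
        · apply hq3
          rw [dvd_neg] at h
          exact (Nat.prime_dvd_prime_iff_eq hq Nat.prime_three).1 (by exact_mod_cast h)
        · exact hqm h
    left
    refine cube_ram (K := K) (δ := (δ : K)) (by rw [hs, map_intCast]) hκ hspan W v3 ?_ ?_ hd hr
    · have := pc_le W 2
      exact_mod_cast this
    · intro u
      rw [hm']
      exact pc_ram (N := N) hodd W hq hqW hqm' u
  · have h2W : ((2 : ℤ) : 𝓞 C) ∉ W.asIdeal := by
      intro h
      apply hDW
      apply pc_mem_of_dvd W _ h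
      have := H.even
      omega
    have hne3 : ∀ q : ℕ, (q : 𝓞 C) ∈ W.asIdeal → q ≠ 3 := by
      rintro q hq rfl
      exact h3 (by exact_mod_cast hq)
    have hβW : (β : 𝓞 C) ∉ W.asIdeal := by
      intro h
      obtain ⟨q, hq, hqd, hqW⟩ := pc_prime H.hβ W h
      apply hDW
      exact pc_mem_of_dvd W (H.bad q hq (hne3 q hqW) (dvd_mul_of_dvd_left hqd _))
        (by exact_mod_cast hqW)
    have hγW : ((27 * β - 4 * D * α ^ 3 : ℤ) : 𝓞 C) ∉ W.asIdeal := by
      intro h
      have h0 : 27 * β - 4 * D * α ^ 3 ≠ 0 := by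
        intro h0
        apply H.gam
        rw [h0]
        exact dvd_zero _
      obtain ⟨q, hq, hqd, hqW⟩ := pc_prime h0 W h
      apply hDW
      exact pc_mem_of_dvd W (H.bad q hq (hne3 q hqW) (dvd_mul_of_dvd_right hqd _))
        (by exact_mod_cast hqW)
    have v2 := pc_one W h2W
    have e2 : (((2 : ℤ) : C)) = 2 := by norm_num
    rw [e2] at v2
    have vD := pc_one W hDW
    have vβ := pc_one W hβW
    have vγ := pc_one W hγW
    have v9 : W.valuation C 9 = 1 := by
      have : (9 : C) = 3 ^ 2 := by norm_num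
      rw [this, map_pow, v3, one_pow]
    have v243 : W.valuation C 243 = 1 := by
      have : (243 : C) = 3 ^ 5 := by norm_num
      rw [this, map_pow, v3, one_pow]
    rw [hc] at hc' ⊢
    refine ptSol_good W hs v2 v3 ?_ ?_ ?_ ?_ hd hv
    · rcases hδ with rfl | rfl
      · exact vD
      · push_cast
        rw [map_mul, Valuation.map_neg, v3, one_mul, vD]
    · rw [map_div₀, v3, div_one]
      exact pc_le W α
    · rcases hb with rfl | rfl
      · rw [map_div₀, v243, div_one, vγ]
      · rw [map_div₀, v3, div_one, vβ]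
    · rcases hc' with h | h
      · rw [h, map_div₀, v9, div_one, vγ]
      · rw [h, vβ]

/-- the local conditions at all places, first case -/
theorem loc_dualg {K N : Type} [Field K] [NumberField K] [Field N] [NumberField N] [Algebra K N]
    [IsGalois ℚ N] (hodd : Odd (Module.finrank ℚ N)) {C : Type} [Field C] [NumberField C]
    [Algebra K C] {D α β : ℤ} {s : C} {κ : C ≃ₐ[K] C} (H : Dat8 D α β) (Y : Qx D K C s κ)
    {d r : C} (hd : d ≠ 0)
    (hr : κ d * d = r ^ 3) (hv : ∀ W : HeightOneSpectrum (𝓞 C), (3 : ℤ) ∣ log (W.valuation C d))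
    (W : HeightOneSpectrum (𝓞 C)) :
    PtSol (algebraMap C (W.adicCompletion C) s) (algebraMap C (W.adicCompletion C) ((α : C) / 3))
      (algebraMap C (W.adicCompletion C) (β : C)) (algebraMap C (W.adicCompletion C) d) := by
  by_cases h3 : ((3 : ℤ) : 𝓞 C) ∈ W.asIdeal
  · have v3 := pc_lt W h3
    have e3 : (((3 : ℤ) : C)) = 3 := by norm_num
    rw [e3] at v3
    have h3' : ((3 : ℕ) : 𝓞 C) ∈ W.asIdeal := by exact_mod_cast h3
    have vD : W.valuation C (D : C) = 1 := by
      apply pc_one W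
      apply pc_notMem W Nat.prime_three h3'
      have := H.three
      push_cast
      omega
    have vs : W.valuation C s = 1 := by
      have h4 : W.valuation C s ^ 2 = 1 := by rw [← map_pow, Y.s2, vD]
      exact (pow_left_inj₀ zero_le zero_le two_ne_zero).1 (by rw [h4, one_pow])
    have vα : W.valuation C (α : C) = 1 := by
      apply pc_one W
      exact pc_notMem W Nat.prime_three h3' (by exact_mod_cast H.hα)
    have v2 : W.valuation C ((2 : ℤ) : C) = 1 := by
      apply pc_one W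
      apply pc_notMem W Nat.prime_three h3'
      norm_num
    have e2 : (((2 : ℤ) : C)) = 2 := by norm_num
    rw [e2] at v2
    have hconj : ∀ x, W.valuation C (κ x) = W.valuation C x := by
      intro x
      obtain ⟨u, v, rfl⟩ := Y.span x
      rw [map_add, map_mul, κ.commutes, κ.commutes, Y.gs]
      obtain ⟨w, e, he, -, hval, hmem⟩ := val_below (K := K) W
      have hw3 : (3 : 𝓞 K) ∈ w.asIdeal := by
        have h5 := (hmem 3).2 h3
        exact_mod_cast h5
      rw [conj_inert (K := K) (δ := (D : K)) (W.valuation C) (by rw [Y.s2, map_intCast]) vs ?_ u v]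
      · congr 1
        ring
      · intro u _
        rw [hval]
        exact one_le_pow₀ (no_sqrt (N := N) hodd H.three w hw3 u)
    refine ptSol_three (K := K) (κ := κ) W v3 v2 vs ?_ (pc_le W β) hconj hd hr
    have e4 : (3 : C) * ((α : C) / 3) = (α : C) := by field_simp
    rw [e4, vα]
  · refine loc_not3g (K := K) (N := N) hodd H (Or.inl rfl) Y.s2 Y.gs Y.span
      (b := ((27 * β - 4 * D * α ^ 3 : ℤ) : C) / 243) (Or.inl rfl) (c := (β : C)) ?_
      (Or.inr rfl) W h3 hd hr (hv W)
    push_cast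
    ring

/-- the primes which split -/
def Bad (D : ℤ) (q : ℕ) : Prop := q.Prime ∧ q ≠ 3 ∧ ¬ NonSplit q D

theorem nec_dualg {m : ℕ} {D α β : ℤ} (H : Dat8 D α β) {K N : Type} [Field K]
    [NumberField K] [Field N] [NumberField N] [Algebra K N] [IsGalois ℚ N]
    (hN : Module.finrank ℚ N = 3 ^ m) (hr : ∃ q, Bad D q ∧ RamIn q K) {V : WeierstrassCurve K}
    (hV : V = curVD (D : K) (α : K) (27 * (β : K) - 4 * (D : K) * (α : K) ^ 3))
    (hf : Finite V.toAffine.Point) (hS : NoSha3 K V) : False := by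
  have hodd : Odd (Module.finrank ℚ N) := by
    rw [hN]
    exact Odd.pow (by decide)
  have hnsq : ¬ IsSquare D := Gd_neg H.neg
  have hnsq3 : ¬ IsSquare (-3 * D) := Gd_nsq3 H.three
  obtain ⟨k, N1, _, _, _, _, _, _, m1, hG1, hN1, hun, q, v, hq, hqN, hqv, hv⟩ :=
    split_place hN (P := Bad D) (fun q h => h.1) hr
  obtain ⟨B, C1, _, _, _, _, _, _, _, _, _, _, s, κ1, T1⟩ := exists_tow m1 hnsq k N1 hN1
  have hnk : ∀ z : k, z ^ 2 ≠ (D : k) := by
    intro z hz
    apply Ea_nonsq m1 hnsq N1 hN1 (algebraMap k N1 z)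
    rw [← map_pow, hz, map_intCast]
  obtain ⟨g, X⟩ := qx_of T1.degB hnk T1.sq
  have hq2 : q ≠ 2 := by
    rintro rfl
    have := ram_one_mod_three hN hq.1 hq.2.1 hqN
    omega
  have nz : ∀ z : B, z ^ 2 + z + 1 ≠ 0 := by
    intro z hz
    apply no_zeta hnsq3 T1 (algebraMap B C1 z)
    rw [← map_pow, ← map_add, ← map_one (algebraMap B C1), ← map_add, hz, map_zero]
  obtain ⟨d₀, hd0, hn, hv0, -, hnc⟩ := exists_d X.gs X.gg X.s2 hq.1 hq2 hq.2.2 hqv nz
    (fun _ => True) (fun y hy => ⟨1, by rw [map_one, mul_one], fun W => map_one _, trivial⟩)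
  obtain ⟨C, _, _, _, _, t, κ, P⟩ := exists_pg (N := N) hnsq hnsq3 hN hv X
  obtain ⟨d, hd⟩ : ∃ d, d = algebraMap B C d₀ := ⟨_, rfl⟩
  have hdne : d ≠ 0 := by
    rw [hd]
    exact (map_ne_zero_iff _ (algebraMap B C).injective).2 hd0
  have hκd : κ d * d = 1 ^ 3 := by
    rw [hd, P.κg, ← map_mul, hn, map_one, one_pow]
  have hvd : ∀ W : HeightOneSpectrum (𝓞 C), (3 : ℤ) ∣ log (W.valuation C d) := by
    intro W
    rw [hd]
    exact P.val d₀ hv0 W
  have hD : (D : K) ≠ 0 := by
    have := H.neg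
    exact_mod_cast (by omega : D ≠ 0)
  have hβ : (β : K) ≠ 0 := by exact_mod_cast H.hβ
  have hγ : 27 * (β : K) - 4 * (D : K) * (α : K) ^ 3 ≠ 0 := by
    have h0 : 27 * β - 4 * D * α ^ 3 ≠ 0 := by
      intro h0
      apply H.gam
      rw [h0]
      exact dvd_zero _
    exact_mod_cast h0
  have hV3 := is3_VD (α := (α : K)) hD hβ hγ
  have hW3 := is3_WD' (α := (α : K)) hD hβ hγ
  rw [← hV] at hV3
  obtain ⟨δ, hδ⟩ := IsAlgClosed.exists_pow_nat_eq (jB K C d) (n := 3) (by norm_num)
  have hCD : CD V (D : K) (3 * (α : K)) (3 * (27 * (β : K) - 4 * (D : K) * (α : K) ^ 3)) t d κ 1 δ :=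
    ⟨hV3, by rw [P.xC.s2, map_intCast], P.xC.gs, P.xC.span, hdne, by rw [hκd, map_one], hδ⟩
  have hn3 : ∀ z : K, z ^ 2 ≠ -3 * (D : K) := by
    intro z hz
    apply Ea_nonsq m hnsq3 N hN (algebraMap K N z)
    rw [← map_pow, hz, map_mul, map_neg, map_ofNat, map_intCast]
    push_cast
    rfl
  have hdiv : Div3 K (curWD (D : K) (9 * (α : K)) (729 * (β : K))) :=
    div3_fin hV3 hW3 hn3 P.xC.nsq hf
  obtain ⟨y, hy⟩ := hCD.final P.xC.fin hW3 (fun W => by
    have h1 := loc_dualg (N := N) hodd H P.xC hdne hκd hvd W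
    have h2 := PtSol.scale (u := 1) (t := 9)
      (a := algebraMap C (W.adicCompletion C) (algebraMap K C (3 * (α : K))))
      (c' := algebraMap C (W.adicCompletion C) (algebraMap K C (9 * (3 * (27 * (β : K) -
        4 * (D : K) * (α : K) ^ 3)) + 4 * (D : K) * (3 * (α : K)) ^ 3))) ?_ ?_ ?_ h1
    · rw [one_mul] at h2
      exact h2
    · have hch : CharZero (W.adicCompletion C) := charZero_of_alg (K := C)
      norm_num
    · rw [one_mul]
      simp only [map_mul, map_div₀, map_ofNat, map_intCast]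
      have hch : CharZero (W.adicCompletion C) := charZero_of_alg (K := C)
      ring
    · rw [one_mul]
      simp only [map_mul, map_add, map_sub, map_pow, map_ofNat, map_intCast]
      ring) hS hdiv
  rw [hd] at hy
  obtain ⟨z, hz⟩ := P.down d₀ y hy
  exact hnc z hz

end H38T8
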