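import Pool.Agent.H38.T8.Uk
import Pool.Agent.H38.T8.Qc
import Pool.Agent.H38.T8.Np

/-!
A ramified split prime gives a nontrivial class over every field contained in a Galois field of
three-power degree: the curve with the etale kernel (MP_78d38b_T8, helper38).
-/

set_option autoImplicit false
set_option linter.unusedSectionVars false
open scoped Classical

open WeierstrassCurve IsDedekindDomain NumberField WithZero Pool.Agent.H10 H55T3 H38T6 H86T3

namespace H38T8

theorem lc3_cube {C : Type} [Field C] [NumberField C] {y : C} (h : LC3 y)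
    (W : HeightOneSpectrum (𝓞 C)) (hW : (3 : 𝓞 C) ∈ W.asIdeal) :
    ∃ r : W.adicCompletion C, algebraMap C (W.adicCompletion C) y = r ^ 3 := by
  have hch : CharZero (W.adicCompletion C) := charZero_of_alg (K := C)
  have v3 := val_three_lt W hW
  have h90 : W.valuation C (9 : C) ≠ 0 := by
    rw [Valuation.ne_zero_iff]
    norm_num
  have h91 : W.valuation C (9 : C) < 1 := by
    have e : (9 : C) = 3 * 3 := by norm_num
    rw [e, map_mul]
    exact mul_lt_one_of_nonneg_of_lt_one_left zero_le v3 v3.le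
  obtain ⟨j, hj⟩ : ∃ j : ℤ, W.valuation C (9 : C) = exp j := ⟨log (W.valuation C (9 : C)),
    (exp_log h90).symm⟩
  obtain ⟨z, hz⟩ := h (j.natAbs + 1)
  have h1 := hz W hW
  have h2 : W.valuation C (y * z ^ 3 - 1) < W.valuation C (9 : C) := by
    refine lt_of_le_of_lt h1 ?_
    rw [hj, exp_lt_exp]
    push_cast
    have := neg_abs_le j
    linarith
  have hz0 : z ≠ 0 := by
    rintro rfl
    rw [zero_pow three_ne_zero, mul_zero, zero_sub, Valuation.map_neg, map_one] at h2
    exact absurd h91 (not_lt.2 h2.le)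
  obtain ⟨x, hx⟩ : ∃ x, x = algebraMap C (W.adicCompletion C) (y * z ^ 3 - 1) := ⟨_, rfl⟩
  have e9 : (Valued.v (9 : W.adicCompletion C) : WithZero (Multiplicative ℤ)) =
      W.valuation C (9 : C) := by
    rw [← map_ofNat (algebraMap C (W.adicCompletion C)) 9, valued_algebraMap]
  have e3 : (Valued.v (3 : W.adicCompletion C) : WithZero (Multiplicative ℤ)) ≤ 1 := by
    rw [← map_ofNat (algebraMap C (W.adicCompletion C)) 3, valued_algebraMap]
    exact v3.le
  obtain ⟨t, -, ht⟩ := ad_hens W (-(x / 9)) 1 3 3 (by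
    rw [Valuation.map_neg, map_div₀, e9, hx, valued_algebraMap]
    rw [div_lt_one₀ (zero_lt_iff.2 h90)]
    exact h2) (map_one _) e3 e3
  have hz0' : algebraMap C (W.adicCompletion C) z ≠ 0 :=
    (map_ne_zero_iff _ (algebraMap C (W.adicCompletion C)).injective).2 hz0
  refine ⟨(1 + 3 * t) / algebraMap C (W.adicCompletion C) z, ?_⟩
  rw [div_pow, eq_div_iff (pow_ne_zero 3 hz0'), ← map_pow, ← map_mul]
  have h5 : algebraMap C (W.adicCompletion C) (y * z ^ 3) = 1 + x := by
    rw [hx, map_sub, map_one]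
    ring
  rw [h5]
  have h9 : (9 : W.adicCompletion C) ≠ 0 := by norm_num
  field_simp at ht
  linear_combination -ht

theorem nec_phig {m : ℕ} {D α β : ℤ} (H : Dat8 D α β) {K N : Type} [Field K]
    [NumberField K] [Field N] [NumberField N] [Algebra K N] [IsGalois ℚ N]
    (hN : Module.finrank ℚ N = 3 ^ m) (hr : ∃ q, Bad D q ∧ RamIn q K) {V : WeierstrassCurve K}
    (hV : V = curWD (D : K) (α : K) (β : K))
    (hf : Finite V.toAffine.Point) (hS : NoSha3 K V) : False := by
  have hodd : Odd (Module.finrank ℚ N) := by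
    rw [hN]
    exact Odd.pow (by decide)
  have hnsq : ¬ IsSquare D := Gd_neg H.neg
  have hnsq3 : ¬ IsSquare (-3 * D) := Gd_nsq3 H.three
  have hnsq9 : ¬ IsSquare (-3 * (-3 * D)) := by
    apply Gd_neg
    have := H.neg
    omega
  have h3D : ¬ (3 : ℤ) ∣ D := by
    have := H.three
    omega
  obtain ⟨k, N1, _, _, _, _, _, _, m1, hG1, hN1, hun, q, v, hq, hqN, hqv, hv⟩ :=
    split_place hN (P := Bad D) (fun q h => h.1) hr
  have hodd1 : Odd (Module.finrank ℚ N1) := by
    rw [hN1]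
    exact Odd.pow (by decide)
  obtain ⟨B, C1, _, _, _, _, _, _, _, _, _, _, s, κ1, T1⟩ := exists_tow m1 hnsq3 k N1 hN1
  have hnk : ∀ z : k, z ^ 2 ≠ ((-3 * D : ℤ) : k) := by
    intro z hz
    apply Ea_nonsq m1 hnsq3 N1 hN1 (algebraMap k N1 z)
    rw [← map_pow, hz, map_intCast]
  obtain ⟨g, X⟩ := qx_of T1.degB hnk T1.sq
  have hq1 := ram_one_mod_three hN hq.1 hq.2.1 hqN
  have hq2 : q ≠ 2 := by
    rintro rfl
    omega
  have nz : ∀ z : B, z ^ 2 + z + 1 ≠ 0 := by
    intro z hz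
    apply no_zeta hnsq9 T1 (algebraMap B C1 z)
    rw [← map_pow, ← map_add, ← map_one (algebraMap B C1), ← map_add, hz, map_zero]
  have hvg : ∀ W : HeightOneSpectrum (𝓞 B), (3 : 𝓞 B) ∈ W.asIdeal → ∀ x,
      W.valuation B (g x) = W.valuation B x := by
    intro W hW x
    obtain ⟨a, b, rfl⟩ := X.span x
    rw [map_add, map_mul, g.commutes, g.commutes, X.gs]
    have h1 := conj_ram (K := k) (δ := ((-3 * D : ℤ) : k)) (W.valuation B) (s := s)
      (by rw [X.s2, map_intCast]) (by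
        intro u
        have e : (-3 * D : ℤ) = ((3 : ℕ) : ℤ) * (-D) := by push_cast; ring
        rw [e]
        exact pc_ram (N := N1) hodd1 W Nat.prime_three (by exact_mod_cast hW)
          (by rw [dvd_neg]; exact_mod_cast h3D) u) a b
    rw [h1]
    congr 1
    ring
  have Q : Qd D k B s g := ⟨X.s2, X.gs, X.gg, X.span, hvg, H.three⟩
  have hk : Rl k := rl_sub (rl_gal hodd1)
  have hB : Rl B := rl_quad hk (δ := -3 * D) (by have := H.neg; omega) X.s2 X.span
  have hex : ∃ d₀ : B, d₀ ≠ 0 ∧ g d₀ * d₀ = 1 ∧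
      (∀ W : HeightOneSpectrum (𝓞 B), ¬ Ov k B v W → W.valuation B d₀ = 1) ∧ LC3 d₀ ∧
      ∀ z, d₀ ≠ z ^ 3 := by
    by_cases hT : ∀ y : B, y ≠ 0 → g y * y = 1 →
        (∀ W : HeightOneSpectrum (𝓞 B), W.valuation B y = 1) → LC3 y → ∃ z, y = z ^ 3
    · exact exists_d X.gs X.gg X.s2 hq.1 hq2 (fun h => hq.2.2 (split_twist hq.1 hq1 h)) hqv nz
        (fun y => LC3 y) (fun y hy => adj Q N1 hodd1 X.fin hk hB (fun y h => X.fix h) nz hT hy)
    · push Not at hT
      obtain ⟨y, h0, h1, h2, h3, h4⟩ := hT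
      exact ⟨y, h0, h1, fun W _ => h2 W, h3, h4⟩
  obtain ⟨d₀, hd0, hn, hv0, hL, hnc⟩ := hex
  obtain ⟨C, _, _, _, _, t, κ, P⟩ := exists_pg (N := N) hnsq3 hnsq9 hN hv X
  obtain ⟨d, hd⟩ : ∃ d, d = algebraMap B C d₀ := ⟨_, rfl⟩
  have hdne : d ≠ 0 := by
    rw [hd]
    exact (map_ne_zero_iff _ (algebraMap B C).injective).2 hd0
  have hκd : κ d * d = 1 ^ 3 := by
    rw [hd, P.κg, ← map_mul, hn, map_one, one_pow]
  have hvd : ∀ W : HeightOneSpectrum (𝓞 C), (3 : ℤ) ∣ log (W.valuation C d) := by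
    intro W
    rw [hd]
    exact P.val d₀ hv0 W
  have hLd : LC3 d := by
    rw [hd]
    exact lc3_up hL
  have hD : (D : K) ≠ 0 := by
    have := H.neg
    exact_mod_cast (by omega : D ≠ 0)
  have hβ : (β : K) ≠ 0 := by exact_mod_cast H.hβ
  have hγ : 27 * (β : K) - 4 * (D : K) * (α : K) ^ 3 ≠ 0 := by
    have h0 : 27 * β - 4 * D * α ^ 3 ≠ 0 := by
      intro h0
      apply H.gam
      rw [h0]
      exact dvd_zero _
    exact_mod_cast h0
  have hV3 := is3_WD (α := (α : K)) hD hβ hγ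
  have hW3 := is3_VD' (α := (α : K)) hD hβ hγ
  rw [← hV] at hV3
  have hs2 : t ^ 2 = -3 * (D : C) := by
    rw [P.xC.s2]
    push_cast
    rfl
  obtain ⟨δ, hδ⟩ := IsAlgClosed.exists_pow_nat_eq (jB K C d) (n := 3) (by norm_num)
  have hCD : CD V (-3 * (D : K)) ((α : K) / 3) ((β : K) / 3) t d κ 1 δ :=
    ⟨hV3, by rw [hs2, map_mul, map_neg, map_ofNat, map_intCast], P.xC.gs, P.xC.span, hdne,
      by rw [hκd, map_one], hδ⟩
  have h1 : ∀ z : K, z ^ 2 ≠ -3 * (D : K) := by
    intro z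
    have h2 := P.xC.nsq z
    push_cast at h2
    exact h2
  have h2 : ∀ z : K, z ^ 2 ≠ -3 * (-3 * (D : K)) := by
    intro z hz
    apply Ea_nonsq m hnsq9 N hN (algebraMap K N z)
    rw [← map_pow, hz, map_mul, map_mul, map_neg, map_ofNat, map_intCast]
    push_cast
    rfl
  have hdiv := div3_fin hV3 hW3 h2 h1 hf
  obtain ⟨y, hy⟩ := hCD.final P.xC.fin hW3 (fun W => by
    by_cases h3 : ((3 : ℤ) : 𝓞 C) ∈ W.asIdeal
    · left
      exact lc3_cube hLd W (by exact_mod_cast h3)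
    · have h4 := loc_not3g (K := K) (N := N) hodd H (Or.inr rfl) P.xC.s2 P.xC.gs P.xC.span
        (b := (β : C) / 3) (Or.inr rfl) (c := ((27 * β - 4 * D * α ^ 3 : ℤ) : C) / 9)
        (by push_cast; ring) (Or.inl rfl) W h3 hdne hκd (hvd W)
      have e1 : (α : C) / 3 = algebraMap K C ((α : K) / 3) := by
        rw [map_div₀, map_intCast, map_ofNat]
      have e2 : ((27 * β - 4 * D * α ^ 3 : ℤ) : C) / 9 = algebraMap K C (9 * ((β : K) / 3) +
          4 * (-3 * (D : K)) * ((α : K) / 3) ^ 3) := by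
        simp only [map_add, map_mul, map_neg, map_pow, map_div₀, map_intCast, map_ofNat]
        push_cast
        ring
      rw [e1, e2] at h4
      exact h4) hS hdiv
  rw [hd] at hy
  obtain ⟨z, hz⟩ := P.down d₀ y hy
  exact hnc z hz

end H38T8
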