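import Pool.Agent.H38.T8.Ul

/-!
The classes from the class group of the imaginary quadratic field (MP_78d38b_T8, helper38).
-/

set_option autoImplicit false
set_option linter.unusedSectionVars false
open scoped Classical

open WeierstrassCurve IsDedekindDomain NumberField WithZero Pool.Agent.H10 H55T3 H38T6 H86T3

namespace H38T8

theorem dual_core {m : ℕ} {D α β : ℤ} (H : Dat8 D α β) {K N : Type} [Field K]
    [NumberField K] [Field N] [NumberField N] [Algebra K N] [IsGalois ℚ N]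
    (hN : Module.finrank ℚ N = 3 ^ m) {C : Type} [Field C] [NumberField C] [Algebra K C] {t : C}
    {κ : C ≃ₐ[K] C} (Y : Qx D K C t κ) {d : C} (hdne : d ≠ 0) (hκd : κ d * d = 1 ^ 3)
    (hvd : ∀ W : HeightOneSpectrum (𝓞 C), (3 : ℤ) ∣ log (W.valuation C d))
    {V : WeierstrassCurve K}
    (hV : V = curVD (D : K) (α : K) (27 * (β : K) - 4 * (D : K) * (α : K) ^ 3))
    (hf : Finite V.toAffine.Point) (hS : NoSha3 K V) : ∃ y : C, d = y ^ 3 := by
  have hodd : Odd (Module.finrank ℚ N) := by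
    rw [hN]
    exact Odd.pow (by decide)
  have hnsq3 : ¬ IsSquare (-3 * D) := Gd_nsq3 H.three
  have hD : (D : K) ≠ 0 := by
    have := H.neg
    exact_mod_cast (by omega : D ≠ 0)
  have hβ : (β : K) ≠ 0 := by exact_mod_cast H.hβ
  have hγ : 27 * (β : K) - 4 * (D : K) * (α : K) ^ 3 ≠ 0 := by
    have h0 : 27 * β - 4 * D * α ^ 3 ≠ 0 := by
      intro h0
      apply H.gam
      rw [h0]
      exact dvd_zero _
    exact_mod_cast h0
  have hV3 := is3_VD (α := (α : K)) hD hβ hγ
  have hW3 := is3_WD' (α := (α : K)) hD hβ hγ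
  rw [← hV] at hV3
  obtain ⟨δ, hδ⟩ := IsAlgClosed.exists_pow_nat_eq (jB K C d) (n := 3) (by norm_num)
  have hCD : CD V (D : K) (3 * (α : K)) (3 * (27 * (β : K) - 4 * (D : K) * (α : K) ^ 3)) t d κ 1 δ :=
    ⟨hV3, by rw [Y.s2, map_intCast], Y.gs, Y.span, hdne, by rw [hκd, map_one], hδ⟩
  have hn3 : ∀ z : K, z ^ 2 ≠ -3 * (D : K) := by
    intro z hz
    apply Ea_nonsq m hnsq3 N hN (algebraMap K N z)
    rw [← map_pow, hz, map_mul, map_neg, map_ofNat, map_intCast]
    push_cast
    rfl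
  have hdiv : Div3 K (curWD (D : K) (9 * (α : K)) (729 * (β : K))) :=
    div3_fin hV3 hW3 hn3 Y.nsq hf
  exact hCD.final Y.fin hW3 (fun W => by
    have h1 := loc_dualg (N := N) hodd H Y hdne hκd hvd W
    have h2 := PtSol.scale (u := 1) (t := 9)
      (a := algebraMap C (W.adicCompletion C) (algebraMap K C (3 * (α : K))))
      (c' := algebraMap C (W.adicCompletion C) (algebraMap K C (9 * (3 * (27 * (β : K) -
        4 * (D : K) * (α : K) ^ 3)) + 4 * (D : K) * (3 * (α : K)) ^ 3))) ?_ ?_ ?_ h1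
    · rw [one_mul] at h2
      exact h2
    · have hch : CharZero (W.adicCompletion C) := charZero_of_alg (K := C)
      norm_num
    · rw [one_mul]
      simp only [map_mul, map_div₀, map_ofNat, map_intCast]
      have hch : CharZero (W.adicCompletion C) := charZero_of_alg (K := C)
      ring
    · rw [one_mul]
      simp only [map_mul, map_add, map_sub, map_pow, map_ofNat, map_intCast]
      ring) hS hdiv

lemma nat_cube {n : ℕ} (hn : n ≠ 0) (h : ∀ p, p.Prime → 3 ∣ n.factorization p) :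
    ∃ m : ℕ, n = m ^ 3 := by
  refine ⟨n.factorization.prod fun p e => p ^ (e / 3), ?_⟩
  conv_lhs => rw [← Nat.prod_factorization_pow_eq_self hn]
  rw [Finsupp.prod, Finsupp.prod, ← Finset.prod_pow]
  refine Finset.prod_congr rfl fun p hp => ?_
  have hpp : p.Prime := Nat.prime_of_mem_primeFactors (by rwa [Nat.support_factorization] at hp)
  rw [← pow_mul, Nat.div_mul_cancel (h p hpp)]

/-- a rational number with all valuations divisible by three is a cube, in a quadratic field -/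
theorem rat_cube {F : Type} [Field F] [NumberField F] (hF : Module.finrank ℚ F = 2) {x : ℚ}
    (hx : x ≠ 0) (h : ∀ v : HeightOneSpectrum (𝓞 F), (3 : ℤ) ∣ log (v.valuation F (x : F))) :
    ∃ z : ℚ, x = z ^ 3 := by
  obtain ⟨n, hn⟩ : ∃ n : ℤ, n = x.num * x.den ^ 2 := ⟨_, rfl⟩
  have hd0 : (x.den : ℚ) ≠ 0 := by exact_mod_cast x.den_ne_zero
  have hxn : x * (x.den : ℚ) ^ 3 = (n : ℚ) := by
    rw [hn]
    push_cast
    rw [← Rat.mul_den_eq_num x]
    ring
  have hn0 : n ≠ 0 := by
    rintro rfl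
    rw [Int.cast_zero] at hxn
    exact mul_ne_zero hx (pow_ne_zero 3 hd0) hxn
  obtain ⟨m, hm⟩ : ∃ m : ℕ, n.natAbs = m ^ 3 := by
    apply nat_cube (Int.natAbs_ne_zero.2 hn0)
    intro p hp
    obtain ⟨v, hv⟩ := ca_over (F := F) hp
    obtain ⟨k, hk⟩ : ∃ k, k = n.natAbs.factorization p := ⟨_, rfl⟩
    obtain ⟨n', hn'⟩ : ∃ n' : ℕ, n.natAbs = p ^ k * n' :=
      ⟨_, by rw [hk]; exact (Nat.ordProj_mul_ordCompl_eq_self n.natAbs p).symm⟩
    have hpn' : ¬ p ∣ n' := by
      intro hdv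
      have h1 : p ^ (k + 1) ∣ n.natAbs := by
        rw [hn', pow_succ]
        exact Nat.mul_dvd_mul_left _ hdv
      rw [hk] at h1
      exact Nat.pow_succ_factorization_not_dvd (Int.natAbs_ne_zero.2 hn0) hp h1
    have hvn : v.valuation F (n.natAbs : F) = v.valuation F (p : F) ^ k := by
      rw [hn']
      push_cast
      rw [map_mul, map_pow]
      have h2 : v.valuation F ((n' : ℤ) : F) = 1 := by
        apply pc_one v
        apply pc_notMem v hp hv
        exact_mod_cast hpn'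
      rw [Int.cast_natCast] at h2
      rw [h2, mul_one]
    have hvn' : v.valuation F (n.natAbs : F) = v.valuation F ((n : ℤ) : F) := by
      rcases Int.natAbs_eq n with h3 | h3
      · conv_rhs => rw [h3]
        rw [Int.cast_natCast]
      · conv_rhs => rw [h3]
        rw [Int.cast_neg, Valuation.map_neg, Int.cast_natCast]
    have h4 : v.valuation F ((n : ℤ) : F) = v.valuation F (x : F) * v.valuation F (x.den : F) ^ 3 := by
      rw [← map_pow, ← map_mul]
      congr 1
      have := congrArg (fun r : ℚ => (r : F)) hxn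
      push_cast at this
      exact this.symm
    have hx0 : (x : F) ≠ 0 := by exact_mod_cast hx
    have hdF : (x.den : F) ≠ 0 := by exact_mod_cast x.den_ne_zero
    have h5 := congrArg log (hvn.symm.trans (hvn'.trans h4))
    rw [log_pow, log_mul ((Valuation.ne_zero_iff _).2 hx0)
      (pow_ne_zero 3 ((Valuation.ne_zero_iff _).2 hdF)), log_pow, nsmul_eq_mul, nsmul_eq_mul] at h5
    have h6 : (3 : ℤ) ∣ (k : ℤ) * log (v.valuation F (p : F)) := by
      rw [h5]
      exact dvd_add (h v) ⟨_, by push_cast; rfl⟩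
    have h7 := (Int.prime_three.dvd_or_dvd h6).resolve_right (ca_two hF hp hv)
    rw [← hk]
    exact_mod_cast h7
  rcases Int.natAbs_eq n with h3 | h3
  · refine ⟨m / x.den, ?_⟩
    rw [div_pow, eq_div_iff (pow_ne_zero 3 hd0), hxn, h3, hm]
    push_cast
    rfl
  · refine ⟨-(m / x.den), ?_⟩
    rw [neg_pow, div_pow, mul_div_assoc', eq_div_iff (pow_ne_zero 3 hd0), hxn, h3, hm]
    push_cast
    ring

/-- class group classes -/
theorem nec_cl {m : ℕ} {D α β : ℤ} (H : Dat8 D α β) (hC : ¬ CubD D) {K N : Type} [Field K]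
    [NumberField K] [Field N] [NumberField N] [Algebra K N] [IsGalois ℚ N]
    (hN : Module.finrank ℚ N = 3 ^ m) {V : WeierstrassCurve K}
    (hV : V = curVD (D : K) (α : K) (27 * (β : K) - 4 * (D : K) * (α : K) ^ 3))
    (hf : Finite V.toAffine.Point) (hS : NoSha3 K V) : False := by
  have hnsq : ¬ IsSquare D := Gd_neg H.neg
  have hnsq3 : ¬ IsSquare (-3 * D) := Gd_nsq3 H.three
  unfold CubD Cub at hC
  push Not at hC
  obtain ⟨F, _, _, s, hs, hF, y, hy0, hyv, hyc⟩ := hC
  obtain ⟨g, X⟩ := qx_of (k := ℚ) hF (Gd_nsq hnsq) hs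
  obtain ⟨C, CN, iC, iC', iCN, iCN', a1, a2, a3, a4, a5, a6, t, κN, T⟩ := exists_tow m hnsq K N hN
  have hns : ∀ z : K, z ^ 2 ≠ (D : K) := by
    intro z hz
    apply Ea_nonsq m hnsq N hN (algebraMap K N z)
    rw [← map_pow, hz, map_intCast]
  obtain ⟨κ, Y⟩ := qx_of T.degB hns T.sq
  obtain ⟨f, hfs, hfk⟩ := X.emb (K := K) T.sq
  let iBC : Algebra F C := f.toAlgebra
  have hBC : ∀ y, algebraMap F C y = f y := fun _ => rfl
  have hgy : g y ≠ 0 := (map_ne_zero_iff g g.injective).2 hy0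
  have hfinj := f.injective
  have hκf : ∀ y, κ (f y) = f (g y) := by
    intro y
    obtain ⟨u, v, rfl⟩ := X.span y
    rw [map_add, map_mul, hfk, hfk, hfs, map_add, map_mul, κ.commutes, κ.commutes,
      Y.gs, map_add, map_mul, g.commutes, g.commutes, X.gs, map_add, map_mul, hfk, hfk, map_neg,
      hfs]
  obtain ⟨d₀, hd₀⟩ : ∃ d₀, d₀ = y / g y := ⟨_, rfl⟩
  have hd0 : d₀ ≠ 0 := by rw [hd₀]; exact div_ne_zero hy0 hgy
  have hn : g d₀ * d₀ = 1 := by
    rw [hd₀, map_div₀, X.gg, div_mul_div_comm, mul_comm, div_self (mul_ne_zero hy0 hgy)]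
  have hv : ∀ v : HeightOneSpectrum (𝓞 F), (3 : ℤ) ∣ log (v.valuation F d₀) := by
    intro v
    obtain ⟨v', hv', -⟩ := exists_conj (K := ℚ) g v
    rw [hd₀, map_div₀, hv', log_div ((Valuation.ne_zero_iff _).2 hy0)
      ((Valuation.ne_zero_iff _).2 hy0)]
    exact dvd_sub (hyv v) (hyv v')
  have hfd : f d₀ ≠ 0 := (map_ne_zero_iff f hfinj).2 hd0
  obtain ⟨z, hz⟩ := dual_core H hN Y (d := f d₀) hfd
    (by rw [hκf, ← map_mul, hn, map_one, one_pow]) (fun W => val_up (B := F) (C := C) hv W) hV hf hS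
  let iBN : Algebra F CN := ((algebraMap C CN).comp (algebraMap F C)).toAlgebra
  have hgal := T.galC
  have i2 : IsGalois F CN := IsGalois.tower_top_of_isGalois ℚ F CN
  have i3 : FiniteDimensional F CN := Module.Finite.of_restrictScalars_finite ℚ F CN
  obtain ⟨w, hw⟩ := cube_down (B := F) (C := CN) (fun z => no_zeta hnsq3 T z) (d := d₀)
    (z := algebraMap C CN z) (by
      rw [← map_pow, ← hz]
      rfl)
  -- the norm of `y` is a rational cube
  obtain ⟨a, b, hab⟩ := X.span y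
  obtain ⟨c, hc⟩ : ∃ c : ℚ, c = a ^ 2 - D * b ^ 2 := ⟨_, rfl⟩
  have hyc' : g y * y = (c : F) := by
    rw [hab, map_add, map_mul, g.commutes, g.commutes, X.gs, hc, eq_ratCast, eq_ratCast]
    push_cast
    rw [← X.s2]
    ring
  have hc0 : c ≠ 0 := by
    rintro rfl
    rw [Rat.cast_zero] at hyc'
    exact mul_ne_zero hgy hy0 hyc'
  obtain ⟨r, hr⟩ := rat_cube hF hc0 (by
    intro v
    obtain ⟨v', hv', -⟩ := exists_conj (K := ℚ) g v
    rw [← hyc', map_mul, hv', log_mul ((Valuation.ne_zero_iff _).2 hy0)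
      ((Valuation.ne_zero_iff _).2 hy0)]
    exact dvd_add (hyv v') (hyv v))
  apply hyc (w⁻¹ * ((r : F))⁻¹ * y)
  have hr0 : (r : F) ≠ 0 := by
    intro h0
    apply hc0
    rw [hr]
    have : r = 0 := by exact_mod_cast h0
    rw [this]
    norm_num
  have hw0 : w ≠ 0 := by
    rintro rfl
    rw [zero_pow three_ne_zero] at hw
    exact hd0 hw
  have h1 : y = w ^ 3 * g y := by
    rw [← hw, hd₀, div_mul_cancel₀ _ hgy]
  have h2 : g y * y = (r : F) ^ 3 := by
    rw [hyc', hr]
    push_cast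
    rfl
  rw [mul_pow, mul_pow, inv_pow, inv_pow]
  field_simp
  have h3 : y ^ 2 = w ^ 3 * (r : F) ^ 3 := by
    rw [← h2]
    conv_lhs => rw [pow_two]
    nth_rewrite 1 [h1]
    ring
  linear_combination -h3

end H38T8
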