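import Pool.Agent.H38.T8.Um

/-!
The class number of the imaginary quadratic field (MP_78d38b_T8, helper38).
-/

set_option autoImplicit false
set_option linter.unusedSectionVars false
open scoped Classical

open IsDedekindDomain NumberField WithZero H38T6

namespace H38T8

section

variable {F : Type} [Field F] [NumberField F]

/-- an integer with all valuations divisible by three generates a cube -/
lemma ideal_cube {x : 𝓞 F} (hx : x ≠ 0)
    (h : ∀ v : HeightOneSpectrum (𝓞 F), (3 : ℤ) ∣ log (v.valuation F (x : F))) :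
    ∃ J : Ideal (𝓞 F), Ideal.span {x} = J ^ 3 := by
  have hI : Ideal.span {x} ≠ (0 : Ideal (𝓞 F)) := by
    rw [Ne, Ideal.zero_eq_bot, Ideal.span_singleton_eq_bot]
    exact hx
  have hI' : Associates.mk (Ideal.span {x} : Ideal (𝓞 F)) ≠ 0 := Associates.mk_ne_zero.2 hI
  obtain ⟨b, hb⟩ := Associates.is_pow_of_dvd_count (k := 3) hI' (by
    intro p hp
    obtain ⟨P, rfl⟩ := Associates.mk_surjective p
    have hP : Irreducible P := Associates.irreducible_mk.1 hp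
    have hPp : Prime P := hP.prime
    have hP0 : P ≠ ⊥ := hPp.ne_zero
    have hPI : P.IsPrime := Ideal.isPrime_of_prime hPp
    let v : HeightOneSpectrum (𝓞 F) := ⟨P, hPI, hP0⟩
    have h1 := h v
    have h2 : v.valuation F (x : F) = v.intValuation x :=
      HeightOneSpectrum.valuation_of_algebraMap v x
    rw [h2, HeightOneSpectrum.intValuation_if_neg v hx, log_exp, dvd_neg] at h1
    exact_mod_cast h1)
  obtain ⟨J, rfl⟩ := Associates.mk_surjective b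
  refine ⟨J, ?_⟩
  rw [← Associates.mk_pow, Associates.mk_eq_mk_iff_associated, associated_iff_eq] at hb
  exact hb

lemma log_cube {x : 𝓞 F} {J : Ideal (𝓞 F)} (hx : x ≠ 0) (h : Ideal.span {x} = J ^ 3)
    (v : HeightOneSpectrum (𝓞 F)) : (3 : ℤ) ∣ log (v.valuation F (x : F)) := by
  have h2 : v.valuation F (x : F) = v.intValuation x :=
    HeightOneSpectrum.valuation_of_algebraMap v x
  have hJ : J ≠ 0 := by
    rintro rfl
    rw [zero_pow three_ne_zero, Ideal.zero_eq_bot, Ideal.span_singleton_eq_bot] at h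
    exact hx h
  rw [h2, HeightOneSpectrum.intValuation_if_neg v hx, log_exp, h, dvd_neg, Associates.mk_pow,
    Associates.count_pow (Associates.mk_ne_zero.2 hJ) v.associates_irreducible]
  exact ⟨_, by push_cast; rfl⟩

lemma gen_cube {x y : 𝓞 F} {J : Ideal (𝓞 F)} (h : Ideal.span {x} = J ^ 3) (hxy : x = y ^ 3) :
    Ideal.span {y} = J := by
  have h2 : Ideal.span {y} ^ 3 = J ^ 3 := by
    rw [Ideal.span_singleton_pow, ← hxy, h]
  apply le_antisymm
  · rw [← Ideal.dvd_iff_le]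
    exact (UniqueFactorizationMonoid.pow_dvd_pow_iff_dvd three_ne_zero).1 (dvd_of_eq h2.symm)
  · rw [← Ideal.dvd_iff_le]
    exact (UniqueFactorizationMonoid.pow_dvd_pow_iff_dvd three_ne_zero).1 (dvd_of_eq h2)

theorem cl_of_cub (hC : Cub F) : ¬ 3 ∣ classNumber F := by
  intro h
  have h3 : Fact (Nat.Prime 3) := ⟨Nat.prime_three⟩
  have hcard : 3 ∣ Fintype.card (ClassGroup (𝓞 F)) := h
  obtain ⟨c, hc⟩ := exists_prime_orderOf_dvd_card 3 hcard
  obtain ⟨⟨J, hJ⟩, rfl⟩ := ClassGroup.mk0_surjective c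
  have hJ0 : J ≠ 0 := nonZeroDivisors.ne_zero hJ
  have h1 : ClassGroup.mk0 (⟨J, hJ⟩ ^ 3 : nonZeroDivisors (Ideal (𝓞 F))) = 1 := by
    rw [map_pow, ← hc, pow_orderOf_eq_one]
  have h2 := (ClassGroup.mk0_eq_one_iff (I := J ^ 3) (pow_mem hJ 3)).1 h1
  obtain ⟨⟨x, hx⟩⟩ := h2
  have hx' : Ideal.span {x} = J ^ 3 := hx.symm
  have hx0 : x ≠ 0 := by
    rintro rfl
    have h5 : J ^ 3 = ⊥ := by
      rw [← hx']
      simp
    exact pow_ne_zero 3 hJ0 h5
  have hxF : (x : F) ≠ 0 := RingOfIntegers.coe_ne_zero_iff.mpr hx0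
  obtain ⟨z, hz⟩ := hC (x : F) hxF (log_cube hx0 hx')
  have hint : IsIntegral ℤ z := by
    apply IsIntegral.of_pow (n := 3) (by norm_num)
    rw [← hz]
    exact x.2
  obtain ⟨y, hy⟩ : ∃ y : 𝓞 F, (y : F) = z := ⟨⟨z, hint⟩, rfl⟩
  have hxy : x = y ^ 3 := by
    apply RingOfIntegers.coe_injective
    change (x : F) = ((y ^ 3 : 𝓞 F) : F)
    rw [hz, ← hy]
    rfl
  have h4 := gen_cube hx' hxy
  have h5 : ClassGroup.mk0 (⟨J, hJ⟩ : nonZeroDivisors (Ideal (𝓞 F))) = 1 := by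
    rw [ClassGroup.mk0_eq_one_iff]
    exact ⟨⟨y, h4.symm⟩⟩
  rw [h5, orderOf_one] at hc
  omega

theorem cub_of_cl (hcl : ¬ 3 ∣ classNumber F) (hu : ∀ u : (𝓞 F)ˣ, ∃ w : (𝓞 F)ˣ, u = w ^ 3) :
    Cub F := by
  intro y hy hv
  obtain ⟨c, hc0, hc⟩ := exists_integral_multiples ℤ ℚ ({y} : Finset F)
  replace hc := hc y (Finset.mem_singleton_self y)
  have hcF : (c : F) ≠ 0 := Int.cast_ne_zero.2 hc0
  have hint : IsIntegral ℤ (y * (c : F) ^ 3) := by
    have h1 : c • y = (c : F) * y := zsmul_eq_mul _ _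
    rw [h1] at hc
    have h2 : y * (c : F) ^ 3 = (c : F) * y * (c : F) ^ 2 := by ring
    rw [h2]
    exact hc.mul ((isIntegral_algebraMap (x := c)).pow 2)
  obtain ⟨x, hx⟩ : ∃ x : 𝓞 F, (x : F) = y * (c : F) ^ 3 := ⟨⟨_, hint⟩, rfl⟩
  have hxF : (x : F) ≠ 0 := by
    rw [hx]
    exact mul_ne_zero hy (pow_ne_zero 3 hcF)
  have hx0 : x ≠ 0 := RingOfIntegers.coe_ne_zero_iff.mp hxF
  obtain ⟨J, hJ⟩ := ideal_cube hx0 (by
    intro v
    rw [hx, map_mul, map_pow, log_mul ((Valuation.ne_zero_iff _).2 hy)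
      (pow_ne_zero 3 ((Valuation.ne_zero_iff _).2 hcF)), log_pow, nsmul_eq_mul]
    exact dvd_add (hv v) ⟨_, by push_cast; rfl⟩)
  have hJ0 : J ≠ 0 := by
    rintro rfl
    rw [zero_pow three_ne_zero, Ideal.zero_eq_bot, Ideal.span_singleton_eq_bot] at hJ
    exact hx0 hJ
  have hJm : J ∈ nonZeroDivisors (Ideal (𝓞 F)) := mem_nonZeroDivisors_of_ne_zero hJ0
  have h1 : ClassGroup.mk0 (⟨J, hJm⟩ : nonZeroDivisors (Ideal (𝓞 F))) ^ 3 = 1 := by
    rw [← map_pow]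
    apply (ClassGroup.mk0_eq_one_iff (I := J ^ 3) (pow_mem hJm 3)).2
    exact ⟨⟨x, hJ.symm⟩⟩
  have h2 : ClassGroup.mk0 (⟨J, hJm⟩ : nonZeroDivisors (Ideal (𝓞 F))) = 1 := by
    have h3 : orderOf (ClassGroup.mk0 (⟨J, hJm⟩ : nonZeroDivisors (Ideal (𝓞 F)))) ∣ 3 :=
      orderOf_dvd_of_pow_eq_one h1
    rcases (Nat.dvd_prime Nat.prime_three).1 h3 with h4 | h4
    · exact orderOf_eq_one_iff.1 h4
    · exfalso
      apply hcl
      have h5 : orderOf (ClassGroup.mk0 (⟨J, hJm⟩ : nonZeroDivisors (Ideal (𝓞 F)))) ∣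
          Fintype.card (ClassGroup (𝓞 F)) := orderOf_dvd_card
      rw [h4] at h5
      exact h5
  rw [ClassGroup.mk0_eq_one_iff] at h2
  obtain ⟨⟨z, hz⟩⟩ := h2
  have hz' : J = Ideal.span {z} := hz
  rw [hz', Ideal.span_singleton_pow, Ideal.span_singleton_eq_span_singleton] at hJ
  obtain ⟨u, hu'⟩ := hJ
  obtain ⟨w, hw⟩ := hu u
  have hxw : x * ((w : 𝓞 F)) ^ 3 = z ^ 3 := by
    rw [← hu', hw, Units.val_pow_eq_pow_val]
  have hw0 : ((w : 𝓞 F) : F) ≠ 0 := RingOfIntegers.coe_ne_zero_iff.mpr w.ne_zero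
  refine ⟨(z : F) / (((w : 𝓞 F) : F) * (c : F)), ?_⟩
  have h6 : (x : F) * ((w : 𝓞 F) : F) ^ 3 = (z : F) ^ 3 := by
    have := congrArg (algebraMap (𝓞 F) F) hxw
    rw [map_mul, map_pow, map_pow] at this
    exact this
  rw [div_pow, eq_div_iff (pow_ne_zero 3 (mul_ne_zero hw0 hcF)), ← h6, hx]
  ring

end

end H38T8
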