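import Pool.Agent.H38.T8.Un

/-!
The units of the imaginary quadratic field; the criterion (MP_78d38b_T8, helper38).
-/

set_option autoImplicit false
set_option linter.unusedSectionVars false
open scoped Classical

open IsDedekindDomain NumberField WithZero Pool.Agent.H10 H55T3 H38T6

namespace H38T8

theorem nz_F {F : Type} [Field F] [NumberField F] {D : ℤ} (h3 : ¬ IsSquare (-3 * D)) {s : F}
    {g : F ≃ₐ[ℚ] F} (X : Qx D ℚ F s g) (z : F) : z ^ 2 + z + 1 ≠ 0 := by
  intro hz
  have h1 : (2 * z + 1) ^ 2 = -3 := by linear_combination 4 * hz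
  obtain ⟨a, b, hab⟩ := X.span (2 * z + 1)
  rw [hab] at h1
  have h2 : algebraMap ℚ F (a ^ 2 + b ^ 2 * D) + algebraMap ℚ F (2 * a * b) * s =
      algebraMap ℚ F (-3) + algebraMap ℚ F 0 * s := by
    simp only [map_add, map_mul, map_pow, map_intCast, map_ofNat, map_neg, map_zero]
    linear_combination h1 - (algebraMap ℚ F b) ^ 2 * X.s2
  obtain ⟨e1, e2⟩ := X.uniq h2
  rcases mul_eq_zero.1 e2 with h4 | h4
  · have ha : a = 0 := by linarith
    rw [ha] at e1
    apply Gd_nsq h3 (b * D)
    push_cast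
    linear_combination (D : ℚ) * e1
  · rw [h4] at e1
    nlinarith [sq_nonneg a]

theorem units_cube {F : Type} [Field F] [NumberField F] {D : ℤ} (hD : D < 0)
    (h3 : ¬ IsSquare (-3 * D)) {s : F} {g : F ≃ₐ[ℚ] F} (X : Qx D ℚ F s g) (u : (𝓞 F)ˣ) :
    ∃ w : (𝓞 F)ˣ, u = w ^ 3 := by
  have hreal : InfinitePlace.nrRealPlaces F = 0 := by
    unfold InfinitePlace.nrRealPlaces
    rw [Fintype.card_eq_zero_iff]
    constructor
    rintro ⟨w, hw⟩
    rw [InfinitePlace.isReal_iff, ComplexEmbedding.isReal_iff] at hw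
    have h1 : (starRingEnd ℂ) (w.embedding s) = w.embedding s :=
      congrArg (fun f : F →+* ℂ => f s) hw
    obtain ⟨r, hr⟩ := Complex.conj_eq_iff_real.1 h1
    have h2 : w.embedding s ^ 2 = (D : ℂ) := by rw [← map_pow, X.s2, map_intCast]
    rw [hr] at h2
    have h4 : r ^ 2 = (D : ℝ) := by exact_mod_cast h2
    have h5 : (D : ℝ) < 0 := by exact_mod_cast hD
    nlinarith [sq_nonneg r]
  have hrank : NumberField.Units.rank F = 0 := by
    have h2 := InfinitePlace.card_eq_nrRealPlaces_add_nrComplexPlaces F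
    have h4 := InfinitePlace.card_add_two_mul_card_eq_rank F
    rw [X.fin] at h4
    unfold NumberField.Units.rank
    omega
  have htor : ∀ u : (𝓞 F)ˣ, u ∈ NumberField.Units.torsion F := by
    intro u
    obtain ⟨⟨ζ, e⟩, h, -⟩ := NumberField.Units.exist_unique_eq_mul_prod F u
    have h1 : (∏ i : Fin (NumberField.Units.rank F), (NumberField.Units.fundSystem F i) ^ e i) = 1 := by
      apply Finset.prod_eq_one
      intro i _
      exact absurd i.2 (by omega)
    change u = ζ * ∏ i, (NumberField.Units.fundSystem F i) ^ e i at h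
    rw [h1, mul_one] at h
    rw [h]
    exact ζ.2
  have hfin : Finite (𝓞 F)ˣ :=
    Finite.of_injective (fun u => (⟨u, htor u⟩ : NumberField.Units.torsion F))
      (fun u v h => congrArg Subtype.val h)
  have hinj : Function.Injective (fun w : (𝓞 F)ˣ => w ^ 3) := by
    intro a b hab
    have hab' : a ^ 3 = b ^ 3 := hab
    have h1 : (a / b) ^ 3 = 1 := by rw [div_pow, hab', div_self']
    have h2 : (((a / b : (𝓞 F)ˣ) : 𝓞 F) : F) ^ 3 = 1 := by
      have h4 : ((a / b : (𝓞 F)ˣ) : 𝓞 F) ^ 3 = 1 := by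
        rw [← Units.val_pow_eq_pow_val, h1, Units.val_one]
      have h5 := congrArg (algebraMap (𝓞 F) F) h4
      rw [map_pow, map_one] at h5
      exact h5
    have h4 := cube_one (nz_F h3 X) h2
    have h5 : a / b = 1 := by
      apply Units.ext
      apply RingOfIntegers.coe_injective
      rw [Units.val_one]
      refine Eq.trans h4 ?_
      exact (map_one (algebraMap (𝓞 F) F)).symm
    exact div_eq_one.1 h5
  obtain ⟨w, hw⟩ := (Finite.injective_iff_surjective.1 hinj) u
  exact ⟨w, hw.symm⟩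

/-- the class number of the quadratic field of `D` is prime to three -/
def Cl3 (D : ℤ) : Prop := ∀ (F : Type) [Field F] [NumberField F] (s : F), s ^ 2 = (D : F) →
  Module.finrank ℚ F = 2 → ¬ 3 ∣ classNumber F

theorem cl3_iff {D : ℤ} (hD : D < 0) (h3 : D % 3 = 2) : Cl3 D ↔ CubD D := by
  constructor
  · intro h F _ _ s hs hF
    obtain ⟨g, X⟩ := qx_of (k := ℚ) hF (Gd_nsq (Gd_neg hD)) hs
    exact cub_of_cl (h F s hs hF) (units_cube hD (Gd_nsq3 h3) X)
  · intro h F _ _ s hs hF
    exact cl_of_cub (h F s hs hF)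

end H38T8
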