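import Pool.Agent.H38.T8.Uo
import Pool.Agent.H38.T8.Qd

/-!
The criterion (MP_78d38b_T8, helper38).
-/

set_option autoImplicit false
set_option linter.unusedSectionVars false
open scoped Classical

open WeierstrassCurve IsDedekindDomain NumberField Pool.Agent.H10 H55T3 H38T6

namespace H38T8

section

variable {m : ℕ} {D α β : ℤ} {K N : Type} [Field K] [NumberField K] [Field N] [NumberField N]
  [Algebra K N] [IsGalois ℚ N]

theorem suff8 (H : Dat8 D α β) (hC : CubD D) (hN : Module.finrank ℚ N = 3 ^ m)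
    (hun : ∀ q, Bad D q → ¬ RamIn q K) (E : WeierstrassCurve K)
    (hE : E = curWD (D : K) (α : K) (β : K) ∨
      E = curVD (D : K) (α : K) (27 * (β : K) - 4 * (D : K) * (α : K) ^ 3)) :
    Finite E.toAffine.Point ∧ NoSha3 K E := by
  obtain ⟨N1, _, _, m1, hG, hN1, hr, hf⟩ := unr_field (K := K) hN (P := Bad D) (fun q h => h.1)
  obtain ⟨f⟩ := hf hun
  let _ : Algebra K N1 := f.toAlgebra
  refine main_K8 (N := N1) hN1 H hC ?_ E hE
  intro l hl hl3 hlr
  by_contra hns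
  exact hr l ⟨hl, hl3, hns⟩ hlr

/-- the first curve -/
theorem iff_V (H : Dat8 D α β) (hN : Module.finrank ℚ N = 3 ^ m) {E : WeierstrassCurve K}
    (hE : E = curVD (D : K) (α : K) (27 * (β : K) - 4 * (D : K) * (α : K) ^ 3)) :
    (Finite E.toAffine.Point ∧ NoSha3 K E) ↔ CubD D ∧ ∀ q, Bad D q → ¬ RamIn q K := by
  constructor
  · rintro ⟨h1, h2⟩
    constructor
    · by_contra hC
      exact nec_cl H hC hN hE h1 h2
    · intro q hq hr
      exact nec_dualg H hN ⟨q, hq, hr⟩ hE h1 h2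
  · rintro ⟨hC, hun⟩
    exact suff8 H hC hN hun E (Or.inr hE)

/-- the second curve -/
theorem imp_W (H : Dat8 D α β) (hN : Module.finrank ℚ N = 3 ^ m) {E : WeierstrassCurve K}
    (hE : E = curWD (D : K) (α : K) (β : K)) (h : Finite E.toAffine.Point ∧ NoSha3 K E) (q : ℕ)
    (hq : Bad D q) : ¬ RamIn q K :=
  fun hr => nec_phig H hN ⟨q, hq, hr⟩ hE h.1 h.2

end

lemma dat8_of {d a b n : ℤ} (h3 : ¬ (3 : ℤ) ∣ a * d) (hb : b ≠ 0) (hneg : d * n < 0)
    (hsq : Squarefree (d * n)) (h12 : (d * n) % 12 = 2)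
    (hbad : ∀ q : ℕ, q.Prime → q ≠ 3 → (q : ℤ) ∣ b * (27 * b - 4 * d * a ^ 3) →
      (q : ℤ) ∣ d * n) : Dat8 (d * n) a (b * n) := by
  obtain ⟨ha, hd⟩ := h3_parts' h3
  have hn0 : n ≠ 0 := by
    rintro rfl
    rw [mul_zero] at hneg
    exact lt_irrefl _ hneg
  refine ⟨hneg, hsq, by omega, by omega, ha, mul_ne_zero hb hn0, ?_⟩
  intro q hq hq3 h
  have hqp : Prime (q : ℤ) := Nat.prime_iff_prime_int.1 hq
  have e1 : b * n * (27 * (b * n) - 4 * (d * n) * a ^ 3) =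
      b * (27 * b - 4 * d * a ^ 3) * n ^ 2 := by ring
  rw [e1] at h
  rcases hqp.dvd_or_dvd h with h1 | h1
  · exact hbad q hq hq3 h1
  · exact (hqp.dvd_of_dvd_pow h1).mul_left d

end H38T8
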